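import Pool.Graph.R_seed8.H729R2.Lim

open scoped ContDiff
open Set MeasureTheory Filter Topology
open Pool.Agent.H729R2

namespace Pool.Agent.KS6_88.TV

noncomputable section

/-- bounded almost everywhere convergence on a set -/
structure BA (A : Set X) (F : ℕ → X → ℝ) (f : X → ℝ) : Prop where
  cont : ∀ n, Continuous (F n)
  bdd : ∃ C : ℝ, 0 ≤ C ∧ ∀ n, ∀ z ∈ A, |F n z| ≤ C
  lim : ∀ᵐ z ∂(volume.restrict A : Measure X), Tendsto (fun n => F n z) atTop (𝓝 (f z))

variable {A : Set X} {F G : ℕ → X → ℝ} {f g : X → ℝ}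

lemma BA.of_BT (hA : MeasurableSet A) (h : BT A F f) : BA A F f :=
  ⟨h.cont, h.bdd, (ae_restrict_iff' hA).2 (Eventually.of_forall fun z hz => h.lim z hz)⟩

lemma BA.add (hF : BA A F f) (hG : BA A G g) : BA A (fun n z => F n z + G n z)
    (fun z => f z + g z) := by
  refine ⟨fun n => (hF.cont n).add (hG.cont n), ?_, ?_⟩
  · obtain ⟨C, h0, h⟩ := hF.bdd
    obtain ⟨C', h0', h'⟩ := hG.bdd
    exact ⟨C + C', by positivity, fun n z hz =>
      (abs_add_le _ _).trans (add_le_add (h n z hz) (h' n z hz))⟩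
  · filter_upwards [hF.lim, hG.lim] with z h1 h2
    exact h1.add h2

lemma BA.neg (hF : BA A F f) : BA A (fun n z => - F n z) (fun z => - f z) := by
  refine ⟨fun n => (hF.cont n).neg, ?_, ?_⟩
  · obtain ⟨C, h0, h⟩ := hF.bdd
    exact ⟨C, h0, fun n z hz => by rw [abs_neg]; exact h n z hz⟩
  · filter_upwards [hF.lim] with z h1
    exact h1.neg

lemma BA.mul (hF : BA A F f) (hG : BA A G g) : BA A (fun n z => F n z * G n z)
    (fun z => f z * g z) := by
  refine ⟨fun n => (hF.cont n).mul (hG.cont n), ?_, ?_⟩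
  · obtain ⟨C, h0, h⟩ := hF.bdd
    obtain ⟨C', h0', h'⟩ := hG.bdd
    refine ⟨C * C', by positivity, fun n z hz => ?_⟩
    rw [abs_mul]
    exact mul_le_mul (h n z hz) (h' n z hz) (abs_nonneg _) h0
  · filter_upwards [hF.lim, hG.lim] with z h1 h2
    exact h1.mul h2

lemma BA.const (hA : IsCompact A) (hf : Continuous f) : BA A (fun _ => f) f :=
  BA.of_BT hA.measurableSet (BT.const hA hf)

lemma BA.sum {ι : Type} (s : Finset ι) {F : ι → ℕ → X → ℝ} {f : ι → X → ℝ}
    (h : ∀ i ∈ s, BA A (F i) (f i)) :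
    BA A (fun n z => ∑ i ∈ s, F i n z) (fun z => ∑ i ∈ s, f i z) := by
  classical
  induction s using Finset.induction_on with
  | empty =>
    exact ⟨fun n => by simpa using continuous_const, ⟨0, le_rfl, fun n z _ => by simp⟩,
      Eventually.of_forall fun z => by simp⟩
  | insert i s hi ih =>
    simp only [Finset.sum_insert hi]
    exact (h i (Finset.mem_insert_self i s)).add
      (ih fun j hj => h j (Finset.mem_insert_of_mem hj))

lemma BA.mono {B : Set X} (h : BA A F f) (hB : B ⊆ A) : BA B F f := by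
  obtain ⟨C, h0, hC⟩ := h.bdd
  exact ⟨h.cont, ⟨C, h0, fun n z hz => hC n z (hB hz)⟩, ae_restrict_of_ae_restrict_of_subset hB
    h.lim⟩

lemma BA.congr_lim {f' : X → ℝ} (h : BA A F f)
    (hf : ∀ᵐ z ∂(volume.restrict A : Measure X), f z = f' z) : BA A F f' := by
  refine ⟨h.cont, h.bdd, ?_⟩
  filter_upwards [h.lim, hf] with z h1 h2
  rw [← h2]; exact h1

lemma BA.aesm (h : BA A F f) : AEStronglyMeasurable f (volume.restrict A : Measure X) :=
  aestronglyMeasurable_of_tendsto_ae _ (fun n => (h.cont n).aestronglyMeasurable) h.lim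

/-- reciprocals -/
lemma BA.inv (h : BA A F f) (hF : ∀ n z, 1 / 2 ≤ F n z) :
    BA A (fun n z => 1 / F n z) (fun z => 1 / f z) := by
  refine ⟨fun n => continuous_const.div (h.cont n) fun z => by linarith [hF n z],
    ⟨2, by norm_num, fun n z _ => ?_⟩, ?_⟩
  · have := hF n z
    rw [abs_of_nonneg (by positivity), div_le_iff₀ (by linarith)]
    linarith
  · filter_upwards [h.lim] with z hz
    have : 1 / 2 ≤ f z := ge_of_tendsto' hz fun n => hF n z
    exact tendsto_const_nhds.div hz (by linarith)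

lemma BA.bound (h : BA A F f) : ∃ C : ℝ, 0 ≤ C ∧ (∀ n, ∀ z ∈ A, |F n z| ≤ C) ∧
    (MeasurableSet A → ∀ᵐ z ∂(volume.restrict A : Measure X), |f z| ≤ C) := by
  obtain ⟨C, h0, hC⟩ := h.bdd
  refine ⟨C, h0, hC, fun hA => ?_⟩
  filter_upwards [h.lim, ae_restrict_mem hA] with z h1 h2
  exact le_of_tendsto' h1.abs fun n => hC n z h2

lemma BA.int (hA : IsCompact A) (h : BA A F f) :
    Tendsto (fun n => ∫ z in A, F n z) atTop (𝓝 (∫ z in A, f z)) := by
  obtain ⟨C, h0, hC⟩ := h.bdd
  refine tendsto_integral_of_dominated_convergence (fun _ => C)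
    (fun n => (h.cont n).aestronglyMeasurable) ?_ (fun n => ?_) h.lim
  · exact integrableOn_const hA.measure_lt_top.ne
  · exact (ae_restrict_iff' hA.measurableSet).2 (Eventually.of_forall fun z hz => hC n z hz)

lemma BA.intL2 (hA : IsCompact A) (h : BA A F f) {G : ℕ → X → ℝ} {g : X → ℝ}
    (hG : ∀ n, MemLp (G n) 2 (volume : Measure X)) (hg : MemLp g 2 (volume : Measure X))
    (ht : Tendsto (fun n => n2 (fun z => G n z - g z)) atTop (𝓝 0)) :
    Tendsto (fun n => ∫ z in A, F n z * G n z) atTop (𝓝 (∫ z in A, f z * g z)) := by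
  obtain ⟨C, h0, hC⟩ := h.bdd
  have hgi : IntegrableOn g A := by
    have : Integrable (fun z => A.indicator (fun _ => (1:ℝ)) z * g z) :=
      (memLp_ind hA).integrable_mul hg
    refine (integrable_indicator_iff hA.measurableSet).1 (this.congr
      (Eventually.of_forall fun z => ?_))
    by_cases hz : z ∈ A <;> simp [hz]
  have hbi : ∀ {u : X → ℝ} {n : ℕ}, IntegrableOn u A → IntegrableOn (fun z => F n z * u z) A := by
    intro u n hu
    refine Integrable.bdd_mul (c := C) hu (h.cont n).aestronglyMeasurable ?_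
    exact (ae_restrict_iff' hA.measurableSet).2 (Eventually.of_forall fun z hz => hC n z hz)
  -- first part
  have t1 : Tendsto (fun n => ∫ z in A, F n z * (G n z - g z)) atTop (𝓝 0) := by
    refine squeeze_zero_norm (a := fun n => C * vK A * n2 (fun z => G n z - g z)) (fun n => ?_) ?_
    · exact cs_bound hA ((hG n).sub hg) h0 (hC n)
    · have := ht.const_mul (C * vK A)
      simpa using this
  have t2 : Tendsto (fun n => ∫ z in A, F n z * g z) atTop (𝓝 (∫ z in A, f z * g z)) := by
    refine tendsto_integral_of_dominated_convergence (fun z => C * |g z|)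
      (fun n => (h.cont n).aestronglyMeasurable.mul hgi.aestronglyMeasurable)
      (hgi.abs.const_mul C) (fun n => ?_) ?_
    · refine (ae_restrict_iff' hA.measurableSet).2 (Eventually.of_forall fun z hz => ?_)
      rw [norm_mul, Real.norm_eq_abs, Real.norm_eq_abs]
      exact mul_le_mul_of_nonneg_right (hC n z hz) (abs_nonneg _)
    · filter_upwards [h.lim] with z hz
      exact hz.mul_const _
  have t3 := t1.add t2
  rw [zero_add] at t3
  refine t3.congr fun n => ?_
  have hGi : IntegrableOn (G n) A := by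
    have : Integrable (fun z => A.indicator (fun _ => (1:ℝ)) z * G n z) :=
      (memLp_ind hA).integrable_mul (hG n)
    refine (integrable_indicator_iff hA.measurableSet).1 (this.congr
      (Eventually.of_forall fun z => ?_))
    by_cases hz : z ∈ A <;> simp [hz]
  have hsub : IntegrableOn (fun z => G n z - g z) A := hGi.sub hgi
  rw [← integral_add (hbi hsub) (hbi hgi)]
  refine integral_congr_ae (Eventually.of_forall fun z => ?_)
  beta_reduce
  ring

end

end Pool.Agent.KS6_88.TV
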