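import Pool.Agent.KS6_88.TV.Mint

open scoped ContDiff
open Set MeasureTheory Filter Topology
open Pool.Agent.H729R2

namespace Pool.Agent.KS6_88.TV

noncomputable section

set_option linter.unusedSectionVars false
set_option linter.unusedVariables false

variable {S : St} {k : Fin 3 → ℝ} {ζ : X → ℝ} {h ε lam T₀ : ℝ} {K₀ : Set X}

/-- the model of the new density of the size -/
def PN (S : St) (k : Fin 3 → ℝ) (ζ : X → ℝ) (h ε lam B : ℝ) (χ : X → ℝ) (N : ℕ) (z : X) : ℝ :=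
  ∑ i, (S.gp i z + (pnt S k ζ h ε lam N z).W i) ^ 2 + B * χ z

namespace Req

variable (H : Req S k ζ h ε lam T₀ K₀)
include H

lemma U_zero {z : X} (hz : z ∉ K₀) : Uf S k ζ h ε lam z = 0 :=
  image_eq_zero_of_notMem_tsupport fun h' => hz (H.htK (H.Uf_tsupport h'))

lemma V_zero {z : X} (hz : z ∉ K₀) : Vf S k ζ h ε lam z = 0 :=
  image_eq_zero_of_notMem_tsupport fun h' => hz (H.htK (H.Vf_tsupport h'))

lemma W_zero (N : ℕ) {z : X} (hz : z ∉ K₀) (i : Fin 3) : (pnt S k ζ h ε lam N z).W i = 0 := by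
  rw [H.pnt_W, H.U_zero hz, H.V_zero hz]
  ring

lemma W_cont (N : ℕ) (i : Fin 3) : Continuous fun z => (pnt S k ζ h ε lam N z).W i := by
  have h1 := H.Ufs.continuous
  have h2 := H.Vfs.continuous
  have h3 := (phx_smooth k).continuous
  have h4 := H.phys.continuous
  have h5 := (H.xis i).continuous
  simp only [H.pnt_W]
  fun_prop

lemma W_B1 (i : Fin 3) : B1 K₀ (fun N z => (pnt S k ζ h ε lam N z).W i) := by
  have h1 : B1 K₀ (fun N z => Uf S k ζ h ε lam z * Real.cos (N * phx k z) * k i) :=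
    ((B1.const H.hK H.Ufs.continuous).mul (B1.cos (fun N z => N * phx k z))).mul (B1.real (k i))
  have h2 : B1 K₀ (fun N z => Vf S k ζ h ε lam z * Real.cos (N * phy S.u k z) * xi S k i z) :=
    ((B1.const H.hK H.Vfs.continuous).mul (B1.cos (fun N z => N * phy S.u k z))).mul
      (B1.const H.hK (H.xis i).continuous)
  exact (h1.add h2).congr fun N _ z _ => H.pnt_W N z i

/-- the squared size of `W` -/
lemma W_sq_le (N : ℕ) (z : X) : ‖(pnt S k ζ h ε lam N z).W‖ ^ 2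
    ≤ 9 / 4 / (ε ^ 2 * h ^ 2) * (vv S h z ^ 2 * nv (er S lam) z ^ 2) := by
  have hε := H.ε0
  have hh := H.h0
  by_cases hz : z ∈ K₀
  · have h1 := (H.pnt_ok N (H.hKT hz)).W_sq
    rw [H.pnt_e] at h1
    have h2 : (pnt S k ζ h ε lam N z).a1 ^ 2 + (pnt S k ζ h ε lam N z).a2 ^ 2
        = ε ^ 2 * h ^ 2 * ww S h z := by
      have e1 : (pnt S k ζ h ε lam N z).a1 = ε * h * om h (S.R1 z) := rfl
      have e2 : (pnt S k ζ h ε lam N z).a2 = ε * h * om h (S.R2 z) := rfl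
      rw [e1, e2]
      unfold ww; ring
    rw [h2] at h1
    have h3 : ‖vec fun i => er S lam i z‖ = nv (er S lam) z := rfl
    rw [h3] at h1
    have hw := H.sok.wwp z
    rw [H.sok.vv_sq]
    have e3 : 9 / 4 / (ε ^ 2 * h ^ 2) * (1 / ww S h z * nv (er S lam) z ^ 2)
        = (9 / 4 * nv (er S lam) z ^ 2) / (ε ^ 2 * h ^ 2 * ww S h z) := by
      field_simp
    rw [e3, le_div_iff₀ (by positivity)]
    exact h1
  · have : (pnt S k ζ h ε lam N z).W = 0 := by
      ext i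
      simpa using H.W_zero N hz i
    rw [this, norm_zero, zero_pow two_ne_zero]
    positivity

end Req

namespace Mic

variable {w : ℕ → Fin 3 → X → ℝ} {π : ℕ → X → ℝ} {C : ℝ}
variable (H : Req S k ζ h ε lam T₀ K₀) (m : Mic S k ζ h ε lam w π C)
include H m

lemma gp_zero' {N : ℕ} (hN : 1 ≤ N) {z : X} (hz : z ∉ K₀) (i : Fin 3) :
    (nst S k ζ h ε lam (w N) (π N) N).gp i z = 0 := by
  rw [m.gp_eq H hN, H.good.gp_zero hz, H.W_zero N hz,
    D_eq_zero_of_notMem _ fun h' => hz (H.htK (H.Uf_tsupport h')),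
    D_eq_zero_of_notMem _ fun h' => hz (H.htK (H.Vf_tsupport h'))]
  ring

lemma gp_sq_close (B : ℝ) (χ : X → ℝ) : ∃ C' : ℝ, 0 ≤ C' ∧ ∀ N : ℕ, 1 ≤ N → ∀ z,
    |JJ (nst S k ζ h ε lam (w N) (π N) N) B χ z - PN S k ζ h ε lam B χ N z| ≤ C' / N := by
  have hb : ∀ i, B1 K₀ (fun N z => S.gp i z + (pnt S k ζ h ε lam N z).W i) := fun i =>
    (B1.const H.hK (H.good.gps i).continuous).add (H.W_B1 i)
  have hc : ∀ i, O1 K₀ (fun N z => (nst S k ζ h ε lam (w N) (π N) N).gp i z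
    - (S.gp i z + (pnt S k ζ h ε lam N z).W i)) := fun i => m.gp_close H i
  have hb' : ∀ i, B1 K₀ (fun N z => (nst S k ζ h ε lam (w N) (π N) N).gp i z
    + (S.gp i z + (pnt S k ζ h ε lam N z).W i)) := fun i =>
    (((hc i).toB1.add (hb i)).add (hb i)).congr fun N _ z _ => by ring
  have hs : O1 K₀ (fun N z => ∑ i, ((nst S k ζ h ε lam (w N) (π N) N).gp i z
    - (S.gp i z + (pnt S k ζ h ε lam N z).W i)) * ((nst S k ζ h ε lam (w N) (π N) N).gp i z
    + (S.gp i z + (pnt S k ζ h ε lam N z).W i))) := O1.sum Finset.univ fun i _ =>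
    (hc i).mul (hb' i)
  obtain ⟨C', h0, hC'⟩ := hs
  refine ⟨C', h0, fun N hN z => ?_⟩
  have e1 : JJ (nst S k ζ h ε lam (w N) (π N) N) B χ z - PN S k ζ h ε lam B χ N z
      = ∑ i, ((nst S k ζ h ε lam (w N) (π N) N).gp i z
    - (S.gp i z + (pnt S k ζ h ε lam N z).W i)) * ((nst S k ζ h ε lam (w N) (π N) N).gp i z
    + (S.gp i z + (pnt S k ζ h ε lam N z).W i)) := by
    unfold JJ PN
    rw [nv_sq, add_sub_add_right_eq_sub, ← Finset.sum_sub_distrib]
    refine Finset.sum_congr rfl fun i _ => by ring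
  rw [e1]
  by_cases hz : z ∈ K₀
  · exact hC' N hN z hz
  · have : ∀ i, ((nst S k ζ h ε lam (w N) (π N) N).gp i z
        - (S.gp i z + (pnt S k ζ h ε lam N z).W i)) = 0 := by
      intro i
      rw [m.gp_zero' H hN hz, H.good.gp_zero hz, H.W_zero N hz]
      ring
    simp only [this, zero_mul, Finset.sum_const_zero, abs_zero]
    positivity

end Mic

end

end Pool.Agent.KS6_88.TV
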