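import Pool.Agent.KS6_88.TV.Evol

open scoped ContDiff
open Set MeasureTheory Filter Topology
open Pool.Agent.H729R2

namespace Pool.Agent.KS6_88.TV

noncomputable section

set_option linter.unusedSectionVars false
set_option linter.unusedVariables false

/-- the pointwise inequality behind the evolution of the weighted size -/
lemma point_evol {ε th σ c J g2 gW W2 : ℝ} (hε : 0 < ε) (hε1 : ε ≤ 1 / 100) (th0 : 0 ≤ th)
    (hth1 : th ≤ 1) (hσ : |σ| ≤ 1) (hc : |c| ≤ 1) (hJ : g2 ≤ J) (hg2 : 0 ≤ g2) (hW2 : 0 ≤ W2)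
    (hgW : gW ^ 2 ≤ g2 * W2) :
    th * (1 - ε * σ * c - 1 / 2 * ε ^ 2 * c ^ 2 + 3 * ε ^ 3) * (J + 2 * gW + W2)
      ≤ (1 - ε ^ 2 / 8) * (th * J) + 66 * W2 + 2 * th * gW - ε * (th * σ * J) * c
        - 1 / 4 * ε ^ 2 * (th * J) * (2 * c ^ 2 - 1) := by
  set μ : ℝ := 1 - ε * σ * c - 1 / 2 * ε ^ 2 * c ^ 2 + 3 * ε ^ 3 with hμ
  have hσc : |σ * c| ≤ 1 := by
    rw [abs_mul]
    calc |σ| * |c| ≤ 1 * 1 := mul_le_mul hσ hc (abs_nonneg _) (by norm_num)
      _ = 1 := by norm_num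
  have s1 := (abs_le.1 hσc).1
  have s2 := (abs_le.1 hσc).2
  have hc2 : c ^ 2 ≤ 1 := by
    rw [← sq_abs]; nlinarith [abs_nonneg c]
  have hε2 : ε ^ 2 ≤ ε / 100 := by nlinarith
  have hε3 : ε ^ 3 ≤ ε ^ 2 / 100 := by
    have : ε ^ 3 = ε ^ 2 * ε := by ring
    rw [this]; nlinarith [sq_nonneg ε]
  have hε3' : 0 < ε ^ 3 := by positivity
  have q0 : 0 ≤ ε ^ 2 * c ^ 2 := by positivity
  have q1 : ε ^ 2 * c ^ 2 ≤ ε ^ 2 := by nlinarith [sq_nonneg ε]
  have t1 : -(ε) ≤ ε * σ * c := by nlinarith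
  have t2 : ε * σ * c ≤ ε := by nlinarith
  have hμ1 : |μ - 1| ≤ 2 * ε := by
    rw [abs_le, hμ]
    constructor
    · nlinarith
    · nlinarith
  have hμ2 : μ ≤ 102 / 100 := by linarith [(abs_le.1 hμ1).2]
  have hμ3 : 0 ≤ μ := by linarith [(abs_le.1 hμ1).1]
  -- the mixed term
  have m1 : 2 * th * (μ - 1) * gW ≤ th * (ε ^ 2 / 16 * g2 + 64 * W2) := by
    have h1 : |(μ - 1) * gW| ≤ 2 * ε * √(g2 * W2) := by
      rw [abs_mul]
      refine mul_le_mul hμ1 ?_ (abs_nonneg _) (by positivity)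
      exact Real.abs_le_sqrt hgW
    have h2 : 2 * ε * √(g2 * W2) ≤ (ε ^ 2 / 16 * g2 + 64 * W2) / 2 := by
      rw [Real.sqrt_mul hg2]
      have a1 := Real.sq_sqrt hg2
      have a2 := Real.sq_sqrt hW2
      nlinarith [sq_nonneg (ε / 4 * √g2 - 8 * √W2), Real.sqrt_nonneg g2, Real.sqrt_nonneg W2]
    have h3 : (μ - 1) * gW ≤ (ε ^ 2 / 16 * g2 + 64 * W2) / 2 := (le_abs_self _).trans (h1.trans h2)
    have h4 := mul_le_mul_of_nonneg_left h3 th0
    nlinarith
  have m2 : th * μ * W2 ≤ 2 * W2 := by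
    have : th * μ ≤ 1 * (102 / 100) := mul_le_mul hth1 hμ2 hμ3 (by norm_num)
    nlinarith
  have m3 : th * (64 * W2) ≤ 64 * W2 := by nlinarith
  have m4 : th * (ε ^ 2 / 16 * g2) ≤ th * (ε ^ 2 / 16 * J) := by
    refine mul_le_mul_of_nonneg_left ?_ th0
    exact mul_le_mul_of_nonneg_left hJ (by positivity)
  have m5 : 3 * ε ^ 3 * (th * J) ≤ ε ^ 2 / 16 * (th * J) := by
    have : 0 ≤ th * J := mul_nonneg th0 (hg2.trans hJ)
    refine mul_le_mul_of_nonneg_right ?_ this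
    linarith [sq_nonneg ε]
  have e1 : th * μ * (J + 2 * gW + W2) = th * J - ε * (th * σ * J) * c
      - 1 / 2 * ε ^ 2 * c ^ 2 * (th * J) + 3 * ε ^ 3 * (th * J) + 2 * th * gW
      + 2 * th * (μ - 1) * gW + th * μ * W2 := by
    rw [hμ]; ring
  rw [e1]
  have e2 : - 1 / 2 * ε ^ 2 * c ^ 2 * (th * J) = - 1 / 4 * ε ^ 2 * (th * J) * (2 * c ^ 2 - 1)
    - 1 / 4 * ε ^ 2 * (th * J) := by ring
  nlinarith

variable {S : St} {k : Fin 3 → ℝ} {ζ : X → ℝ} {h ε lam T₀ : ℝ} {K₀ : Set X}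

namespace Req

variable (H : Req S k ζ h ε lam T₀ K₀)
include H

lemma phx_nd : ∀ z ∈ slab T₀, ∑ i, k i ^ 2 ≤ ∑ j, (D (ev j) (phx k) z) ^ 2 := by
  intro z _
  simp only [D_phx]
  exact le_rfl

lemma phy_nd : ∀ z ∈ slab T₀, 1 / 2 * ∑ i, k i ^ 2 ≤ ∑ j, (D (ev j) (phy S.u k) z) ^ 2 := by
  intro z hz
  simp only [H.D_phy']
  have h1 := H.xk z hz
  have h2 : ‖vec k‖ ≤ ‖vec (fun i => xi S k i z)‖ + ‖vec (fun i => xi S k i z) - vec k‖ := by
    have : vec k = vec (fun i => xi S k i z) - (vec (fun i => xi S k i z) - vec k) := by abel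
    calc ‖vec k‖ = ‖vec (fun i => xi S k i z) - (vec (fun i => xi S k i z) - vec k)‖ := by
          rw [← this]
      _ ≤ _ := norm_sub_le _ _
  have h3 : 99 / 100 * ‖vec k‖ ≤ ‖vec (fun i => xi S k i z)‖ := by linarith
  have h4 : ‖vec k‖ ^ 2 = ∑ i, k i ^ 2 := by
    rw [EuclideanSpace.norm_sq_eq]; simp
  have h5 : ‖vec (fun i => xi S k i z)‖ ^ 2 = ∑ j, xi S k j z ^ 2 := by
    rw [EuclideanSpace.norm_sq_eq]; simp
  rw [← h4, ← h5]
  nlinarith [norm_nonneg (vec k)]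

end Req

/-- the requirements on a weight and its phase -/
structure Wt (th σ φ : X → ℝ) (T₀ c₀ : ℝ) : Prop where
  ths : ContDiff ℝ ∞ th
  σs : ContDiff ℝ ∞ σ
  φs : ContDiff ℝ ∞ φ
  th0 : ∀ z, 0 ≤ th z
  th1 : ∀ z, th z ≤ 1
  σ1 : ∀ z, |σ z| ≤ 1
  c0 : 0 < c₀
  nd : ∀ z ∈ slab T₀, c₀ ≤ ∑ j, (D (ev j) φ z) ^ 2

/-- requirements on the cutoff -/
structure Ct (χ : X → ℝ) (T₀ B : ℝ) : Prop where
  s : ContDiff ℝ ∞ χ
  c : HasCompactSupport χ
  t : tsupport χ ⊆ slab T₀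
  p : ∀ z, 0 ≤ χ z
  B0 : 0 ≤ B

lemma Wt.two {th σ φ : X → ℝ} {c₀ : ℝ} (W : Wt th σ φ T₀ c₀) :
    ∀ z ∈ slab T₀, 4 * c₀ ≤ ∑ j, (D (ev j) (fun z => 2 * φ z) z) ^ 2 := by
  intro z hz
  have h1 := W.nd z hz
  have : ∀ j, D (ev j) (fun z => 2 * φ z) z = 2 * D (ev j) φ z := by
    intro j
    rw [D_const_mul W.φs]
  simp only [this, mul_pow, ← Finset.mul_sum]
  linarith

lemma JJs {B : ℝ} {χ : X → ℝ} (hg : Good K₀ S) (hχ : ContDiff ℝ ∞ χ) :
    ContDiff ℝ ∞ (JJ S B χ) := by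
  have : JJ S B χ = fun z => ∑ i, S.gp i z ^ 2 + B * χ z := by
    ext z
    unfold JJ
    rw [nv_sq]
  rw [this]
  exact (ContDiff.sum fun i _ => (hg.gps i).pow 2).add (contDiff_const.mul hχ)

namespace Mic

variable {w : ℕ → Fin 3 → X → ℝ} {π : ℕ → X → ℝ} {C : ℝ}

/-- evolution of a weighted size -/
lemma evol (H : Req S k ζ h ε lam T₀ K₀) (m : Mic S k ζ h ε lam w π C) {th σ φ : X → ℝ} {c₀ : ℝ}
    (Wth : Wt th σ φ T₀ c₀) {χ : X → ℝ} {B : ℝ} (Cχ : Ct χ T₀ B) {δ : ℝ} (hδ : 0 < δ) :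
    ∃ η > 0, ∃ N₀ : ℕ, ∀ N ≥ N₀, 1 ≤ N → ∀ thn : X → ℝ, Continuous thn →
      (∀ z ∈ K₀ ∪ tsupport χ, thn z ≤ th z * (1 - ε * σ z * Real.cos (N * φ z)
        - 1 / 2 * ε ^ 2 * Real.cos (N * φ z) ^ 2 + 3 * ε ^ 3) + η) →
      ∫ z, thn z * JJ (nst S k ζ h ε lam (w N) (π N) N) B χ z ≤
        (1 - ε ^ 2 / 8) * (∫ z, th z * JJ S B χ z) + 150 / (ε ^ 2 * h ^ 2) * EE S h lam ^ 2
          + δ := by
  have hε := H.ε0
  have hh := H.h0
  obtain ⟨CΔ, CΔ0, hΔ⟩ := m.gp_sq_close H B χ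
  set K₁ : Set X := K₀ ∪ tsupport χ with hK₁
  have hK₁c : IsCompact K₁ := H.hK.union Cχ.c
  have hK₁s : K₁ ⊆ slab T₀ := union_subset H.hKT Cχ.t
  have hJs : ContDiff ℝ ∞ (JJ S B χ) := JJs H.good Cχ.s
  have hJ0 : ∀ z, z ∉ K₁ → JJ S B χ z = 0 := by
    intro z hz
    simp only [hK₁, mem_union, not_or] at hz
    unfold JJ
    rw [H.sok.ng0 hz.1, image_eq_zero_of_notMem_tsupport hz.2]
    ring
  have hJp : ∀ z, 0 ≤ JJ S B χ z := fun z =>
    add_nonneg (sq_nonneg _) (mul_nonneg Cχ.B0 (Cχ.p z))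
  have hJt : ∀ {f : X → ℝ}, (∀ z, JJ S B χ z = 0 → f z = 0) → tsupport f ⊆ K₁ := by
    intro f hf
    refine closure_minimal (fun z hz => ?_) hK₁c.isClosed
    by_contra hcon
    exact hz (hf z (hJ0 z hcon))
  have hcs : ∀ {f : X → ℝ}, tsupport f ⊆ K₁ → HasCompactSupport f := fun hf =>
    HasCompactSupport.of_support_subset_isCompact hK₁c (subset_closure.trans hf)
  -- RL
  obtain ⟨C1, hC1⟩ := rl_space (T₀ := T₀) (g := fun z => th z * σ z * JJ S B χ z) (θ := φ)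
    ((Wth.ths.mul Wth.σs).mul hJs) (hcs (hJt fun z hz => by simp [hz]))
    ((hJt fun z hz => by simp [hz]).trans hK₁s) Wth.φs Wth.c0 Wth.nd
  obtain ⟨C2, hC2⟩ := rl_space (T₀ := T₀) (g := fun z => th z * JJ S B χ z)
    (θ := fun z => 2 * φ z)
    (Wth.ths.mul hJs) (hcs (hJt fun z hz => by simp [hz]))
    ((hJt fun z hz => by simp [hz]).trans hK₁s) (contDiff_const.mul Wth.φs)
    (c₀ := 4 * c₀) (by linarith [Wth.c0]) Wth.two
  set gk : X → ℝ := fun z => ∑ i, S.gp i z * k i with hgk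
  set gx : X → ℝ := fun z => ∑ i, S.gp i z * xi S k i z with hgx
  have hgks : ContDiff ℝ ∞ gk := ContDiff.sum fun i _ => (H.good.gps i).mul contDiff_const
  have hgxs : ContDiff ℝ ∞ gx := ContDiff.sum fun i _ => (H.good.gps i).mul (H.xis i)
  have hts : ∀ {f : X → ℝ}, (∀ z, z ∉ K₀ → f z = 0) → tsupport f ⊆ K₁ := by
    intro f hf
    refine closure_minimal (fun z hz => ?_) hK₁c.isClosed
    by_contra hcon
    exact hz (hf z fun h' => hcon (Or.inl h'))
  obtain ⟨C3, hC3⟩ := rl_space (T₀ := T₀) (g := fun z => 2 * th z * (gk z * Uf S k ζ h ε lam z))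
    (θ := phx k) ((contDiff_const.mul Wth.ths).mul (hgks.mul H.Ufs))
    (hcs (hts fun z hz => by simp [H.U_zero hz]))
    ((hts fun z hz => by simp [H.U_zero hz]).trans hK₁s) (phx_smooth k) H.κpos H.phx_nd
  obtain ⟨C4, hC4⟩ := rl_space (T₀ := T₀) (g := fun z => 2 * th z * (gx z * Vf S k ζ h ε lam z))
    (θ := phy S.u k) ((contDiff_const.mul Wth.ths).mul (hgxs.mul H.Vfs))
    (hcs (hts fun z hz => by simp [H.V_zero hz]))
    ((hts fun z hz => by simp [H.V_zero hz]).trans hK₁s) H.phys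
    (c₀ := 1 / 2 * ∑ i, k i ^ 2) (by have := H.κpos; linarith) H.phy_nd
  -- bounds of the model
  have hbW : ∀ i, B1 K₀ (fun N z => S.gp i z + (pnt S k ζ h ε lam N z).W i) := fun i =>
    (B1.const H.hK (H.good.gps i).continuous).add (H.W_B1 i)
  obtain ⟨CP, CP0, hCP⟩ : ∃ CP : ℝ, 0 ≤ CP ∧ ∀ N : ℕ, 1 ≤ N → ∀ z, z ∈ K₁ →
      |PN S k ζ h ε lam B χ N z| ≤ CP := by
    have h1 : B1 K₀ (fun N z => ∑ i, (S.gp i z + (pnt S k ζ h ε lam N z).W i)
      * (S.gp i z + (pnt S k ζ h ε lam N z).W i)) :=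
      B1.sum Finset.univ fun i _ => (hbW i).mul (hbW i)
    obtain ⟨c1, c10, hc1⟩ := h1
    obtain ⟨c2, hc2⟩ := bounded_on hK₁c (f := fun z => B * χ z)
      (continuous_const.mul Cχ.s.continuous)
    refine ⟨c1 + |c2|, by positivity, fun N hN z hz => ?_⟩
    unfold PN
    refine (abs_add_le _ _).trans (add_le_add ?_ ((hc2 z hz).trans (le_abs_self _)))
    by_cases hz0 : z ∈ K₀
    · have := hc1 N hN z hz0
      simpa [sq] using this
    · have : ∀ i, S.gp i z + (pnt S k ζ h ε lam N z).W i = 0 := fun i => by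
        rw [H.good.gp_zero hz0, H.W_zero N hz0, add_zero]
      simp only [this]
      simpa using c10
  -- constants
  set vK : ℝ := (volume K₁).toReal with hvK
  have vK0 : 0 ≤ vK := ENNReal.toReal_nonneg
  set η : ℝ := δ / (4 * (CP + CΔ + 1) * (vK + 1)) with hη
  have η0 : 0 < η := by positivity
  have hηb : η * (CP + CΔ) * vK ≤ δ / 4 := by
    have h1 : η * (4 * (CP + CΔ + 1) * (vK + 1)) = δ := by
      rw [hη]; field_simp
    have h2 : (CP + CΔ) * vK ≤ (CP + CΔ + 1) * (vK + 1) :=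
      mul_le_mul (by linarith) (by linarith) vK0 (by positivity)
    nlinarith
  refine ⟨η, η0, ?_⟩
  obtain ⟨N₁, hN₁⟩ := exists_nat_gt ((2 * CΔ * vK + ε * |C1| + ε ^ 2 * |C2| + |C3| + |C4|)
    / (δ / 2))
  refine ⟨N₁, fun N hN hN1 thn hthn hle => ?_⟩
  have hNr : (1:ℝ) ≤ N := by exact_mod_cast hN1
  have hNN : (N₁:ℝ) ≤ N := by exact_mod_cast hN
  have hNb : (2 * CΔ * vK + ε * |C1| + ε ^ 2 * |C2| + |C3| + |C4|) / N ≤ δ / 2 := by
    rw [div_le_iff₀ (by linarith)]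
    rw [div_lt_iff₀ (by positivity)] at hN₁
    nlinarith
  set J' : X → ℝ := JJ (nst S k ζ h ε lam (w N) (π N) N) B χ with hJ'
  have hJ'p : ∀ z, 0 ≤ J' z := fun z =>
    add_nonneg (sq_nonneg _) (mul_nonneg Cχ.B0 (Cχ.p z))
  have hJ'0 : ∀ z, z ∉ K₁ → J' z = 0 := by
    intro z hz
    simp only [hK₁, mem_union, not_or] at hz
    simp only [hJ', JJ]
    rw [nv_zero fun i => m.gp_zero' H hN1 hz.1 i, image_eq_zero_of_notMem_tsupport hz.2]
    ring
  -- continuity facts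
  have cth := Wth.ths.continuous
  have cσ := Wth.σs.continuous
  have cφ := Wth.φs.continuous
  have cJ := hJs.continuous
  have cgk := hgks.continuous
  have cgx := hgxs.continuous
  have cU := H.Ufs.continuous
  have cV := H.Vfs.continuous
  have cx := (phx_smooth k).continuous
  have cy := H.phys.continuous
  have cvv := H.sok.vvs.continuous
  have ce : Continuous (nv (er S lam)) := H.sok.nec
  have hint : ∀ {f : X → ℝ}, Continuous f → (∀ z, z ∉ K₁ → f z = 0) → Integrable f volume :=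
    fun hf h0 => hf.integrable_of_hasCompactSupport (HasCompactSupport.intro hK₁c h0)
  have hnK : ∀ {z : X}, z ∉ K₁ → z ∉ K₀ := fun hz h' => hz (Or.inl h')
  set ind : X → ℝ := K₁.indicator fun _ => (1:ℝ) with hind
  have iind : Integrable ind volume :=
    (integrable_indicator_iff hK₁c.measurableSet).2 (integrableOn_const hK₁c.measure_lt_top.ne)
  have hind1 : ∀ z ∈ K₁, ind z = 1 := fun z hz => by simp [hind, hz]
  have hind0 : ∀ z, z ∉ K₁ → ind z = 0 := fun z hz => by simp [hind, hz]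
  have vind : ∫ z, ind z = vK := by
    rw [hind, integral_indicator hK₁c.measurableSet]
    simp [hvK, Measure.real]
  set cst : ℝ := 2 * CΔ / N + η * (CP + CΔ) with hcst
  -- the pointwise bound
  have hpt : ∀ z, thn z * J' z ≤ (1 - ε ^ 2 / 8) * (th z * JJ S B χ z)
      + 150 / (ε ^ 2 * h ^ 2) * (vv S h z ^ 2 * nv (er S lam) z ^ 2)
      + 2 * th z * (gk z * Uf S k ζ h ε lam z) * Real.cos (N * phx k z)
      + 2 * th z * (gx z * Vf S k ζ h ε lam z) * Real.cos (N * phy S.u k z)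
      - ε * (th z * σ z * JJ S B χ z * Real.cos (N * φ z))
      - 1 / 4 * ε ^ 2 * (th z * JJ S B χ z * Real.cos (N * (2 * φ z)))
      + cst * ind z := by
    intro z
    by_cases hz : z ∈ K₁
    · rw [hind1 z hz]
      set c := Real.cos (N * φ z) with hc
      have hc1 : |c| ≤ 1 := Real.abs_cos_le_one _
      have hcc : Real.cos (N * (2 * φ z)) = 2 * c ^ 2 - 1 := by
        rw [show (N:ℝ) * (2 * φ z) = 2 * (N * φ z) by ring, Real.cos_two_mul]
      rw [hcc]
      set μ : ℝ := 1 - ε * σ z * c - 1 / 2 * ε ^ 2 * c ^ 2 + 3 * ε ^ 3 with hμ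
      have hΔz := hΔ N hN1 z
      have hPz := hCP N hN1 z hz
      have hthn' := hle z hz
      set P := PN S k ζ h ε lam B χ N z with hP
      have hJP : J' z ≤ P + CΔ / N := by linarith [(abs_le.1 hΔz).2]
      have hCΔN : CΔ / N ≤ CΔ := div_le_self CΔ0 hNr
      have hCΔN0 : 0 ≤ CΔ / N := by positivity
      have hJb : J' z ≤ CP + CΔ := by linarith [le_abs_self P]
      -- the model
      set Wv := (pnt S k ζ h ε lam N z).W with hWv
      have hPe : P = JJ S B χ z + 2 * (∑ i, S.gp i z * Wv i) + ‖Wv‖ ^ 2 := by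
        rw [hP]
        unfold PN JJ
        rw [nv_sq, EuclideanSpace.norm_sq_eq]
        simp only [Real.norm_eq_abs, sq_abs, ← hWv]
        have : ∀ i, (S.gp i z + Wv i) ^ 2 = S.gp i z ^ 2 + 2 * (S.gp i z * Wv i) + Wv i ^ 2 :=
          fun i => by ring
        simp only [this, Finset.sum_add_distrib, ← Finset.mul_sum]
        ring
      have hgWe : ∑ i, S.gp i z * Wv i = gk z * Uf S k ζ h ε lam z * Real.cos (N * phx k z)
          + gx z * Vf S k ζ h ε lam z * Real.cos (N * phy S.u k z) := by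
        simp only [hWv, H.pnt_W, hgk, hgx, Finset.sum_mul, mul_add, Finset.sum_add_distrib]
        congr 1
        · refine Finset.sum_congr rfl fun i _ => by ring
        · refine Finset.sum_congr rfl fun i _ => by ring
      have hCS : (∑ i, S.gp i z * Wv i) ^ 2 ≤ nv S.gp z ^ 2 * ‖Wv‖ ^ 2 := by
        rw [nv_sq, EuclideanSpace.norm_sq_eq]
        simp only [Real.norm_eq_abs, sq_abs]
        exact Finset.sum_mul_sq_le_sq_mul_sq _ _ _
      have hpe := point_evol (ε := ε) (th := th z) (σ := σ z) (c := c) (J := JJ S B χ z)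
        (g2 := nv S.gp z ^ 2) (gW := ∑ i, S.gp i z * Wv i) (W2 := ‖Wv‖ ^ 2) hε H.ε1
        (Wth.th0 z) (Wth.th1 z) (Wth.σ1 z) hc1
        (by unfold JJ; linarith [mul_nonneg Cχ.B0 (Cχ.p z)]) (sq_nonneg _) (sq_nonneg _) hCS
      rw [← hPe, ← hμ] at hpe
      have hWsq := H.W_sq_le N z
      rw [← hWv] at hWsq
      have hW66 : 66 * ‖Wv‖ ^ 2 ≤ 150 / (ε ^ 2 * h ^ 2) * (vv S h z ^ 2 * nv (er S lam) z ^ 2) := by
        have h1 : 66 * ‖Wv‖ ^ 2 ≤ 66 * (9 / 4 / (ε ^ 2 * h ^ 2) *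
            (vv S h z ^ 2 * nv (er S lam) z ^ 2)) := mul_le_mul_of_nonneg_left hWsq (by norm_num)
        refine h1.trans ?_
        have h2 : 66 * (9 / 4 / (ε ^ 2 * h ^ 2) * (vv S h z ^ 2 * nv (er S lam) z ^ 2))
          = (66 * 9 / 4) / (ε ^ 2 * h ^ 2) * (vv S h z ^ 2 * nv (er S lam) z ^ 2) := by ring
        rw [h2]
        refine mul_le_mul_of_nonneg_right ?_ (by positivity)
        exact div_le_div_of_nonneg_right (by norm_num) (by positivity)
      -- size of the factor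
      have hσc : |σ z * c| ≤ 1 := by
        rw [abs_mul]
        calc |σ z| * |c| ≤ 1 * 1 := mul_le_mul (Wth.σ1 z) hc1 (abs_nonneg _) (by norm_num)
          _ = 1 := by norm_num
      have hμ2 : μ ≤ 2 := by
        have s1 := (abs_le.1 hσc).1
        have e1 : ε ^ 3 ≤ 1 / 100 := by
          have : ε ^ 3 ≤ (1 / 100) ^ 3 := pow_le_pow_left₀ hε.le H.ε1 3
          linarith [(by norm_num : ((1:ℝ) / 100) ^ 3 ≤ 1 / 100)]
        have e2 : 0 ≤ ε ^ 2 * c ^ 2 := by positivity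
        have e3 : -(1 / 100) ≤ ε * (σ z * c) := by nlinarith [H.ε1]
        have e4 : μ = 1 - ε * (σ z * c) - 1 / 2 * (ε ^ 2 * c ^ 2) + 3 * ε ^ 3 := by
          rw [hμ]; ring
        linarith
      have hμ0 : 0 ≤ μ := by
        have s1 := (abs_le.1 hσc).2
        have e1 : 0 < ε ^ 3 := by positivity
        have c2 : c ^ 2 ≤ 1 := by rw [← sq_abs]; nlinarith [abs_nonneg c]
        have e2 : ε ^ 2 * c ^ 2 ≤ 1 / 100 := by
          have : ε ^ 2 ≤ (1 / 100) ^ 2 := pow_le_pow_left₀ hε.le H.ε1 2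
          nlinarith [sq_nonneg c, sq_nonneg ε]
        have e3 : ε * (σ z * c) ≤ 1 / 100 := by nlinarith [H.ε1]
        have e4 : μ = 1 - ε * (σ z * c) - 1 / 2 * (ε ^ 2 * c ^ 2) + 3 * ε ^ 3 := by
          rw [hμ]; ring
        linarith
      have hthμ : th z * μ ≤ 2 := by
        calc th z * μ ≤ 1 * 2 := mul_le_mul (Wth.th1 z) hμ2 hμ0 (by norm_num)
          _ = 2 := by norm_num
      have hthμ0 : 0 ≤ th z * μ := mul_nonneg (Wth.th0 z) hμ0
      have f1 : thn z * J' z ≤ (th z * μ + η) * J' z := mul_le_mul_of_nonneg_right hthn' (hJ'p z)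
      have f2 : th z * μ * J' z ≤ th z * μ * P + 2 * CΔ / N := by
        have : th z * μ * J' z ≤ th z * μ * (P + CΔ / N) := mul_le_mul_of_nonneg_left hJP hthμ0
        have h3 : th z * μ * (CΔ / N) ≤ 2 * (CΔ / N) := mul_le_mul_of_nonneg_right hthμ hCΔN0
        have h4 : 2 * CΔ / N = 2 * (CΔ / N) := by ring
        rw [h4]
        linarith
      have f3 : η * J' z ≤ η * (CP + CΔ) := mul_le_mul_of_nonneg_left hJb η0.le
      have e5 : 2 * th z * (∑ i, S.gp i z * Wv i)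
          = 2 * th z * (gk z * Uf S k ζ h ε lam z) * Real.cos (N * phx k z)
          + 2 * th z * (gx z * Vf S k ζ h ε lam z) * Real.cos (N * phy S.u k z) := by
        rw [hgWe]; ring
      rw [e5] at hpe
      have e6 : (th z * μ + η) * J' z = th z * μ * J' z + η * J' z := by ring
      rw [e6] at f1
      rw [hcst]
      linarith
    · rw [hind0 z hz, hJ'0 z hz, hJ0 z hz, H.sok.ne0 (hnK hz), H.U_zero (hnK hz),
        H.V_zero (hnK hz)]
      simp
  -- integrate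
  have i0 : Integrable (fun z => thn z * J' z) volume := by
    refine hint (hthn.mul ?_) fun z hz => by rw [hJ'0 z hz, mul_zero]
    have hgc : ∀ i, Continuous ((nst S k ζ h ε lam (w N) (π N) N).gp i) := by
      intro i
      have hWc := H.W_cont N i
      have h1 := (H.good.gps i).continuous
      have h2 := (D_smooth H.Ufs (ev i)).continuous
      have h3 := (D_smooth H.Vfs (ev i)).continuous
      have : (nst S k ζ h ε lam (w N) (π N) N).gp i = fun z => S.gp i z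
        + (N:ℝ)⁻¹ * (D (ev i) (Uf S k ζ h ε lam) z * Real.sin (N * phx k z)
        + D (ev i) (Vf S k ζ h ε lam) z * Real.sin (N * phy S.u k z))
        + (pnt S k ζ h ε lam N z).W i := by
        ext z; exact m.gp_eq H hN1 i z
      rw [this]
      exact (h1.add (continuous_const.mul ((h2.mul (Real.continuous_sin.comp
        (continuous_const.mul cx))).add (h3.mul (Real.continuous_sin.comp
        (continuous_const.mul cy)))))).add hWc
    have h5 := nv_continuous hgc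
    have h4 := Cχ.s.continuous
    simp only [hJ']
    unfold JJ
    exact (h5.pow 2).add (continuous_const.mul h4)
  have i1 : Integrable (fun z => (1 - ε ^ 2 / 8) * (th z * JJ S B χ z)) volume :=
    hint (by fun_prop) fun z hz => by rw [hJ0 z hz]; ring
  have i2 : Integrable (fun z => 150 / (ε ^ 2 * h ^ 2) *
      (vv S h z ^ 2 * nv (er S lam) z ^ 2)) volume :=
    hint (by fun_prop) fun z hz => by rw [H.sok.ne0 (hnK hz)]; ring
  have i3 : Integrable (fun z => 2 * th z * (gk z * Uf S k ζ h ε lam z)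
      * Real.cos (N * phx k z)) volume :=
    hint (by fun_prop) fun z hz => by rw [H.U_zero (hnK hz)]; ring
  have i4 : Integrable (fun z => 2 * th z * (gx z * Vf S k ζ h ε lam z)
      * Real.cos (N * phy S.u k z)) volume :=
    hint (by fun_prop) fun z hz => by rw [H.V_zero (hnK hz)]; ring
  have i5 : Integrable (fun z => ε * (th z * σ z * JJ S B χ z * Real.cos (N * φ z))) volume :=
    hint (by fun_prop) fun z hz => by rw [hJ0 z hz]; ring
  have i6 : Integrable (fun z => 1 / 4 * ε ^ 2 *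
      (th z * JJ S B χ z * Real.cos (N * (2 * φ z)))) volume :=
    hint (by fun_prop) fun z hz => by rw [hJ0 z hz]; ring
  have i7 : Integrable (fun z => cst * ind z) volume := iind.const_mul _
  refine (integral_mono i0 ((((((i1.add i2).add i3).add i4).sub i5).sub i6).add i7) hpt).trans ?_
  have s1 := integral_add (((((i1.add i2).add i3).add i4).sub i5).sub i6) i7
  have s2 := integral_sub ((((i1.add i2).add i3).add i4).sub i5) i6
  have s3 := integral_sub (((i1.add i2).add i3).add i4) i5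
  have s4 := integral_add ((i1.add i2).add i3) i4
  have s5 := integral_add (i1.add i2) i3
  have s6 := integral_add i1 i2
  simp only [Pi.add_apply, Pi.sub_apply] at s1 s2 s3 s4 s5 s6 ⊢
  rw [s1, s2, s3, s4, s5, s6]
  rw [integral_const_mul, integral_const_mul, integral_const_mul, integral_const_mul,
    integral_const_mul, vind, ← H.sok.EE_sq]
  have b1 := (abs_le.1 (hC1 N hN1)).1
  have b2 := (abs_le.1 (hC2 N hN1)).1
  have b3 := (abs_le.1 (hC3 N hN1)).2
  have b4 := (abs_le.1 (hC4 N hN1)).2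
  have n1 : ∀ c : ℝ, c / N ≤ |c| / N := fun c =>
    div_le_div_of_nonneg_right (le_abs_self c) (by linarith)
  have d1 : - (ε * ∫ z, th z * σ z * JJ S B χ z * Real.cos (N * φ z)) ≤ ε * |C1| / N := by
    have := n1 C1
    have h2 : - (∫ z, th z * σ z * JJ S B χ z * Real.cos (N * φ z)) ≤ |C1| / N := by linarith
    have h3 := mul_le_mul_of_nonneg_left h2 hε.le
    have h4 : ε * |C1| / N = ε * (|C1| / N) := by ring
    rw [h4]; linarith
  have d2 : - (1 / 4 * ε ^ 2 * ∫ z, th z * JJ S B χ z * Real.cos (N * (2 * φ z)))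
      ≤ ε ^ 2 * |C2| / N := by
    have := n1 C2
    have h2 : - (∫ z, th z * JJ S B χ z * Real.cos (N * (2 * φ z))) ≤ |C2| / N := by linarith
    have h3 := mul_le_mul_of_nonneg_left h2 (by positivity : 0 ≤ 1 / 4 * ε ^ 2)
    have h5 : 0 ≤ ε ^ 2 * (|C2| / N) := by positivity
    have h4 : ε ^ 2 * |C2| / N = ε ^ 2 * (|C2| / N) := by ring
    rw [h4]; linarith
  have d3 := b3.trans (n1 C3)
  have d4 := b4.trans (n1 C4)
  have d5 : cst * vK = 2 * CΔ * vK / N + η * (CP + CΔ) * vK := by rw [hcst]; ring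
  have d6 : (2 * CΔ * vK + ε * |C1| + ε ^ 2 * |C2| + |C3| + |C4|) / N
      = 2 * CΔ * vK / N + ε * |C1| / N + ε ^ 2 * |C2| / N + |C3| / N + |C4| / N := by ring
  rw [d6] at hNb
  rw [d5]
  linarith

end Mic

end

end Pool.Agent.KS6_88.TV
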