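import Pool.Agent.KS6_88.TV.LimD

open scoped ContDiff ENNReal Manifold
open Set MeasureTheory Filter Topology
open Pool.Agent.H729R2 Pool.Agent.H729R2.MHD

namespace Pool.Agent.KS6_88.TV

noncomputable section

set_option linter.unusedSectionVars false
set_option linter.unusedVariables false

/-- plateau functions -/
lemma plateau {V : Type} [NormedAddCommGroup V] [NormedSpace ℝ V] [FiniteDimensional ℝ V]
    {K O : Set V} (hK : IsCompact K) (hO : IsOpen O) (hKO : K ⊆ O) :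
    ∃ f : V → ℝ, ContDiff ℝ ∞ f ∧ HasCompactSupport f ∧ tsupport f ⊆ O ∧
      (∀ z, 0 ≤ f z) ∧ ∀ z ∈ K, f z = 1 := by
  obtain ⟨K', hK', hKK', hK'O⟩ := exists_compact_between hK hO hKO
  obtain ⟨f, hf1, hf0, hf⟩ := exists_contMDiffMap_one_nhds_of_subset_interior (n := ⊤)
    𝓘(ℝ, V) hK.isClosed hKK'
  have hfs : ContDiff ℝ ∞ (f : V → ℝ) := f.contMDiff.contDiff
  have hsub : tsupport (f : V → ℝ) ⊆ K' := by
    refine closure_minimal (fun z hz => ?_) hK'.isClosed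
    by_contra hzK
    exact hz (hf0 z hzK)
  exact ⟨f, hfs, HasCompactSupport.of_support_subset_isCompact hK' (subset_closure.trans hsub),
    hsub.trans hK'O, fun z => (hf z).1, fun z hz => hf1.self_of_nhdsSet z hz⟩

/-- the state given by a velocity field, with constant densities -/
def St0 (v : Fin 3 → X → ℝ) : St := ⟨v, fun _ => 1, fun _ => 0, fun _ => 0⟩

lemma good_St0 {K₀ : Set X} {v : Fin 3 → X → ℝ} (hv : ∀ i, ContDiff ℝ ∞ (v i))
    (hK : ∀ i, tsupport (v i) ⊆ K₀) (hdiv : ∀ z, ∑ i, D (ev i) (v i) z = 0) :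
    Good K₀ (St0 v) := by
  have h0 : tsupport (fun _ : X => (0:ℝ)) = ∅ := tsupport_eq_empty_iff.2 rfl
  refine ⟨hv, contDiff_const, contDiff_const, contDiff_const, hK, ?_, ?_, hdiv, ⟨0, ?_⟩, ?_, ?_⟩
  · change tsupport (fun _ : X => (0:ℝ)) ⊆ _
    rw [h0]; exact empty_subset _
  · change tsupport (fun _ : X => (0:ℝ)) ⊆ _
    rw [h0]; exact empty_subset _
  · exact LipschitzWith.const _
  · intro x; change (1:ℝ) / 2 ≤ 1; norm_num
  · intro x; change (1:ℝ) ≤ 2; norm_num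

lemma bdd_of_hcs {K₀ : Set X} (hK : IsCompact K₀) {f : X → ℝ} (hf : Continuous f)
    (h0 : ∀ z, z ∉ K₀ → f z = 0) : ∃ C : ℝ, 0 ≤ C ∧ ∀ z, |f z| ≤ C := by
  obtain ⟨C, hC⟩ := bounded_on hK hf
  refine ⟨|C|, abs_nonneg C, fun z => ?_⟩
  by_cases hz : z ∈ K₀
  · exact (hC z hz).trans (le_abs_self C)
  · rw [h0 z hz, abs_zero]; exact abs_nonneg C

/-- the sequence of approximate solutions near a velocity field with a small gradient -/
theorem exists_Sq {Ω : Set E3} (hΩ : IsOpen Ω) (hb : Bornology.IsBounded Ω) (hne : Ω.Nonempty)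
    {T : ℝ} (hT : 0 < T) {K₀ : Set X} (hK : IsCompact K₀) (hKΩ : K₀ ⊆ Cyl Ω T)
    {v : Fin 3 → X → ℝ} (hv : ∀ i, ContDiff ℝ ∞ (v i))
    (hvK : ∀ i, tsupport (v i) ⊆ K₀) (hdiv : ∀ z, ∑ i, D (ev i) (v i) z = 0)
    (hsm : ∀ i j z, |D (ev j) (v i) z| ≤ 1 / (24000 * T)) {h lam d : ℝ} (hh0 : 0 < h)
    (hh1 : h ≤ 1 / 20000) (hlam : 0 < lam) (hd : 0 < d) :
    ∃ ε B μ χ χ₀ χ₂ A M₀ μ₀ dd τ S, Sq Ω K₀ T ε h lam B μ χ χ₀ χ₂ A M₀ μ₀ dd τ S ∧
      S 0 = St0 v ∧ τ < h * ∫ x, χ₂ x ∧ τ ≤ d := by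
  have hKT : K₀ ⊆ slab T := fun z hz => ⟨(hKΩ hz).1.1.le, (hKΩ hz).1.2.le⟩
  have hUo : IsOpen (Cyl Ω T) := isOpen_Ioo.prod hΩ
  have hg := good_St0 hv hvK hdiv
  obtain ⟨χ, χs, χc, χt, χp, χ1⟩ := plateau hK hUo hKΩ
  obtain ⟨χ₀, χ₀s, χ₀c, -, χ₀p, χ₀1⟩ := plateau hb.isCompact_closure isOpen_univ
    (subset_univ (closure Ω))
  obtain ⟨x₀, hx₀⟩ := hne
  obtain ⟨χ₂, χ₂s, χ₂c, χ₂t, χ₂p, χ₂1⟩ := plateau (isCompact_singleton (x := x₀)) hΩ
    (singleton_subset_iff.2 hx₀)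
  have hI2 : 0 < ∫ x, χ₂ x := by
    refine χ₂s.continuous.integral_pos_of_hasCompactSupport_nonneg_nonzero χ₂c (fun x => χ₂p x)
      (x := x₀) ?_
    rw [χ₂1 x₀ rfl]
    norm_num
  -- bounds
  have hu0 : ∀ i z, z ∉ K₀ → v i z = 0 := fun i z hz =>
    image_eq_zero_of_notMem_tsupport fun h' => hz (hvK i h')
  have hut0 : ∀ i z, z ∉ K₀ → D et (v i) z = 0 := fun i z hz =>
    D_eq_zero_of_notMem _ fun h' => hz (hvK i h')
  choose C1 p1 q1 using fun i => bdd_of_hcs hK (hv i).continuous (hu0 i)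
  choose C2 p2 q2 using fun i => bdd_of_hcs hK (D_smooth (hv i) et).continuous (hut0 i)
  set M₀ : ℝ := ∑ i, C1 i + ∑ i, C2 i with hM₀
  have s1 : ∀ i, C1 i ≤ ∑ i, C1 i := fun i =>
    Finset.single_le_sum (fun i _ => p1 i) (Finset.mem_univ i)
  have s2 : ∀ i, C2 i ≤ ∑ i, C2 i := fun i =>
    Finset.single_le_sum (fun i _ => p2 i) (Finset.mem_univ i)
  have n1 : 0 ≤ ∑ i, C1 i := Finset.sum_nonneg fun i _ => p1 i
  have n2 : 0 ≤ ∑ i, C2 i := Finset.sum_nonneg fun i _ => p2 i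
  have hM0 : 0 ≤ M₀ := by positivity
  -- constants
  set ε : ℝ := 1 / 1000 with hε
  have hε0 : 0 < ε := by norm_num
  set μ₀ : ℝ := 1 / (24000 * T) with hμ₀
  have hμ₀0 : 0 < μ₀ := by positivity
  set μ : ℝ := 1 / (12000 * T) with hμ
  have hμ0 : 0 < μ := by positivity
  set dd : ℝ := min μ₀ d with hdd
  have hdd0 : 0 < dd := lt_min hμ₀0 hd
  have hdd1 : dd ≤ μ₀ := min_le_left _ _
  have hdd2 : dd ≤ d := min_le_right _ _
  have hμμ : μ₀ + dd ≤ μ := by
    have : μ = μ₀ + μ₀ := by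
      rw [hμ, hμ₀]
      field_simp
      norm_num
    linarith
  set B : ℝ := lam ^ 2 * (4 * ((M₀ + dd) + 3 * ((M₀ + dd) * μ)) ^ 2) with hB
  have hB0 : 0 ≤ B := by positivity
  have hdat : Dat K₀ T ε h lam B μ χ χ₀ χ₂ :=
    { hK := hK, hKT := hKT, T0 := hT.le, ε0 := hε0, ε1 := le_rfl, h0 := hh0
      h1 := by linarith
      lam0 := hlam, μ0 := hμ0.le
      μT := by
        rw [hμ]
        have : 12000 * (1 / (12000 * T)) * T = 1 := by field_simp
        rw [this]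
      ct := ⟨χs, χc, fun z hz => ⟨(χt hz).1.1.le, (χt hz).1.2.le⟩, χp, hB0⟩
      χ1 := χ1, χs := χ₀s, χc := χ₀c, χp := χ₀p, χs2 := χ₂s, χc2 := χ₂c }
  have hroom : ∀ x, |(St0 v).r x - 1| < h := fun x => by
    change |(1:ℝ) - 1| < h
    simpa using hh0
  have hsok : Sok (St0 v) h K₀ := ⟨hg, hK, hroom, hh0, hdat.h1⟩
  have hL0 : 0 ≤ LL (St0 v) ε h lam B χ := by
    have e2 := FF1_nonneg (S := St0 v) (h := h) hdat.ct
    have e3 := FF2_nonneg (S := St0 v) (h := h) hdat.ct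
    have e4 : 0 ≤ 10000 / (ε ^ 2 * h ^ 2) * EE (St0 v) h lam ^ 2 := by positivity
    unfold LL
    linarith
  have hI0 : 0 ≤ ∫ x, χ₀ x := integral_nonneg fun x => χ₀p x
  set A : ℝ := LL (St0 v) ε h lam B χ + (∫ x, χ₀ x) + 1 with hA
  have hA1 : 1 ≤ A := by linarith
  set Q : ℝ := 2 + 42 * (10000 / (ε ^ 2 * h ^ 2)) with hQ
  have hQ0 : 0 < Q := by positivity
  set τ : ℝ := min (min dd 1) (min (h * (∫ x, χ₂ x) / 2) (ε ^ 2 / 32 / Q)) with hτ
  have hτ0 : 0 < τ := lt_min (lt_min hdd0 one_pos) (lt_min (by positivity) (by positivity))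
  have hτ1 : τ ≤ dd := (min_le_left _ _).trans (min_le_left _ _)
  have hτ2 : τ ≤ 1 := (min_le_left _ _).trans (min_le_right _ _)
  have hτ3 : τ ≤ h * (∫ x, χ₂ x) / 2 := (min_le_right _ _).trans (min_le_left _ _)
  have hτ4 : τ ≤ ε ^ 2 / 32 / Q := (min_le_right _ _).trans (min_le_right _ _)
  have hcst : Cst T ε h lam B μ A M₀ μ₀ dd τ :=
    { h2 := hh1, A0 := by linarith, M0 := hM0, μ00 := hμ₀0.le, dd0 := hdd0, μμ := hμμ
      Bd := le_rfl, τ0 := hτ0, τd := hτ1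
      τA := by
        have e1 : τ ^ 2 ≤ τ := by nlinarith
        have e2 : 0 ≤ 42 * (10000 / (ε ^ 2 * h ^ 2)) := by positivity
        have e3 : 42 * (10000 / (ε ^ 2 * h ^ 2)) * τ ^ 2
          ≤ 42 * (10000 / (ε ^ 2 * h ^ 2)) * τ := mul_le_mul_of_nonneg_left e1 e2
        have e4 : τ * Q ≤ ε ^ 2 / 32 := by
          rwa [le_div_iff₀ hQ0] at hτ4
        have e5 : ε ^ 2 / 32 ≤ ε ^ 2 / 32 * A := by
          have : 0 < ε ^ 2 / 32 := by positivity
          nlinarith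
        have e6 : 2 * τ + 42 * (10000 / (ε ^ 2 * h ^ 2)) * τ = τ * Q := by rw [hQ]; ring
        linarith }
  have hinv : Inv K₀ T ε h lam B χ χ₀ A M₀ μ₀ dd 0 (St0 v) :=
    { good := hg, room := hroom
      L := by simp only [pow_zero, mul_one]; linarith
      fs := fun t _ _ => by
        simp only [pow_zero, mul_one]
        have e1 : Fs (St0 v) h χ₀ t ≤ ∫ x, χ₀ x := by
          refine integral_mono_of_nonneg (Eventually.of_forall fun x =>
            mul_nonneg (Sok.th20 _) (χ₀p x))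
            (χ₀s.continuous.integrable_of_hasCompactSupport χ₀c)
            (Eventually.of_forall fun x => ?_)
          have := mul_le_mul_of_nonneg_right (Sok.th21 (S := St0 v) (h := h) (t, x)) (χ₀p x)
          linarith
        linarith
      u := fun i z => by
        simp only [pow_zero, sub_self, mul_zero, add_zero]
        exact (q1 i z).trans (by linarith [s1 i])
      ux := fun i j z => by
        simp only [pow_zero, sub_self, mul_zero, add_zero]
        exact hsm i j z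
      ut := fun i z => by
        simp only [pow_zero, sub_self, mul_zero, add_zero]
        exact (q2 i z).trans (by linarith [s2 i]) }
  obtain ⟨S, hS0, hS1, hS2⟩ := iterate hdat hcst hinv
  refine ⟨ε, B, μ, χ, χ₀, χ₂, A, M₀, μ₀, dd, τ, S, ⟨hdat, hcst, hS1, hS2, hΩ, hb,
    fun x hx => χ₀1 x (subset_closure hx), fun x hx =>
      image_eq_zero_of_notMem_tsupport fun h' => hx (χ₂t h')⟩, hS0, ?_, hτ1.trans hdd2⟩
  have : 0 < h * ∫ x, χ₂ x := by positivity
  linarith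

/-- two weak solutions for a two-valued initial density, close to a given field -/
theorem main_close {Ω : Set R3} (hΩ : IsOpen Ω) (hb : Bornology.IsBounded Ω) (hne : Ω.Nonempty)
    {T : ℝ} (hT : 0 < T) {η σ : ℝ → ℝ} (hη : Coeff η) (hσ : Coeff σ) {a b : ℝ} (ha : 0 < a)
    (hab : a < b) (hsmall : b - a ≤ (a + b) / 20000) (hηab : η a = η b)
    {v : ℝ × R3 → R3} (hv : ContDiff ℝ ∞ v) (hvc : HasCompactSupport v)
    (hvs : tsupport v ⊆ Cyl Ω T) (hdiv : ∀ z, ∑ i, dx i (fun y => v y i) z = 0)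
    (hgr : ∀ z i j, 24000 * T * |dx j (fun y => v y i) z| ≤ 1) {δ : ℝ} (hδ : 0 < δ) :
    ∃ (ρ₀ : R3 → ℝ) (f : ℝ → R3 → R3) (ρ : ℝ → R3 → ℝ) (u : ℝ → R3 → R3),
      (∀ x, ρ₀ x = a ∨ ρ₀ x = b) ∧
      0 < volume {x | x ∈ Ω ∧ ρ₀ x = a} ∧ 0 < volume {x | x ∈ Ω ∧ ρ₀ x = b} ∧
      IsData Ω T η σ ρ₀ 0 0 f ∧
      WeakSol Ω T η σ ρ₀ 0 0 f (fun _ => ρ₀) 0 0 ∧
      WeakSol Ω T η σ ρ₀ 0 0 f ρ u 0 ∧
      (∀ t x, ρ t x = a ∨ ρ t x = b) ∧
      ContDiff ℝ 1 (fun z : ℝ × R3 => u z.1 z.2) ∧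
      HasCompactSupport (fun z : ℝ × R3 => u z.1 z.2) ∧
      tsupport (fun z : ℝ × R3 => u z.1 z.2) ⊆ Cyl Ω T ∧
      ∀ z : ℝ × R3, ‖u z.1 z.2 - v z‖ ≤ δ ∧
        ‖fderiv ℝ (fun z : ℝ × R3 => u z.1 z.2 - v z) z‖ ≤ δ := by
  have hb0 : 0 < b := ha.trans hab
  have hfin := finite_vol hb
  -- components of the given field
  set v' : Fin 3 → X → ℝ := fun i z => v z i with hv'
  have hvi : ∀ i, ContDiff ℝ ∞ (v' i) := contDiff_euclidean.1 hv
  have hts : ∀ i, tsupport (v' i) ⊆ tsupport v := fun i => closure_mono fun z hz h0 => hz (by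
    simp only [hv', h0]; rfl)
  have hK : IsCompact (tsupport v) := hvc
  have hsm : ∀ i j z, |D (ev j) (v' i) z| ≤ 1 / (24000 * T) := fun i j z => by
    rw [le_div_iff₀ (by positivity), mul_comm]
    exact hgr z i j
  -- constants
  set h : ℝ := (b - a) / (a + b) with hh
  have hh0 : 0 < h := div_pos (by linarith) (by linarith)
  have hh1 : h ≤ 1 / 20000 := by
    rw [hh, div_le_iff₀ (by linarith)]
    linarith
  obtain ⟨hηc, ηl, ηu, hηl, hηb⟩ := hη
  have hη0 : 0 < η a := hηl.trans_le (hηb a ha.le).1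
  set c : ℝ := 2 * a * b / (a + b) with hc
  have hc0 : 0 < c := by positivity
  set lam : ℝ := c / η a with hlam
  have hlam0 : 0 < lam := by positivity
  have hcη : c = lam * η a := by rw [hlam]; field_simp
  have hc1 : c / (1 - h) = b := by
    have e1 : 1 - h = 2 * a / (a + b) := by rw [hh]; field_simp; ring
    rw [e1, hc]
    field_simp
  have hc2 : c / (1 + h) = a := by
    have e1 : 1 + h = 2 * b / (a + b) := by rw [hh]; field_simp; ring
    rw [e1, hc]
    field_simp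
  obtain ⟨ε, B, μ, χ, χ₀, χ₂, A, M₀, μ₀, dd, τ, S, s, hS0, hτ, hτd⟩ :=
    exists_Sq hΩ hb hne hT hK hvs hvi hts (fun z => hdiv z) hsm hh0 hh1 hlam0
      (d := δ / 8) (by positivity)
  obtain ⟨uL, xL, tL, fL, hL, hu, ht, hx⟩ := s.exists_limB
  rw [hS0] at hu ht hx
  have hr0 : ∀ x, (S 0).r x = 1 := fun x => by rw [hS0]; rfl
  have hval : ∀ z, c / RT S h z = a ∨ c / RT S h z = b := fun z => by
    rcases RT_two S h z with h1 | h1
    · right; rw [h1, hc1]
    · left; rw [h1, hc2]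
  have hηv : ∀ z, η (c / RT S h z) = η a := fun z => by
    rcases hval z with h1 | h1
    · rw [h1]
    · rw [h1, hηab]
  have h0T : (0:ℝ) ∈ Icc 0 T := ⟨le_rfl, hT.le⟩
  have hpos : ∀ e : ℝ, |e| = 1 → ∀ p : R3 → Prop,
      (∀ x, ¬ p x → RT S h (0, x) - 1 = e * h) → 0 < volume {x | x ∈ Ω ∧ p x} := by
    intro e he p hp
    by_contra hcon
    have h1 : volume {x | x ∈ Ω ∧ p x} = 0 := by
      simpa using hcon
    apply s.both hr0 hτ he
    rw [ae_restrict_iff' hΩ.measurableSet, ae_iff]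
    refine measure_mono_null (fun x hx => ?_) h1
    simp only [mem_ofPred_eq, Classical.not_imp] at hx
    exact ⟨hx.1, by_contra fun h2 => hx.2 (hp x h2)⟩
  have hdens2 : InDens Ω T (fun t x => c / RT S h (t, x)) := s.dens hc0
  have hm0 : AEStronglyMeasurable (fun x : E3 => c / RT S h (0, x)) (volume.restrict Ω) :=
    ((s.Rsl_aesm h0T).aemeasurable.const_div c).aestronglyMeasurable
  have hdens1 : InDens Ω T (fun _ x => c / RT S h (0, x)) := by
    refine ⟨?_, ⟨b, Eventually.of_forall fun z => ?_⟩, fun p hp hp' t _ => hdens2.mem p hp hp' 0 h0T,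
      fun p _ _ t₀ _ => ?_⟩
    · have h1 : (volume.restrict (Cyl Ω T) : Measure X)
          = (volume.restrict (Ioo 0 T)).prod (volume.restrict Ω) := by
        rw [Measure.prod_restrict, ← Measure.volume_eq_prod]
        rfl
      rw [h1]
      exact hm0.comp_snd
    · rcases hval (0, z.2) with h1 | h1
      · rw [h1]; exact ⟨ha.le, hab.le⟩
      · rw [h1]; exact ⟨hb0.le, le_rfl⟩
    · simp only [sub_self, eLpNorm_zero']
      exact tendsto_const_nhds
  have hf : MemLp (fun z : X => vec fun i => fL i (z.1, z.2) / lam) 2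
      (volume.restrict (Cyl Ω T)) := by
    refine (memLp_vec fun i => ?_).restrict _
    have := (hL.fm i).const_mul (1 / lam)
    refine this.ae_eq (Eventually.of_forall fun z => ?_)
    change 1 / lam * fL i z = fL i z / lam
    ring
  have hdata : IsData Ω T η σ (fun x => c / RT S h (0, x)) 0 0
      (fun t x => vec fun i => fL i (t, x) / lam) :=
    ⟨⟨hηc, ηl, ηu, hηl, hηb⟩, hσ, ⟨hm0, a, b, ha, Eventually.of_forall fun x => by
      rcases hval (0, x) with h1 | h1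
      · rw [h1]; exact ⟨le_rfl, hab.le⟩
      · rw [h1]; exact ⟨hab.le, le_rfl⟩⟩, zero_inH Ω, zero_inH Ω, hf⟩
  have hz0 : ∀ z, z ∉ tsupport v → (vec fun i => uL i z) = 0 := by
    intro z hz
    ext i
    exact hL.u_zero i hz
  refine ⟨fun x => c / RT S h (0, x), fun t x => vec fun i => fL i (t, x) / lam,
    fun t x => c / RT S h (t, x), fun t x => vec fun i => uL i (t, x),
    fun x => hval _, ?_, ?_, hdata, ?_, ?_, fun t x => hval _,
    contDiff_vec fun i => hL.c1_lim i, HasCompactSupport.intro hK hz0, ?_, fun z => ⟨?_, ?_⟩⟩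
  · refine hpos (-1) (by norm_num) _ fun x hx => ?_
    rcases RT_two S h (0, x) with h1 | h1
    · rw [h1]; ring
    · exact absurd (show c / RT S h (0, x) = a by rw [h1, hc2]) hx
  · refine hpos 1 (by norm_num) _ fun x hx => ?_
    rcases RT_two S h (0, x) with h1 | h1
    · exact absurd (show c / RT S h (0, x) = b by rw [h1, hc1]) hx
    · rw [h1]; ring
  · exact ⟨hdens1, zero_inCw Ω T, zero_inCw Ω T, Eventually.of_forall fun x => rfl,
      hL.transport1 c, fun _ _ _ _ => 0, fun _ _ _ _ => 0, zero_inL2V Ω T, zero_inL2W Ω T,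
      hL.momentum1 hvs _, zero_induction Ω T σ _ _⟩
  · exact ⟨hdens2, hL.inCw hΩ hb hvs, zero_inCw Ω T, Eventually.of_forall fun x => rfl,
      hL.transport2 c, fun t x i j => xL i j (t, x), fun _ _ _ _ => 0, hL.inL2V hΩ hb hvs,
      zero_inL2W Ω T, hL.momentum2 hvs hlam0.ne' hcη hηv _, zero_induction Ω T σ _ _⟩
  · refine closure_minimal (fun z hz => ?_) (isClosed_tsupport v) |>.trans hvs
    by_contra hcon
    exact hz (hz0 z hcon)
  · have e1 : (vec fun i => uL i (z.1, z.2)) - v z = vec fun i => uL i z - v' i z := by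
      ext i
      simp [hv']
    rw [e1]
    refine (norm_vec_le (c := δ / 8) fun i => ?_).trans (by linarith)
    rw [abs_sub_comm]
    exact (hu i z).trans hτd
  · have e1 : (fun z : ℝ × R3 => (vec fun i => uL i (z.1, z.2)) - v z) =
        fun z => vec fun i => uL i z - v' i z := by
      funext z
      ext i
      simp [hv']
    rw [e1]
    have h1 : ∀ i, HasFDerivAt (fun z => uL i z - v' i z)
        (Pool.Agent.Y616.MH.lf (tL i z - D et (v' i) z)
          (fun j => xL i j z - D (ev j) (v' i) z)) z := by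
      intro i
      rw [← Pool.Agent.Y616.MH.lf_sub, ← Pool.Agent.Y616.MH.fderiv_eq]
      exact (hL.hasFDeriv i z).sub ((smooth_diff (hvi i)) z).hasFDerivAt
    refine (Pool.Agent.Y616.MH.norm_fderiv_vec_le h1 (a := 4 * (δ / 8)) fun i => ?_).trans
      (by linarith)
    refine Pool.Agent.Y616.MH.norm_lf_le (by positivity) ?_ fun j => ?_
    · rw [abs_sub_comm]
      exact (ht i z).trans hτd
    · rw [abs_sub_comm]
      exact (hx i j z).trans hτd

end

end Pool.Agent.KS6_88.TV
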