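import Pool.Agent.KS6_88.TV.StepF

open scoped ContDiff
open Set MeasureTheory Filter Topology
open Pool.Agent.H729R2

namespace Pool.Agent.KS6_88.TV

noncomputable section

set_option linter.unusedSectionVars false
set_option linter.unusedVariables false

variable {K₀ : Set X} {T₀ ε h lam B μ : ℝ} {χ : X → ℝ} {χ₀ χ₂ : E3 → ℝ} {S : St}

/-- the rate -/
def rt (ε : ℝ) : ℝ := 1 - ε ^ 2 / 64

lemma rt_pos {ε : ℝ} (hε : 0 < ε) (hε1 : ε ≤ 1 / 1000) : 1 / 2 < rt ε := by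
  unfold rt; nlinarith

lemma rt_lt {ε : ℝ} (hε : 0 < ε) : rt ε < 1 := by
  unfold rt
  have : 0 < ε ^ 2 := by positivity
  linarith

lemma rt_sq {ε : ℝ} : 1 - ε ^ 2 / 32 ≤ rt ε ^ 2 := by
  unfold rt
  nlinarith [sq_nonneg (ε ^ 2)]

/-- the Lyapunov functional -/
def LL (S : St) (ε h lam B : ℝ) (χ : X → ℝ) : ℝ :=
  FF1 S h B χ + FF2 S h B χ + 10000 / (ε ^ 2 * h ^ 2) * EE S h lam ^ 2

/-- the invariants -/
structure Inv (K₀ : Set X) (T₀ ε h lam B : ℝ) (χ : X → ℝ) (χ₀ : E3 → ℝ) (A M₀ μ₀ dd : ℝ) (n : ℕ)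
    (S : St) : Prop where
  good : Good K₀ S
  room : ∀ x, |S.r x - 1| < h
  L : LL S ε h lam B χ ≤ A * (rt ε ^ 2) ^ n
  fs : ∀ t, 0 ≤ t → t ≤ T₀ → Fs S h χ₀ t ≤ A * (rt ε ^ 2) ^ n
  u : ∀ i z, |S.u i z| ≤ M₀ + dd * (1 - (1 / 2) ^ n)
  ux : ∀ i j z, |D (ev j) (S.u i) z| ≤ μ₀ + dd * (1 - (1 / 2) ^ n)
  ut : ∀ i z, |D et (S.u i) z| ≤ M₀ + dd * (1 - (1 / 2) ^ n)

/-- the constants of the iteration -/
structure Cst (T₀ ε h lam B μ A M₀ μ₀ dd τ : ℝ) : Prop where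
  h2 : h ≤ 1 / 20000
  A0 : 0 < A
  M0 : 0 ≤ M₀
  μ00 : 0 ≤ μ₀
  dd0 : 0 < dd
  μμ : μ₀ + dd ≤ μ
  Bd : lam ^ 2 * (4 * ((M₀ + dd) + 3 * ((M₀ + dd) * μ)) ^ 2) ≤ B
  τ0 : 0 < τ
  τd : τ ≤ dd
  τA : 2 * τ + 42 * (10000 / (ε ^ 2 * h ^ 2)) * τ ^ 2 ≤ ε ^ 2 / 32 * A

lemma acc_bound {M μ : ℝ} (hM : 0 ≤ M) (hμ : 0 ≤ μ) (hu : ∀ i z, |S.u i z| ≤ M)
    (hut : ∀ i z, |D et (S.u i) z| ≤ M) (hux : ∀ i j z, |D (ev j) (S.u i) z| ≤ μ) (z : X) :
    nv S.acc z ^ 2 ≤ 4 * (M + 3 * (M * μ)) ^ 2 := by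
  have h1 : ∀ i, |S.acc i z| ≤ M + 3 * (M * μ) := by
    intro i
    unfold St.acc
    refine (abs_add_le _ _).trans (add_le_add (hut i z) ?_)
    refine (Finset.abs_sum_le_sum_abs _ _).trans ?_
    have : ∀ j ∈ (Finset.univ : Finset (Fin 3)), |S.u j z * D (ev j) (S.u i) z| ≤ M * μ := by
      intro j _
      rw [abs_mul]
      exact mul_le_mul (hu j z) (hux i j z) (abs_nonneg _) hM
    refine (Finset.sum_le_sum this).trans (le_of_eq ?_)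
    simp
  have h2 : nv S.acc z ≤ 2 * (M + 3 * (M * μ)) := norm_vec_le h1
  have h3 := pow_le_pow_left₀ (nv_nonneg S.acc z) h2 2
  calc nv S.acc z ^ 2 ≤ (2 * (M + 3 * (M * μ))) ^ 2 := h3
    _ = _ := by ring

lemma half_le {ε : ℝ} (hε : 0 < ε) (hε1 : ε ≤ 1 / 1000) (n : ℕ) :
    (1 / 2 : ℝ) ^ (n + 1) ≤ (rt ε ^ 2) ^ n := by
  have h1 : (1 / 2 : ℝ) ≤ rt ε ^ 2 := by
    have := rt_sq (ε := ε)
    nlinarith
  calc (1 / 2 : ℝ) ^ (n + 1) ≤ (1 / 2 : ℝ) ^ n := by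
        rw [pow_succ]
        have : 0 < (1 / 2 : ℝ) ^ n := by positivity
        linarith
    _ ≤ _ := pow_le_pow_left₀ (by norm_num) h1 n

/-- the Lyapunov functional decreases -/
lemma LL_step {S S' : St} {δ : ℝ} (d : Dat K₀ T₀ ε h lam B μ χ χ₀ χ₂) (h2 : h ≤ 1 / 20000)
    (hδ : 0 < δ) (O : Out S S' K₀ T₀ ε h lam B χ χ₀ χ₂ δ) :
    LL S' ε h lam B χ ≤ (1 - ε ^ 2 / 16) * LL S ε h lam B χ
      + (2 * δ + 42 * (10000 / (ε ^ 2 * h ^ 2)) * δ ^ 2) := by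
  have hε := d.ε0
  have hε1 := d.ε1
  have hh := d.h0
  have F10 := FF1_nonneg (S := S) (h := h) d.ct
  have F20 := FF2_nonneg (S := S) (h := h) d.ct
  have E0 := EE_nonneg S h lam
  have E0' := EE_nonneg S' h lam
  have e1 := O.e
  have e2 := O.f1
  have e3 := O.f2
  set F1 := FF1 S h B χ
  set F2 := FF2 S h B χ
  set E := EE S h lam
  set E' := EE S' h lam
  set F1' := FF1 S' h B χ
  set F2' := FF2 S' h B χ
  set q : ℝ := ε ^ 2 * h ^ 2 with hq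
  have hq0 : 0 < q := by positivity
  set s := √F2 with hs
  have hs0 : 0 ≤ s := Real.sqrt_nonneg _
  have hs2 : s ^ 2 = F2 := Real.sq_sqrt F20
  have e1' : E' ≤ 95 / 100 * E + (4 * q * s + δ) := by
    have : 4 * ε ^ 2 * h ^ 2 * s = 4 * q * s := by rw [hq]; ring
    linarith
  -- the square
  have g1 : E' ^ 2 ≤ 948 / 1000 * E ^ 2 + 672 * q ^ 2 * F2 + 42 * δ ^ 2 := by
    have h3 : E' ^ 2 ≤ (95 / 100 * E + (4 * q * s + δ)) ^ 2 := pow_le_pow_left₀ E0' e1' 2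
    have h4 : (95 / 100 * E + (4 * q * s + δ)) ^ 2
      ≤ 21 / 20 * (95 / 100 * E) ^ 2 + 21 * (4 * q * s + δ) ^ 2 := by
      nlinarith [sq_nonneg (95 / 100 * E - 20 * (4 * q * s + δ))]
    have h5 : (4 * q * s + δ) ^ 2 ≤ 2 * (4 * q * s) ^ 2 + 2 * δ ^ 2 := by
      nlinarith [sq_nonneg (4 * q * s - δ)]
    have h6 : (4 * q * s) ^ 2 = 16 * q ^ 2 * F2 := by rw [← hs2]; ring
    rw [h6] at h5
    have h7 : 0 ≤ E ^ 2 := sq_nonneg _
    nlinarith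
  -- multiply
  have hM : 0 < 10000 / q := by positivity
  have g2 := mul_le_mul_of_nonneg_left g1 hM.le
  have g3 : 10000 / q * (948 / 1000 * E ^ 2 + 672 * q ^ 2 * F2 + 42 * δ ^ 2)
      = 948 / 1000 * (10000 / q * E ^ 2) + 6720000 * q * F2 + 42 * (10000 / q) * δ ^ 2 := by
    field_simp
    ring
  rw [g3] at g2
  have g4 : 150 / q * E ^ 2 = 150 / 10000 * (10000 / q * E ^ 2) := by ring
  have g5 : 6720000 * q ≤ ε ^ 2 / 16 := by
    have : h ^ 2 ≤ (1 / 20000) ^ 2 := pow_le_pow_left₀ hh.le h2 2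
    have h8 : 6720000 * h ^ 2 ≤ 1 / 16 := by linarith [(by norm_num : 6720000 * (1 / 20000 : ℝ) ^ 2 ≤ 1 / 16)]
    have : 6720000 * q = (6720000 * h ^ 2) * ε ^ 2 := by rw [hq]; ring
    rw [this]
    nlinarith [sq_nonneg ε]
  have g6 : 6720000 * q * F2 ≤ ε ^ 2 / 16 * F2 := mul_le_mul_of_nonneg_right g5 F20
  have hG : 0 ≤ 10000 / q * E ^ 2 := by positivity
  have hε2 : ε ^ 2 ≤ 1 / 1000000 := by
    calc ε ^ 2 ≤ (1 / 1000) ^ 2 := pow_le_pow_left₀ hε.le hε1 2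
      _ = _ := by norm_num
  have g7 : ε ^ 2 * (10000 / q * E ^ 2) ≤ 1 / 1000000 * (10000 / q * E ^ 2) :=
    mul_le_mul_of_nonneg_right hε2 hG
  have g8 : 0 ≤ ε ^ 2 * F1 := by positivity
  unfold LL
  change F1' + F2' + 10000 / q * E' ^ 2 ≤ (1 - ε ^ 2 / 16) * (F1 + F2 + 10000 / q * E ^ 2)
    + (2 * δ + 42 * (10000 / q) * δ ^ 2)
  have e2' : F1' ≤ (1 - ε ^ 2 / 8) * F1 + 150 / q * E ^ 2 + δ := e2
  have e3' : F2' ≤ (1 - ε ^ 2 / 8) * F2 + 150 / q * E ^ 2 + δ := e3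
  rw [g4] at e2' e3'
  set G := 10000 / q * E ^ 2
  nlinarith

lemma inv_step {A M₀ μ₀ dd τ : ℝ} (d : Dat K₀ T₀ ε h lam B μ χ χ₀ χ₂)
    (c : Cst T₀ ε h lam B μ A M₀ μ₀ dd τ) (n : ℕ) (S : St)
    (I : Inv K₀ T₀ ε h lam B χ χ₀ A M₀ μ₀ dd n S) :
    ∃ S', Inv K₀ T₀ ε h lam B χ χ₀ A M₀ μ₀ dd (n + 1) S' ∧
      Out S S' K₀ T₀ ε h lam B χ χ₀ χ₂ (τ * (1 / 2) ^ (n + 1)) := by
  have hε := d.ε0
  have hε1 := d.ε1
  have hh := d.h0
  set δ : ℝ := τ * (1 / 2) ^ (n + 1) with hδ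
  have τ0 := c.τ0
  have hδ0 : 0 < δ := by positivity
  have hp : 0 < (1 / 2 : ℝ) ^ n := by positivity
  have hp1 : (1 / 2 : ℝ) ^ n ≤ 1 := pow_le_one₀ (by norm_num) (by norm_num)
  have dd0 := c.dd0
  have hle : dd * (1 - (1 / 2 : ℝ) ^ n) ≤ dd := by nlinarith
  have hB : ∀ z ∈ K₀, lam ^ 2 * nv S.acc z ^ 2 ≤ B := by
    intro z _
    refine le_trans ?_ c.Bd
    refine mul_le_mul_of_nonneg_left ?_ (sq_nonneg _)
    refine acc_bound (by have := c.M0; positivity) d.μ0 (fun i z => ?_) (fun i z => ?_)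
      (fun i j z => ?_) z
    · linarith [I.u i z]
    · linarith [I.ut i z]
    · linarith [I.ux i j z, c.μμ]
  obtain ⟨S', O⟩ := step d I.good I.room (fun i j z => by linarith [I.ux i j z, c.μμ]) hB hδ0
  refine ⟨S', ⟨O.good, O.room, ?_, ?_, ?_, ?_, ?_⟩, O⟩
  · -- L
    have h1 := LL_step d c.h2 hδ0 O
    have h2 := I.L
    set P : ℝ := (rt ε ^ 2) ^ n with hP
    have hP0 : 0 < P := by have := rt_pos hε hε1; positivity
    have h3 : (rt ε ^ 2) ^ (n + 1) = P * rt ε ^ 2 := pow_succ _ _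
    rw [h3]
    have hhalf := half_le hε hε1 n
    rw [← hP] at hhalf
    have hh1 : (1 / 2 : ℝ) ^ (n + 1) ≤ 1 := pow_le_one₀ (by norm_num) (by norm_num)
    have hh0 : 0 < (1 / 2 : ℝ) ^ (n + 1) := by positivity
    have h4 : 2 * δ + 42 * (10000 / (ε ^ 2 * h ^ 2)) * δ ^ 2 ≤ ε ^ 2 / 32 * A * P := by
      have h5 : δ ^ 2 ≤ τ ^ 2 * P := by
        rw [hδ, mul_pow]
        refine mul_le_mul_of_nonneg_left ?_ (sq_nonneg _)
        calc ((1 / 2 : ℝ) ^ (n + 1)) ^ 2 = (1 / 2 : ℝ) ^ (n + 1) * (1 / 2 : ℝ) ^ (n + 1) := by ring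
          _ ≤ P * 1 := mul_le_mul hhalf hh1 hh0.le hP0.le
          _ = P := mul_one _
      have h6 : δ ≤ τ * P := by rw [hδ]; exact mul_le_mul_of_nonneg_left hhalf τ0.le
      have h7 : 0 ≤ 42 * (10000 / (ε ^ 2 * h ^ 2)) := by positivity
      calc 2 * δ + 42 * (10000 / (ε ^ 2 * h ^ 2)) * δ ^ 2
          ≤ 2 * (τ * P) + 42 * (10000 / (ε ^ 2 * h ^ 2)) * (τ ^ 2 * P) :=
            add_le_add (by linarith) (mul_le_mul_of_nonneg_left h5 h7)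
        _ = (2 * τ + 42 * (10000 / (ε ^ 2 * h ^ 2)) * τ ^ 2) * P := by ring
        _ ≤ _ := mul_le_mul_of_nonneg_right c.τA hP0.le
    have h8 : (1 - ε ^ 2 / 16) * LL S ε h lam B χ ≤ (1 - ε ^ 2 / 16) * (A * P) := by
      refine mul_le_mul_of_nonneg_left h2 ?_
      nlinarith
    have h9 : A * (P * (1 - ε ^ 2 / 32)) ≤ A * (P * rt ε ^ 2) := by
      refine mul_le_mul_of_nonneg_left ?_ c.A0.le
      exact mul_le_mul_of_nonneg_left rt_sq hP0.le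
    nlinarith
  · intro t ht0 htT
    have h1 := O.fs t ht0 htT
    have h2 := I.fs t ht0 htT
    set P : ℝ := (rt ε ^ 2) ^ n with hP
    have hP0 : 0 < P := by have := rt_pos hε hε1; positivity
    have h3 : (rt ε ^ 2) ^ (n + 1) = P * rt ε ^ 2 := pow_succ _ _
    rw [h3]
    have hhalf := half_le hε hε1 n
    rw [← hP] at hhalf
    have h6 : δ ≤ τ * P := by rw [hδ]; exact mul_le_mul_of_nonneg_left hhalf τ0.le
    have h7 : τ ≤ ε ^ 2 / 32 * A := by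
      have : 0 ≤ 42 * (10000 / (ε ^ 2 * h ^ 2)) * τ ^ 2 := by positivity
      linarith [c.τA]
    have h8 : (1 - ε ^ 2 / 8) * Fs S h χ₀ t ≤ (1 - ε ^ 2 / 8) * (A * P) := by
      refine mul_le_mul_of_nonneg_left h2 ?_
      nlinarith
    have h9 : A * (P * (1 - ε ^ 2 / 32)) ≤ A * (P * rt ε ^ 2) := by
      refine mul_le_mul_of_nonneg_left ?_ c.A0.le
      exact mul_le_mul_of_nonneg_left rt_sq hP0.le
    have h10 : τ * P ≤ ε ^ 2 / 32 * A * P := mul_le_mul_of_nonneg_right h7 hP0.le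
    have h11 : 0 < A * P := mul_pos c.A0 hP0
    have h12 : 0 < ε ^ 2 * (A * P) := by positivity
    nlinarith
  · intro i z
    have h1 := O.u i z
    have h2 := I.u i z
    have h3 : |S'.u i z| ≤ |S'.u i z - S.u i z| + |S.u i z| := by
      have := abs_add_le (S'.u i z - S.u i z) (S.u i z)
      simpa using this
    have h4 : δ ≤ dd * (1 / 2) ^ (n + 1) := mul_le_mul_of_nonneg_right c.τd (by positivity)
    have h5 : (1 / 2 : ℝ) ^ (n + 1) = (1 / 2) ^ n * (1 / 2) := pow_succ _ _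
    rw [h5] at h4 ⊢
    linarith
  · intro i j z
    have h1 := O.ux i j z
    have h2 := I.ux i j z
    have h3 : |D (ev j) (S'.u i) z| ≤ |D (ev j) (S'.u i) z - D (ev j) (S.u i) z|
        + |D (ev j) (S.u i) z| := by
      have := abs_add_le (D (ev j) (S'.u i) z - D (ev j) (S.u i) z) (D (ev j) (S.u i) z)
      simpa using this
    have h4 : δ ≤ dd * (1 / 2) ^ (n + 1) := mul_le_mul_of_nonneg_right c.τd (by positivity)
    have h5 : (1 / 2 : ℝ) ^ (n + 1) = (1 / 2) ^ n * (1 / 2) := pow_succ _ _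
    rw [h5] at h4 ⊢
    linarith
  · intro i z
    have h1 := O.ut i z
    have h2 := I.ut i z
    have h3 : |D et (S'.u i) z| ≤ |D et (S'.u i) z - D et (S.u i) z|
        + |D et (S.u i) z| := by
      have := abs_add_le (D et (S'.u i) z - D et (S.u i) z) (D et (S.u i) z)
      simpa using this
    have h4 : δ ≤ dd * (1 / 2) ^ (n + 1) := mul_le_mul_of_nonneg_right c.τd (by positivity)
    have h5 : (1 / 2 : ℝ) ^ (n + 1) = (1 / 2) ^ n * (1 / 2) := pow_succ _ _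
    rw [h5] at h4 ⊢
    linarith

/-- the iteration -/
theorem iterate {A M₀ μ₀ dd τ : ℝ} (d : Dat K₀ T₀ ε h lam B μ χ χ₀ χ₂)
    (c : Cst T₀ ε h lam B μ A M₀ μ₀ dd τ) {S₀ : St}
    (I0 : Inv K₀ T₀ ε h lam B χ χ₀ A M₀ μ₀ dd 0 S₀) :
    ∃ S : ℕ → St, S 0 = S₀ ∧ (∀ n, Inv K₀ T₀ ε h lam B χ χ₀ A M₀ μ₀ dd n (S n)) ∧
      ∀ n, Out (S n) (S (n + 1)) K₀ T₀ ε h lam B χ χ₀ χ₂ (τ * (1 / 2) ^ (n + 1)) := by
  have key := fun n S => inv_step d c n S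
  choose! nx h1 h2 using key
  set S : ℕ → St := fun n => Nat.rec S₀ (fun n S => nx n S) n with hS
  have hI : ∀ n, Inv K₀ T₀ ε h lam B χ χ₀ A M₀ μ₀ dd n (S n) := by
    intro n
    induction n with
    | zero => exact I0
    | succ n ih => exact h1 n (S n) ih
  exact ⟨S, rfl, hI, fun n => h2 n (S n) (hI n)⟩

end

end Pool.Agent.KS6_88.TV
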