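import Pool.Agent.KS6_88.TV.Mic

open scoped ContDiff
open Set MeasureTheory Filter Topology
open Pool.Agent.H729R2 Pool.Agent.H664.Flow

namespace Pool.Agent.KS6_88.TV

noncomputable section

set_option linter.unusedVariables false in
/-- the spatial Lipschitz constant of a velocity -/
lemma vel_lip {u : Fin 3 → X → ℝ} (hu : ∀ i, ContDiff ℝ ∞ (u i)) {μ : ℝ} (hμ : 0 ≤ μ)
    (h : ∀ i j z, |D (ev j) (u i) z| ≤ μ) (t : ℝ) (x y : E3) :
    ‖vec (fun i => u i (t, x)) - vec (fun i => u i (t, y))‖ ≤ 6 * μ * ‖x - y‖ := by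
  have h1 : ∀ i, |u i (t, x) - u i (t, y)| ≤ 3 * μ * ‖x - y‖ := by
    intro i
    have hd : ∀ s : ℝ, HasDerivAt (fun s : ℝ => u i ((t, y) + s • ((0:ℝ), x - y)))
        (fderiv ℝ (u i) ((t, y) + s • ((0:ℝ), x - y)) (0, x - y)) s := by
      intro s
      have hc : HasDerivAt (fun s : ℝ => ((t, y) : X) + s • ((0:ℝ), x - y)) ((0:ℝ), x - y) s := by
        have := ((hasDerivAt_id s).smul_const ((0:ℝ), x - y)).const_add ((t, y) : X)
        rw [one_smul] at this
        exact this
      exact ((smooth_diff (hu i)) _).hasFDerivAt.comp_hasDerivAt s hc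
    have hb : ∀ s : ℝ, ‖fderiv ℝ (u i) ((t, y) + s • ((0:ℝ), x - y)) (0, x - y)‖
        ≤ 3 * μ * ‖x - y‖ := by
      intro s
      have e1 : x - y = vec (fun j => (x - y) j) := by ext j; simp
      rw [e1, D_vec, Real.norm_eq_abs]
      refine (Finset.abs_sum_le_sum_abs _ _).trans ?_
      have : ∀ j ∈ (Finset.univ : Finset (Fin 3)), |(x - y) j *
          D (ev j) (u i) ((t, y) + s • ((0:ℝ), vec fun j => (x - y) j))| ≤ ‖x - y‖ * μ := by
        intro j _
        rw [abs_mul]
        exact mul_le_mul (PiLp.norm_apply_le (x - y) j) (h i j _) (abs_nonneg _) (norm_nonneg _)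
      refine (Finset.sum_le_sum this).trans (le_of_eq ?_)
      rw [Finset.sum_const, Finset.card_univ, Fintype.card_fin, ← e1]
      simp only [nsmul_eq_mul, Nat.cast_ofNat]
      ring
    have := norm_image_sub_le_of_norm_deriv_le_segment_01'
      (f := fun s : ℝ => u i ((t, y) + s • ((0:ℝ), x - y))) (C := 3 * μ * ‖x - y‖)
      (fun s _ => (hd s).hasDerivWithinAt) (fun s _ => hb s)
    simpa using this
  have h2 : vec (fun i => u i (t, x)) - vec (fun i => u i (t, y))
      = vec (fun i => u i (t, x) - u i (t, y)) := by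
    ext i; simp
  rw [h2]
  refine (norm_vec_le h1).trans (le_of_eq ?_)
  ring

/-- the labels are close to the identity in `C¹` when the velocity gradient is small -/
lemma lab_D {u : Fin 3 → X → ℝ} (hu : ∀ i, ContDiff ℝ ∞ (u i))
    (hc : ∀ i, HasCompactSupport (u i)) {μ T₀ : ℝ} (hμ : 0 ≤ μ)
    (h : ∀ i j z, |D (ev j) (u i) z| ≤ μ) (hT : 12000 * μ * T₀ ≤ 1) {z : X} (hz : z ∈ slab T₀)
    (i j : Fin 3) : |D (ev j) (lab u i) z - (if i = j then 1 else 0)| ≤ 1 / 600 := by
  obtain ⟨t, x⟩ := z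
  have ht0 : 0 ≤ t := hz.1
  have htT : t ≤ T₀ := hz.2
  have hf := flw_isFlow hu hc
  set K : NNReal := ⟨6 * μ, by positivity⟩ with hK
  set v : ℝ → E3 → E3 := fun s y => - vec (fun i => u i (t - s, y)) with hv
  have hvL : ∀ s, LipschitzWith K (v s) := by
    intro s
    refine LipschitzWith.of_dist_le_mul fun y y' => ?_
    rw [dist_eq_norm, dist_eq_norm]
    have e1 : v s y - v s y' = -(vec (fun i => u i (t - s, y)) - vec (fun i => u i (t - s, y'))) := by
      simp only [hv]; abel
    rw [e1, norm_neg]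
    exact vel_lip hu hμ h _ _ _
  -- trajectories
  set Xf : E3 → ℝ → E3 := fun y s => (flw u (-s) (t, y)).2 with hXf
  have hX0 : ∀ y, Xf y 0 = y := by
    intro y
    simp [hXf, hf.zero]
  have hXd : ∀ y s, HasDerivAt (Xf y) (v s (Xf y s)) s := by
    intro y s
    have h1 := (hf.deriv (t, y) (-s)).scomp s (hasDerivAt_neg s)
    rw [neg_one_smul] at h1
    have h2 := (ContinuousLinearMap.snd ℝ ℝ E3).hasFDerivAt.comp_hasDerivAt s h1
    have h3 : (ContinuousLinearMap.snd ℝ ℝ E3) (-fld u (flw u (-s) (t, y))) = v s (Xf y s) := by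
      have e1 : (flw u (-s) (t, y)).1 = t - s := by
        rw [flw_fst hu hc]; ring
      have e2 : flw u (-s) (t, y) = (t - s, Xf y s) := Prod.ext e1 rfl
      simp only [hv, fld, ContinuousLinearMap.coe_snd', Prod.snd_neg]
      rw [e2]
    rw [h3] at h2
    exact h2
  have hK6 : (K:ℝ) = 6 * μ := rfl
  have hexp : Real.exp (6 * μ * t) ≤ 3 := by
    have h1 : 6 * μ * t ≤ 1 := by
      have : 6 * μ * t ≤ 6 * μ * T₀ := mul_le_mul_of_nonneg_left htT (by positivity)
      have h0 : 0 ≤ μ * T₀ := mul_nonneg hμ (ht0.trans htT)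
      nlinarith
    calc Real.exp (6 * μ * t) ≤ Real.exp 1 := Real.exp_le_exp.2 h1
      _ ≤ 3 := by linarith [Real.exp_one_lt_d9]
  have hdist : ∀ y y' s, 0 ≤ s → s ≤ t → ‖Xf y s - Xf y' s‖ ≤ 3 * ‖y - y'‖ := by
    intro y y' s hs0 hst
    have h1 := dist_le_of_trajectories_ODE (v := v) (K := K) (f := Xf y) (g := Xf y') (a := 0)
      (b := t) (δ := ‖y - y'‖) hvL
      (fun s _ => (hXd y s).continuousAt.continuousWithinAt)
      (fun s _ => (hXd y s).hasDerivWithinAt)
      (fun s _ => (hXd y' s).continuousAt.continuousWithinAt)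
      (fun s _ => (hXd y' s).hasDerivWithinAt)
      (by rw [hX0, hX0, dist_eq_norm]) s ⟨hs0, hst⟩
    rw [dist_eq_norm] at h1
    refine h1.trans ?_
    rw [mul_comm]
    refine mul_le_mul_of_nonneg_right ?_ (norm_nonneg _)
    refine le_trans (Real.exp_le_exp.2 ?_) hexp
    rw [hK6, sub_zero]
    exact mul_le_mul_of_nonneg_left hst (by positivity)
  have hmain : ∀ y y', ‖(Xf y t - Xf y' t) - (y - y')‖ ≤ 1 / 600 * ‖y - y'‖ := by
    intro y y'
    have h1 := norm_image_sub_le_of_norm_deriv_le_segment'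
      (f := fun s => Xf y s - Xf y' s) (f' := fun s => v s (Xf y s) - v s (Xf y' s))
      (a := 0) (b := t) (C := 6 * μ * (3 * ‖y - y'‖))
      (fun s _ => ((hXd y s).sub (hXd y' s)).hasDerivWithinAt)
      (fun s hs => by
        have := (hvL s).dist_le_mul (Xf y s) (Xf y' s)
        rw [dist_eq_norm, dist_eq_norm, hK6] at this
        exact this.trans (mul_le_mul_of_nonneg_left (hdist y y' s hs.1 hs.2.le) (by positivity)))
      t ⟨ht0, le_rfl⟩
    rw [hX0, hX0, sub_zero] at h1
    refine h1.trans ?_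
    have h2 : 0 ≤ μ * T₀ := mul_nonneg hμ (ht0.trans htT)
    have h3 : μ * t ≤ μ * T₀ := mul_le_mul_of_nonneg_left htT hμ
    have h4 := norm_nonneg (y - y')
    have h5 : 6 * μ * (3 * ‖y - y'‖) * t = 18 * (μ * t) * ‖y - y'‖ := by ring
    rw [h5]
    exact mul_le_mul_of_nonneg_right (by linarith) h4
  -- differentiate
  set e : E3 := EuclideanSpace.single j (1:ℝ) with he
  have hlab : ∀ y, lab u i (t, y) = Xf y t i := fun y => rfl
  have hY : ContDiff ℝ ∞ (lab u i) := (isLabel_lab hu hc).smooth i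
  have hd : HasDerivAt (fun s : ℝ => lab u i (((t, x) : X) + s • ev j)
      - s * (if i = j then (1:ℝ) else 0)) (D (ev j) (lab u i) (t, x) - (if i = j then 1 else 0)) 0 := by
    have hcd : HasDerivAt (fun s : ℝ => ((t, x) : X) + s • ev j) (ev j) 0 := by
      have := ((hasDerivAt_id (0:ℝ)).smul_const (ev j)).const_add ((t, x) : X)
      simpa using this
    have h2 := ((smooth_diff hY) (((t, x) : X) + (0:ℝ) • ev j)).hasFDerivAt.comp_hasDerivAt
      0 hcd
    have h4 : HasDerivAt (fun s : ℝ => s * (if i = j then (1:ℝ) else 0))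
        (if i = j then 1 else 0) 0 := by
      have := ((hasDerivAt_id (0:ℝ)).mul_const (if i = j then (1:ℝ) else 0))
      simpa using this
    have h5 := h2.sub h4
    simp only [zero_smul, add_zero] at h5
    exact h5
  have := hd.le_of_lip' (C := 1 / 600) (by norm_num) (Eventually.of_forall fun s => ?_)
  · rwa [Real.norm_eq_abs] at this
  · have e1 : ((t, x) : X) + s • ev j = (t, x + s • e) := by simp [ev, he]
    have e0 : ((t, x) : X) + (0:ℝ) • ev j = (t, x) := by simp
    rw [e1, e0, hlab, hlab]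
    have h1 := hmain (x + s • e) x
    have h2 := PiLp.norm_apply_le ((Xf (x + s • e) t - Xf x t) - (x + s • e - x)) i
    have h3 : ((Xf (x + s • e) t - Xf x t) - (x + s • e - x)) i
        = Xf (x + s • e) t i - s * (if i = j then 1 else 0)
          - (Xf x t i - 0 * (if i = j then 1 else 0)) := by
      have : e i = if i = j then 1 else 0 := by
        rw [he]
        simp
      simp only [PiLp.sub_apply, PiLp.add_apply, PiLp.smul_apply, smul_eq_mul, this]
      ring
    rw [h3] at h2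
    refine h2.trans (h1.trans (le_of_eq ?_))
    have h4 : ‖e‖ = 1 := by rw [he]; simp
    rw [add_sub_cancel_left, norm_smul, h4, mul_one, sub_zero]

lemma lab_xk {S : St} {K₀ : Set X} (hg : Good K₀ S) (hK : IsCompact K₀) {μ T₀ : ℝ} (hμ : 0 ≤ μ)
    (h : ∀ i j z, |D (ev j) (S.u i) z| ≤ μ) (hT : 12000 * μ * T₀ ≤ 1) (k : Fin 3 → ℝ) {z : X}
    (hz : z ∈ slab T₀) : ‖vec (fun i => xi S k i z) - vec k‖ ≤ 1 / 100 * ‖vec k‖ := by
  have h1 : vec (fun i => xi S k i z) - vec k = vec (fun i => xi S k i z - k i) := by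
    ext i; simp
  rw [h1]
  have h2 : ∀ j, |xi S k j z - k j| ≤ 1 / 200 * ‖vec k‖ := by
    intro j
    have h3 : xi S k j z - k j = ∑ i, k i * (D (ev j) (lab S.u i) z - (if i = j then 1 else 0)) := by
      simp only [mul_sub, Finset.sum_sub_distrib]
      have : ∑ i, k i * (if i = j then (1:ℝ) else 0) = k j := by
        simp
      rw [this]
      rfl
    rw [h3]
    refine (Finset.abs_sum_le_sum_abs _ _).trans ?_
    have h4 : ∀ i ∈ (Finset.univ : Finset (Fin 3)), |k i *
        (D (ev j) (lab S.u i) z - (if i = j then 1 else 0))| ≤ ‖vec k‖ * (1 / 600) := by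
      intro i _
      rw [abs_mul]
      have h5 : |k i| ≤ ‖vec k‖ := by
        have := PiLp.norm_apply_le (vec k) i
        simpa using this
      exact mul_le_mul h5 (lab_D hg.hu (hg.ucs hK) hμ h hT hz i j) (abs_nonneg _) (norm_nonneg _)
    refine (Finset.sum_le_sum h4).trans (le_of_eq ?_)
    rw [Finset.sum_const, Finset.card_univ, Fintype.card_fin]
    simp only [nsmul_eq_mul, Nat.cast_ofNat]
    ring
  refine (norm_vec_le h2).trans (le_of_eq ?_)
  ring

end

end Pool.Agent.KS6_88.TV
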