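import Pool.Agent.KS6_88.TV.LimA

open scoped ContDiff ENNReal
open Set MeasureTheory Filter Topology
open Pool.Agent.H729R2 Pool.Agent.H729R2.MHD

namespace Pool.Agent.KS6_88.TV

noncomputable section

set_option linter.unusedSectionVars false
set_option linter.unusedVariables false

variable {K₀ : Set X} {T₀ ε h lam B μ A M₀ μ₀ dd τ : ℝ} {χ : X → ℝ} {χ₀ χ₂ : E3 → ℝ}
  {Ω : Set E3} {S : ℕ → St}

/-- the sequence of the iteration -/
structure Sq (Ω : Set E3) (K₀ : Set X) (T₀ ε h lam B μ : ℝ) (χ : X → ℝ) (χ₀ χ₂ : E3 → ℝ)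
    (A M₀ μ₀ dd τ : ℝ) (S : ℕ → St) : Prop where
  d : Dat K₀ T₀ ε h lam B μ χ χ₀ χ₂
  c : Cst T₀ ε h lam B μ A M₀ μ₀ dd τ
  inv : ∀ n, Inv K₀ T₀ ε h lam B χ χ₀ A M₀ μ₀ dd n (S n)
  out : ∀ n, Out (S n) (S (n + 1)) K₀ T₀ ε h lam B χ χ₀ χ₂ (τ * (1 / 2) ^ (n + 1))
  Ωo : IsOpen Ω
  Ωb : Bornology.IsBounded Ω
  χ₀1 : ∀ x ∈ Ω, χ₀ x = 1
  χ₂0 : ∀ x, x ∉ Ω → χ₂ x = 0

/-- the limit of the transported specific volumes -/
def RLim (S : ℕ → St) : X → ℝ := plim fun n => (S n).R2

namespace Sq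

variable (s : Sq Ω K₀ T₀ ε h lam B μ χ χ₀ χ₂ A M₀ μ₀ dd τ S)
include s

lemma good (n : ℕ) : Good K₀ (S n) := (s.inv n).good

lemma R2c (n : ℕ) : Continuous (S n).R2 := ((s.good n).R2s s.d.hK).continuous

lemma R2b (n : ℕ) (z : X) : |(S n).R2 z - 1| ≤ h := ((s.inv n).room _).le

lemma sok (n : ℕ) : Sok (S n) h K₀ := ⟨s.good n, s.d.hK, (s.inv n).room, s.d.h0, s.d.h1⟩

lemma rt1 : rt ε < 1 := rt_lt s.d.ε0
lemma rt0 : 0 < rt ε := by have := rt_pos s.d.ε0 s.d.ε1; linarith

lemma fin : IsFiniteMeasure (volume.restrict Ω) := finite_vol s.Ωb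

lemma diff_L2 (n : ℕ) {t : ℝ} (ht : t ∈ Icc 0 T₀) :
    eLpNorm (fun x : E3 => (S (n + 1)).R2 (t, x) - (S n).R2 (t, x)) 2 (volume.restrict Ω)
      ≤ ENNReal.ofReal (√(A + τ) * rt ε ^ n) := by
  have hfin := s.fin
  have A0 := s.c.A0
  have τ0 := s.c.τ0
  have h0 := s.d.h0
  have h1 := s.d.h1
  have ε0 := s.d.ε0
  have ε1 := s.d.ε1
  have hr0 := s.rt0
  set g : E3 → ℝ := fun x => (S (n + 1)).R2 (t, x) - (S n).R2 (t, x) with hg
  have hgc : Continuous g := (slice_cont (s.R2c (n + 1)) t).sub (slice_cont (s.R2c n) t)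
  have hgb : ∀ x, |g x| ≤ 2 * h := fun x => by
    have e1 := abs_le.1 (s.R2b (n + 1) (t, x))
    have e2 := abs_le.1 (s.R2b n (t, x))
    exact abs_le.2 ⟨by simp only [hg]; linarith, by simp only [hg]; linarith⟩
  have hm : MemLp g 2 (volume.restrict Ω) :=
    MemLp.of_bound hgc.aestronglyMeasurable (2 * h) (Eventually.of_forall fun x => hgb x)
  have k1 : ∫ x in Ω, g x ^ 2 ≤ ∫ x, χ₀ x * g x ^ 2 := by
    have e1 : ∫ x in Ω, g x ^ 2 = ∫ x in Ω, χ₀ x * g x ^ 2 :=
      setIntegral_congr_fun s.Ωo.measurableSet fun x hx => by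
        change g x ^ 2 = χ₀ x * g x ^ 2
        rw [s.χ₀1 x hx, one_mul]
    rw [e1]
    refine setIntegral_le_integral ?_ (Eventually.of_forall fun x =>
      mul_nonneg (s.d.χp x) (sq_nonneg _))
    exact (s.d.χs.continuous.mul (hgc.pow 2)).integrable_of_hasCompactSupport s.d.χc.mul_right
  have k2 := (s.out n).R2 t ht.1 ht.2
  have k3 := (s.inv n).fs t ht.1 ht.2
  have k4 : (1 / 2 : ℝ) ^ (n + 1) ≤ (rt ε ^ 2) ^ n := half_le ε0 ε1 n
  have hP : 0 < (rt ε ^ 2) ^ n := by positivity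
  have k5 : ∫ x in Ω, g x ^ 2 ≤ (√(A + τ) * rt ε ^ n) ^ 2 := by
    have e2 : (√(A + τ) * rt ε ^ n) ^ 2 = (A + τ) * (rt ε ^ 2) ^ n := by
      rw [mul_pow, Real.sq_sqrt (by positivity), ← pow_mul, ← pow_mul, mul_comm n 2]
    rw [e2]
    have e3 : 2 * ε ^ 2 * h ^ 2 ≤ 1 := by
      have : ε ^ 2 * h ^ 2 ≤ (1 / 1000) ^ 2 * (1 / 100) ^ 2 :=
        mul_le_mul (pow_le_pow_left₀ ε0.le ε1 2) (pow_le_pow_left₀ h0.le h1 2) (by positivity)
          (by positivity)
      nlinarith
    have e4 : 2 * ε ^ 2 * h ^ 2 * Fs (S n) h χ₀ t ≤ 1 * (A * (rt ε ^ 2) ^ n) := by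
      refine mul_le_mul e3 k3 ?_ (by norm_num)
      exact integral_nonneg fun x => mul_nonneg (Sok.th20 _) (s.d.χp x)
    have e5 : τ * (1 / 2) ^ (n + 1) ≤ τ * (rt ε ^ 2) ^ n := mul_le_mul_of_nonneg_left k4 τ0.le
    linarith
  rw [hm.eLpNorm_eq_integral_rpow_norm (by norm_num) (by norm_num)]
  refine ENNReal.ofReal_le_ofReal ?_
  have e6 : ∫ x in Ω, ‖g x‖ ^ (2:ℝ≥0∞).toReal = ∫ x in Ω, g x ^ 2 := by
    refine integral_congr_ae (Eventually.of_forall fun x => ?_)
    simp
  rw [e6]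
  have e7 : (2:ℝ≥0∞).toReal⁻¹ = 1 / 2 := by norm_num
  rw [e7, ← Real.sqrt_eq_rpow]
  refine Real.sqrt_le_iff.2 ⟨by positivity, k5⟩

lemma slice_aesm (n : ℕ) (t : ℝ) :
    AEStronglyMeasurable (fun x : E3 => (S n).R2 (t, x)) (volume.restrict Ω) :=
  (slice_cont (s.R2c n) t).aestronglyMeasurable

/-- convergence on the slices -/
lemma Rsl0 {t : ℝ} (ht : t ∈ Icc 0 T₀) :
    ∀ᵐ x ∂(volume.restrict Ω), Tendsto (fun n => (S n).R2 (t, x)) atTop (𝓝 (RLim S (t, x))) := by
  have A0 := s.c.A0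
  have τ0 := s.c.τ0
  have := l2_ae (μ := volume.restrict Ω) (f := fun n (x : E3) => (S n).R2 (t, x))
    (fun n => s.slice_aesm n t) (Real.sqrt_nonneg _) s.rt0 s.rt1 fun n => s.diff_L2 n ht
  filter_upwards [this] with x hx
  exact plim_spec (F := fun n => (S n).R2) hx

lemma Rsl_aesm0 {t : ℝ} (ht : t ∈ Icc 0 T₀) :
    AEStronglyMeasurable (fun x : E3 => RLim S (t, x)) (volume.restrict Ω) :=
  aestronglyMeasurable_of_tendsto_ae _ (fun n => s.slice_aesm n t) (s.Rsl0 ht)

lemma Rb0 (z : X) : |RLim S z - 1| ≤ h := plim_bound s.d.h0.le (fun n z => s.R2b n z) z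

/-- the two values -/
lemma Rtwo0 {t : ℝ} (ht : t ∈ Icc 0 T₀) :
    ∀ᵐ x ∂(volume.restrict Ω), |RLim S (t, x) - 1| = h := by
  have hfin := s.fin
  have h0 := s.d.h0
  have hom : Continuous fun r : ℝ => √(om h r) := by
    unfold om
    fun_prop
  have hb : ∀ r, ‖√(om h r)‖ ≤ 1 := fun r => by
    rw [Real.norm_eq_abs, abs_of_nonneg (Real.sqrt_nonneg _), Real.sqrt_le_left (by norm_num)]
    have := om_le h r
    linarith
  have t1 : Tendsto (fun n => ∫ x in Ω, √(om h ((S n).R2 (t, x)))) atTop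
      (𝓝 (∫ x in Ω, √(om h (RLim S (t, x))))) := by
    refine tendsto_integral_of_dominated_convergence (fun _ => 1)
      (fun n => (hom.comp (slice_cont (s.R2c n) t)).aestronglyMeasurable) (integrable_const _)
      (fun n => Eventually.of_forall fun x => hb _) ?_
    filter_upwards [s.Rsl0 ht] with x hx
    exact (hom.tendsto _).comp hx
  have t2 : ∀ n, ∫ x in Ω, √(om h ((S n).R2 (t, x))) ≤ A * (rt ε ^ 2) ^ n := by
    intro n
    refine le_trans ?_ ((s.inv n).fs t ht.1 ht.2)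
    have e1 : ∫ x in Ω, √(om h ((S n).R2 (t, x))) = ∫ x in Ω, th2 (S n) h (t, x) * χ₀ x :=
      setIntegral_congr_fun s.Ωo.measurableSet fun x hx => by
        change √(om h ((S n).R2 (t, x))) = th2 (S n) h (t, x) * χ₀ x
        rw [s.χ₀1 x hx, mul_one]
        rfl
    rw [e1]
    refine setIntegral_le_integral ?_ (Eventually.of_forall fun x =>
      mul_nonneg (Sok.th20 _) (s.d.χp x))
    exact ((slice_cont (s.sok n).th2s.continuous t).mul
      s.d.χs.continuous).integrable_of_hasCompactSupport s.d.χc.mul_left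
  have t3 : Tendsto (fun n : ℕ => A * (rt ε ^ 2) ^ n) atTop (𝓝 0) := by
    have h1 := s.rt1
    have h2 := s.rt0
    have := (tendsto_pow_atTop_nhds_zero_of_lt_one (r := rt ε ^ 2) (by positivity)
      (pow_lt_one₀ h2.le h1 (by norm_num))).const_mul A
    simpa using this
  have t4 : ∫ x in Ω, √(om h (RLim S (t, x))) ≤ 0 := le_of_tendsto_of_tendsto' t1 t3 t2
  have t5 : ∫ x in Ω, √(om h (RLim S (t, x))) = 0 :=
    le_antisymm t4 (integral_nonneg fun x => Real.sqrt_nonneg _)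
  have hi : Integrable (fun x => √(om h (RLim S (t, x)))) (volume.restrict Ω) :=
    Integrable.mono' (integrable_const (1:ℝ))
      (hom.comp_aestronglyMeasurable (s.Rsl_aesm0 ht)) (Eventually.of_forall fun x => hb _)
  rw [integral_eq_zero_iff_of_nonneg (fun x => Real.sqrt_nonneg _) hi] at t5
  filter_upwards [t5] with x hx
  have hx' : √(om h (RLim S (t, x))) = 0 := hx
  have e1 : om h (RLim S (t, x)) ≤ 0 := Real.sqrt_eq_zero'.1 hx'
  refine le_antisymm (s.Rb0 _) ?_
  unfold om at e1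
  have e2 : 1 ≤ |(RLim S (t, x) - 1) / h| := by
    rw [← abs_one, ← sq_le_sq]
    linarith
  rw [abs_div, abs_of_pos h0, le_div_iff₀ h0] at e2
  linarith

end Sq

/-- the limit of the transported specific volumes, normalized to take two values only -/
def RT (S : ℕ → St) (h : ℝ) (z : X) : ℝ :=
  open Classical in if Tendsto (fun n => (S n).R2 z) atTop (𝓝 (1 - h)) then 1 - h else 1 + h

lemma RT_two (S : ℕ → St) (h : ℝ) (z : X) : RT S h z = 1 - h ∨ RT S h z = 1 + h := by
  unfold RT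
  split_ifs
  · exact Or.inl rfl
  · exact Or.inr rfl

namespace Sq

variable (s : Sq Ω K₀ T₀ ε h lam B μ χ χ₀ χ₂ A M₀ μ₀ dd τ S)
include s

/-- convergence on the slices -/
lemma Rsl {t : ℝ} (ht : t ∈ Icc 0 T₀) :
    ∀ᵐ x ∂(volume.restrict Ω), Tendsto (fun n => (S n).R2 (t, x)) atTop (𝓝 (RT S h (t, x))) := by
  filter_upwards [s.Rsl0 ht, s.Rtwo0 ht] with x h1 h2
  rcases (abs_eq s.d.h0.le).1 h2 with h3 | h3
  · have h4 : RLim S (t, x) = 1 + h := by linarith
    rw [h4] at h1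
    have h5 : RT S h (t, x) = 1 + h := by
      unfold RT
      rw [if_neg]
      intro h6
      have := tendsto_nhds_unique h1 h6
      linarith [s.d.h0]
    rw [h5]; exact h1
  · have h4 : RLim S (t, x) = 1 - h := by linarith
    rw [h4] at h1
    have h5 : RT S h (t, x) = 1 - h := by
      unfold RT
      rw [if_pos h1]
    rw [h5]; exact h1

/-- the rate of convergence on the slices -/
lemma Rrate {t : ℝ} (ht : t ∈ Icc 0 T₀) (n : ℕ) :
    eLpNorm (fun x : E3 => RT S h (t, x) - (S n).R2 (t, x)) 2 (volume.restrict Ω)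
      ≤ ENNReal.ofReal (√(A + τ) / (1 - rt ε) * rt ε ^ n) :=
  l2_rate (μ := volume.restrict Ω) (f := fun n (x : E3) => (S n).R2 (t, x))
    (fun n => s.slice_aesm n t) (Real.sqrt_nonneg _) s.rt0.le s.rt1 (fun n => s.diff_L2 n ht)
    (s.Rsl ht) n

lemma Rtwo (z : X) : |RT S h z - 1| = h := by
  rcases RT_two S h z with h1 | h1
  · rw [h1, abs_sub_comm, sub_sub_cancel, abs_of_pos s.d.h0]
  · rw [h1, add_sub_cancel_left, abs_of_pos s.d.h0]

lemma Rb (z : X) : |RT S h z - 1| ≤ h := (s.Rtwo z).le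

lemma Rpos (z : X) : 1 / 2 ≤ RT S h z ∧ RT S h z ≤ 2 := by
  have h1 := abs_le.1 (s.Rb z)
  have h2 := s.d.h1
  constructor <;> linarith

/-- convergence on the cylinder -/
lemma Rae : ∀ᵐ z ∂(volume.restrict (Cyl Ω T₀) : Measure X),
    Tendsto (fun n => (S n).R2 z) atTop (𝓝 (RT S h z)) := by
  have h1 : (volume.restrict (Cyl Ω T₀) : Measure X)
      = (volume.restrict (Ioo 0 T₀)).prod (volume.restrict Ω) := by
    rw [Measure.prod_restrict, ← Measure.volume_eq_prod]
    rfl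
  have h2 : ∀ l : ℝ, MeasurableSet {z : X | Tendsto (fun n => (S n).R2 z) atTop (𝓝 l)} := fun l =>
    measurableSet_tendsto (l := atTop) (𝓝 l) fun n => (s.R2c n).measurable
  have h2' : MeasurableSet {z : X | Tendsto (fun n => (S n).R2 z) atTop (𝓝 (1 - h)) ∨
      Tendsto (fun n => (S n).R2 z) atTop (𝓝 (1 + h))} := (h2 _).union (h2 _)
  have h3 : ∀ᵐ z ∂(volume.restrict (Cyl Ω T₀) : Measure X),
      Tendsto (fun n => (S n).R2 z) atTop (𝓝 (1 - h)) ∨
      Tendsto (fun n => (S n).R2 z) atTop (𝓝 (1 + h)) := by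
    rw [h1, Measure.ae_prod_iff_ae_ae h2']
    refine (ae_restrict_iff' measurableSet_Ioo).2 (Eventually.of_forall fun t ht => ?_)
    filter_upwards [s.Rsl ⟨ht.1.le, ht.2.le⟩] with x hx
    rcases RT_two S h (t, x) with h4 | h4
    · rw [h4] at hx; exact Or.inl hx
    · rw [h4] at hx; exact Or.inr hx
  filter_upwards [h3] with z hz
  unfold RT
  split_ifs with h5
  · exact h5
  · exact hz.resolve_left h5

lemma R_aesm : AEStronglyMeasurable (RT S h) (volume.restrict (Cyl Ω T₀) : Measure X) :=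
  aestronglyMeasurable_of_tendsto_ae _ (fun n => (s.R2c n).aestronglyMeasurable) s.Rae

lemma Rsl_aesm {t : ℝ} (ht : t ∈ Icc 0 T₀) :
    AEStronglyMeasurable (fun x : E3 => RT S h (t, x)) (volume.restrict Ω) :=
  aestronglyMeasurable_of_tendsto_ae _ (fun n => s.slice_aesm n t) (s.Rsl ht)

/-- the initial labels -/
lemma R2_init (n : ℕ) (x : E3) : (S n).R2 (0, x) = (S n).r x := by
  unfold St.R2
  congr 1
  ext i
  exact ((s.good n).lab_isLabel s.d.hK).init x i

/-- the mean of the initial datum -/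
lemma mean (hr0 : ∀ x, (S 0).r x = 1) :
    |∫ x in Ω, χ₂ x * (RT S h (0, x) - 1)| ≤ τ := by
  have hfin := s.fin
  have τ0 := s.c.τ0
  have h0 := s.d.h0
  have hrc : ∀ n, Continuous (S n).r := fun n => (s.good n).hr.continuous
  have hχc := s.d.χs2.continuous
  have h00 : (0:ℝ) ∈ Icc 0 T₀ := ⟨le_rfl, s.d.T0⟩
  have hint : ∀ n, Integrable (fun x => χ₂ x * (S n).r x) volume := fun n =>
    (hχc.mul (hrc n)).integrable_of_hasCompactSupport s.d.χc2.mul_right
  have hint1 : Integrable (fun x => χ₂ x) volume :=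
    hχc.integrable_of_hasCompactSupport s.d.χc2
  have t1 : ∀ n, |∫ x, χ₂ x * ((S n).r x - 1)| ≤ τ * (1 - (1 / 2) ^ n) := by
    intro n
    induction n with
    | zero => simp [hr0]
    | succ n ih =>
      have e1 : ∫ x, χ₂ x * ((S (n + 1)).r x - 1)
          = (∫ x, χ₂ x * ((S (n + 1)).r x - (S n).r x)) + ∫ x, χ₂ x * ((S n).r x - 1) := by
        rw [← integral_add]
        · refine integral_congr_ae (Eventually.of_forall fun x => ?_)
          beta_reduce
          ring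
        · exact (hχc.mul ((hrc (n + 1)).sub (hrc n))).integrable_of_hasCompactSupport
            s.d.χc2.mul_right
        · exact (hχc.mul ((hrc n).sub continuous_const)).integrable_of_hasCompactSupport
            s.d.χc2.mul_right
      rw [e1]
      refine (abs_add_le _ _).trans ((add_le_add (s.out n).mean ih).trans (le_of_eq ?_))
      rw [pow_succ]
      ring
  have t2 : ∀ n, |∫ x in Ω, χ₂ x * ((S n).r x - 1)| ≤ τ := by
    intro n
    rw [setIntegral_eq_integral_of_forall_compl_eq_zero (fun x hx => by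
      rw [s.χ₂0 x hx, zero_mul])]
    refine (t1 n).trans ?_
    have : 0 < (1 / 2 : ℝ) ^ n := by positivity
    nlinarith
  obtain ⟨C, hC⟩ := s.d.χc2.exists_bound_of_continuous hχc
  have t3 : Tendsto (fun n => ∫ x in Ω, χ₂ x * ((S n).r x - 1)) atTop
      (𝓝 (∫ x in Ω, χ₂ x * (RT S h (0, x) - 1))) := by
    refine tendsto_integral_of_dominated_convergence (fun _ => C * h)
      (fun n => (hχc.mul ((hrc n).sub continuous_const)).aestronglyMeasurable)
      (integrable_const _) (fun n => Eventually.of_forall fun x => ?_) ?_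
    · rw [norm_mul, Real.norm_eq_abs ((S n).r x - 1)]
      exact mul_le_mul (hC x) ((s.inv n).room x).le (abs_nonneg _) ((norm_nonneg _).trans (hC x))
    · filter_upwards [s.Rsl h00] with x hx
      have hx' : Tendsto (fun n => (S n).r x) atTop (𝓝 (RT S h (0, x))) := by
        refine hx.congr fun n => ?_
        exact s.R2_init n x
      exact (hx'.sub_const 1).const_mul _
  exact le_of_tendsto' t3.abs t2

/-- both values are taken -/
lemma both (hr0 : ∀ x, (S 0).r x = 1) (hτ : τ < h * ∫ x, χ₂ x) {e : ℝ} (he : |e| = 1) :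
    ¬ ∀ᵐ x ∂(volume.restrict Ω), RT S h (0, x) - 1 = e * h := by
  intro hcon
  have h1 := s.mean hr0
  have h2 : ∫ x in Ω, χ₂ x * (RT S h (0, x) - 1) = (e * h) * ∫ x, χ₂ x := by
    have e1 : ∫ x in Ω, χ₂ x * (RT S h (0, x) - 1) = ∫ x in Ω, (e * h) * χ₂ x := by
      refine integral_congr_ae ?_
      filter_upwards [hcon] with x hx
      rw [hx]; ring
    rw [e1, integral_const_mul]
    congr 1
    exact setIntegral_eq_integral_of_forall_compl_eq_zero fun x hx => s.χ₂0 x hx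
  rw [h2, abs_mul, abs_mul, he, one_mul, abs_of_pos s.d.h0] at h1
  have h3 : h * ∫ x, χ₂ x ≤ h * |∫ x, χ₂ x| :=
    mul_le_mul_of_nonneg_left (le_abs_self _) s.d.h0.le
  linarith

/-- continuity in time -/
lemma Rcont {t₀ : ℝ} (ht₀ : t₀ ∈ Icc 0 T₀) :
    Tendsto (fun t => eLpNorm (fun x : E3 => RT S h (t, x) - RT S h (t₀, x)) 2
      (volume.restrict Ω)) (𝓝[Icc 0 T₀] t₀) (𝓝 0) := by
  have hfin := s.fin
  have h1 := s.rt1
  have h2 := s.rt0
  have A0 := s.c.A0
  have τ0 := s.c.τ0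
  have h1r : 0 < 1 - rt ε := by linarith
  set C := √(A + τ) / (1 - rt ε) with hC
  have hC0 : 0 ≤ C := by positivity
  have hlim : Tendsto (fun n : ℕ => ENNReal.ofReal (C * rt ε ^ n)) atTop (𝓝 0) := by
    have := (tendsto_pow_atTop_nhds_zero_of_lt_one h2.le h1).const_mul C
    rw [mul_zero] at this
    have h3 := (ENNReal.continuous_ofReal.tendsto (0:ℝ)).comp this
    rw [ENNReal.ofReal_zero] at h3
    exact h3
  rw [ENNReal.tendsto_nhds_zero]
  intro e he
  have he3 : 0 < e / 3 := ENNReal.div_pos he.ne' (by norm_num)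
  obtain ⟨n, hn⟩ := (hlim.eventually (ge_mem_nhds he3)).exists
  have hn' : ENNReal.ofReal (C * rt ε ^ n) ≤ e / 3 := hn
  have hd := (dens_of_cont s.Ωo s.Ωb (T := T₀) (ρ := fun t x => (S n).R2 (t, x)) (C := 2)
    (s.R2c n) fun t x => ?_).cont 2 (by norm_num) (by norm_num) t₀ ht₀
  · rw [ENNReal.tendsto_nhds_zero] at hd
    filter_upwards [hd (e / 3) he3, self_mem_nhdsWithin] with t ht1 ht2
    have m1 : AEStronglyMeasurable (fun x : E3 => RT S h (t, x) - (S n).R2 (t, x))
      (volume.restrict Ω) := (s.Rsl_aesm ht2).sub (s.slice_aesm n t)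
    have m2 : AEStronglyMeasurable (fun x : E3 => (S n).R2 (t, x) - (S n).R2 (t₀, x))
      (volume.restrict Ω) := (s.slice_aesm n t).sub (s.slice_aesm n t₀)
    have m3 : AEStronglyMeasurable (fun x : E3 => RT S h (t₀, x) - (S n).R2 (t₀, x))
      (volume.restrict Ω) := (s.Rsl_aesm ht₀).sub (s.slice_aesm n t₀)
    have e1 : (fun x : E3 => RT S h (t, x) - RT S h (t₀, x))
        = ((fun x : E3 => RT S h (t, x) - (S n).R2 (t, x))
          + fun x : E3 => (S n).R2 (t, x) - (S n).R2 (t₀, x))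
          - fun x : E3 => RT S h (t₀, x) - (S n).R2 (t₀, x) := by
      ext x
      simp only [Pi.add_apply, Pi.sub_apply]
      ring
    rw [e1]
    refine (eLpNorm_sub_le (m1.add m2) m3 (by norm_num)).trans ?_
    refine (add_le_add (eLpNorm_add_le m1 m2 (by norm_num)) le_rfl).trans ?_
    calc eLpNorm (fun x : E3 => RT S h (t, x) - (S n).R2 (t, x)) 2 (volume.restrict Ω)
          + eLpNorm (fun x : E3 => (S n).R2 (t, x) - (S n).R2 (t₀, x)) 2 (volume.restrict Ω)
          + eLpNorm (fun x : E3 => RT S h (t₀, x) - (S n).R2 (t₀, x)) 2 (volume.restrict Ω)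
        ≤ e / 3 + e / 3 + e / 3 :=
          add_le_add (add_le_add ((s.Rrate ht2 n).trans hn') ht1) ((s.Rrate ht₀ n).trans hn')
      _ = e := ENNReal.add_thirds e
  · have h3 := abs_le.1 (s.R2b n (t, x))
    have h4 := s.d.h1
    constructor <;> linarith

/-- the density of the second solution -/
lemma dens {a : ℝ} (ha : 0 < a) : InDens Ω T₀ (fun t x => a / RT S h (t, x)) := by
  have hfin := s.fin
  have hq : ∀ z, 0 ≤ a / RT S h z ∧ a / RT S h z ≤ 2 * a := fun z => by
    obtain ⟨h1, h2⟩ := s.Rpos z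
    constructor
    · positivity
    · rw [div_le_iff₀ (by linarith)]
      nlinarith
  have hm : ∀ t ∈ Icc 0 T₀, AEStronglyMeasurable (fun x : E3 => a / RT S h (t, x))
      (volume.restrict Ω) := fun t ht =>
    ((s.Rsl_aesm ht).aemeasurable.const_div a).aestronglyMeasurable
  refine ⟨(s.R_aesm.aemeasurable.const_div a).aestronglyMeasurable, ⟨2 * a,
    Eventually.of_forall fun z => hq _⟩, fun p _ _ t ht => ?_, fun p hp hp' t₀ ht₀ => ?_⟩
  · exact MemLp.of_bound (hm t ht) (2 * a) (Eventually.of_forall fun x => by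
      rw [Real.norm_eq_abs, abs_of_nonneg (hq _).1]; exact (hq _).2)
  · -- compare with the specific volumes
    have key : Tendsto (fun t => eLpNorm (fun x : E3 => RT S h (t, x) - RT S h (t₀, x)) p
      (volume.restrict Ω)) (𝓝[Icc 0 T₀] t₀) (𝓝 0) := by
      -- restrict to times in the interval
      set cl : ℝ → ℝ := fun t => max 0 (min t T₀) with hcl
      have hclm : ∀ t, cl t ∈ Icc 0 T₀ := fun t =>
        ⟨le_max_left _ _, max_le s.d.T0 (min_le_right _ _)⟩
      have hcle : ∀ t ∈ Icc 0 T₀, cl t = t := fun t ht => by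
        simp only [hcl]
        rw [min_eq_left ht.2, max_eq_right ht.1]
      have h3 : Tendsto (fun t => eLpNorm (fun x : E3 => RT S h (cl t, x) - RT S h (t₀, x)) 2
          (volume.restrict Ω)) (𝓝[Icc 0 T₀] t₀) (𝓝 0) := by
        refine (s.Rcont ht₀).congr' ?_
        filter_upwards [self_mem_nhdsWithin] with t ht
        rw [hcle t ht]
      have h4 := tendsto_Lp_of_L2 (μ := volume.restrict Ω)
        (g := fun t (x : E3) => RT S h (cl t, x) - RT S h (t₀, x))
        (fun t => (s.Rsl_aesm (hclm t)).sub (s.Rsl_aesm ht₀))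
        (fun t => Eventually.of_forall fun x => by
          have e1 := abs_le.1 (s.Rb (cl t, x))
          have e2 := abs_le.1 (s.Rb (t₀, x))
          have e3 := s.d.h1
          exact abs_le.2 ⟨by linarith, by linarith⟩) h3 hp hp'
      refine h4.congr' ?_
      filter_upwards [self_mem_nhdsWithin] with t ht
      rw [hcle t ht]
    have h5 : Tendsto (fun t => ENNReal.ofReal (4 * a) *
        eLpNorm (fun x : E3 => RT S h (t, x) - RT S h (t₀, x)) p (volume.restrict Ω))
        (𝓝[Icc 0 T₀] t₀) (𝓝 0) := by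
      have := ENNReal.Tendsto.const_mul (a := ENNReal.ofReal (4 * a)) key
        (Or.inr ENNReal.ofReal_ne_top)
      rwa [mul_zero] at this
    refine tendsto_of_tendsto_of_tendsto_of_le_of_le tendsto_const_nhds h5 (fun _ => zero_le)
      fun t => ?_
    refine eLpNorm_le_mul_eLpNorm_of_ae_le_mul (Eventually.of_forall fun x => ?_) p
    obtain ⟨e1, e2⟩ := s.Rpos (t, x)
    obtain ⟨e3, e4⟩ := s.Rpos (t₀, x)
    have e5 : a / RT S h (t, x) - a / RT S h (t₀, x)
        = (a / (RT S h (t, x) * RT S h (t₀, x))) * (RT S h (t₀, x) - RT S h (t, x)) := by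
      have n1 : RT S h (t, x) ≠ 0 := by linarith
      have n2 : RT S h (t₀, x) ≠ 0 := by linarith
      field_simp
    rw [e5, norm_mul, Real.norm_eq_abs, Real.norm_eq_abs, Real.norm_eq_abs, abs_sub_comm]
    refine mul_le_mul_of_nonneg_right ?_ (abs_nonneg _)
    rw [abs_of_nonneg (by positivity), div_le_iff₀ (by positivity)]
    have : 1 / 4 ≤ RT S h (t, x) * RT S h (t₀, x) := by nlinarith
    nlinarith

end Sq

end

end Pool.Agent.KS6_88.TV
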