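import Pool.Agent.KS6_88.TV.Lim

open scoped ContDiff ENNReal
open Set MeasureTheory Filter Topology
open Pool.Agent.H729R2 Pool.Agent.H729R2.MHD

namespace Pool.Agent.KS6_88.TV

noncomputable section

set_option linter.unusedSectionVars false
set_option linter.unusedVariables false

/-- the limits of the iteration -/
structure LimB (Ω : Set E3) (K₀ : Set X) (T lam : ℝ) (S : ℕ → St) (uL : Fin 3 → X → ℝ)
    (xL : Fin 3 → Fin 3 → X → ℝ) (tL : Fin 3 → X → ℝ) (RL : X → ℝ) (fL : Fin 3 → X → ℝ) :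
    Prop where
  Ωo : IsOpen Ω
  Ωb : Bornology.IsBounded Ω
  hK : IsCompact K₀
  good : ∀ n, Good K₀ (S n)
  uc : ∀ i, Continuous (uL i)
  ul : ∃ c : ℕ → ℝ, Tendsto c atTop (𝓝 0) ∧ ∀ i n z, |(S n).u i z - uL i z| ≤ c n
  xc : ∀ i j, Continuous (xL i j)
  xl : ∃ c : ℕ → ℝ, Tendsto c atTop (𝓝 0) ∧ ∀ i j n z, |D (ev j) ((S n).u i) z - xL i j z| ≤ c n
  tc : ∀ i, Continuous (tL i)
  tl : ∃ c : ℕ → ℝ, Tendsto c atTop (𝓝 0) ∧ ∀ i n z, |D et ((S n).u i) z - tL i z| ≤ c n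
  Rae : ∀ᵐ z ∂(volume.restrict (Cyl Ω T) : Measure X),
    Tendsto (fun n => (S n).R2 z) atTop (𝓝 (RL z))
  R0 : ∀ᵐ x ∂(volume.restrict Ω), Tendsto (fun n => (S n).r x) atTop (𝓝 (RL (0, x)))
  Rb : ∀ z, 1 / 2 ≤ RL z ∧ RL z ≤ 2
  fm : ∀ i, MemLp (fL i) 2 (volume : Measure X)
  fz : ∀ i z, z ∉ K₀ → fL i z = 0
  fl : ∀ i, Tendsto (fun n => n2 (fun z => ff (S n) i z - fL i z)) atTop (𝓝 0)
  el : ∀ i, Tendsto (fun n => n2 (er (S n) lam i)) atTop (𝓝 0)

variable {K₀ : Set X} {T₀ ε h lam B μ A M₀ μ₀ dd τ : ℝ} {χ : X → ℝ} {χ₀ χ₂ : E3 → ℝ}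
  {Ω : Set E3} {S : ℕ → St}

/-- the limits exist -/
theorem Sq.exists_limB (s : Sq Ω K₀ T₀ ε h lam B μ χ χ₀ χ₂ A M₀ μ₀ dd τ S) :
    ∃ uL xL tL fL, LimB Ω K₀ T₀ lam S uL xL tL (RT S h) fL ∧
      (∀ i z, |(S 0).u i z - uL i z| ≤ τ) ∧ (∀ i z, |D et ((S 0).u i) z - tL i z| ≤ τ) ∧
      ∀ i j z, |D (ev j) ((S 0).u i) z - xL i j z| ≤ τ := by
  have A0 := s.c.A0
  have τ0 := s.c.τ0
  have h0 := s.d.h0
  have h1 := s.d.h1
  have ε0 := s.d.ε0
  have ε1 := s.d.ε1
  have hr0 := s.rt0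
  have hr1 := s.rt1
  have hK := s.d.hK
  have hs1 : Summable (fun n : ℕ => τ * (1 / 2 : ℝ) ^ (n + 1)) := by
    have : Summable (fun n : ℕ => (1 / 2 : ℝ) ^ n) := summable_geometric_two
    have h2 := (this.mul_left (τ * (1 / 2)))
    refine h2.congr fun n => ?_
    rw [pow_succ]; ring
  have hz : ∀ {b : ℕ → ℝ}, Tendsto (fun n => ∑' m, b (n + m)) atTop (𝓝 0) := by
    intro b
    have := tendsto_sum_nat_add b
    simpa [add_comm] using this
  have hsum : ∑' m : ℕ, τ * (1 / 2 : ℝ) ^ (0 + m + 1) ≤ τ := by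
    have h1 : ∀ m : ℕ, τ * (1 / 2 : ℝ) ^ (0 + m + 1) = τ / 2 / 2 ^ m := by
      intro m
      rw [zero_add, pow_succ, one_div, inv_pow]
      field_simp
    simp only [h1]
    exact (tsum_geometric_two' τ).le
  have hu := fun i => exists_ulim (fun n => (S n).u i) (fun n => ((s.good n).hu i).continuous)
    _ hs1 (fun n z => (s.out n).u i z)
  choose uL uc ul ub using hu
  have hx := fun i j => exists_ulim (fun n => D (ev j) ((S n).u i))
    (fun n => (D_smooth ((s.good n).hu i) (ev j)).continuous)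
    _ hs1 (fun n z => (s.out n).ux i j z)
  choose xL xc xl xb using hx
  have ht := fun i => exists_ulim (fun n => D et ((S n).u i))
    (fun n => (D_smooth ((s.good n).hu i) et).continuous)
    _ hs1 (fun n z => (s.out n).ut i z)
  choose tL tc tl tb using ht
  -- bounds
  have hLL : ∀ n, FF1 (S n) h B χ ≤ A * (rt ε ^ 2) ^ n ∧
      10000 / (ε ^ 2 * h ^ 2) * EE (S n) h lam ^ 2 ≤ A * (rt ε ^ 2) ^ n := by
    intro n
    have e1 := (s.inv n).L
    unfold LL at e1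
    have e2 := FF1_nonneg (S := S n) (h := h) s.d.ct
    have e3 := FF2_nonneg (S := S n) (h := h) s.d.ct
    have e4 : 0 ≤ 10000 / (ε ^ 2 * h ^ 2) * EE (S n) h lam ^ 2 := by positivity
    constructor <;> linarith
  have hsq : ∀ n : ℕ, A * (rt ε ^ 2) ^ n = (√A * rt ε ^ n) ^ 2 := fun n => by
    rw [mul_pow, Real.sq_sqrt A0.le, ← pow_mul, ← pow_mul, mul_comm n 2]
  have hF : ∀ n, √(FF1 (S n) h B χ) ≤ √A * rt ε ^ n := fun n => by
    refine Real.sqrt_le_iff.2 ⟨by positivity, ?_⟩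
    rw [← hsq]
    exact (hLL n).1
  have hE : ∀ n, EE (S n) h lam ≤ ε * h / 100 * (√A * rt ε ^ n) := fun n => by
    have e1 := (hLL n).2
    rw [hsq] at e1
    refine abs_le_of_sq_le_sq' ?_ (by positivity) |>.2
    rw [mul_pow]
    have e2 : 10000 / (ε ^ 2 * h ^ 2) * EE (S n) h lam ^ 2
      = EE (S n) h lam ^ 2 / (ε * h / 100) ^ 2 := by
      field_simp
      norm_num
      ring
    rw [e2, div_le_iff₀ (by positivity)] at e1
    linarith
  -- force
  have hs4 : Summable (fun n : ℕ => (2 * √A + τ) * rt ε ^ n) :=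
    (summable_geometric_of_lt_one hr0.le hr1).mul_left _
  have hfm : ∀ n i, MemLp (ff (S n) i) 2 (volume : Measure X) := fun n i =>
    memLp_cc (((s.good n).R1s.mul ((s.good n).gps i)).continuous)
      (HasCompactSupport.intro hK fun z hz => by simp [ff, (s.good n).gp_zero hz])
  have hvm : ∀ n, MemLp (nv (fun i z => ff (S (n + 1)) i z - ff (S n) i z)) 2
      (volume : Measure X) := fun n =>
    nv_memLp (fun i => (((s.good (n + 1)).R1s.mul ((s.good (n + 1)).gps i)).continuous).sub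
      (((s.good n).R1s.mul ((s.good n).gps i)).continuous)) hK
      (fun z hz i => by simp [ff, (s.good n).gp_zero hz, (s.good (n + 1)).gp_zero hz])
  have hfd : ∀ n, n2 (nv (fun i z => ff (S (n + 1)) i z - ff (S n) i z))
      ≤ (2 * √A + τ) * rt ε ^ n := by
    intro n
    refine (s.out n).ff.trans ?_
    have e1 := hF n
    have e2 := hE n
    have e3 : (1 / 2 : ℝ) ^ (n + 1) ≤ rt ε ^ n := by
      have k1 : (1 / 2 : ℝ) ^ (n + 1) ≤ (1 / 2 : ℝ) ^ n := by
        rw [pow_succ]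
        have : 0 < (1 / 2 : ℝ) ^ n := by positivity
        linarith
      exact k1.trans (pow_le_pow_left₀ (by norm_num) (rt_pos ε0 ε1).le n)
    have e4 : ε * h ≤ 1 := by nlinarith
    have e5 : 2 / (ε * h) * EE (S n) h lam ≤ 2 / (ε * h) * (ε * h / 100 * (√A * rt ε ^ n)) :=
      mul_le_mul_of_nonneg_left e2 (by positivity)
    have e6 : 2 / (ε * h) * (ε * h / 100 * (√A * rt ε ^ n)) = 1 / 50 * (√A * rt ε ^ n) := by
      field_simp
      ring
    have e7 : ε * h * √(FF1 (S n) h B χ) ≤ 1 * (√A * rt ε ^ n) :=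
      mul_le_mul e4 e1 (Real.sqrt_nonneg _) (by norm_num)
    have e8 : τ * (1 / 2) ^ (n + 1) ≤ τ * rt ε ^ n := mul_le_mul_of_nonneg_left e3 τ0.le
    have e9 : 0 ≤ √A * rt ε ^ n := by positivity
    rw [e6] at e5
    linarith
  have hf := fun i => exists_L2lim hK (fun n => ff (S n) i) (fun n => hfm n i)
    (fun n z hz => by simp [ff, (s.good n).gp_zero hz]) _ hs4
    (fun n => (n2_mono (hvm n) fun z =>
      abs_le_nv (fun i z => ff (S (n + 1)) i z - ff (S n) i z) i z).trans (hfd n))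
  choose fL fm fz fl using hf
  refine ⟨uL, xL, tL, fL, ⟨s.Ωo, s.Ωb, hK, s.good, uc,
    ⟨_, hz (b := fun n => τ * (1 / 2 : ℝ) ^ (n + 1)), fun i n z => ub i n z⟩, xc,
    ⟨_, hz (b := fun n => τ * (1 / 2 : ℝ) ^ (n + 1)), fun i j n z => xb i j n z⟩, tc,
    ⟨_, hz (b := fun n => τ * (1 / 2 : ℝ) ^ (n + 1)), fun i n z => tb i n z⟩, s.Rae, ?_, s.Rpos,
    fm, fz, fl, ?_⟩, ?_, ?_, ?_⟩
  · filter_upwards [s.Rsl (t := 0) ⟨le_rfl, s.d.T0⟩] with x hx
    exact hx.congr fun n => s.R2_init n x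
  · intro i
    have h2 : Tendsto (fun n : ℕ => 3 / 2 * (ε * h / 100 * (√A * rt ε ^ n))) atTop (𝓝 0) := by
      have := (((tendsto_pow_atTop_nhds_zero_of_lt_one hr0.le hr1).const_mul (√A)).const_mul
        (ε * h / 100)).const_mul (3 / 2)
      simpa using this
    refine squeeze_zero (fun n => n2_nonneg _) (fun n => ?_) h2
    have hm := (s.sok n).ve_mem (lam := lam)
    have e1 : n2 (er (S n) lam i) ≤ n2 (fun z => 3 / 2 * (vv (S n) h z * nv (er (S n) lam) z)) := by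
      refine n2_mono (hm.const_mul (3 / 2)) fun z => ?_
      refine (abs_le_nv (er (S n) lam) i z).trans ?_
      have := mul_le_mul_of_nonneg_right ((s.sok n).one_le_vv z) (nv_nonneg (er (S n) lam) z)
      linarith
    refine e1.trans ?_
    rw [n2_const_mul, abs_of_pos (by norm_num)]
    exact mul_le_mul_of_nonneg_left (hE n) (by norm_num)
  · intro i z
    have := ub i 0 z
    refine this.trans ?_
    simpa using hsum
  · intro i z
    have := tb i 0 z
    refine this.trans ?_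
    simpa using hsum
  · intro i j z
    have := xb i j 0 z
    refine this.trans ?_
    simpa using hsum

end

end Pool.Agent.KS6_88.TV
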