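import Pool.Agent.KS6_88.TV.Iter
import Pool.Agent.KS6_88.TV.BA
import Pool.Graph.R_seed8.H729R2.Fin4

open scoped ContDiff ENNReal
open Set MeasureTheory Filter Topology
open Pool.Agent.H729R2

namespace Pool.Agent.KS6_88.TV

noncomputable section

set_option linter.unusedSectionVars false
set_option linter.unusedVariables false

section abstract_seq

variable {α : Type} [MeasurableSpace α] {μ : Measure α} {f : ℕ → α → ℝ} {c r : ℝ}

/-- telescoping in `L²` -/
lemma l2_tele (hf : ∀ n, AEStronglyMeasurable (f n) μ) (hc : 0 ≤ c) (hr0 : 0 ≤ r) (hr1 : r < 1)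
    (h : ∀ n, eLpNorm (fun x => f (n + 1) x - f n x) 2 μ ≤ ENNReal.ofReal (c * r ^ n)) (n k : ℕ) :
    eLpNorm (fun x => f (n + k) x - f n x) 2 μ
      ≤ ENNReal.ofReal (c * r ^ n * ((1 - r ^ k) / (1 - r))) := by
  have h1r : 0 < 1 - r := by linarith
  induction k with
  | zero => simp
  | succ k ih =>
    have e1 : (fun x => f (n + (k + 1)) x - f n x)
        = (fun x => f (n + k + 1) x - f (n + k) x) + fun x => f (n + k) x - f n x := by
      ext x
      simp only [Pi.add_apply, ← add_assoc]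
      ring
    rw [e1]
    refine (eLpNorm_add_le ((hf _).sub (hf _)) ((hf _).sub (hf _)) (by norm_num)).trans ?_
    refine (add_le_add (h (n + k)) ih).trans ?_
    have hk : r ^ k ≤ 1 := pow_le_one₀ hr0 hr1.le
    rw [← ENNReal.ofReal_add (by positivity)
      (mul_nonneg (by positivity) (div_nonneg (by linarith) h1r.le))]
    refine le_of_eq ?_
    congr 1
    rw [pow_add, pow_succ]
    field_simp
    ring

lemma l2_tele' (hf : ∀ n, AEStronglyMeasurable (f n) μ) (hc : 0 ≤ c) (hr0 : 0 ≤ r) (hr1 : r < 1)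
    (h : ∀ n, eLpNorm (fun x => f (n + 1) x - f n x) 2 μ ≤ ENNReal.ofReal (c * r ^ n)) {n m : ℕ}
    (hnm : n ≤ m) :
    eLpNorm (fun x => f m x - f n x) 2 μ ≤ ENNReal.ofReal (c / (1 - r) * r ^ n) := by
  obtain ⟨k, rfl⟩ := Nat.exists_eq_add_of_le hnm
  refine (l2_tele hf hc hr0 hr1 h n k).trans (ENNReal.ofReal_le_ofReal ?_)
  have h1r : 0 < 1 - r := by linarith
  have hk : 0 ≤ r ^ k := pow_nonneg hr0 k
  have h2 : c / (1 - r) * r ^ n = c * r ^ n * (1 / (1 - r)) := by ring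
  rw [h2]
  refine mul_le_mul_of_nonneg_left ?_ (by positivity)
  exact div_le_div_of_nonneg_right (by linarith) h1r.le

/-- almost everywhere convergence -/
lemma l2_ae (hf : ∀ n, AEStronglyMeasurable (f n) μ) (hc : 0 ≤ c) (hr0 : 0 < r) (hr1 : r < 1)
    (h : ∀ n, eLpNorm (fun x => f (n + 1) x - f n x) 2 μ ≤ ENNReal.ofReal (c * r ^ n)) :
    ∀ᵐ x ∂μ, ∃ l, Tendsto (fun n => f n x) atTop (𝓝 l) := by
  have h1r : 0 < 1 - r := by linarith
  have hc' : 0 ≤ c / (1 - r) := by positivity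
  refine Lp.ae_tendsto_of_cauchy_eLpNorm (p := 2) hf (by norm_num)
    (B := fun n => ENNReal.ofReal ((2 * (c / (1 - r)) + 1) * r ^ n)) ?_ ?_
  · rw [← ENNReal.ofReal_tsum_of_nonneg (fun n => by positivity)
      ((summable_geometric_of_lt_one hr0.le hr1).mul_left _)]
    exact ENNReal.ofReal_ne_top
  · intro N n m hn hm
    have e1 : f n - f m = (fun x => f n x - f N x) - (fun x => f m x - f N x) := by
      ext x
      simp only [Pi.sub_apply]
      ring
    rw [e1]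
    refine lt_of_le_of_lt (eLpNorm_sub_le ((hf _).sub (hf _)) ((hf _).sub (hf _))
      (by norm_num)) ?_
    refine lt_of_le_of_lt (add_le_add (l2_tele' hf hc hr0.le hr1 h hn)
      (l2_tele' hf hc hr0.le hr1 h hm)) ?_
    rw [← ENNReal.ofReal_add (by positivity) (by positivity)]
    have hp : 0 < r ^ N := pow_pos hr0 N
    refine (ENNReal.ofReal_lt_ofReal_iff (by positivity)).2 ?_
    nlinarith

/-- the rate of convergence -/
lemma l2_rate (hf : ∀ n, AEStronglyMeasurable (f n) μ) (hc : 0 ≤ c) (hr0 : 0 ≤ r) (hr1 : r < 1)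
    (h : ∀ n, eLpNorm (fun x => f (n + 1) x - f n x) 2 μ ≤ ENNReal.ofReal (c * r ^ n))
    {g : α → ℝ} (hg : ∀ᵐ x ∂μ, Tendsto (fun n => f n x) atTop (𝓝 (g x))) (n : ℕ) :
    eLpNorm (fun x => g x - f n x) 2 μ ≤ ENNReal.ofReal (c / (1 - r) * r ^ n) := by
  refine (Lp.eLpNorm_lim_le_liminf_eLpNorm (f := fun m x => f m x - f n x)
    (fun m => (hf m).sub (hf n)) (fun x => g x - f n x) ?_).trans ?_
  · filter_upwards [hg] with x hx
    exact hx.sub_const _
  · refine liminf_le_of_frequently_le' (Eventually.frequently ?_)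
    filter_upwards [eventually_ge_atTop n] with m hm
    exact l2_tele' hf hc hr0 hr1 h hm

/-- powers of bounded functions -/
lemma eLpNorm_le_one {g : α → ℝ} (hg : ∀ᵐ x ∂μ, |g x| ≤ 1) {p : ℝ≥0∞} (hp : 1 ≤ p) (hp' : p ≠ ⊤) :
    eLpNorm g p μ ≤ (eLpNorm g 1 μ) ^ (1 / p.toReal) := by
  have hp0 : p ≠ 0 := fun h0 => by simp [h0] at hp
  have hpr : 1 ≤ p.toReal := by
    have := ENNReal.toReal_mono hp' hp
    simpa using this
  rw [eLpNorm_eq_lintegral_rpow_enorm_toReal hp0 hp', eLpNorm_one_eq_lintegral_enorm]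
  refine ENNReal.rpow_le_rpow ?_ (by positivity)
  refine lintegral_mono_ae ?_
  filter_upwards [hg] with x hx
  have h1 : ‖g x‖ₑ ≤ 1 := by
    rw [Real.enorm_eq_ofReal_abs]
    exact ENNReal.ofReal_le_one.2 hx
  calc ‖g x‖ₑ ^ p.toReal ≤ ‖g x‖ₑ ^ (1:ℝ) := ENNReal.rpow_le_rpow_of_exponent_ge h1 hpr
    _ = ‖g x‖ₑ := ENNReal.rpow_one _

/-- convergence in `L²` of bounded functions gives convergence in `L^p` -/
lemma tendsto_Lp_of_L2 {ι : Type} {l : Filter ι} [IsFiniteMeasure μ] {g : ι → α → ℝ}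
    (hgm : ∀ t, AEStronglyMeasurable (g t) μ)
    (hg : ∀ t, ∀ᵐ x ∂μ, |g t x| ≤ 1) (h : Tendsto (fun t => eLpNorm (g t) 2 μ) l (𝓝 0))
    {p : ℝ≥0∞} (hp : 1 ≤ p) (hp' : p ≠ ⊤) : Tendsto (fun t => eLpNorm (g t) p μ) l (𝓝 0) := by
  have hp0 : p ≠ 0 := fun h0 => by simp [h0] at hp
  have hpr : 0 < p.toReal := ENNReal.toReal_pos hp0 hp'
  have h1 : Tendsto (fun t => eLpNorm (g t) 1 μ) l (𝓝 0) := by
    have h2 : ∀ t, eLpNorm (g t) 1 μ ≤ eLpNorm (g t) 2 μ * μ univ ^ (1 / (1:ℝ≥0∞).toReal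
        - 1 / (2:ℝ≥0∞).toReal) := fun t =>
      eLpNorm_le_eLpNorm_mul_rpow_measure_univ (by norm_num) (hgm t)
    have h3 : Tendsto (fun t => eLpNorm (g t) 2 μ * μ univ ^ (1 / (1:ℝ≥0∞).toReal
        - 1 / (2:ℝ≥0∞).toReal)) l (𝓝 0) := by
      have := ENNReal.Tendsto.mul_const (b := μ univ ^ (1 / (1:ℝ≥0∞).toReal
        - 1 / (2:ℝ≥0∞).toReal)) h (Or.inr ?_)
      · simpa using this
      · exact ENNReal.rpow_ne_top_of_nonneg (by norm_num) (measure_ne_top _ _)
    exact tendsto_of_tendsto_of_tendsto_of_le_of_le tendsto_const_nhds h3 (fun _ => zero_le) h2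
  have h4 : Tendsto (fun t => (eLpNorm (g t) 1 μ) ^ (1 / p.toReal)) l (𝓝 0) := by
    have := (ENNReal.continuous_rpow_const (y := 1 / p.toReal)).tendsto 0
    rw [ENNReal.zero_rpow_of_pos (by positivity)] at this
    exact this.comp h1
  exact tendsto_of_tendsto_of_tendsto_of_le_of_le tendsto_const_nhds h4 (fun _ => zero_le)
    fun t => eLpNorm_le_one (hg t) hp hp'

end abstract_seq

/-- the pointwise limit, `1` if it does not exist -/
def plim (F : ℕ → X → ℝ) (z : X) : ℝ :=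
  open Classical in if h : ∃ l, Tendsto (fun n => F n z) atTop (𝓝 l) then h.choose else 1

lemma plim_spec {F : ℕ → X → ℝ} {z : X} (h : ∃ l, Tendsto (fun n => F n z) atTop (𝓝 l)) :
    Tendsto (fun n => F n z) atTop (𝓝 (plim F z)) := by
  unfold plim
  rw [dif_pos h]
  exact h.choose_spec

lemma plim_bound {F : ℕ → X → ℝ} {b : ℝ} (hb : 0 ≤ b) (h : ∀ n z, |F n z - 1| ≤ b) (z : X) :
    |plim F z - 1| ≤ b := by
  by_cases hz : ∃ l, Tendsto (fun n => F n z) atTop (𝓝 l)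
  · exact le_of_tendsto' ((plim_spec hz).sub_const 1).abs fun n => h n z
  · unfold plim
    rw [dif_neg hz]
    simpa using hb

end

end Pool.Agent.KS6_88.TV
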