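import Pool.Agent.KS6_88.TV.LimC

open scoped ContDiff ENNReal
open Set MeasureTheory Filter Topology
open Pool.Agent.H729R2 Pool.Agent.H729R2.MHD

namespace Pool.Agent.KS6_88.TV

noncomputable section

set_option linter.unusedSectionVars false
set_option linter.unusedVariables false

lemma BA.integrableOn {A : Set X} {F : ℕ → X → ℝ} {f : X → ℝ} (hA : IsCompact A)
    (h : BA A F f) : IntegrableOn f A := by
  obtain ⟨C, h0, hC, hb⟩ := h.bound
  have hfin : IsFiniteMeasure (volume.restrict A : Measure X) :=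
    ⟨by rw [Measure.restrict_apply_univ]; exact hA.measure_lt_top⟩
  refine Integrable.mono' (integrable_const C) h.aesm ?_
  filter_upwards [hb hA.measurableSet] with z hz
  exact hz

lemma BA.integrableOn_mul {A : Set X} {F : ℕ → X → ℝ} {f : X → ℝ} (hA : IsCompact A)
    (h : BA A F f) {g : X → ℝ} (hg : MemLp g 2 (volume : Measure X)) :
    IntegrableOn (fun z => f z * g z) A := by
  obtain ⟨C, h0, hC, hb⟩ := h.bound
  have hgi : IntegrableOn g A := by
    have : Integrable (fun z => A.indicator (fun _ => (1:ℝ)) z * g z) :=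
      (memLp_ind hA).integrable_mul hg
    refine (integrable_indicator_iff hA.measurableSet).1 (this.congr
      (Eventually.of_forall fun z => ?_))
    by_cases hz : z ∈ A <;> simp [hz]
  exact Integrable.bdd_mul (c := C) hgi h.aesm (hb hA.measurableSet)

/-- the momentum equation for the approximate second solution -/
lemma second_eq' {K₀ : Set X} {S : St} (h : Good K₀ S) (hK : IsCompact K₀) (lam : ℝ)
    {φ : Fin 3 → X → ℝ} (hφ : ∀ i, ContDiff ℝ ∞ (φ i))
    (hc : ∀ i, HasCompactSupport (φ i)) (hdiv : ∀ z ∈ K₀, ∑ i, D (ev i) (φ i) z = 0) :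
    lam * (∑ i, ∫ z in K₀, P2 S z * (S.u i z * (D et (φ i) z + ∑ j, S.u j z * D (ev j) (φ i) z)))
      - (∑ i, ∑ j, ∫ z in K₀, (D (ev j) (S.u i) z + D (ev i) (S.u j) z) * D (ev j) (φ i) z)
      + ∑ i, ∫ z in K₀, (P2 S z * φ i z) * ff S i z
      = - ∑ i, ∫ z in K₀, (P2 S z * φ i z) * er S lam i z := by
  have h1 := h.second_eq hK hφ hc hdiv
  have hu0 : ∀ i z, z ∉ K₀ → S.u i z = 0 := fun i z hz =>
    image_eq_zero_of_notMem_tsupport fun h' => hz (h.uK i h')
  have r1 : ∀ i, ∫ z in K₀, P2 S z * (S.u i z * (D et (φ i) z + ∑ j, S.u j z * D (ev j) (φ i) z))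
      = ∫ z, P2 S z * (S.u i z * (D et (φ i) z + ∑ j, S.u j z * D (ev j) (φ i) z)) := fun i =>
    setIntegral_eq_integral_of_forall_compl_eq_zero (fun z hz => by simp [hu0 i z hz])
  have r2 : ∀ i, ∫ z in K₀, P2 S z * (S.acc i z * φ i z) = ∫ z, P2 S z * (S.acc i z * φ i z) :=
    fun i => setIntegral_eq_integral_of_forall_compl_eq_zero (fun z hz => by
      simp [h.acc_zero hz])
  have r3 : ∀ i, ∫ z in K₀, (P2 S z * φ i z) * er S lam i z
      = (∫ z in K₀, (P2 S z * φ i z) * S.e i z)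
        + (lam - 1) * ∫ z in K₀, P2 S z * (S.acc i z * φ i z) := by
    intro i
    have i1 : Integrable (fun z => (P2 S z * φ i z) * S.e i z) (volume.restrict K₀) :=
      (int_cc (((h.P2s hK).mul (hφ i)).mul (h.es hK i)) ((hc i).mul_left).mul_right).restrict
    have i2 : Integrable (fun z => P2 S z * (S.acc i z * φ i z)) (volume.restrict K₀) :=
      (int_cc ((h.P2s hK).mul ((h.accs i).mul (hφ i))) (hc i).mul_left.mul_left).restrict
    rw [← integral_const_mul, ← integral_add i1 (i2.const_mul _)]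
    refine integral_congr_ae (Eventually.of_forall fun z => ?_)
    simp only [er, St.e]
    ring
  simp only [r3, Finset.sum_add_distrib]
  have r4 : ∀ i, ∫ z in K₀, P2 S z * (S.acc i z * φ i z)
      = - ∫ z in K₀, P2 S z * (S.u i z * (D et (φ i) z + ∑ j, S.u j z * D (ev j) (φ i) z)) := by
    intro i
    rw [r1, r2, h.acc_eq hK hφ hc i]
  simp only [r4]
  rw [← Finset.mul_sum, Finset.sum_neg_distrib]
  linear_combination h1

namespace LimB

variable {Ω : Set E3} {K₀ : Set X} {T lam : ℝ} {S : ℕ → St} {uL : Fin 3 → X → ℝ}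
  {xL : Fin 3 → Fin 3 → X → ℝ} {tL : Fin 3 → X → ℝ} {RL : X → ℝ} {fL : Fin 3 → X → ℝ}
  (h : LimB Ω K₀ T lam S uL xL tL RL fL)
include h

lemma ba_P2 {A : Set X} (hA : A ⊆ Cyl Ω T) :
    BA A (fun n => P2 (S n)) (fun z => 1 / RL z) := by
  refine BA.inv ⟨fun n => ((h.good n).R2s h.hK).continuous, ⟨2, by norm_num, fun n z _ => ?_⟩,
    ae_restrict_of_ae_restrict_of_subset hA h.Rae⟩ (fun n z => (h.good n).rlo _)
  exact abs_le.2 ⟨by have : 1 / 2 ≤ (S n).R2 z := (h.good n).rlo _; linarith, (h.good n).rhi _⟩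

lemma ba_P1 {A : Set X} (hA : A ⊆ Cyl Ω T) :
    BA A (fun n => P1 (S n)) (fun z => 1 / RL (0, z.2)) := by
  have h1 : (volume.restrict (Cyl Ω T) : Measure X)
      = (volume.restrict (Ioo 0 T)).prod (volume.restrict Ω) := by
    rw [Measure.prod_restrict, ← Measure.volume_eq_prod]
    rfl
  have h2 : ∀ᵐ z ∂(volume.restrict (Cyl Ω T) : Measure X),
      Tendsto (fun n => (S n).R1 z) atTop (𝓝 (RL (0, z.2))) := by
    rw [h1]
    exact (Measure.quasiMeasurePreserving_snd (μ := volume.restrict (Ioo (0:ℝ) T))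
      (ν := volume.restrict Ω)).ae h.R0
  refine BA.inv ⟨fun n => (h.good n).R1s.continuous, ⟨2, by norm_num, fun n z _ => ?_⟩,
    ae_restrict_of_ae_restrict_of_subset hA h2⟩ (fun n z => (h.good n).rlo _)
  exact abs_le.2 ⟨by have : 1 / 2 ≤ (S n).R1 z := (h.good n).rlo _; linarith, (h.good n).rhi _⟩

lemma ba_u {A : Set X} (hA : IsCompact A) (i : Fin 3) : BA A (fun n => (S n).u i) (uL i) :=
  BA.of_BT hA.measurableSet (h.bt_u hA i)

lemma ba_x {A : Set X} (hA : IsCompact A) (i j : Fin 3) :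
    BA A (fun n => D (ev j) ((S n).u i)) (xL i j) :=
  BA.of_BT hA.measurableSet (h.bt_x hA i j)

lemma transport_lim {ψ : X → ℝ} (hψ : ContDiff ℝ ∞ ψ) (hc : HasCompactSupport ψ)
    (hT : tsupport ψ ⊆ Cyl Ω T) :
    ∫ z in tsupport ψ, 1 / RL z * (D et ψ z + ∑ j, uL j z * D (ev j) ψ z) = 0 := by
  have hA : IsCompact (tsupport ψ) := hc
  have h1 : BA (tsupport ψ)
      (fun n z => P2 (S n) z * (D et ψ z + ∑ j, (S n).u j z * D (ev j) ψ z))
      (fun z => 1 / RL z * (D et ψ z + ∑ j, uL j z * D (ev j) ψ z)) :=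
    (h.ba_P2 hT).mul ((BA.const hA (D_smooth hψ et).continuous).add
      (BA.sum Finset.univ fun j _ => (h.ba_u hA j).mul
        (BA.const hA (D_smooth hψ (ev j)).continuous)))
  have h2 := h1.int hA
  have h3 : ∀ n, ∫ z in tsupport ψ, P2 (S n) z * (D et ψ z + ∑ j, (S n).u j z * D (ev j) ψ z)
      = 0 := by
    intro n
    rw [setIntegral_eq_integral_of_forall_compl_eq_zero (fun z hz => ?_)]
    · exact (h.good n).transport_eq h.hK hψ hc
    · rw [D_eq_zero_of_notMem _ hz]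
      have : ∀ j, D (ev j) ψ z = 0 := fun j => D_eq_zero_of_notMem _ hz
      simp [this]
  simp only [h3] at h2
  exact (tendsto_nhds_unique h2 tendsto_const_nhds)

lemma second_lim (hKΩ : K₀ ⊆ Cyl Ω T) {φ : Fin 3 → X → ℝ} (hφ : ∀ i, ContDiff ℝ ∞ (φ i))
    (hc : ∀ i, HasCompactSupport (φ i)) (hdiv : ∀ z ∈ K₀, ∑ i, D (ev i) (φ i) z = 0) :
    lam * (∑ i, ∫ z in K₀, 1 / RL z * (uL i z * (D et (φ i) z + ∑ j, uL j z * D (ev j) (φ i) z)))
      - (∑ i, ∑ j, ∫ z in K₀, (xL i j z + xL j i z) * D (ev j) (φ i) z)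
      + ∑ i, ∫ z in K₀, (1 / RL z * φ i z) * fL i z = 0 := by
  have hK := h.hK
  have hP := h.ba_P2 hKΩ
  have hφc : ∀ i, BA K₀ (fun _ => φ i) (φ i) := fun i => BA.const hK (hφ i).continuous
  have t1 : ∀ i, Tendsto (fun n => ∫ z in K₀, P2 (S n) z * ((S n).u i z * (D et (φ i) z
      + ∑ j, (S n).u j z * D (ev j) (φ i) z))) atTop
      (𝓝 (∫ z in K₀, 1 / RL z * (uL i z * (D et (φ i) z + ∑ j, uL j z * D (ev j) (φ i) z)))) :=
    fun i => BA.int hK (hP.mul ((h.ba_u hK i).mul ((BA.const hK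
      (D_smooth (hφ i) et).continuous).add (BA.sum Finset.univ fun j _ => (h.ba_u hK j).mul
        (BA.const hK (D_smooth (hφ i) (ev j)).continuous)))))
  have t2 : ∀ i j, Tendsto (fun n => ∫ z in K₀, (D (ev j) ((S n).u i) z
      + D (ev i) ((S n).u j) z) * D (ev j) (φ i) z) atTop
      (𝓝 (∫ z in K₀, (xL i j z + xL j i z) * D (ev j) (φ i) z)) :=
    fun i j => BA.int hK (((h.ba_x hK i j).add (h.ba_x hK j i)).mul
      (BA.const hK (D_smooth (hφ i) (ev j)).continuous))
  have t3 : ∀ i, Tendsto (fun n => ∫ z in K₀, (P2 (S n) z * φ i z) * ff (S n) i z) atTop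
      (𝓝 (∫ z in K₀, (1 / RL z * φ i z) * fL i z)) := fun i =>
    BA.intL2 hK (hP.mul (hφc i)) (fun n =>
      memLp_cc (((h.good n).R1s.mul ((h.good n).gps i)).continuous)
      (HasCompactSupport.intro hK fun z hz => by simp [ff, (h.good n).gp_zero hz]))
      (h.fm i) (h.fl i)
  have t4 : ∀ i, Tendsto (fun n => ∫ z in K₀, (P2 (S n) z * φ i z) * er (S n) lam i z) atTop
      (𝓝 0) := by
    intro i
    have := BA.intL2 hK (hP.mul (hφc i)) (G := fun n => er (S n) lam i) (g := fun _ => 0) (fun n =>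
      memLp_cc (((contDiff_const.mul ((h.good n).accs i)).add (((h.good n).R2s hK).mul
        ((h.good n).bs i))).sub ((h.good n).R1s.mul ((h.good n).gps i))).continuous
      (HasCompactSupport.intro hK fun z hz => by
        simp [er, (h.good n).acc_zero hz, (h.good n).b_zero hz, (h.good n).gp_zero hz]))
      MemLp.zero' (by simpa using h.el i)
    simpa using this
  have T1 := (tendsto_finsetSum Finset.univ fun i _ => t1 i).const_mul lam
  have T2 := tendsto_finsetSum Finset.univ fun i _ =>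
    tendsto_finsetSum Finset.univ fun j _ => t2 i j
  have T3 := tendsto_finsetSum Finset.univ fun i _ => t3 i
  have T4 := (tendsto_finsetSum Finset.univ fun i _ => t4 i).neg
  have T := (T1.sub T2).add T3
  have T' := T.congr fun n => second_eq' (h.good n) hK lam hφ hc hdiv
  have := tendsto_nhds_unique T' T4
  simpa using this

lemma first_lim (hKΩ : K₀ ⊆ Cyl Ω T) {φ : Fin 3 → X → ℝ} (hφ : ∀ i, ContDiff ℝ ∞ (φ i))
    (hc : ∀ i, HasCompactSupport (φ i)) (hdiv : ∀ z ∈ K₀, ∑ i, D (ev i) (φ i) z = 0) :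
    ∑ i, ∫ z in K₀, (1 / RL (0, z.2) * φ i z) * fL i z = 0 := by
  have hK := h.hK
  have hP := h.ba_P1 hKΩ
  have hφc : ∀ i, BA K₀ (fun _ => φ i) (φ i) := fun i => BA.const hK (hφ i).continuous
  have t3 : ∀ i, Tendsto (fun n => ∫ z in K₀, (P1 (S n) z * φ i z) * ff (S n) i z) atTop
      (𝓝 (∫ z in K₀, (1 / RL (0, z.2) * φ i z) * fL i z)) := fun i =>
    BA.intL2 hK (hP.mul (hφc i)) (fun n =>
      memLp_cc (((h.good n).R1s.mul ((h.good n).gps i)).continuous)
      (HasCompactSupport.intro hK fun z hz => by simp [ff, (h.good n).gp_zero hz]))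
      (h.fm i) (h.fl i)
  have T3 := tendsto_finsetSum Finset.univ fun i _ => t3 i
  have T' := T3.congr fun n => (h.good n).first_eq hK hφ hc hdiv
  exact (tendsto_nhds_unique T' tendsto_const_nhds)

/-- the momentum equation for the second solution -/
lemma momentum2 (hKΩ : K₀ ⊆ Cyl Ω T) {η : ℝ → ℝ} {c η₀ : ℝ} (hlam : lam ≠ 0)
    (hcη : c = lam * η₀) (hη : ∀ z, η (c / RL z) = η₀) (ρ₀ : E3 → ℝ) :
    Momentum Ω T η ρ₀ 0 (fun t x => vec fun i => fL i (t, x) / lam)
      (fun t x => c / RL (t, x)) (fun t x => vec fun i => uL i (t, x))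
      (fun t x i j => xL i j (t, x)) 0 (fun _ _ _ _ => 0) := by
  intro φ hφ hdiv
  have hΩ := h.Ωo
  have hK := h.hK
  have hs := test_smooth hφ
  have hc := test_hcs hφ
  have hdiv' : ∀ z ∈ K₀, ∑ i, D (ev i) (fun y => φ y i) z = 0 := fun z hz =>
    hdiv z ⟨⟨(hKΩ hz).1.1.le, (hKΩ hz).1.2⟩, (hKΩ hz).2⟩
  have hmain := h.second_lim hKΩ (φ := fun i y => φ y i) hs hc hdiv'
  have hP := h.ba_P2 hKΩ
  have hDc : ∀ i v, BA K₀ (fun _ => D v (fun y => φ y i)) (D v (fun y => φ y i)) := fun i v =>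
    BA.const hK (D_smooth (hs i) v).continuous
  have hφc : ∀ i, BA K₀ (fun _ y => φ y i) (fun y => φ y i) := fun i =>
    BA.const hK (hs i).continuous
  have i1 : ∀ i, IntegrableOn (fun z => 1 / RL z * (uL i z * D et (fun y => φ y i) z)) K₀ :=
    fun i => (hP.mul ((h.ba_u hK i).mul (hDc i et))).integrableOn hK
  have i3 : ∀ i, IntegrableOn (fun z => 1 / RL z * (uL i z *
      ∑ j, uL j z * D (ev j) (fun y => φ y i) z)) K₀ := fun i =>
    (hP.mul ((h.ba_u hK i).mul (BA.sum Finset.univ fun j _ =>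
      (h.ba_u hK j).mul (hDc i (ev j))))).integrableOn hK
  have i4 : ∀ i j, IntegrableOn (fun z => (xL i j z + xL j i z) *
      D (ev j) (fun y => φ y i) z) K₀ := fun i j =>
    (((h.ba_x hK i j).add (h.ba_x hK j i)).mul (hDc i (ev j))).integrableOn hK
  have i4' : ∀ i, IntegrableOn (fun z => ∑ j, (xL i j z + xL j i z) *
      D (ev j) (fun y => φ y i) z) K₀ := fun i =>
    (BA.sum Finset.univ fun j _ => (((h.ba_x hK i j).add (h.ba_x hK j i)).mul
      (hDc i (ev j)))).integrableOn hK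
  -- the terms
  have T1 : ∫ z in Cyl Ω T, c / RL (z.1, z.2) * ∑ i, (vec fun i => uL i (z.1, z.2)) i *
      dt (fun y => φ y i) z
      = c * ∑ i, ∫ z in K₀, 1 / RL z * (uL i z * D et (fun y => φ y i) z) := by
    rw [cyl_to_K hΩ hKΩ fun z hz => by simp [h.u_zero _ hz],
      ← integral_finsetSum _ fun i _ => i1 i, ← integral_const_mul]
    refine integral_congr_ae (Eventually.of_forall fun z => ?_)
    beta_reduce
    rw [← Finset.mul_sum, ← mul_assoc, mul_one_div]
    rfl
  have T3 : ∫ z in Cyl Ω T, c / RL (z.1, z.2) * ∑ i, ∑ j, (vec fun i => uL i (z.1, z.2)) i *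
      (vec fun i => uL i (z.1, z.2)) j * dx j (fun y => φ y i) z
      = c * ∑ i, ∫ z in K₀, 1 / RL z * (uL i z * ∑ j, uL j z * D (ev j) (fun y => φ y i) z) := by
    rw [cyl_to_K hΩ hKΩ fun z hz => by simp [h.u_zero _ hz],
      ← integral_finsetSum _ fun i _ => i3 i, ← integral_const_mul]
    refine integral_congr_ae (Eventually.of_forall fun z => ?_)
    beta_reduce
    rw [← Finset.mul_sum, ← mul_assoc, mul_one_div]
    congr 1
    refine Finset.sum_congr rfl fun i _ => ?_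
    rw [Finset.mul_sum]
    refine Finset.sum_congr rfl fun j _ => ?_
    simp only [vec_apply]
    rw [mul_assoc]
    rfl
  have T4 : ∫ z in Cyl Ω T, η (c / RL (z.1, z.2)) * ∑ i, ∑ j, (xL i j (z.1, z.2)
      + xL j i (z.1, z.2)) * dx j (fun y => φ y i) z
      = η₀ * ∑ i, ∑ j, ∫ z in K₀, (xL i j z + xL j i z) * D (ev j) (fun y => φ y i) z := by
    rw [cyl_to_K hΩ hKΩ fun z hz => by simp [h.x_zero _ _ hz]]
    have : ∀ i, ∑ j, ∫ z in K₀, (xL i j z + xL j i z) * D (ev j) (fun y => φ y i) z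
        = ∫ z in K₀, ∑ j, (xL i j z + xL j i z) * D (ev j) (fun y => φ y i) z := fun i =>
      (integral_finsetSum _ fun j _ => i4 i j).symm
    simp only [this]
    rw [← integral_finsetSum _ fun i _ => i4' i, ← integral_const_mul]
    refine integral_congr_ae (Eventually.of_forall fun z => ?_)
    beta_reduce
    rw [hη]
    rfl
  have i5 : ∀ i, IntegrableOn (fun z => (1 / RL z * φ z i) * fL i z) K₀ := fun i =>
    (hP.mul (hφc i)).integrableOn_mul hK (h.fm i)
  have T5 : ∫ z in Cyl Ω T, c / RL (z.1, z.2) * ∑ i, (vec fun i => fL i (z.1, z.2) / lam) i * φ z i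
      = η₀ * ∑ i, ∫ z in K₀, (1 / RL z * φ z i) * fL i z := by
    rw [cyl_to_K hΩ hKΩ fun z hz => by simp [h.fz _ _ hz],
      ← integral_finsetSum _ fun i _ => i5 i, ← integral_const_mul]
    refine integral_congr_ae (Eventually.of_forall fun z => ?_)
    beta_reduce
    rw [Finset.mul_sum, Finset.mul_sum]
    refine Finset.sum_congr rfl fun i _ => ?_
    simp only [vec_apply]
    have hR := (h.Rb z).1
    have hR' : RL z ≠ 0 := by linarith
    rw [hcη]
    field_simp
  have T13 : ∑ i, ∫ z in K₀, 1 / RL z * (uL i z * (D et (fun y => φ y i) z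
      + ∑ j, uL j z * D (ev j) (fun y => φ y i) z))
      = (∑ i, ∫ z in K₀, 1 / RL z * (uL i z * D et (fun y => φ y i) z))
        + ∑ i, ∫ z in K₀, 1 / RL z * (uL i z * ∑ j, uL j z * D (ev j) (fun y => φ y i) z) := by
    rw [← Finset.sum_add_distrib]
    refine Finset.sum_congr rfl fun i _ => ?_
    rw [← integral_add (i1 i) (i3 i)]
    refine integral_congr_ae (Eventually.of_forall fun z => ?_)
    beta_reduce
    ring
  rw [T13] at hmain
  have e1 : ∫ z in Cyl Ω T, ∑ i, crossProduct (curl (fun _ _ => (0:ℝ)))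
      ((0 : ℝ → E3 → E3) z.1 z.2).ofLp i * φ z i = 0 := by
    simp [curl_zero]
  have e2 : ∫ x in Ω, ρ₀ x * ∑ i, (0 : E3 → E3) x i * φ (0, x) i = 0 := by simp
  rw [e1, e2, T1, T3, T4, T5, hcη]
  linear_combination (-η₀) * hmain

/-- the momentum equation for the first solution -/
lemma momentum1 (hKΩ : K₀ ⊆ Cyl Ω T) {η : ℝ → ℝ} {c : ℝ} (ρ₀ : E3 → ℝ) :
    Momentum Ω T η ρ₀ 0 (fun t x => vec fun i => fL i (t, x) / lam)
      (fun _ x => c / RL (0, x)) 0 (fun _ _ _ _ => 0) 0 (fun _ _ _ _ => 0) := by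
  intro φ hφ hdiv
  have hΩ := h.Ωo
  have hK := h.hK
  have hs := test_smooth hφ
  have hc := test_hcs hφ
  have hdiv' : ∀ z ∈ K₀, ∑ i, D (ev i) (fun y => φ y i) z = 0 := fun z hz =>
    hdiv z ⟨⟨(hKΩ hz).1.1.le, (hKΩ hz).1.2⟩, (hKΩ hz).2⟩
  have hmain := h.first_lim hKΩ (φ := fun i y => φ y i) hs hc hdiv'
  have hP := h.ba_P1 hKΩ
  have hφc : ∀ i, BA K₀ (fun _ y => φ y i) (fun y => φ y i) := fun i =>
    BA.const hK (hs i).continuous
  have i5 : ∀ i, IntegrableOn (fun z => (1 / RL (0, z.2) * φ z i) * fL i z) K₀ := fun i =>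
    (hP.mul (hφc i)).integrableOn_mul hK (h.fm i)
  have T5 : ∫ z in Cyl Ω T, c / RL (0, z.2) * ∑ i, (vec fun i => fL i (z.1, z.2) / lam) i * φ z i
      = c / lam * ∑ i, ∫ z in K₀, (1 / RL (0, z.2) * φ z i) * fL i z := by
    rw [cyl_to_K hΩ hKΩ fun z hz => by simp [h.fz _ _ hz],
      ← integral_finsetSum _ fun i _ => i5 i, ← integral_const_mul]
    refine integral_congr_ae (Eventually.of_forall fun z => ?_)
    beta_reduce
    rw [Finset.mul_sum, Finset.mul_sum]
    refine Finset.sum_congr rfl fun i _ => ?_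
    simp only [vec_apply]
    ring
  rw [T5, hmain]
  simp [curl_zero]

lemma transport2 (c : ℝ) :
    Transport Ω T (fun t x => c / RL (t, x)) (fun t x => vec fun i => uL i (t, x)) := by
  intro ψ hψ hc hsub
  have h1 := h.transport_lim hψ hc hsub
  rw [cyl_to_K h.Ωo hsub fun z hz => ?_]
  · have h2 : ∫ z in tsupport ψ, c / RL (z.1, z.2) *
        (dt ψ z + ∑ j, (vec fun i => uL i (z.1, z.2)) j * dx j ψ z)
        = c * ∫ z in tsupport ψ, 1 / RL z * (D et ψ z + ∑ j, uL j z * D (ev j) ψ z) := by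
      rw [← integral_const_mul]
      refine integral_congr_ae (Eventually.of_forall fun z => ?_)
      beta_reduce
      rw [← mul_assoc, mul_one_div]
      rfl
    rw [h2, h1, mul_zero]
  · have e1 : dt ψ z = 0 := D_eq_zero_of_notMem et hz
    have e2 : ∀ j, dx j ψ z = 0 := fun j => D_eq_zero_of_notMem (ev j) hz
    simp [e1, e2]

lemma Dt_P1 {S : St} (hg : Good K₀ S) (z : X) : D et (P1 S) z = 0 := by
  have hr : ContDiff ℝ ∞ (fun y => 1 / S.r y) :=
    contDiff_const.div hg.hr fun z => by linarith [hg.rlo z]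
  have h1 : HasFDerivAt (fun z : X => 1 / S.r z.2)
      ((fderiv ℝ (fun y => 1 / S.r y) z.2).comp (ContinuousLinearMap.snd ℝ ℝ E3)) z := by
    have h2 : HasFDerivAt (fun z : X => z.2) (ContinuousLinearMap.snd ℝ ℝ E3) z :=
      hasFDerivAt_snd
    exact ((hr.differentiable (by simp)) z.2).hasFDerivAt.comp z h2
  unfold D
  have : P1 S = fun z : X => 1 / S.r z.2 := rfl
  rw [this, h1.fderiv]
  simp [et]

lemma transport1 (c : ℝ) :
    Transport Ω T (fun _ x => c / RL (0, x)) 0 := by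
  intro ψ hψ hc hsub
  rw [cyl_to_K h.Ωo hsub fun z hz => ?_]
  · have hA : IsCompact (tsupport ψ) := hc
    have h1 : BA (tsupport ψ) (fun n z => P1 (S n) z * D et ψ z)
        (fun z => 1 / RL (0, z.2) * D et ψ z) :=
      (h.ba_P1 hsub).mul (BA.const hA (D_smooth hψ et).continuous)
    have h2 := h1.int hA
    have h3 : ∀ n, ∫ z in tsupport ψ, P1 (S n) z * D et ψ z = 0 := by
      intro n
      rw [setIntegral_eq_integral_of_forall_compl_eq_zero (fun z hz => by
        rw [D_eq_zero_of_notMem _ hz, mul_zero]),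
        ibp ((h.good n).P1s h.hK) hψ hc et]
      simp [h.Dt_P1 (h.good n)]
    simp only [h3] at h2
    have h4 := tendsto_nhds_unique h2 tendsto_const_nhds
    have h5 : ∫ z in tsupport ψ, c / RL (0, z.2) *
        (dt ψ z + ∑ j, (0 : ℝ → E3 → E3) z.1 z.2 j * dx j ψ z)
        = c * ∫ z in tsupport ψ, 1 / RL (0, z.2) * D et ψ z := by
      rw [← integral_const_mul]
      refine integral_congr_ae (Eventually.of_forall fun z => ?_)
      beta_reduce
      rw [← mul_assoc, mul_one_div]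
      simp [dt, D, et]
    rw [h5, h4, mul_zero]
  · have e1 : dt ψ z = 0 := D_eq_zero_of_notMem et hz
    simp [e1]

end LimB

end

end Pool.Agent.KS6_88.TV
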