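import Pool.Graph.R_seed8.H729R2.Init
import Pool.Graph.R_seed8.H729R2.Defs

open scoped ContDiff ENNReal
open Set MeasureTheory Filter Topology
open Pool.Agent.H729R2 Pool.Agent.H729R2.MHD

namespace Pool.Agent.KS6_88.TV

noncomputable section

/-- non-vanishing of continuous fields -/
lemma not_ae_zero {U : Set X} (hU : IsOpen U) {u : X → E3} (hu : Continuous u)
    (hs : tsupport u ⊆ U) {z₀ : X} (hz : u z₀ ≠ 0) :
    ¬ ∀ᵐ z ∂(volume.restrict U), u z = 0 := by
  intro hae
  set V : Set X := {z | u z ≠ 0} with hV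
  have hVo : IsOpen V := isOpen_ne_fun hu continuous_const
  have hVpos : 0 < volume V := hVo.measure_pos volume ⟨z₀, hz⟩
  rw [ae_restrict_iff' hU.measurableSet, ae_iff] at hae
  have hsub : V ⊆ {z : X | ¬ (z ∈ U → u z = 0)} := by
    intro z hz hcon
    exact hz (hcon (hs (subset_tsupport _ hz)))
  exact absurd (measure_mono_null hsub hae) hVpos.ne'

lemma norm_dx_le {W : X → E3} (hW : ContDiff ℝ ∞ W) (z : X) (i j : Fin 3) :
    |dx j (fun y => W y i) z| ≤ ‖fderiv ℝ W z‖ := by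
  have h0 : HasFDerivAt W (fderiv ℝ W z) z := (hW.differentiable (by simp) z).hasFDerivAt
  have h1 : HasFDerivAt (fun y => W y i)
      ((EuclideanSpace.proj i : E3 →L[ℝ] ℝ).comp (fderiv ℝ W z)) z :=
    (EuclideanSpace.proj i : E3 →L[ℝ] ℝ).hasFDerivAt.comp z h0
  unfold dx
  rw [h1.fderiv, ContinuousLinearMap.comp_apply]
  have h3 := PiLp.norm_apply_le (fderiv ℝ W z (0, EuclideanSpace.single j 1)) i
  rw [Real.norm_eq_abs] at h3
  refine h3.trans ((ContinuousLinearMap.le_opNorm _ _).trans ?_)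
  have h2 : ‖((0, EuclideanSpace.single j 1) : ℝ × E3)‖ = 1 := by
    simp [Prod.norm_def]
  rw [h2, mul_one]

/-- small nonzero fields -/
lemma exists_small {U : Set X} (hU : IsOpen U) (hne : U.Nonempty) {e : ℝ} (he : 0 < e) :
    ∃ v : ℝ × R3 → R3, ContDiff ℝ ∞ v ∧ HasCompactSupport v ∧ tsupport v ⊆ U ∧
      (∀ z, ∑ i, dx i (fun y => v y i) z = 0) ∧
      (∀ z, ‖v z‖ ≤ e) ∧ (∀ z, ‖fderiv ℝ v z‖ ≤ e) ∧ ∃ z, v z ≠ 0 := by
  obtain ⟨K₀, S₀, hK, hKU, hg, -, z₀, i₀, hz₀⟩ := exists_init hU hne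
  set w : X → E3 := fun z => vec fun i => S₀.u i z with hw
  have hws : ContDiff ℝ ∞ w := contDiff_vec fun i => hg.hu i
  have hw0 : ∀ z, z ∉ K₀ → w z = 0 := fun z hz => by
    ext i
    exact image_eq_zero_of_notMem_tsupport (f := S₀.u i) fun h' => hz (hg.uK i h')
  have hwc : HasCompactSupport w := HasCompactSupport.intro hK hw0
  obtain ⟨C1, hC1⟩ := hwc.exists_bound_of_continuous hws.continuous
  obtain ⟨C2, hC2⟩ := (hwc.fderiv (𝕜 := ℝ)).exists_bound_of_continuous
    (hws.continuous_fderiv (by simp))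
  have c1 : 0 ≤ C1 := (norm_nonneg _).trans (hC1 0)
  have c2 : 0 ≤ C2 := (norm_nonneg _).trans (hC2 0)
  set s : ℝ := e / (C1 + C2 + 1) with hs
  have hs0 : 0 < s := by positivity
  have hsC : s * (C1 + C2) ≤ e := by
    rw [hs, div_mul_eq_mul_div, div_le_iff₀ (by positivity)]
    nlinarith
  have hsC1 : s * C1 ≤ e := by nlinarith
  have hsC2 : s * C2 ≤ e := by nlinarith
  set W : X → E3 := fun z => vec fun i => s * S₀.u i z with hW
  have hWw : W = s • w := by
    funext z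
    ext i
    simp [hW, hw]
  have hWs : ContDiff ℝ ∞ W := contDiff_vec fun i => contDiff_const.mul (hg.hu i)
  have hW0 : ∀ z, z ∉ K₀ → W z = 0 := fun z hz => by
    rw [hWw, Pi.smul_apply, hw0 z hz, smul_zero]
  have hd : ∀ z, fderiv ℝ W z = s • fderiv ℝ w z := fun z => by
    rw [hWw]
    exact fderiv_const_smul (hws.differentiable (by simp) z) s
  have hWz : ∀ z, W z = s • w z := fun z => by rw [hWw]; rfl
  refine ⟨W, hWs, HasCompactSupport.intro hK hW0, ?_, ?_, ?_, ?_, z₀, ?_⟩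
  · refine (closure_minimal (fun z hz => ?_) hK.isClosed).trans hKU
    by_contra hcon
    exact hz (hW0 z hcon)
  · intro z
    have h1 : ∀ i, dx i (fun y => W y i) z = s * D (ev i) (S₀.u i) z := by
      intro i
      exact congrFun (D_const_mul (hg.hu i) s (ev i)) z
    simp only [h1]
    rw [← Finset.mul_sum, hg.div, mul_zero]
  · intro z
    rw [hWz, norm_smul, Real.norm_eq_abs, abs_of_pos hs0]
    exact (mul_le_mul_of_nonneg_left (hC1 z) hs0.le).trans hsC1
  · intro z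
    rw [hd, norm_smul, Real.norm_eq_abs, abs_of_pos hs0]
    exact (mul_le_mul_of_nonneg_left (hC2 z) hs0.le).trans hsC2
  · intro h0
    rw [hWz, smul_eq_zero] at h0
    rcases h0 with h0 | h0
    · exact hs0.ne' h0
    · exact hz₀ (congrArg (fun v : E3 => v i₀) h0)

end

end Pool.Agent.KS6_88.TV
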