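import Pool.Agent.KS6_88.TV.Fin
import Pool.Agent.KS6_88.TV.Small

open scoped ContDiff ENNReal
open Set MeasureTheory Filter Topology
open Pool.Agent.H729R2 Pool.Agent.H729R2.MHD

namespace Pool.Agent.KS6_88.TV

noncomputable section

/-- two weak solutions for a two-valued initial density; the second one moves -/
theorem main {Ω : Set R3} (hΩ : IsOpen Ω) (hb : Bornology.IsBounded Ω) (hne : Ω.Nonempty)
    {T : ℝ} (hT : 0 < T) {η σ : ℝ → ℝ} (hη : Coeff η) (hσ : Coeff σ) {a b : ℝ} (ha : 0 < a)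
    (hab : a < b) (hsmall : b - a ≤ (a + b) / 20000) (hηab : η a = η b)
    {v : ℝ × R3 → R3} (hv : ContDiff ℝ ∞ v) (hvc : HasCompactSupport v)
    (hvs : tsupport v ⊆ Cyl Ω T) (hdiv : ∀ z, ∑ i, dx i (fun y => v y i) z = 0)
    (hgr : ∀ z i j, 24000 * T * |dx j (fun y => v y i) z| ≤ 1) {δ : ℝ} (hδ : 0 < δ) :
    ∃ (ρ₀ : R3 → ℝ) (f : ℝ → R3 → R3) (ρ : ℝ → R3 → ℝ) (u : ℝ → R3 → R3),
      (∀ x, ρ₀ x = a ∨ ρ₀ x = b) ∧
      0 < volume {x | x ∈ Ω ∧ ρ₀ x = a} ∧ 0 < volume {x | x ∈ Ω ∧ ρ₀ x = b} ∧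
      IsData Ω T η σ ρ₀ 0 0 f ∧
      WeakSol Ω T η σ ρ₀ 0 0 f (fun _ => ρ₀) 0 0 ∧
      WeakSol Ω T η σ ρ₀ 0 0 f ρ u 0 ∧
      (∀ t x, ρ t x = a ∨ ρ t x = b) ∧
      ContDiff ℝ 1 (fun z : ℝ × R3 => u z.1 z.2) ∧
      HasCompactSupport (fun z : ℝ × R3 => u z.1 z.2) ∧
      tsupport (fun z : ℝ × R3 => u z.1 z.2) ⊆ Cyl Ω T ∧
      (∀ z : ℝ × R3, ‖u z.1 z.2 - v z‖ ≤ δ ∧
        ‖fderiv ℝ (fun z : ℝ × R3 => u z.1 z.2 - v z) z‖ ≤ δ) ∧
      ¬ ∀ᵐ z ∂(volume.restrict (Cyl Ω T)), u z.1 z.2 = 0 := by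
  have hUo : IsOpen (Cyl Ω T) := isOpen_Ioo.prod hΩ
  by_cases hv0 : ∃ z₀, v z₀ ≠ 0
  · obtain ⟨z₀, hz₀⟩ := hv0
    have hp : 0 < ‖v z₀‖ := norm_pos_iff.2 hz₀
    obtain ⟨ρ₀, f, ρ, u, h1, h2, h3, h4, h5, h6, h7, h8, h9, h10, h11⟩ :=
      main_close hΩ hb hne hT hη hσ ha hab hsmall hηab hv hvc hvs hdiv hgr
        (δ := min δ (‖v z₀‖ / 2)) (lt_min hδ (by positivity))
    refine ⟨ρ₀, f, ρ, u, h1, h2, h3, h4, h5, h6, h7, h8, h9, h10,
      fun z => ⟨(h11 z).1.trans (min_le_left _ _), (h11 z).2.trans (min_le_left _ _)⟩,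
      not_ae_zero hUo h8.continuous h10 (z₀ := z₀) fun h0 => ?_⟩
    have h12 := (h11 z₀).1.trans (min_le_right _ _)
    rw [h0, zero_sub, norm_neg] at h12
    linarith
  · push Not at hv0
    have hUne : (Cyl Ω T).Nonempty := by
      obtain ⟨x, hx⟩ := hne
      exact ⟨(T / 2, x), ⟨by constructor <;> linarith, hx⟩⟩
    set e : ℝ := min (δ / 2) (1 / (24000 * T)) with he
    have he0 : 0 < e := lt_min (by positivity) (by positivity)
    obtain ⟨w, w1, w2, w3, w4, w5, w6, z₀, hz₀⟩ := exists_small hUo hUne he0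
    have hp : 0 < ‖w z₀‖ := norm_pos_iff.2 hz₀
    have hgr' : ∀ z i j, 24000 * T * |dx j (fun y => w y i) z| ≤ 1 := fun z i j => by
      have e1 := (norm_dx_le w1 z i j).trans ((w6 z).trans (min_le_right _ _))
      rw [le_div_iff₀ (by positivity)] at e1
      linarith
    obtain ⟨ρ₀, f, ρ, u, h1, h2, h3, h4, h5, h6, h7, h8, h9, h10, h11⟩ :=
      main_close hΩ hb hne hT hη hσ ha hab hsmall hηab w1 w2 w3 w4 hgr'
        (δ := min (δ / 2) (‖w z₀‖ / 2)) (lt_min (by positivity) (by positivity))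
    refine ⟨ρ₀, f, ρ, u, h1, h2, h3, h4, h5, h6, h7, h8, h9, h10, fun z => ⟨?_, ?_⟩,
      not_ae_zero hUo h8.continuous h10 (z₀ := z₀) fun h0 => ?_⟩
    · rw [hv0 z, sub_zero]
      have e1 := (h11 z).1.trans (min_le_left _ _)
      have e2 := (w5 z).trans (min_le_left _ _)
      have e3 : u z.1 z.2 = (u z.1 z.2 - w z) + w z := by abel
      rw [e3]
      exact (norm_add_le _ _).trans (by linarith)
    · have e0 : (fun z : ℝ × R3 => u z.1 z.2 - v z)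
          = (fun z : ℝ × R3 => u z.1 z.2 - w z) + w := by
        funext z
        rw [hv0 z]
        simp
      have e1 := (h11 z).2.trans (min_le_left _ _)
      have e2 := (w6 z).trans (min_le_left _ _)
      have d1 : DifferentiableAt ℝ (fun z : ℝ × R3 => u z.1 z.2 - w z) z :=
        (h8.differentiable (by simp) z).sub (w1.differentiable (by simp) z)
      rw [e0, fderiv_add d1 (w1.differentiable (by simp) z)]
      exact (norm_add_le _ _).trans (by linarith)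
    · have h12 := (h11 z₀).1.trans (min_le_right _ _)
      rw [h0, zero_sub, norm_neg] at h12
      linarith

end

end Pool.Agent.KS6_88.TV
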