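import Pool.Agent.KS6_88.TV.Req

open scoped ContDiff
open Set MeasureTheory Filter Topology
open Pool.Agent.H729R2

namespace Pool.Agent.KS6_88.TV

noncomputable section

set_option linter.unusedSectionVars false

/-- the outcome of `micro4` -/
structure Mic (S : St) (k : Fin 3 → ℝ) (ζ : X → ℝ) (h ε lam : ℝ) (w : ℕ → Fin 3 → X → ℝ)
    (π : ℕ → X → ℝ) (C : ℝ) : Prop where
  C0 : 0 ≤ C
  ws : ∀ N i, ContDiff ℝ ∞ (w N i)
  πs : ∀ N, ContDiff ℝ ∞ (π N)
  wK : ∀ N i, tsupport (w N i) ⊆ tsupport ζ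
  πK : ∀ N, tsupport (π N) ⊆ tsupport ζ
  div : ∀ N z, ∑ i, D (ev i) (w N i) z = 0
  w0 : ∀ N : ℕ, 1 ≤ N → ∀ i z, |w N i z| ≤ C / (N:ℝ) ^ 2
  wt : ∀ N : ℕ, 1 ≤ N → ∀ i z, |D et (w N i) z| ≤ C / N
  wx : ∀ N : ℕ, 1 ≤ N → ∀ i j z, |D (ev j) (w N i) z| ≤ C / N
  ap : ∀ N : ℕ, 1 ≤ N → ∀ i z, |- (∑ j, D (ev j) (D (ev j) (w N i)) z) + D (ev i) (π N) z
          - ∑ m, Af S k ζ h ε lam m i z * Real.cos (N * Pf S k m z)| ≤ C / N

variable {S : St} {k : Fin 3 → ℝ} {ζ : X → ℝ} {h ε lam T₀ : ℝ} {K₀ : Set X}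

lemma Req.exists_mic (H : Req S k ζ h ε lam T₀ K₀) : ∃ w π C, Mic S k ζ h ε lam w π C := by
  obtain ⟨w, π, C, h0, h1, h2, h3, h4, h5, h6⟩ := micro4 (K := tsupport ζ) H.ζc
    (A := Af S k ζ h ε lam) (Φ := Pf S k) H.Afs H.Pfs H.Af_tsupport H.Pf_nd
  exact ⟨w, π, C, h0, h1, h2, h3, h4, h5, fun N hN i z => (h6 N hN i z).1,
    fun N hN i z => (h6 N hN i z).2.1, fun N hN i j z => (h6 N hN i z).2.2.1 j,
    fun N hN i z => (h6 N hN i z).2.2.2⟩

lemma lip_cos' (k : Fin 3 → ℝ) (N : ℕ) (x y : E3) :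
    |Real.cos (N * ∑ i, k i * x i) - Real.cos (N * ∑ i, k i * y i)|
    ≤ N * ((∑ i, |k i|) * dist x y) := by
  refine (Real.abs_cos_sub_cos_le _ _).trans ?_
  rw [← mul_sub, abs_mul, Nat.abs_cast]
  refine mul_le_mul_of_nonneg_left ?_ (Nat.cast_nonneg N)
  rw [← Finset.sum_sub_distrib, Finset.sum_mul]
  refine (Finset.abs_sum_le_sum_abs _ _).trans (Finset.sum_le_sum fun i _ => ?_)
  rw [← mul_sub, abs_mul]
  refine mul_le_mul_of_nonneg_left ?_ (abs_nonneg _)
  have := PiLp.norm_apply_le (x - y) i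
  rw [dist_eq_norm]
  simpa using this

namespace Mic

variable {w : ℕ → Fin 3 → X → ℝ} {π : ℕ → X → ℝ} {C : ℝ}
variable (H : Req S k ζ h ε lam T₀ K₀) (m : Mic S k ζ h ε lam w π C)
include H m

lemma wz (N : ℕ) (i : Fin 3) {z : X} (hz : z ∉ tsupport ζ) : w N i z = 0 :=
  image_eq_zero_of_notMem_tsupport fun h' => hz (m.wK N i h')

/-- for large `N` the zero set does not change -/
lemma zeros : ∃ N₀ : ℕ, 1 ≤ N₀ ∧ ∀ N ≥ N₀, ∀ z, (∃ i, S.u i z ≠ 0) →
    ∃ i, (nst S k ζ h ε lam (w N) (π N) N).u i z ≠ 0 := by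
  have hc : ContinuousOn (nv S.u) (tsupport ζ) :=
    (nv_continuous fun i => (H.good.hu i).continuous).continuousOn
  obtain ⟨c, hc0, hc⟩ : ∃ c : ℝ, 0 < c ∧ ∀ z ∈ tsupport ζ, c ≤ nv S.u z := by
    rcases (tsupport ζ).eq_empty_or_nonempty with he | hne
    · exact ⟨1, one_pos, fun z hz => by rw [he] at hz; exact absurd hz (notMem_empty z)⟩
    · obtain ⟨z₀, hz₀, hmin⟩ := IsCompact.exists_isMinOn (show IsCompact (tsupport ζ) from H.ζc)
        hne hc
      refine ⟨nv S.u z₀, ?_, fun z hz => hmin hz⟩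
      obtain ⟨i, hi⟩ := (H.ζt z₀ hz₀).1
      exact (abs_pos.2 hi).trans_le (abs_le_nv S.u i z₀)
  obtain ⟨N₀, hN₀⟩ := exists_nat_gt (2 * C / c)
  refine ⟨N₀ + 1, by omega, fun N hN z hz => ?_⟩
  by_contra hcon
  push Not at hcon
  have hzt : z ∈ tsupport ζ := by
    by_contra hzt
    obtain ⟨i, hi⟩ := hz
    apply hi
    have := hcon i
    simp only [nst, m.wz H N i hzt, add_zero] at this
    exact this
  have hN1 : 1 ≤ N := by omega
  have hNr : (N₀:ℝ) + 1 ≤ N := by exact_mod_cast hN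
  have hN0 : (0:ℝ) ≤ N₀ := by positivity
  have h1 : nv S.u z ≤ 2 * (C / (N:ℝ) ^ 2) := by
    refine norm_vec_le fun i => ?_
    have h2 := hcon i
    simp only [nst] at h2
    have h3 : S.u i z = - w N i z := by linarith
    rw [h3, abs_neg]
    exact m.w0 N hN1 i z
  have h2 := hc z hzt
  have h3 : c * (N:ℝ) ^ 2 ≤ 2 * C := by
    have h4 : c ≤ 2 * C / (N:ℝ) ^ 2 := by rw [mul_div_assoc]; exact h2.trans h1
    rwa [le_div_iff₀ (by positivity)] at h4
  have h5 : 2 * C < c * N := by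
    have h6 : 2 * C / c < N := by linarith
    rw [div_lt_iff₀ hc0] at h6
    linarith
  have h6 : c * (N:ℝ) ≤ c * (N:ℝ) ^ 2 := mul_le_mul_of_nonneg_left (by nlinarith) hc0.le
  linarith

omit m in
/-- the room of the new specific volume -/
lemma room_step (N : ℕ) (x : E3) :
    |(nst S k ζ h ε lam (w N) (π N) N).r x - 1| < h := by
  refine lt_of_om_pos H.h0 ?_
  change 0 < om h (S.r x + ε * h * om h (S.r x) * Real.cos (N * ∑ i, k i * x i))
  rw [om_step H.h0]
  exact (sqrt_step (abs_div_lt H.h0 (H.room x)) H.ε0 H.ε1 (Real.abs_cos_le_one _)).1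

lemma nr_lip (N : ℕ) : ∃ L : NNReal, LipschitzWith L (nst S k ζ h ε lam (w N) (π N) N).r := by
  obtain ⟨L, hL⟩ := H.good.rlip
  have hε := H.ε0
  have hh := H.h0
  refine ⟨2 * L + Real.toNNReal (N * ∑ i, |k i|), ?_⟩
  refine LipschitzWith.of_dist_le_mul fun x y => ?_
  rw [NNReal.coe_add, NNReal.coe_mul, Real.coe_toNNReal _ (by positivity)]
  have hc := lip_cos' k N x y
  have hr := hL.dist_le_mul x y
  rw [Real.dist_eq] at hr ⊢
  have ho := om_diff H.h0 (H.room x).le (H.room y).le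
  have e1 : (nst S k ζ h ε lam (w N) (π N) N).r x - (nst S k ζ h ε lam (w N) (π N) N).r y
      = (S.r x - S.r y) + (ε * h * (om h (S.r x) - om h (S.r y))) * Real.cos (N * ∑ i, k i * x i)
        + (ε * h * om h (S.r y)) * (Real.cos (N * ∑ i, k i * x i)
          - Real.cos (N * ∑ i, k i * y i)) := by
    simp only [nst]; ring
  rw [e1]
  refine (abs_add_le _ _).trans ?_
  have f1 : |(S.r x - S.r y) + (ε * h * (om h (S.r x) - om h (S.r y))) *
      Real.cos (N * ∑ i, k i * x i)| ≤ 2 * (L * dist x y) := by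
    refine (abs_add_le _ _).trans ?_
    rw [abs_mul, abs_mul, abs_of_pos (by positivity : 0 < ε * h)]
    have g1 : ε * h * |om h (S.r x) - om h (S.r y)| * |Real.cos (N * ∑ i, k i * x i)|
        ≤ ε * h * (2 / h * |S.r x - S.r y|) * 1 := by
      gcongr
      exact Real.abs_cos_le_one _
    have g2 : ε * h * (2 / h * |S.r x - S.r y|) * 1 = 2 * ε * |S.r x - S.r y| := by
      field_simp
    have g3 : 2 * ε * |S.r x - S.r y| ≤ 1 * |S.r x - S.r y| :=
      mul_le_mul_of_nonneg_right (by linarith [H.ε1]) (abs_nonneg _)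
    linarith
  have f2 : |(ε * h * om h (S.r y)) * (Real.cos (N * ∑ i, k i * x i)
          - Real.cos (N * ∑ i, k i * y i))| ≤ N * ((∑ i, |k i|) * dist x y) := by
    rw [abs_mul]
    have g1 : |ε * h * om h (S.r y)| ≤ 1 := by
      rw [abs_of_nonneg (mul_nonneg (by positivity) (om_pos H.h0 (H.room y)).le)]
      have := om_le h (S.r y)
      calc ε * h * om h (S.r y) ≤ ε * h * 1 := mul_le_mul_of_nonneg_left this (by positivity)
        _ ≤ 1 := by linarith [H.εh]
    calc _ ≤ 1 * (N * ((∑ i, |k i|) * dist x y)) :=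
          mul_le_mul g1 hc (abs_nonneg _) zero_le_one
      _ = _ := one_mul _
  refine (add_le_add f1 f2).trans (le_of_eq ?_)
  push_cast
  ring

/-- the new state is admissible -/
lemma good' : ∃ N₀ : ℕ, 1 ≤ N₀ ∧ ∀ N ≥ N₀, Good K₀ (nst S k ζ h ε lam (w N) (π N) N) := by
  obtain ⟨N₀, h1, hz⟩ := m.zeros H
  refine ⟨N₀, h1, fun N hN => ?_⟩
  have hg := H.good
  have ht : tsupport ζ ⊆ {z | ∃ i, (nst S k ζ h ε lam (w N) (π N) N).u i z ≠ 0} := fun z hz' =>
    hz N hN z (H.ζt z hz').1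
  have htK : tsupport ζ ⊆ K₀ := H.htK
  have hsx : ContDiff ℝ ∞ (fun x : E3 => ∑ i, k i * x i) :=
    ContDiff.sum fun i _ => contDiff_const.mul (contDiff_euclidean.1 contDiff_id i)
  have hcl : ∀ {F G : X → ℝ}, tsupport G ⊆ tsupport ζ → tsupport (fun z => F z + G z) ⊆
      tsupport F ∪ tsupport ζ := by
    intro F G hG
    refine closure_minimal (fun z hz => ?_) ((isClosed_tsupport _).union (isClosed_tsupport _))
    by_contra hcon
    simp only [mem_union, not_or] at hcon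
    apply hz
    have e1 : F z = 0 := image_eq_zero_of_notMem_tsupport hcon.1
    have e2 : G z = 0 := image_eq_zero_of_notMem_tsupport fun h' => hcon.2 (hG h')
    simp [e1, e2]
  have hpt : tsupport (fun z => (N:ℝ)⁻¹ * (Uf S k ζ h ε lam z * Real.sin (N * phx k z)
      + Vf S k ζ h ε lam z * Real.sin (N * phy S.u k z))) ⊆ tsupport ζ := by
    refine closure_minimal (fun z hz => ?_) (isClosed_tsupport _)
    by_contra hcon
    apply hz
    have e1 : Uf S k ζ h ε lam z = 0 :=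
      image_eq_zero_of_notMem_tsupport fun h' => hcon (H.Uf_tsupport h')
    have e2 : Vf S k ζ h ε lam z = 0 :=
      image_eq_zero_of_notMem_tsupport fun h' => hcon (H.Vf_tsupport h')
    simp [e1, e2]
  have hroom := fun x => room_step (w := w) (π := π) H N x
  refine ⟨fun i => (hg.hu i).add (m.ws N i), ?_, ?_, hg.hq.add (m.πs N), ?_, ?_, ?_, ?_,
    m.nr_lip H N, ?_, ?_⟩
  · have ho : ContDiff ℝ ∞ (fun x => om h (S.r x)) := by
      unfold om
      exact contDiff_const.sub (((hg.hr.sub contDiff_const).div_const _).pow 2)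
    exact hg.hr.add ((contDiff_const.mul ho).mul
      (Real.contDiff_cos.comp (contDiff_const.mul hsx)))
  · exact hg.hp.add (contDiff_const.mul ((H.Ufs.mul (Real.contDiff_sin.comp
      (contDiff_const.mul (phx_smooth k)))).add (H.Vfs.mul (Real.contDiff_sin.comp
      (contDiff_const.mul H.phys)))))
  · intro i
    exact (hcl (m.wK N i)).trans (union_subset (hg.uK i) htK)
  · exact (hcl hpt).trans (union_subset (fun z hz' => hz N hN z (hg.pu hz')) ht)
  · exact (hcl (m.πK N)).trans (union_subset (fun z hz' => hz N hN z (hg.qu hz')) ht)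
  · intro z
    have : ∀ i, D (ev i) ((nst S k ζ h ε lam (w N) (π N) N).u i) z
        = D (ev i) (S.u i) z + D (ev i) (w N i) z := by
      intro i
      exact congrFun (D_add (hg.hu i) (m.ws N i) (ev i)) z
    rw [Finset.sum_congr rfl fun i _ => this i, Finset.sum_add_distrib, hg.div, m.div, add_zero]
  · intro x
    have := (abs_lt.1 (hroom x)).1
    linarith [H.h1]
  · intro x
    have := (abs_lt.1 (hroom x)).2
    linarith [H.h1]

lemma b_eq (N : ℕ) (i : Fin 3) (z : X) : (nst S k ζ h ε lam (w N) (π N) N).b i z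
    = S.b i z + (- (∑ j, D (ev j) (D (ev j) (w N i)) z) + D (ev i) (π N) z) := by
  have hg := H.good
  unfold St.b
  have e1 : ∀ j, D (ev j) (D (ev j) ((nst S k ζ h ε lam (w N) (π N) N).u i)) z
      = D (ev j) (D (ev j) (S.u i)) z + D (ev j) (D (ev j) (w N i)) z := by
    intro j
    have : (nst S k ζ h ε lam (w N) (π N) N).u i = fun z => S.u i z + w N i z := rfl
    rw [this, D_add (hg.hu i) (m.ws N i),
      D_add (D_smooth (hg.hu i) (ev j)) (D_smooth (m.ws N i) (ev j))]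
  have e2 : D (ev i) (nst S k ζ h ε lam (w N) (π N) N).q z = D (ev i) S.q z
      + D (ev i) (π N) z := by
    have : (nst S k ζ h ε lam (w N) (π N) N).q = fun z => S.q z + π N z := rfl
    rw [this, D_add hg.hq (m.πs N)]
  rw [e2, Finset.sum_congr rfl fun j _ => e1 j, Finset.sum_add_distrib]
  ring

lemma b_close (i : Fin 3) : O1 K₀ (fun N z => (nst S k ζ h ε lam (w N) (π N) N).b i z
    - (S.b i z + (pnt S k ζ h ε lam N z).G i)) := by
  refine ⟨C, m.C0, fun N hN z _ => ?_⟩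
  beta_reduce
  rw [m.b_eq H, H.pnt_G]
  have := m.ap N hN i z
  convert this using 2
  ring

lemma gp_eq {N : ℕ} (hN : 1 ≤ N) (i : Fin 3) (z : X) :
    (nst S k ζ h ε lam (w N) (π N) N).gp i z
    = S.gp i z + (N:ℝ)⁻¹ * (D (ev i) (Uf S k ζ h ε lam) z * Real.sin (N * phx k z)
      + D (ev i) (Vf S k ζ h ε lam) z * Real.sin (N * phy S.u k z))
      + (pnt S k ζ h ε lam N z).W i := by
  have hg := H.good
  have hN' : (N:ℝ) ≠ 0 := by
    have : (1:ℝ) ≤ N := by exact_mod_cast hN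
    linarith
  have hsin : ContDiff ℝ ∞ (fun z => Real.sin (N * phx k z)) :=
    Real.contDiff_sin.comp (contDiff_const.mul (phx_smooth k))
  have hsiny : ContDiff ℝ ∞ (fun z => Real.sin (N * phy S.u k z)) :=
    Real.contDiff_sin.comp (contDiff_const.mul H.phys)
  rw [H.pnt_W]
  unfold St.gp
  have : (nst S k ζ h ε lam (w N) (π N) N).p =
      fun z => S.p z + (N:ℝ)⁻¹ * (Uf S k ζ h ε lam z * Real.sin (N * phx k z)
        + Vf S k ζ h ε lam z * Real.sin (N * phy S.u k z)) := rfl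
  rw [this, D_add hg.hp (contDiff_const.mul ((H.Ufs.mul hsin).add (H.Vfs.mul hsiny))),
    D_const_mul ((H.Ufs.mul hsin).add (H.Vfs.mul hsiny)), D_add (H.Ufs.mul hsin) (H.Vfs.mul hsiny),
    D_mul H.Ufs hsin, D_sin (phx_smooth k), D_mul H.Vfs hsiny, D_sin H.phys]
  simp only [D_phx, H.D_phy']
  field_simp
  ring

lemma gp_close (i : Fin 3) : O1 K₀ (fun N z => (nst S k ζ h ε lam (w N) (π N) N).gp i z
    - (S.gp i z + (pnt S k ζ h ε lam N z).W i)) := by
  have h1 : O1 K₀ (fun N z => (N:ℝ)⁻¹ * (D (ev i) (Uf S k ζ h ε lam) z * Real.sin (N * phx k z)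
      + D (ev i) (Vf S k ζ h ε lam) z * Real.sin (N * phy S.u k z))) :=
    O1.inv.mul (((B1.const H.hK (D_smooth H.Ufs (ev i)).continuous).mul (B1.sin _)).add
      ((B1.const H.hK (D_smooth H.Vfs (ev i)).continuous).mul (B1.sin _)))
  refine h1.congr fun N hN z _ => ?_
  rw [m.gp_eq H hN]
  ring

lemma w_close (i : Fin 3) : O1 K₀ (fun N z => w N i z) := by
  refine ⟨C, m.C0, fun N hN z _ => (m.w0 N hN i z).trans ?_⟩
  have hN' : (1:ℝ) ≤ N := by exact_mod_cast hN
  refine div_le_div_of_nonneg_left m.C0 (by linarith) (by nlinarith)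

lemma acc_close (i : Fin 3) : O1 K₀ (fun N z => (nst S k ζ h ε lam (w N) (π N) N).acc i z
    - S.acc i z) := by
  have hg := H.good
  have h1 : O1 K₀ (fun N z => D et (w N i) z) := ⟨C, m.C0, fun N hN z _ => m.wt N hN i z⟩
  have h2 : ∀ j, O1 K₀ (fun N z => D (ev j) (w N i) z) := fun j =>
    ⟨C, m.C0, fun N hN z _ => m.wx N hN i j z⟩
  have h3 : ∀ j, O1 K₀ (fun N z => D (ev j) (w N i) z * S.u j z) := fun j =>
    (h2 j).mul (B1.const H.hK (hg.hu j).continuous)
  have h4 : ∀ j, O1 K₀ (fun N z => w N j z * D (ev j) (S.u i) z) := fun j =>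
    (m.w_close H j).mul (B1.const H.hK (D_smooth (hg.hu i) (ev j)).continuous)
  have h5 : ∀ j, O1 K₀ (fun N z => w N j z * D (ev j) (w N i) z) := fun j =>
    (m.w_close H j).mul (h2 j).toB1
  refine (h1.add (O1.sum Finset.univ fun j _ => ((h3 j).add (h4 j)).add (h5 j))).congr
    fun N hN z _ => ?_
  unfold St.acc
  have : ∀ l, (nst S k ζ h ε lam (w N) (π N) N).u l = fun z => S.u l z + w N l z := fun _ => rfl
  simp only [this]
  rw [D_add (hg.hu i) (m.ws N i)]
  have e1 : ∀ j, D (ev j) (fun z => S.u i z + w N i z) z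
      = D (ev j) (S.u i) z + D (ev j) (w N i) z := fun j =>
    congrFun (D_add (hg.hu i) (m.ws N i) (ev j)) z
  simp only [e1]
  have e2 : ∀ j, (S.u j z + w N j z) * (D (ev j) (S.u i) z + D (ev j) (w N i) z)
      = S.u j z * D (ev j) (S.u i) z + (D (ev j) (w N i) z * S.u j z
        + w N j z * D (ev j) (S.u i) z + w N j z * D (ev j) (w N i) z) := fun j => by ring
  rw [Finset.sum_congr rfl fun j _ => e2 j, Finset.sum_add_distrib (f := fun j =>
    S.u j z * D (ev j) (S.u i) z)]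
  ring

lemma R2_close : O1 (slab T₀) (fun N z => (nst S k ζ h ε lam (w N) (π N) N).R2 z
    - (S.R2 z + A2 S h ε z * Real.cos (N * phy S.u k z))) := by
  have hg := H.good
  obtain ⟨L, hL⟩ := hg.rlip
  obtain ⟨CL, hCL0, hCL⟩ := lab_close hg.hu (hg.ucs H.hK) T₀
  have hε := H.ε0
  have hh := H.h0
  have htK : tsupport ζ ⊆ K₀ := H.htK
  refine ⟨4 * L * CL * C + (∑ i, |k i|) * (2 * (CL * C)),
    by have := m.C0; positivity, fun N hN z hz => ?_⟩
  have hN' : (1:ℝ) ≤ N := by exact_mod_cast hN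
  have hC0 := m.C0
  set u' : Fin 3 → X → ℝ := fun i z => S.u i z + w N i z with hu'
  have hcl : ∀ i, tsupport (u' i) ⊆ K₀ := by
    intro i
    refine closure_minimal (fun z hz => ?_) H.hK.isClosed
    by_contra hcon
    apply hz
    have e1 : S.u i z = 0 := image_eq_zero_of_notMem_tsupport fun h' => hcon (hg.uK i h')
    have e2 : w N i z = 0 := m.wz H N i fun h' => hcon (htK h')
    simp [hu', e1, e2]
  have hY := hCL u' (fun i => (hg.hu i).add (m.ws N i))
    (fun i => hcs_of_tsupport_subset H.hK (hcl i)) (C / (N:ℝ) ^ 2)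
    (fun i z => by simpa [hu'] using m.w0 N hN i z) z hz.1 hz.2
  have hN2 : (N:ℝ) ≤ (N:ℝ) ^ 2 := by nlinarith
  set y' : E3 := vec fun i => lab u' i z with hy'
  set y : E3 := vec fun i => lab S.u i z with hy
  have hd : dist y' y ≤ 2 * (CL * (C / (N:ℝ) ^ 2)) := by
    rw [dist_eq_norm]
    have : y' - y = vec fun i => lab u' i z - lab S.u i z := by
      ext i; simp [hy', hy]
    rw [this]
    exact norm_vec_le hY
  have hc := lip_cos' k N y' y
  have hr := hL.dist_le_mul y' y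
  rw [Real.dist_eq] at hr
  have ho := om_diff H.h0 (H.room y').le (H.room y).le
  have e1 : (nst S k ζ h ε lam (w N) (π N) N).R2 z
      - (S.R2 z + A2 S h ε z * Real.cos (N * phy S.u k z))
      = (S.r y' - S.r y) + (ε * h * (om h (S.r y') - om h (S.r y)))
          * Real.cos (N * ∑ i, k i * y' i)
        + (ε * h * om h (S.r y)) * (Real.cos (N * ∑ i, k i * y' i)
          - Real.cos (N * ∑ i, k i * y i)) := by
    have f1 : (nst S k ζ h ε lam (w N) (π N) N).R2 z
        = S.r y' + ε * h * om h (S.r y') * Real.cos (N * ∑ i, k i * y' i) := rfl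
    have f2 : S.R2 z = S.r y := rfl
    have f3 : phy S.u k z = ∑ i, k i * y i := rfl
    have f4 : A2 S h ε z = ε * h * om h (S.r y) := rfl
    rw [f1, f2, f3, f4]
    ring
  beta_reduce
  rw [e1]
  refine (abs_add_le _ _).trans ?_
  have f1 : |(S.r y' - S.r y) + (ε * h * (om h (S.r y') - om h (S.r y))) *
      Real.cos (N * ∑ i, k i * y' i)| ≤ 2 * (L * dist y' y) := by
    refine (abs_add_le _ _).trans ?_
    rw [abs_mul, abs_mul, abs_of_pos (by positivity : 0 < ε * h)]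
    have g1 : ε * h * |om h (S.r y') - om h (S.r y)| * |Real.cos (N * ∑ i, k i * y' i)|
        ≤ ε * h * (2 / h * |S.r y' - S.r y|) * 1 := by
      gcongr
      exact Real.abs_cos_le_one _
    have g2 : ε * h * (2 / h * |S.r y' - S.r y|) * 1 = 2 * ε * |S.r y' - S.r y| := by
      field_simp
    have g3 : 2 * ε * |S.r y' - S.r y| ≤ 1 * |S.r y' - S.r y| :=
      mul_le_mul_of_nonneg_right (by linarith [H.ε1]) (abs_nonneg _)
    linarith
  have f2 : |(ε * h * om h (S.r y)) * (Real.cos (N * ∑ i, k i * y' i)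
          - Real.cos (N * ∑ i, k i * y i))| ≤ N * ((∑ i, |k i|) * dist y' y) := by
    rw [abs_mul]
    have g1 : |ε * h * om h (S.r y)| ≤ 1 := by
      rw [abs_of_nonneg (mul_nonneg (by positivity) (om_pos H.h0 (H.room y)).le)]
      have := om_le h (S.r y)
      calc ε * h * om h (S.r y) ≤ ε * h * 1 := mul_le_mul_of_nonneg_left this (by positivity)
        _ ≤ 1 := by linarith [H.εh]
    calc _ ≤ 1 * (N * ((∑ i, |k i|) * dist y' y)) :=
          mul_le_mul g1 hc (abs_nonneg _) zero_le_one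
      _ = _ := one_mul _
  have hd0 : 0 ≤ dist y' y := dist_nonneg
  have hk0 : 0 ≤ ∑ i, |k i| := Finset.sum_nonneg fun i _ => abs_nonneg _
  refine (add_le_add f1 f2).trans ?_
  have g1 : 2 * ((L:ℝ) * dist y' y) ≤ 4 * L * CL * C / N := by
    have : 2 * ((L:ℝ) * dist y' y) ≤ 2 * (L * (2 * (CL * (C / (N:ℝ) ^ 2)))) := by gcongr
    refine this.trans ?_
    have h3 : C / (N:ℝ) ^ 2 ≤ C / N := div_le_div_of_nonneg_left hC0 (by linarith) hN2
    calc 2 * ((L:ℝ) * (2 * (CL * (C / (N:ℝ) ^ 2)))) ≤ 2 * (L * (2 * (CL * (C / (N:ℝ))))) := by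
          gcongr
      _ = _ := by ring
  have g2 : (N:ℝ) * ((∑ i, |k i|) * dist y' y)
      ≤ (∑ i, |k i|) * (2 * (CL * C)) / N := by
    have : (N:ℝ) * ((∑ i, |k i|) * dist y' y)
      ≤ (N:ℝ) * ((∑ i, |k i|) * (2 * (CL * (C / (N:ℝ) ^ 2)))) := by gcongr
    refine this.trans (le_of_eq ?_)
    field_simp
  rw [add_div]
  exact add_le_add g1 g2

lemma R1_eq (N : ℕ) (z : X) : (nst S k ζ h ε lam (w N) (π N) N).R1 z
    = S.R1 z + A1 S h ε z * Real.cos (N * phx k z) := rfl

/-- the new error is close to the model error -/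
lemma e_close (i : Fin 3) :
    O1 K₀ (fun N z => er (nst S k ζ h ε lam (w N) (π N) N) lam i z
      - (pnt S k ζ h ε lam N z).et' i) := by
  have hg := H.good
  have hR2 : O1 K₀ (fun N z => (nst S k ζ h ε lam (w N) (π N) N).R2 z
      - (S.R2 z + A2 S h ε z * Real.cos (N * phy S.u k z))) := by
    obtain ⟨C, h0, hC⟩ := m.R2_close H
    exact ⟨C, h0, fun N hN z hz => hC N hN z (H.hKT hz)⟩
  have hGb : B1 K₀ (fun N z => (pnt S k ζ h ε lam N z).G i) := by
    refine (B1.sum (Finset.univ : Finset (Fin 5)) fun l _ => (B1.const H.hK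
      (H.Afs l i).continuous).mul (B1.cos (fun N z => N * Pf S k l z))).congr fun N hN z _ => ?_
    rw [H.pnt_G]
  have hbt : B1 K₀ (fun N z => S.b i z + (pnt S k ζ h ε lam N z).G i) :=
    (B1.const H.hK (hg.bs i).continuous).add hGb
  have hb := m.b_close H i
  have hb' : B1 K₀ (fun N z => (nst S k ζ h ε lam (w N) (π N) N).b i z) :=
    (hb.toB1.add hbt).congr fun N _ z _ => by ring
  have hR2t : B1 K₀ (fun N z => S.R2 z + A2 S h ε z * Real.cos (N * phy S.u k z)) :=
    (B1.const H.hK H.R2s.continuous).add ((B1.const H.hK H.A2s.continuous).mul (B1.cos _))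
  have hR1t : B1 K₀ (fun N z => S.R1 z + A1 S h ε z * Real.cos (N * phx k z)) :=
    (B1.const H.hK H.R1s.continuous).add ((B1.const H.hK H.A1s.continuous).mul (B1.cos _))
  have hac : O1 K₀ (fun N z => ((nst S k ζ h ε lam (w N) (π N) N).acc i z
    - S.acc i z) * lam) := (m.acc_close H i).mul (B1.real lam)
  refine (((hac.add (hR2.mul hb')).add (hb.mul hR2t)).sub
    ((m.gp_close H i).mul hR1t)).congr fun N hN z _ => ?_
  unfold er
  have e1 : (nst S k ζ h ε lam (w N) (π N) N).R1 z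
    = S.R1 z + A1 S h ε z * Real.cos (N * phx k z) := rfl
  have e2 : (pnt S k ζ h ε lam N z).et' i = lam * S.acc i z
      + (S.R2 z + A2 S h ε z * Real.cos (N * phy S.u k z)) *
        (S.b i z + (pnt S k ζ h ε lam N z).G i)
      - (S.R1 z + A1 S h ε z * Real.cos (N * phx k z)) *
        (S.gp i z + (pnt S k ζ h ε lam N z).W i) := by
    unfold Pt.et'
    simp only [PiLp.add_apply, PiLp.sub_apply, PiLp.smul_apply, smul_eq_mul]
    rfl
  rw [e1, e2]
  ring

end Mic

end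

end Pool.Agent.KS6_88.TV
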