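import Pool.Agent.KS6_88.TV.Wgt

open scoped ContDiff
open Set MeasureTheory Filter Topology
open Pool.Agent.H729R2

namespace Pool.Agent.KS6_88.TV

noncomputable section

set_option linter.unusedSectionVars false
set_option linter.unusedVariables false

variable {S : St} {k : Fin 3 → ℝ} {ζ : X → ℝ} {h ε lam T₀ : ℝ} {K₀ : Set X}

/-- the coefficient of the resonant part -/
def lmf (S : St) (h ε : ℝ) (z : X) : ℝ := 2 * A1 S h ε z * D2 S h ε z / DD S h ε z

namespace Req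

variable (H : Req S k ζ h ε lam T₀ K₀)
include H

lemma lms : ContDiff ℝ ∞ (lmf S h ε) :=
  ((contDiff_const.mul H.A1s).mul H.D2s).div H.DDs fun z => (H.DDp z).ne'

lemma lm0 (z : X) : 0 ≤ lmf S h ε z := by
  have h1 := H.A1p z
  have h2 := H.D2p z
  have h3 := H.DDp z
  unfold lmf; positivity

lemma lm1 (z : X) : lmf S h ε z ≤ 1 := by
  have h3 := H.DDp z
  unfold lmf
  rw [div_le_one h3]
  unfold DD
  nlinarith [sq_nonneg (A1 S h ε z - D2 S h ε z)]

/-- the field `m` -/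
def mf (_H : Req S k ζ h ε lam T₀ K₀) (N : ℕ) (i : Fin 3) (z : X) : ℝ :=
  er S lam i z - ζ z * sk S k lam z / (2 * ∑ i, k i ^ 2) *
    (1 - lmf S h ε z * Real.cos (N * (phx k z - phy S.u k z))) * k i

lemma pnt_m (N : ℕ) (z : X) : (pnt S k ζ h ε lam N z).m = vec fun i => H.mf N i z := by
  have h1 := H.pnt_e N z
  have h2 := H.pnt_s N z
  have h3 := H.pnt_cθ N z
  unfold Pt.m
  rw [h1, h2, h3]
  ext i
  simp only [PiLp.sub_apply, PiLp.smul_apply, smul_eq_mul, vec_apply]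
  rfl

lemma norm_pnt_m (N : ℕ) (z : X) : ‖(pnt S k ζ h ε lam N z).m‖ = nv (H.mf N) z := by
  rw [H.pnt_m]; rfl

lemma mf_cont (N : ℕ) (i : Fin 3) : Continuous (H.mf N i) := by
  have h1 := (H.ers i).continuous
  have h2 := H.ζs.continuous
  have h3 := H.sks.continuous
  have h4 := (phx_smooth k).continuous
  have h5 := H.phys.continuous
  have h6 := H.lms.continuous
  unfold mf
  fun_prop

lemma mf_zero (N : ℕ) {z : X} (hz : z ∉ K₀) (i : Fin 3) : H.mf N i z = 0 := by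
  simp [mf, H.er_zero hz, H.sk_zero hz]

lemma vm_mem (N : ℕ) : MemLp (fun z => vv S h z * nv (H.mf N) z) 2 (volume : Measure X) :=
  H.sok.mem (H.sok.vvs.continuous.mul (nv_continuous (H.mf_cont N))) fun z hz => by
    rw [nv_zero fun i => H.mf_zero N hz i, mul_zero]

/-- squared component, weighted -/
def Ek (_H : Req S k ζ h ε lam T₀ K₀) (z : X) : ℝ :=
  vv S h z ^ 2 * (sk S k lam z ^ 2 / ∑ i, k i ^ 2)

lemma Eks : ContDiff ℝ ∞ H.Ek := (H.sok.vvs.pow 2).mul ((H.sks.pow 2).div_const _)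

lemma Ek_nonneg (z : X) : 0 ≤ H.Ek z :=
  mul_nonneg (sq_nonneg _) (div_nonneg (sq_nonneg _) H.κpos.le)

lemma Ek_le (z : X) : H.Ek z ≤ vv S h z ^ 2 * nv (er S lam) z ^ 2 := by
  unfold Ek sk
  refine mul_le_mul_of_nonneg_left ?_ (sq_nonneg _)
  rw [nv_sq, div_le_iff₀ H.κpos]
  exact Finset.sum_mul_sq_le_sq_mul_sq _ _ _

lemma Ek_cs : HasCompactSupport H.Ek :=
  HasCompactSupport.intro H.hK fun z hz => by simp [Ek, H.sk_zero hz]

lemma m_sq' (N : ℕ) (z : X) : vv S h z ^ 2 * nv (H.mf N) z ^ 2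
    = vv S h z ^ 2 * nv (er S lam) z ^ 2
    - H.Ek z * (ζ z - 1 / 4 * ζ z ^ 2 - 1 / 8 * ζ z ^ 2 * lmf S h ε z ^ 2)
    + H.Ek z * (ζ z * lmf S h ε z - 1 / 2 * ζ z ^ 2 * lmf S h ε z)
      * Real.cos (N * (phx k z - phy S.u k z))
    + H.Ek z * (1 / 8 * ζ z ^ 2 * lmf S h ε z ^ 2)
      * Real.cos (N * (2 * (phx k z - phy S.u k z))) := by
  by_cases hz : z ∈ K₀
  · have h1 := (H.pnt_ok N (H.hKT hz)).m_sq
    rw [H.norm_pnt_m, H.pnt_s, H.pnt_cθ, H.pnt_κ, H.pnt_e] at h1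
    have h2 : (N:ℝ) * (2 * (phx k z - phy S.u k z)) = 2 * (N * (phx k z - phy S.u k z)) := by ring
    rw [h1, h2, Real.cos_two_mul]
    have h3 : ‖vec fun i => er S lam i z‖ = nv (er S lam) z := rfl
    have h4 : (pnt S k ζ h ε lam N z).ζ = ζ z := rfl
    have h5 : (pnt S k ζ h ε lam N z).lm = lmf S h ε z := rfl
    rw [h3, h4, h5]
    unfold Ek
    ring
  · rw [nv_zero fun i => H.mf_zero N hz i, nv_zero fun i => H.er_zero hz i]
    simp [Ek, H.sk_zero hz]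

lemma RLθ (g : X → ℝ) (hg : ContDiff ℝ ∞ g) (hz : ∀ z, ζ z = 0 → g z = 0) (c : ℝ) (hc : c ≠ 0) :
    ∃ C : ℝ, ∀ N : ℕ, 1 ≤ N →
      |∫ z, g z * Real.cos (N * (c * (phx k z - phy S.u k z)))| ≤ C / N := by
  have hsub : tsupport g ⊆ tsupport ζ := by
    refine closure_mono fun z hz' => ?_
    intro h0
    exact hz' (hz z h0)
  refine riemann_lebesgue hg (HasCompactSupport.of_support_subset_isCompact H.ζc
    (subset_closure.trans hsub)) (contDiff_const.mul ((phx_smooth k).sub H.phys)) ?_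
  intro z hz'
  rw [D_const_mul ((phx_smooth k).sub H.phys), D_sub (phx_smooth k) H.phys]
  beta_reduce
  rw [Dt_phx]
  refine mul_ne_zero hc ?_
  rw [zero_sub, neg_ne_zero]
  unfold phy
  rw [D_phy (H.good.lab_isLabel H.hK).smooth]
  exact (H.ζt z (hsub hz')).2.1

lemma m_int {δ₁ : ℝ} (hdir : (1 / 4) * (∑ i, k i ^ 2) * (∫ z, ∑ i, (vv S h z * er S lam i z) ^ 2)
      ≤ ∫ z, (∑ i, k i * (vv S h z * er S lam i z)) ^ 2)
    (hcut : ∫ z, (1 - ζ z) * (vv S h z ^ 2 * (nv (er S lam) z ^ 2 + nv S.b z ^ 2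
      + nv S.gp z ^ 2)) ≤ δ₁) :
    ∃ C : ℝ, ∀ N : ℕ, 1 ≤ N →
      n2 (fun z => vv S h z * nv (H.mf N) z) ^ 2 ≤ 27 / 32 * EE S h lam ^ 2 + δ₁ + C / N := by
  have hEs := H.Eks
  have hζs := H.ζs
  have hls := H.lms
  have hEc := H.Ek_cs
  have hζc := hζs.continuous
  have hlc := hls.continuous
  have hEcont := hEs.continuous
  have hvc := H.sok.vvs.continuous
  have he : Continuous (nv (er S lam)) := H.sok.nec
  have hb := H.sok.nbc
  have hg := H.sok.ngc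
  obtain ⟨C1, hC1⟩ := H.RLθ (fun z => H.Ek z * (ζ z * lmf S h ε z
      - 1 / 2 * ζ z ^ 2 * lmf S h ε z))
    (hEs.mul ((hζs.mul hls).sub ((contDiff_const.mul (hζs.pow 2)).mul hls)))
    (fun z hz => by simp [hz]) 1 one_ne_zero
  obtain ⟨C2, hC2⟩ := H.RLθ (fun z => H.Ek z * (1 / 8 * ζ z ^ 2 * lmf S h ε z ^ 2))
    (hEs.mul ((contDiff_const.mul (hζs.pow 2)).mul (hls.pow 2)))
    (fun z hz => by simp [hz]) 2 two_ne_zero
  refine ⟨C1 + C2, fun N hN => ?_⟩
  have a1 := hC1 N hN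
  have a2 := hC2 N hN
  simp only [one_mul] at a1
  rw [n2_sq (H.vm_mem N)]
  simp only [mul_pow, H.m_sq']
  set I1 := ∫ z, H.Ek z * (ζ z * lmf S h ε z - 1 / 2 * ζ z ^ 2 * lmf S h ε z)
    * Real.cos (N * (phx k z - phy S.u k z)) with hI1
  set I2 := ∫ z, H.Ek z * (1 / 8 * ζ z ^ 2 * lmf S h ε z ^ 2)
    * Real.cos (N * (2 * (phx k z - phy S.u k z))) with hI2
  have cx := (phx_smooth k).continuous
  have cy := H.phys.continuous
  have i0 : Integrable (fun z => vv S h z ^ 2 * nv (er S lam) z ^ 2) :=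
    H.sok.int (by fun_prop) fun z hz => by simp [H.sok.ne0 hz]
  have i1 : Integrable (fun z => H.Ek z *
      (ζ z - 1 / 4 * ζ z ^ 2 - 1 / 8 * ζ z ^ 2 * lmf S h ε z ^ 2)) :=
    Continuous.integrable_of_hasCompactSupport (by fun_prop) hEc.mul_right
  have i2 : Integrable (fun z => H.Ek z * (ζ z * lmf S h ε z
      - 1 / 2 * ζ z ^ 2 * lmf S h ε z) *
      Real.cos (N * (phx k z - phy S.u k z))) :=
    Continuous.integrable_of_hasCompactSupport (by fun_prop) (hEc.mul_right.mul_right)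
  have i3 : Integrable (fun z => H.Ek z * (1 / 8 * ζ z ^ 2 * lmf S h ε z ^ 2) *
      Real.cos (N * (2 * (phx k z - phy S.u k z)))) :=
    Continuous.integrable_of_hasCompactSupport (by fun_prop) (hEc.mul_right.mul_right)
  have i01 : Integrable (fun z => vv S h z ^ 2 * nv (er S lam) z ^ 2 - H.Ek z *
      (ζ z - 1 / 4 * ζ z ^ 2 - 1 / 8 * ζ z ^ 2 * lmf S h ε z ^ 2)) := i0.sub i1
  have i012 : Integrable (fun z => vv S h z ^ 2 * nv (er S lam) z ^ 2 - H.Ek z *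
      (ζ z - 1 / 4 * ζ z ^ 2 - 1 / 8 * ζ z ^ 2 * lmf S h ε z ^ 2)
      + H.Ek z * (ζ z * lmf S h ε z - 1 / 2 * ζ z ^ 2 * lmf S h ε z) *
        Real.cos (N * (phx k z - phy S.u k z))) := i01.add i2
  rw [integral_add i012 i3, integral_add i01 i2, integral_sub i0 i1, ← H.sok.EE_sq, ← hI1, ← hI2]
  -- main term
  have iE : Integrable H.Ek := hEcont.integrable_of_hasCompactSupport hEc
  have iEζ : Integrable (fun z => (1 - ζ z) * H.Ek z) :=
    Continuous.integrable_of_hasCompactSupport (by fun_prop) hEc.mul_left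
  have m1 : (5 / 8) * (∫ z, H.Ek z) - (5 / 8) * (∫ z, (1 - ζ z) * H.Ek z)
      ≤ ∫ z, H.Ek z * (ζ z - 1 / 4 * ζ z ^ 2 - 1 / 8 * ζ z ^ 2 * lmf S h ε z ^ 2) := by
    rw [← integral_const_mul, ← integral_const_mul, ← integral_sub (iE.const_mul _)
      (iEζ.const_mul _)]
    refine integral_mono ((iE.const_mul _).sub (iEζ.const_mul _)) i1 fun z => ?_
    have h0 := H.ζ0 z
    have h1 := H.ζ1 z
    have h2 := H.Ek_nonneg z
    have l0 := H.lm0 z
    have l1 := H.lm1 z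
    have l2 : lmf S h ε z ^ 2 ≤ 1 := by nlinarith
    have h3 : 5 / 8 * ζ z ≤ ζ z - 1 / 4 * ζ z ^ 2 - 1 / 8 * ζ z ^ 2 * lmf S h ε z ^ 2 := by
      have h5 : ζ z ^ 2 * lmf S h ε z ^ 2 ≤ ζ z ^ 2 * 1 :=
        mul_le_mul_of_nonneg_left l2 (sq_nonneg _)
      nlinarith
    have h4 := mul_le_mul_of_nonneg_left h3 h2
    beta_reduce
    linarith
  have m2 : ∫ z, (1 - ζ z) * H.Ek z ≤ δ₁ := by
    refine le_trans (integral_mono iEζ ?_ fun z => ?_) hcut
    · exact H.sok.int (by fun_prop) fun z hz => by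
        simp [H.sok.ne0 hz, H.sok.nb0 hz, H.sok.ng0 hz]
    · refine mul_le_mul_of_nonneg_left ?_ (by linarith [H.ζ1 z])
      refine (H.Ek_le z).trans (mul_le_mul_of_nonneg_left ?_ (sq_nonneg _))
      nlinarith [sq_nonneg (nv S.b z), sq_nonneg (nv S.gp z)]
  have m3 : (1 / 4) * EE S h lam ^ 2 ≤ ∫ z, H.Ek z := by
    have e1 : ∫ z, H.Ek z = (∫ z, (∑ i, k i * (vv S h z * er S lam i z)) ^ 2) / ∑ i, k i ^ 2 := by
      rw [← integral_div]
      refine integral_congr_ae (Eventually.of_forall fun z => ?_)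
      beta_reduce
      have : ∑ i, k i * (vv S h z * er S lam i z) = vv S h z * sk S k lam z := by
        unfold sk
        rw [Finset.mul_sum]
        refine Finset.sum_congr rfl fun i _ => by ring
      rw [this]
      unfold Ek
      ring
    have e2 : ∫ z, ∑ i, (vv S h z * er S lam i z) ^ 2 = EE S h lam ^ 2 := by
      rw [H.sok.EE_sq]
      simp only [nv_sq, mul_pow, Finset.mul_sum]
    rw [e2] at hdir
    rw [e1, le_div_iff₀ H.κpos]
    linarith
  have a1' := (abs_le.1 a1).2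
  have a2' := (abs_le.1 a2).2
  rw [add_div]
  have h0 : 0 ≤ δ₁ := by
    refine le_trans (integral_nonneg fun z => ?_) m2
    exact mul_nonneg (by linarith [H.ζ1 z]) (H.Ek_nonneg z)
  linarith

end Req

end

end Pool.Agent.KS6_88.TV
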