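import Pool.Graph.R_seed8.H729R2.Norm

open scoped ContDiff
open Set MeasureTheory Filter Topology
open Pool.Agent.H729R2

namespace Pool.Agent.KS6_88.TV

noncomputable section

/-- the values at one point -/
structure Pt where
  a : E3
  b : E3
  g : E3
  k : E3
  x : E3
  R1 : ℝ
  R2 : ℝ
  ζ : ℝ
  a1 : ℝ
  a2 : ℝ
  cx : ℝ
  cy : ℝ
  sx : ℝ
  sy : ℝ

namespace Pt

variable (P : Pt)

def e : E3 := P.a + P.R2 • P.b - P.R1 • P.g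
def s : ℝ := ∑ i, P.e i * P.k i
def κ : ℝ := ∑ i, P.k i ^ 2
def d2 : ℝ := P.a2 * P.R1 / P.R2
def Dd : ℝ := P.a1 ^ 2 + P.d2 ^ 2
def U : ℝ := P.ζ * P.s * P.a1 / (P.κ * P.Dd)
def V : ℝ := -(P.ζ * P.s * P.d2 / (P.κ * P.Dd))
def cs : ℝ := P.cx * P.cy - P.sx * P.sy
def cθ : ℝ := P.cx * P.cy + P.sx * P.sy
def c2x : ℝ := 2 * P.cx ^ 2 - 1
def c2y : ℝ := 2 * P.cy ^ 2 - 1
/-- the oscillating part of the pressure gradient -/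
def W : E3 := (P.U * P.cx) • P.k + (P.V * P.cy) • P.x
/-- second part of the oscillating viscous term -/
def H : E3 := (-(P.d2 * P.U / (2 * P.R2)) * P.cs) • P.k + (P.a1 * P.V / (2 * P.R2) * P.cs) • P.x
  + (-(P.d2 * P.V / (2 * P.R2)) * P.c2y) • P.x + (P.a1 * P.U / (2 * P.R2) * P.c2x) • P.k
/-- the oscillating viscous term -/
def G : E3 := (-(P.ζ * P.a2 / P.R2) * P.cy) • P.b + ((P.ζ * P.a1 / P.R2) * P.cx) • P.g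
  + (P.R1 / P.R2) • P.W + P.H
def et' : E3 := P.a + (P.R2 + P.a2 * P.cy) • (P.b + P.G) - (P.R1 + P.a1 * P.cx) • (P.g + P.W)
def lm : ℝ := 2 * P.a1 * P.d2 / P.Dd
def m : E3 := P.e - (P.ζ * P.s / (2 * P.κ) * (1 - P.lm * P.cθ)) • P.k

structure Ok : Prop where
  κ0 : P.κ ≠ 0
  a10 : 0 < P.a1
  a11 : P.a1 ≤ 1 / 1000
  a20 : 0 < P.a2
  a21 : P.a2 ≤ 1 / 1000
  R10 : 99 / 100 ≤ P.R1
  R11 : P.R1 ≤ 101 / 100
  R20 : 99 / 100 ≤ P.R2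
  R21 : P.R2 ≤ 101 / 100
  ζ0 : 0 ≤ P.ζ
  ζ1 : P.ζ ≤ 1
  hcx : |P.cx| ≤ 1
  hcy : |P.cy| ≤ 1
  hcs : |P.cs| ≤ 1
  hcθ : |P.cθ| ≤ 1
  hc2x : |P.c2x| ≤ 1
  hc2y : |P.c2y| ≤ 1
  xk : ‖P.x - P.k‖ ≤ 1 / 100 * ‖P.k‖

variable {P}

namespace Ok

variable (h : P.Ok)
include h

omit h in
lemma κ_eq : P.κ = ‖P.k‖ ^ 2 := by
  rw [EuclideanSpace.norm_sq_eq]
  simp [κ]

lemma k_pos : 0 < ‖P.k‖ := by
  have h1 := h.κ0
  rw [κ_eq] at h1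
  exact (norm_nonneg _).lt_of_ne fun h0 => h1 (by rw [← h0]; norm_num)

lemma R1p : 0 < P.R1 := by linarith [h.R10]
lemma R2p : 0 < P.R2 := by linarith [h.R20]

lemma d20 : 0 < P.d2 := by
  have := h.R1p
  have := h.R2p
  have := h.a20
  unfold d2
  positivity

lemma Dd0 : 0 < P.Dd := by
  have := h.a10
  have := h.d20
  unfold Dd
  positivity

lemma d2_le : P.d2 ≤ 103 / 100 * P.a2 := by
  have h1 := h.R1p
  have h2 := h.R2p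
  have h3 := h.a20
  unfold d2
  rw [div_le_iff₀ h2]
  have h4 : P.R1 ≤ 103 / 100 * P.R2 := by linarith [h.R11, h.R20]
  calc P.a2 * P.R1 ≤ P.a2 * (103 / 100 * P.R2) := mul_le_mul_of_nonneg_left h4 h3.le
    _ = _ := by ring

lemma le_d2 : 98 / 100 * P.a2 ≤ P.d2 := by
  have h1 := h.R1p
  have h2 := h.R2p
  have h3 := h.a20
  unfold d2
  rw [le_div_iff₀ h2]
  have h4 : 98 / 100 * P.R2 ≤ P.R1 := by linarith [h.R21, h.R10]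
  calc 98 / 100 * P.a2 * P.R2 = P.a2 * (98 / 100 * P.R2) := by ring
    _ ≤ _ := mul_le_mul_of_nonneg_left h4 h3.le

lemma Dd_le : 96 / 100 * (P.a1 ^ 2 + P.a2 ^ 2) ≤ P.Dd := by
  have h1 := h.le_d2
  have h3 := h.a20
  unfold Dd
  nlinarith [sq_nonneg P.a1]

omit h in
lemma s_le : |P.s| ≤ ‖P.e‖ * ‖P.k‖ := by
  have h1 : P.s = inner ℝ P.e P.k := by
    simp [s, PiLp.inner_apply, mul_comm]
  rw [h1]
  exact abs_real_inner_le_norm _ _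

lemma sκ : |P.ζ * P.s / P.κ| * ‖P.k‖ ≤ ‖P.e‖ := by
  have hk := h.k_pos
  have hs := s_le (P := P)
  rw [κ_eq, abs_div, abs_mul, abs_of_nonneg h.ζ0, abs_of_pos (by positivity : 0 < ‖P.k‖ ^ 2)]
  have h2 : P.ζ * |P.s| / ‖P.k‖ ^ 2 * ‖P.k‖ = P.ζ * (|P.s| / ‖P.k‖) := by
    field_simp
  rw [h2]
  have h3 : |P.s| / ‖P.k‖ ≤ ‖P.e‖ := by
    rw [div_le_iff₀ hk]; exact hs
  calc P.ζ * (|P.s| / ‖P.k‖) ≤ 1 * (|P.s| / ‖P.k‖) := mul_le_mul_of_nonneg_right h.ζ1 (by positivity)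
    _ ≤ ‖P.e‖ := by rw [one_mul]; exact h3

lemma U_eq : |P.U| = |P.ζ * P.s / P.κ| * (P.a1 / P.Dd) := by
  have hD := h.Dd0
  have ha := h.a10
  unfold U
  have : P.ζ * P.s * P.a1 / (P.κ * P.Dd) = P.ζ * P.s / P.κ * (P.a1 / P.Dd) := by
    rw [div_mul_div_comm]
  rw [this, abs_mul, abs_of_pos (by positivity : 0 < P.a1 / P.Dd)]

lemma V_eq : |P.V| = |P.ζ * P.s / P.κ| * (P.d2 / P.Dd) := by
  have hD := h.Dd0
  have ha := h.d20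
  unfold V
  have : P.ζ * P.s * P.d2 / (P.κ * P.Dd) = P.ζ * P.s / P.κ * (P.d2 / P.Dd) := by
    rw [div_mul_div_comm]
  rw [abs_neg, this, abs_mul, abs_of_pos (by positivity : 0 < P.d2 / P.Dd)]

lemma Uk : |P.U| * ‖P.k‖ ≤ ‖P.e‖ * (P.a1 / P.Dd) := by
  have hD := h.Dd0
  have ha := h.a10
  rw [h.U_eq]
  calc |P.ζ * P.s / P.κ| * (P.a1 / P.Dd) * ‖P.k‖ = |P.ζ * P.s / P.κ| * ‖P.k‖ * (P.a1 / P.Dd) := by
        ring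
    _ ≤ _ := mul_le_mul_of_nonneg_right h.sκ (by positivity)

lemma xn : ‖P.x‖ ≤ 101 / 100 * ‖P.k‖ := by
  have h1 : P.x = (P.x - P.k) + P.k := by abel
  rw [h1]
  refine (norm_add_le _ _).trans ?_
  linarith [h.xk]

lemma Vx : |P.V| * ‖P.x‖ ≤ 101 / 100 * (‖P.e‖ * (P.d2 / P.Dd)) := by
  have hD := h.Dd0
  have ha := h.d20
  rw [h.V_eq]
  have h1 := h.xn
  calc |P.ζ * P.s / P.κ| * (P.d2 / P.Dd) * ‖P.x‖
      ≤ |P.ζ * P.s / P.κ| * (P.d2 / P.Dd) * (101 / 100 * ‖P.k‖) :=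
        mul_le_mul_of_nonneg_left h1 (by positivity)
    _ = 101 / 100 * ((|P.ζ * P.s / P.κ| * ‖P.k‖) * (P.d2 / P.Dd)) := by ring
    _ ≤ _ := by
      refine mul_le_mul_of_nonneg_left ?_ (by norm_num)
      exact mul_le_mul_of_nonneg_right h.sκ (by positivity)

/-- the size of `W` -/
lemma W_le : ‖P.W‖ ≤ ‖P.e‖ * ((P.a1 + 101 / 100 * P.d2) / P.Dd) := by
  have h1 := h.Uk
  have h2 := h.Vx
  unfold W
  refine (norm_add_le _ _).trans ?_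
  rw [norm_smul, norm_smul, Real.norm_eq_abs, Real.norm_eq_abs, abs_mul, abs_mul]
  have h3 : |P.U| * |P.cx| * ‖P.k‖ ≤ |P.U| * 1 * ‖P.k‖ := by
    gcongr
    exact h.hcx
  have h4 : |P.V| * |P.cy| * ‖P.x‖ ≤ |P.V| * 1 * ‖P.x‖ := by
    gcongr
    exact h.hcy
  have h5 : ‖P.e‖ * ((P.a1 + 101 / 100 * P.d2) / P.Dd)
      = ‖P.e‖ * (P.a1 / P.Dd) + 101 / 100 * (‖P.e‖ * (P.d2 / P.Dd)) := by ring
  rw [h5]
  linarith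

lemma W_sq : ‖P.W‖ ^ 2 * (P.a1 ^ 2 + P.a2 ^ 2) ≤ 9 / 4 * ‖P.e‖ ^ 2 := by
  have hD := h.Dd0
  have ha := h.a10
  have hd := h.d20
  have h1 := h.W_le
  have h2 := h.Dd_le
  have h3 : ((P.a1 + 101 / 100 * P.d2) / P.Dd) ^ 2 * (P.a1 ^ 2 + P.a2 ^ 2) ≤ 9 / 4 := by
    have h4 : (P.a1 + 101 / 100 * P.d2) ^ 2 ≤ 21 / 10 * P.Dd := by
      unfold Dd
      nlinarith [sq_nonneg (P.a1 - 101 / 100 * P.d2)]
    rw [div_pow, div_mul_eq_mul_div, div_le_iff₀ (by positivity)]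
    have h5 : P.a1 ^ 2 + P.a2 ^ 2 ≤ 100 / 96 * P.Dd := by linarith
    calc (P.a1 + 101 / 100 * P.d2) ^ 2 * (P.a1 ^ 2 + P.a2 ^ 2)
        ≤ (21 / 10 * P.Dd) * (100 / 96 * P.Dd) := mul_le_mul h4 h5 (by positivity) (by positivity)
      _ ≤ 9 / 4 * P.Dd ^ 2 := by nlinarith [sq_nonneg P.Dd]
  have h6 : ‖P.W‖ ^ 2 ≤ ‖P.e‖ ^ 2 * ((P.a1 + 101 / 100 * P.d2) / P.Dd) ^ 2 := by
    rw [← mul_pow]
    exact pow_le_pow_left₀ (norm_nonneg _) h1 2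
  calc ‖P.W‖ ^ 2 * (P.a1 ^ 2 + P.a2 ^ 2)
      ≤ ‖P.e‖ ^ 2 * ((P.a1 + 101 / 100 * P.d2) / P.Dd) ^ 2 * (P.a1 ^ 2 + P.a2 ^ 2) :=
        mul_le_mul_of_nonneg_right h6 (by positivity)
    _ = ‖P.e‖ ^ 2 * (((P.a1 + 101 / 100 * P.d2) / P.Dd) ^ 2 * (P.a1 ^ 2 + P.a2 ^ 2)) := by ring
    _ ≤ ‖P.e‖ ^ 2 * (9 / 4) := mul_le_mul_of_nonneg_left h3 (by positivity)
    _ = _ := by ring

lemma H_le : ‖P.H‖ ≤ 2 * ‖P.e‖ := by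
  have hD := h.Dd0
  have ha := h.a10
  have hd := h.d20
  have hR := h.R20
  have hRp := h.R2p
  have h1 := h.Uk
  have h2 := h.Vx
  have e0 := norm_nonneg P.e
  have r1 : 1 / (2 * P.R2) ≤ 51 / 100 := by
    rw [div_le_iff₀ (by positivity)]
    linarith
  -- products
  have q1 : P.a1 * P.d2 ≤ 1 / 2 * P.Dd := by
    unfold Dd; nlinarith [sq_nonneg (P.a1 - P.d2)]
  have q2 : P.a1 * P.a1 + P.d2 * P.d2 = P.Dd := by unfold Dd; ring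
  have b1 : P.d2 * (|P.U| * ‖P.k‖) ≤ ‖P.e‖ * (P.a1 * P.d2 / P.Dd) := by
    calc P.d2 * (|P.U| * ‖P.k‖) ≤ P.d2 * (‖P.e‖ * (P.a1 / P.Dd)) :=
          mul_le_mul_of_nonneg_left h1 hd.le
      _ = _ := by ring
  have b2 : P.a1 * (|P.V| * ‖P.x‖) ≤ 101 / 100 * (‖P.e‖ * (P.a1 * P.d2 / P.Dd)) := by
    calc P.a1 * (|P.V| * ‖P.x‖) ≤ P.a1 * (101 / 100 * (‖P.e‖ * (P.d2 / P.Dd))) :=
          mul_le_mul_of_nonneg_left h2 ha.le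
      _ = _ := by ring
  have b3 : P.d2 * (|P.V| * ‖P.x‖) ≤ 101 / 100 * (‖P.e‖ * (P.d2 * P.d2 / P.Dd)) := by
    calc P.d2 * (|P.V| * ‖P.x‖) ≤ P.d2 * (101 / 100 * (‖P.e‖ * (P.d2 / P.Dd))) :=
          mul_le_mul_of_nonneg_left h2 hd.le
      _ = _ := by ring
  have b4 : P.a1 * (|P.U| * ‖P.k‖) ≤ ‖P.e‖ * (P.a1 * P.a1 / P.Dd) := by
    calc P.a1 * (|P.U| * ‖P.k‖) ≤ P.a1 * (‖P.e‖ * (P.a1 / P.Dd)) :=
          mul_le_mul_of_nonneg_left h1 ha.le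
      _ = _ := by ring
  have c1 : P.a1 * P.d2 / P.Dd ≤ 1 / 2 := by
    rw [div_le_iff₀ hD]; exact q1
  have c2 : P.a1 * P.a1 / P.Dd + P.d2 * P.d2 / P.Dd = 1 := by
    rw [← add_div, q2, div_self hD.ne']
  have hs : ∀ (c : ℝ) (cc : ℝ) (v : E3), |cc| ≤ 1 →
      ‖(c / (2 * P.R2) * cc) • v‖ ≤ 51 / 100 * (|c| * ‖v‖) := by
    intro c cc v hcc
    rw [norm_smul, Real.norm_eq_abs, abs_mul, abs_div, abs_of_pos (by positivity : 0 < 2 * P.R2)]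
    calc |c| / (2 * P.R2) * |cc| * ‖v‖ = 1 / (2 * P.R2) * (|c| * ‖v‖) * |cc| := by ring
      _ ≤ 51 / 100 * (|c| * ‖v‖) * 1 := by gcongr
      _ = _ := by ring
  have t1 : ‖(-(P.d2 * P.U / (2 * P.R2)) * P.cs) • P.k‖ ≤ 51 / 100 * (P.d2 * (|P.U| * ‖P.k‖)) := by
    have := hs (P.d2 * P.U) P.cs P.k h.hcs
    rw [neg_mul, neg_smul, norm_neg]
    refine this.trans (le_of_eq ?_)
    rw [abs_mul, abs_of_pos hd]; ring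
  have t2 : ‖(P.a1 * P.V / (2 * P.R2) * P.cs) • P.x‖ ≤ 51 / 100 * (P.a1 * (|P.V| * ‖P.x‖)) := by
    refine (hs (P.a1 * P.V) P.cs P.x h.hcs).trans (le_of_eq ?_)
    rw [abs_mul, abs_of_pos ha]; ring
  have t3 : ‖(-(P.d2 * P.V / (2 * P.R2)) * P.c2y) • P.x‖
      ≤ 51 / 100 * (P.d2 * (|P.V| * ‖P.x‖)) := by
    have := hs (P.d2 * P.V) P.c2y P.x h.hc2y
    rw [neg_mul, neg_smul, norm_neg]
    refine this.trans (le_of_eq ?_)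
    rw [abs_mul, abs_of_pos hd]; ring
  have t4 : ‖(P.a1 * P.U / (2 * P.R2) * P.c2x) • P.k‖ ≤ 51 / 100 * (P.a1 * (|P.U| * ‖P.k‖)) := by
    refine (hs (P.a1 * P.U) P.c2x P.k h.hc2x).trans (le_of_eq ?_)
    rw [abs_mul, abs_of_pos ha]; ring
  unfold H
  have n1 := norm_add_le ((-(P.d2 * P.U / (2 * P.R2)) * P.cs) • P.k
    + (P.a1 * P.V / (2 * P.R2) * P.cs) • P.x + (-(P.d2 * P.V / (2 * P.R2)) * P.c2y) • P.x)
    ((P.a1 * P.U / (2 * P.R2) * P.c2x) • P.k)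
  have n2 := norm_add_le ((-(P.d2 * P.U / (2 * P.R2)) * P.cs) • P.k
    + (P.a1 * P.V / (2 * P.R2) * P.cs) • P.x) ((-(P.d2 * P.V / (2 * P.R2)) * P.c2y) • P.x)
  have n3 := norm_add_le ((-(P.d2 * P.U / (2 * P.R2)) * P.cs) • P.k)
    ((P.a1 * P.V / (2 * P.R2) * P.cs) • P.x)
  have f1 : ‖P.e‖ * (P.a1 * P.d2 / P.Dd) ≤ ‖P.e‖ * (1 / 2) := mul_le_mul_of_nonneg_left c1 e0
  have f2 : ‖P.e‖ * (P.a1 * P.a1 / P.Dd) + ‖P.e‖ * (P.d2 * P.d2 / P.Dd) = ‖P.e‖ := by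
    rw [← mul_add, c2, mul_one]
  have f3 : 0 ≤ ‖P.e‖ * (P.d2 * P.d2 / P.Dd) := by positivity
  have f4 : 0 ≤ ‖P.e‖ * (P.a1 * P.a1 / P.Dd) := by positivity
  linarith

lemma identity : P.et' = P.m
    + (P.ζ * P.s / (2 * P.κ) * (-(P.d2 ^ 2 / P.Dd) + P.cθ * (P.a1 * P.d2 / P.Dd))) • (P.x - P.k)
    + ((1 - P.ζ) * P.a2 * P.cy) • P.b + (-((1 - P.ζ) * P.a1 * P.cx)) • P.g
    + (P.a2 * P.cy * (-(P.ζ * P.a2 / P.R2) * P.cy)) • P.b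
    + (P.a2 * P.cy * ((P.ζ * P.a1 / P.R2) * P.cx)) • P.g
    + (P.a2 * P.cy) • P.H := by
  have hκ := h.κ0
  have r1 : P.R1 ≠ 0 := h.R1p.ne'
  have r2 : P.R2 ≠ 0 := h.R2p.ne'
  have hD := h.Dd0.ne'
  have hD' : P.Dd = P.a1 ^ 2 + P.d2 ^ 2 := rfl
  have hd : P.a2 * P.R1 / P.R2 = P.d2 := rfl
  have hU : P.U = P.ζ * P.s / P.κ * (P.a1 / P.Dd) := by
    unfold U; rw [div_mul_div_comm]
  have hV : P.V = - (P.ζ * P.s / P.κ * (P.d2 / P.Dd)) := by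
    unfold V; rw [div_mul_div_comm]
  ext i
  simp only [et', m, G, H, W, PiLp.add_apply, PiLp.sub_apply, PiLp.smul_apply, smul_eq_mul]
  have he : P.e i = P.a i + P.R2 * P.b i - P.R1 * P.g i := by
    simp [e]
  rw [he]
  set σ : ℝ := P.ζ * P.s / P.κ with hσ
  have hσ2 : P.ζ * P.s / (2 * P.κ) = σ / 2 := by
    rw [hσ]; field_simp
  rw [hσ2, hU, hV]
  have hlm : P.lm = 2 * P.a1 * P.d2 / P.Dd := rfl
  rw [hlm]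
  set a1 := P.a1
  set d2 := P.d2
  set Dd := P.Dd
  have ha2 : P.a2 = d2 * P.R2 / P.R1 := by
    have : d2 = P.a2 * P.R1 / P.R2 := rfl
    rw [this]; field_simp
  rw [ha2]
  unfold cs c2x c2y cθ
  field_simp
  rw [hD']
  ring

end Ok

end Pt

end

end Pool.Agent.KS6_88.TV
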