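import Pool.Agent.KS6_88.TV.Pt

open scoped ContDiff
open Set MeasureTheory Filter Topology
open Pool.Agent.H729R2

namespace Pool.Agent.KS6_88.TV

noncomputable section

namespace Pt

variable {P : Pt}

namespace Ok

variable (h : P.Ok)
include h

omit h in
lemma norm_smul_le' {c C : ℝ} (v : E3) (hc : |c| ≤ C) : ‖c • v‖ ≤ C * ‖v‖ := by
  rw [norm_smul, Real.norm_eq_abs]
  exact mul_le_mul_of_nonneg_right hc (norm_nonneg _)

/-- bound of the new error -/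
lemma err_le : ‖P.et' - P.m‖ ≤ 1 / 50 * ‖P.e‖
    + 103 / 100 * (P.a2 * (P.a2 * ‖P.b‖ + P.a1 * ‖P.g‖))
    + (1 - P.ζ) * (P.a2 * ‖P.b‖ + P.a1 * ‖P.g‖) := by
  have hκ := h.κ0
  have hk := h.k_pos
  have hD := h.Dd0
  have ha := h.a10
  have hd := h.d20
  have ha2 := h.a20
  have hRp := h.R2p
  have z0 := h.ζ0
  have z1 : 0 ≤ 1 - P.ζ := by linarith [h.ζ1]
  have e0 := norm_nonneg P.e
  have b0 := norm_nonneg P.b
  have g0 := norm_nonneg P.g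
  have q1 : P.a1 * P.d2 ≤ 1 / 2 * P.Dd := by
    unfold Dd; nlinarith [sq_nonneg (P.a1 - P.d2)]
  have q2 : P.d2 ^ 2 ≤ P.Dd := by unfold Dd; nlinarith [sq_nonneg P.a1]
  -- first
  have b1 : ‖(P.ζ * P.s / (2 * P.κ) * (-(P.d2 ^ 2 / P.Dd) + P.cθ * (P.a1 * P.d2 / P.Dd))) •
      (P.x - P.k)‖ ≤ 3 / 400 * ‖P.e‖ := by
    have h1 : |-(P.d2 ^ 2 / P.Dd) + P.cθ * (P.a1 * P.d2 / P.Dd)| ≤ 3 / 2 := by
      refine (abs_add_le _ _).trans ?_
      rw [abs_neg, abs_mul, abs_of_nonneg (by positivity : 0 ≤ P.d2 ^ 2 / P.Dd),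
        abs_of_nonneg (by positivity : 0 ≤ P.a1 * P.d2 / P.Dd)]
      have h2 : P.d2 ^ 2 / P.Dd ≤ 1 := by rw [div_le_one hD]; exact q2
      have h3 : P.a1 * P.d2 / P.Dd ≤ 1 / 2 := by rw [div_le_iff₀ hD]; exact q1
      have h4 : |P.cθ| * (P.a1 * P.d2 / P.Dd) ≤ 1 * (1 / 2) :=
        mul_le_mul h.hcθ h3 (by positivity) (by norm_num)
      linarith
    have h5 : P.ζ * P.s / (2 * P.κ) = 1 / 2 * (P.ζ * P.s / P.κ) := by field_simp
    rw [norm_smul, Real.norm_eq_abs, h5, abs_mul, abs_mul, abs_of_pos (by norm_num : (0:ℝ) < 1 / 2)]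
    have h6 := h.xk
    calc 1 / 2 * |P.ζ * P.s / P.κ| * |-(P.d2 ^ 2 / P.Dd) + P.cθ * (P.a1 * P.d2 / P.Dd)| *
          ‖P.x - P.k‖
        ≤ 1 / 2 * |P.ζ * P.s / P.κ| * (3 / 2) * (1 / 100 * ‖P.k‖) := by gcongr
      _ = 3 / 400 * (|P.ζ * P.s / P.κ| * ‖P.k‖) := by ring
      _ ≤ 3 / 400 * ‖P.e‖ := mul_le_mul_of_nonneg_left h.sκ (by norm_num)
  have b2 : |(1 - P.ζ) * P.a2 * P.cy| ≤ (1 - P.ζ) * P.a2 := by
    rw [abs_mul, abs_of_nonneg (by positivity : 0 ≤ (1 - P.ζ) * P.a2)]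
    exact mul_le_of_le_one_right (by positivity) h.hcy
  have b3 : |-((1 - P.ζ) * P.a1 * P.cx)| ≤ (1 - P.ζ) * P.a1 := by
    rw [abs_neg, abs_mul, abs_of_nonneg (by positivity : 0 ≤ (1 - P.ζ) * P.a1)]
    exact mul_le_of_le_one_right (by positivity) h.hcx
  have rr : 1 / P.R2 ≤ 103 / 100 := by
    rw [div_le_iff₀ hRp]; linarith [h.R20]
  have b4 : |P.a2 * P.cy * (-(P.ζ * P.a2 / P.R2) * P.cy)| ≤ 103 / 100 * (P.a2 * P.a2) := by
    have : P.a2 * P.cy * (-(P.ζ * P.a2 / P.R2) * P.cy)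
      = -(P.ζ * (1 / P.R2) * (P.a2 * P.a2) * (P.cy * P.cy)) := by ring
    rw [this, abs_neg, abs_mul, abs_of_nonneg (by positivity : 0 ≤ P.ζ * (1 / P.R2) *
      (P.a2 * P.a2)), abs_mul]
    calc P.ζ * (1 / P.R2) * (P.a2 * P.a2) * (|P.cy| * |P.cy|)
        ≤ 1 * (103 / 100) * (P.a2 * P.a2) * (1 * 1) := by
          gcongr
          · exact h.ζ1
          · exact h.hcy
          · exact h.hcy
      _ = _ := by ring
  have b5 : |P.a2 * P.cy * ((P.ζ * P.a1 / P.R2) * P.cx)| ≤ 103 / 100 * (P.a2 * P.a1) := by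
    have : P.a2 * P.cy * ((P.ζ * P.a1 / P.R2) * P.cx)
      = (P.ζ * (1 / P.R2) * (P.a2 * P.a1) * (P.cy * P.cx)) := by ring
    rw [this, abs_mul, abs_of_nonneg (by positivity : 0 ≤ P.ζ * (1 / P.R2) *
      (P.a2 * P.a1)), abs_mul]
    calc P.ζ * (1 / P.R2) * (P.a2 * P.a1) * (|P.cy| * |P.cx|)
        ≤ 1 * (103 / 100) * (P.a2 * P.a1) * (1 * 1) := by
          gcongr
          · exact h.ζ1
          · exact h.hcy
          · exact h.hcx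
      _ = _ := by ring
  have b6 : ‖(P.a2 * P.cy) • P.H‖ ≤ 1 / 500 * ‖P.e‖ := by
    rw [norm_smul, Real.norm_eq_abs, abs_mul, abs_of_pos ha2]
    have h1 := h.H_le
    have h2 := h.a21
    calc P.a2 * |P.cy| * ‖P.H‖ ≤ 1 / 1000 * 1 * (2 * ‖P.e‖) := by
          gcongr
          exact h.hcy
      _ = _ := by ring
  rw [h.identity]
  have c2 := norm_smul_le' P.b b2
  have c3 := norm_smul_le' P.g b3
  have c4 := norm_smul_le' P.b b4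
  have c5 := norm_smul_le' P.g b5
  set v1 := (P.ζ * P.s / (2 * P.κ) * (-(P.d2 ^ 2 / P.Dd) + P.cθ * (P.a1 * P.d2 / P.Dd))) •
      (P.x - P.k)
  set v2 := ((1 - P.ζ) * P.a2 * P.cy) • P.b
  set v3 := (-((1 - P.ζ) * P.a1 * P.cx)) • P.g
  set v4 := (P.a2 * P.cy * (-(P.ζ * P.a2 / P.R2) * P.cy)) • P.b
  set v5 := (P.a2 * P.cy * ((P.ζ * P.a1 / P.R2) * P.cx)) • P.g
  set v6 := (P.a2 * P.cy) • P.H
  have e7 : P.m + v1 + v2 + v3 + v4 + v5 + v6 - P.m = v1 + v2 + v3 + v4 + v5 + v6 := by abel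
  rw [e7]
  have t1 := norm_add_le (v1 + v2 + v3 + v4 + v5) v6
  have t2 := norm_add_le (v1 + v2 + v3 + v4) v5
  have t3 := norm_add_le (v1 + v2 + v3) v4
  have t4 := norm_add_le (v1 + v2) v3
  have t5 := norm_add_le v1 v2
  have f1 : 103 / 100 * (P.a2 * (P.a2 * ‖P.b‖ + P.a1 * ‖P.g‖))
    = 103 / 100 * (P.a2 * P.a2) * ‖P.b‖ + 103 / 100 * (P.a2 * P.a1) * ‖P.g‖ := by ring
  have f2 : (1 - P.ζ) * (P.a2 * ‖P.b‖ + P.a1 * ‖P.g‖)
    = (1 - P.ζ) * P.a2 * ‖P.b‖ + (1 - P.ζ) * P.a1 * ‖P.g‖ := by ring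
  rw [f1, f2]
  linarith

/-- the size of `b` -/
lemma b_le : ‖P.b‖ ≤ 103 / 100 * (‖P.g‖ + ‖P.a‖ + ‖P.e‖) := by
  have hRp := h.R2p
  have h1 : P.R2 • P.b = P.e - P.a + P.R1 • P.g := by
    unfold e; abel
  have h2 : ‖P.R2 • P.b‖ ≤ ‖P.e‖ + ‖P.a‖ + 101 / 100 * ‖P.g‖ := by
    rw [h1]
    refine (norm_add_le _ _).trans (add_le_add (norm_sub_le _ _) ?_)
    rw [norm_smul, Real.norm_eq_abs, abs_of_pos h.R1p]
    exact mul_le_mul_of_nonneg_right h.R11 (norm_nonneg _)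
  rw [norm_smul, Real.norm_eq_abs, abs_of_pos hRp] at h2
  have h3 : 99 / 100 * ‖P.b‖ ≤ P.R2 * ‖P.b‖ := mul_le_mul_of_nonneg_right h.R20 (norm_nonneg _)
  have := norm_nonneg P.e
  have := norm_nonneg P.a
  have := norm_nonneg P.g
  linarith

/-- the change of the force -/
lemma df_le : ‖(P.R1 + P.a1 * P.cx) • (P.g + P.W) - P.R1 • P.g‖
    ≤ P.a1 * ‖P.g‖ + 103 / 100 * ‖P.W‖ := by
  have h1 : (P.R1 + P.a1 * P.cx) • (P.g + P.W) - P.R1 • P.g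
      = (P.a1 * P.cx) • P.g + (P.R1 + P.a1 * P.cx) • P.W := by
    ext i
    simp only [PiLp.add_apply, PiLp.sub_apply, PiLp.smul_apply, smul_eq_mul]
    ring
  rw [h1]
  refine (norm_add_le _ _).trans (add_le_add (norm_smul_le' _ ?_) (norm_smul_le' _ ?_))
  · rw [abs_mul, abs_of_pos h.a10]
    exact mul_le_of_le_one_right h.a10.le h.hcx
  · refine (abs_add_le _ _).trans ?_
    rw [abs_of_pos h.R1p, abs_mul, abs_of_pos h.a10]
    have := mul_le_mul h.a11 h.hcx (abs_nonneg _) (by norm_num)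
    linarith [h.R11]

lemma m_sq : ‖P.m‖ ^ 2 = ‖P.e‖ ^ 2 - P.s ^ 2 / P.κ * (P.ζ * (1 - P.lm * P.cθ) - P.ζ ^ 2 / 4 *
    (1 - P.lm * P.cθ) ^ 2) := by
  have hκ := h.κ0
  rw [EuclideanSpace.norm_sq_eq, EuclideanSpace.norm_sq_eq]
  simp only [m, PiLp.sub_apply, PiLp.smul_apply, smul_eq_mul, Real.norm_eq_abs, sq_abs]
  set c := P.ζ * P.s / (2 * P.κ) * (1 - P.lm * P.cθ) with hc
  have h1 : ∀ i, (P.e i - c * P.k i) ^ 2 = P.e i ^ 2 - 2 * c * (P.e i * P.k i)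
    + c ^ 2 * (P.k i ^ 2) := fun i => by ring
  simp only [h1]
  rw [Finset.sum_add_distrib, Finset.sum_sub_distrib, ← Finset.mul_sum, ← Finset.mul_sum]
  have h2 : ∑ i, P.e i * P.k i = P.s := rfl
  have h3 : ∑ i, P.k i ^ 2 = P.κ := rfl
  rw [h2, h3, hc]
  field_simp
  ring

lemma lm0 : 0 ≤ P.lm := by
  have := h.a10
  have := h.d20
  have := h.Dd0
  unfold lm
  positivity

lemma lm1 : P.lm ≤ 1 := by
  have hD := h.Dd0
  unfold lm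
  rw [div_le_one hD]
  unfold Dd
  nlinarith [sq_nonneg (P.a1 - P.d2)]

end Ok

end Pt

/-- the square root inequality for the weights -/
lemma sqrt_step {s ε c : ℝ} (hs : |s| < 1) (hε : 0 < ε) (hε1 : ε ≤ 1 / 100) (hc : |c| ≤ 1) :
    0 < 1 - (s + ε * (1 - s ^ 2) * c) ^ 2 ∧
    √(1 - (s + ε * (1 - s ^ 2) * c) ^ 2) ≤
      √(1 - s ^ 2) * (1 - ε * s * c - 1 / 2 * ε ^ 2 * c ^ 2 + 3 * ε ^ 3) ∧
    (1 - 3 * ε) * (1 - s ^ 2) ≤ 1 - (s + ε * (1 - s ^ 2) * c) ^ 2 := by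
  have hs2 : s ^ 2 < 1 := by
    rw [← sq_abs]; nlinarith [abs_nonneg s]
  have hs1 := (abs_lt.1 hs).1
  have hs1' := (abs_lt.1 hs).2
  have hc1 := (abs_le.1 hc).1
  have hc1' := (abs_le.1 hc).2
  have hc2 : c ^ 2 ≤ 1 := by nlinarith
  set x : ℝ := 2 * ε * s * c + ε ^ 2 * (1 - s ^ 2) * c ^ 2 with hx
  have hfac : 1 - (s + ε * (1 - s ^ 2) * c) ^ 2 = (1 - s ^ 2) * (1 - x) := by
    rw [hx]; ring
  have hsc : |s * c| ≤ 1 := by
    rw [abs_mul]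
    calc |s| * |c| ≤ 1 * 1 := mul_le_mul hs.le hc (abs_nonneg _) (by norm_num)
      _ = 1 := by norm_num
  have hsc1 := (abs_le.1 hsc).1
  have hsc2 := (abs_le.1 hsc).2
  have hq0 : 0 ≤ ε ^ 2 * (1 - s ^ 2) * c ^ 2 := by
    have : 0 ≤ 1 - s ^ 2 := by linarith
    positivity
  have hq1 : ε ^ 2 * (1 - s ^ 2) * c ^ 2 ≤ ε ^ 2 := by
    have h1 : (1 - s ^ 2) * c ^ 2 ≤ 1 * 1 :=
      mul_le_mul (by nlinarith [sq_nonneg s]) hc2 (sq_nonneg _) (by norm_num)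
    have : ε ^ 2 * (1 - s ^ 2) * c ^ 2 = ε ^ 2 * ((1 - s ^ 2) * c ^ 2) := by ring
    rw [this]
    nlinarith [sq_nonneg ε]
  have hxabs : |x| ≤ 3 * ε := by
    rw [abs_le, hx]
    constructor
    · nlinarith
    · nlinarith
  have hx1 := (abs_le.1 hxabs).1
  have hx2 := (abs_le.1 hxabs).2
  have hx3 : x ≤ 1 / 2 := by linarith
  have h1s : 0 < 1 - s ^ 2 := by linarith
  refine ⟨?_, ?_, ?_⟩
  · rw [hfac]
    exact mul_pos h1s (by linarith)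
  · rw [hfac, Real.sqrt_mul h1s.le]
    refine mul_le_mul_of_nonneg_left ?_ (Real.sqrt_nonneg _)
    -- the polynomial bound
    have p1 : √(1 - x) ≤ 1 - x / 2 - x ^ 2 / 8 - x ^ 3 / 16 := by
      rw [Real.sqrt_le_left]
      · have e1 : (1 - x / 2 - x ^ 2 / 8 - x ^ 3 / 16) ^ 2
          = 1 - x + x ^ 4 * (5 / 64 + x / 64 + x ^ 2 / 256) := by ring
        rw [e1]
        have : 0 ≤ x ^ 4 * (5 / 64 + x / 64 + x ^ 2 / 256) := by
          have h1 : 0 ≤ x ^ 4 := by positivity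
          have h2 : 0 ≤ 5 / 64 + x / 64 + x ^ 2 / 256 := by nlinarith [sq_nonneg x]
          positivity
        linarith
      · have h3 : x ^ 2 ≤ 1 := by nlinarith
        have h4 : x ^ 3 ≤ 1 := by
          have : x ^ 3 = x * x ^ 2 := by ring
          rw [this]
          nlinarith [sq_nonneg x]
        linarith
    refine p1.trans ?_
    have c3 : |c ^ 3 * (s * (1 - s ^ 2))| ≤ 1 := by
      rw [abs_mul, abs_pow, abs_mul]
      have h5 : |1 - s ^ 2| ≤ 1 := by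
        rw [abs_le]; constructor <;> nlinarith [sq_nonneg s]
      have h6 : |c| ^ 3 ≤ 1 := pow_le_one₀ (abs_nonneg _) hc
      have h7 : |s| * |1 - s ^ 2| ≤ 1 * 1 := mul_le_mul hs.le h5 (abs_nonneg _) (by norm_num)
      calc |c| ^ 3 * (|s| * |1 - s ^ 2|) ≤ 1 * (1 * 1) :=
            mul_le_mul h6 h7 (by positivity) (by norm_num)
        _ = 1 := by norm_num
    have hxx : 4 * ε ^ 2 * s ^ 2 * c ^ 2 - 4 * ε ^ 3 ≤ x ^ 2 := by
      have e1 : x ^ 2 = 4 * ε ^ 2 * s ^ 2 * c ^ 2 + 4 * ε ^ 3 * (c ^ 3 * (s * (1 - s ^ 2)))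
        + (ε ^ 2 * (1 - s ^ 2) * c ^ 2) ^ 2 := by rw [hx]; ring
      rw [e1]
      have h8 := (abs_le.1 c3).1
      have h9 : 0 < ε ^ 3 := by positivity
      nlinarith [sq_nonneg (ε ^ 2 * (1 - s ^ 2) * c ^ 2)]
    have hx3' : - (27 * ε ^ 3) ≤ x ^ 3 := by
      have h1 : |x ^ 3| ≤ (3 * ε) ^ 3 := by
        rw [abs_pow]
        exact pow_le_pow_left₀ (abs_nonneg _) hxabs 3
      have h2 := (abs_le.1 h1).1
      linarith [h2, (by ring : (3 * ε) ^ 3 = 27 * ε ^ 3)]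
    have e2 : x / 2 = ε * s * c + 1 / 2 * ε ^ 2 * c ^ 2 - 1 / 2 * ε ^ 2 * s ^ 2 * c ^ 2 := by
      rw [hx]; ring
    have h9 : 0 < ε ^ 3 := by positivity
    have e3 : 1 - x / 2 - x ^ 2 / 8 - x ^ 3 / 16 = 1 - (ε * s * c + 1 / 2 * ε ^ 2 * c ^ 2
      - 1 / 2 * ε ^ 2 * s ^ 2 * c ^ 2) - x ^ 2 / 8 - x ^ 3 / 16 := by rw [e2]
    rw [e3]
    clear_value x
    linarith
  · rw [hfac, mul_comm]
    exact mul_le_mul_of_nonneg_left (by linarith) h1s.le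

end

end Pool.Agent.KS6_88.TV
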