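import Pool.Graph.R_seed8.H729R2.Fin1

open scoped ContDiff
open Set MeasureTheory Filter Topology
open Pool.Agent.H729R2 Pool.Agent.H729R2.MHD

namespace Pool.Agent.KS6_88.TV

noncomputable section

lemma integral_pdx {f : E3 → ℝ} (hf : ContDiff ℝ ∞ f) (hc : HasCompactSupport f) (j : Fin 3) :
    ∫ x, pdx j f x = 0 := by
  have h := ibp3 (F := fun _ : E3 => (1:ℝ)) contDiff_const hf (Or.inr hc) j
  have h1 : ∀ x, pdx j (fun _ : E3 => (1:ℝ)) x = 0 := by
    intro x
    unfold pdx
    simp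
  simpa [h1] using h

/-- vector fields adapted to a phase which is nondegenerate on the slab -/
lemma exists_field {T₀ : ℝ} {g θ : X → ℝ} (hg : ContDiff ℝ ∞ g) (hθ : ContDiff ℝ ∞ θ) {c₀ : ℝ}
    (hc₀ : 0 < c₀) (hq : ∀ z ∈ slab T₀, c₀ ≤ ∑ j, (D (ev j) θ z) ^ 2) :
    ∃ H : Fin 3 → X → ℝ, (∀ j, ContDiff ℝ ∞ (H j)) ∧ (∀ j z, g z = 0 → H j z = 0) ∧
      ∀ z ∈ slab T₀, ∑ j, H j z * D (ev j) θ z = g z := by
  set q : X → ℝ := fun z => ∑ j, (D (ev j) θ z) ^ 2 with hqdef
  have hqs : ContDiff ℝ ∞ q := ContDiff.sum fun j _ => (D_smooth hθ (ev j)).pow 2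
  set s : X → ℝ := fun z => Real.smoothTransition (2 * q z / c₀ - 1) with hs
  have hss : ContDiff ℝ ∞ s := Real.smoothTransition.contDiff.comp
    (((contDiff_const.mul hqs).div_const _).sub contDiff_const)
  have hs1 : ∀ z ∈ slab T₀, s z = 1 := by
    intro z hz
    refine Real.smoothTransition.one_of_one_le ?_
    have h1 := hq z hz
    have h2 : 2 ≤ 2 * q z / c₀ := by
      rw [le_div_iff₀ hc₀]
      change 2 * c₀ ≤ 2 * q z
      linarith
    linarith
  have hs0 : ∀ z, q z ≤ c₀ / 2 → s z = 0 := by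
    intro z hz
    refine Real.smoothTransition.zero_of_nonpos ?_
    have h2 : 2 * q z / c₀ ≤ 1 := by
      rw [div_le_one hc₀]
      linarith
    linarith
  refine ⟨fun j z => (s z * (g z * D (ev j) θ z)) / q z, fun j => ?_, fun j z hz => by simp [hz],
    fun z hz => ?_⟩
  · refine contDiff_div_of_tsupport (hss.mul (hg.mul (D_smooth hθ (ev j)))) hqs fun z hz => ?_
    have hsub : tsupport (fun z => s z * (g z * D (ev j) θ z)) ⊆ {z | c₀ / 2 ≤ q z} := by
      refine closure_minimal (fun z hz => ?_) (isClosed_le continuous_const hqs.continuous)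
      by_contra hcon
      apply hz
      have : s z = 0 := hs0 z (by
        have : ¬ c₀ / 2 ≤ q z := hcon
        linarith)
      simp [this]
    have : c₀ / 2 ≤ q z := hsub hz
    linarith
  · have hqz : q z ≠ 0 := by
      have := hq z hz
      have h2 : c₀ ≤ q z := this
      linarith
    simp only [hs1 z hz, one_mul]
    have e1 : ∀ j, g z * D (ev j) θ z / q z * D (ev j) θ z
        = g z / q z * (D (ev j) θ z) ^ 2 := fun j => by ring
    rw [Finset.sum_congr rfl fun j _ => e1 j, ← Finset.mul_sum]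
    change g z / q z * q z = g z
    field_simp

/-- Riemann-Lebesgue lemma in space-time -/
lemma rl_space {T₀ : ℝ} {g θ : X → ℝ} (hg : ContDiff ℝ ∞ g) (hc : HasCompactSupport g)
    (hgs : tsupport g ⊆ slab T₀) (hθ : ContDiff ℝ ∞ θ) {c₀ : ℝ}
    (hc₀ : 0 < c₀) (hq : ∀ z ∈ slab T₀, c₀ ≤ ∑ j, (D (ev j) θ z) ^ 2) :
    ∃ C : ℝ, ∀ N : ℕ, 1 ≤ N → |∫ z, g z * Real.cos (N * θ z)| ≤ C / N := by
  obtain ⟨H, hHs, hH0, hH⟩ := exists_field hg hθ hc₀ hq
  have hHc : ∀ j, HasCompactSupport (H j) := fun j => hc.mono fun z hz => by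
    intro h0
    exact hz (hH0 j z h0)
  have hHt : ∀ j, tsupport (H j) ⊆ tsupport g := fun j => closure_mono fun z hz h0 =>
    hz (hH0 j z h0)
  have hsin : ∀ N : ℕ, ContDiff ℝ ∞ (fun z => Real.sin (N * θ z)) := fun N =>
      Real.contDiff_sin.comp (contDiff_const.mul hθ)
  have hcos : ∀ N : ℕ, ContDiff ℝ ∞ (fun z => Real.cos (N * θ z)) := fun N =>
      Real.contDiff_cos.comp (contDiff_const.mul hθ)
  have hDc : ∀ j, HasCompactSupport (D (ev j) (H j)) := fun j =>
    (hHc j).mono' (subset_closure.trans (tsupport_D_subset (ev j) (H j)))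
  refine ⟨∑ j, ∫ z, |D (ev j) (H j) z|, fun N hN => ?_⟩
  have hN' : (0:ℝ) < N := by exact_mod_cast hN
  have h1 : ∀ j, ∫ z, (D (ev j) (H j) z * Real.sin (N * θ z)
      + H j z * (N * D (ev j) θ z * Real.cos (N * θ z))) = 0 := by
    intro j
    have h1 := integral_D_eq_zero ((hHs j).mul (hsin N)) (hHc j).mul_right (ev j)
    rw [D_mul (hHs j) (hsin N), D_sin hθ] at h1
    exact h1
  have i1 : ∀ j, Integrable (fun z => D (ev j) (H j) z * Real.sin (N * θ z)) := fun j =>
    ((D_smooth (hHs j) (ev j)).mul (hsin N)).continuous.integrable_of_hasCompactSupport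
      (hDc j).mul_right
  have i2 : ∀ j, Integrable (fun z => H j z * (N * D (ev j) θ z * Real.cos (N * θ z))) := fun j =>
    ((hHs j).mul ((contDiff_const.mul (D_smooth hθ (ev j))).mul
      (hcos N))).continuous.integrable_of_hasCompactSupport (hHc j).mul_right
  have h2 : ∀ j, ∫ z, H j z * (N * D (ev j) θ z * Real.cos (N * θ z))
      = - ∫ z, D (ev j) (H j) z * Real.sin (N * θ z) := by
    intro j
    have := h1 j
    rw [integral_add (i1 j) (i2 j)] at this
    linarith
  have h3 : ∀ z, (N:ℝ) * (g z * Real.cos (N * θ z))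
      = ∑ j, H j z * (N * D (ev j) θ z * Real.cos (N * θ z)) := by
    intro z
    by_cases hz : z ∈ slab T₀
    · rw [← hH z hz, Finset.sum_mul, Finset.mul_sum]
      refine Finset.sum_congr rfl fun j _ => by ring
    · have hg0 : g z = 0 := image_eq_zero_of_notMem_tsupport fun h' => hz (hgs h')
      have : ∀ j, H j z = 0 := fun j => hH0 j z hg0
      simp [hg0, this]
  have h4 : ∫ z, g z * Real.cos (N * θ z)
      = - (∑ j, ∫ z, D (ev j) (H j) z * Real.sin (N * θ z)) / N := by
    have : (N:ℝ) * ∫ z, g z * Real.cos (N * θ z)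
        = - (∑ j, ∫ z, D (ev j) (H j) z * Real.sin (N * θ z)) := by
      rw [← integral_const_mul]
      simp only [h3]
      rw [integral_finsetSum _ fun j _ => i2 j]
      simp only [h2, Finset.sum_neg_distrib]
    field_simp
    linarith
  rw [h4, abs_div, abs_neg, abs_of_pos hN']
  apply div_le_div_of_nonneg_right _ hN'.le
  refine (Finset.abs_sum_le_sum_abs _ _).trans (Finset.sum_le_sum fun j _ => ?_)
  refine (abs_integral_le_integral_abs).trans ?_
  refine integral_mono (i1 j).abs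
    ((D_smooth (hHs j) (ev j)).continuous.abs.integrable_of_hasCompactSupport (hDc j).abs)
    fun z => ?_
  simp only [abs_mul]
  have := Real.abs_sin_le_one (N * θ z)
  nlinarith [abs_nonneg (D (ev j) (H j) z), abs_nonneg (Real.sin (N * θ z))]

/-- Riemann-Lebesgue lemma on the time slices, uniformly in time -/
lemma rl_slice {T₀ : ℝ} {g θ : X → ℝ} (hg : ContDiff ℝ ∞ g) {A : Set E3} (hA : IsCompact A)
    (hgA : ∀ t x, x ∉ A → g (t, x) = 0) (hθ : ContDiff ℝ ∞ θ) {c₀ : ℝ}
    (hc₀ : 0 < c₀) (hq : ∀ z ∈ slab T₀, c₀ ≤ ∑ j, (D (ev j) θ z) ^ 2) :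
    ∃ C : ℝ, ∀ N : ℕ, 1 ≤ N → ∀ t, 0 ≤ t → t ≤ T₀ →
      |∫ x, g (t, x) * Real.cos (N * θ (t, x))| ≤ C / N := by
  obtain ⟨H, hHs, hH0, hH⟩ := exists_field hg hθ hc₀ hq
  have hsin : ∀ N : ℕ, ContDiff ℝ ∞ (fun z => Real.sin (N * θ z)) := fun N =>
      Real.contDiff_sin.comp (contDiff_const.mul hθ)
  have hcos : ∀ N : ℕ, ContDiff ℝ ∞ (fun z => Real.cos (N * θ z)) := fun N =>
      Real.contDiff_cos.comp (contDiff_const.mul hθ)
  have hHA : ∀ j t x, x ∉ A → H j (t, x) = 0 := fun j t x hx => hH0 j _ (hgA t x hx)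
  have hDA : ∀ j t x, x ∉ A → D (ev j) (H j) (t, x) = 0 := by
    intro j t x hx
    rw [← pdx_slice (hHs j)]
    refine pdx_supp j fun h' => hx ?_
    refine (closure_minimal (fun y hy => ?_) hA.isClosed) h'
    by_contra hcon
    exact hy (hHA j t y hcon)
  have hbd : ∀ j, ∃ C : ℝ, ∀ z ∈ Icc (0:ℝ) T₀ ×ˢ A, |D (ev j) (H j) z| ≤ C := fun j =>
    bounded_on (isCompact_Icc.prod hA) (D_smooth (hHs j) (ev j)).continuous
  choose C hC using hbd
  refine ⟨∑ j, |C j| * (volume A).toReal, fun N hN t ht0 htT => ?_⟩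
  have hN' : (0:ℝ) < N := by exact_mod_cast hN
  have hsl : ∀ x, ((t, x) : X) ∈ slab T₀ := fun x => ⟨ht0, htT⟩
  have hHc : ∀ j, HasCompactSupport (fun x : E3 => H j (t, x)) := fun j =>
    HasCompactSupport.intro hA fun x hx => hHA j t x hx
  have hcs1 : ∀ j, HasCompactSupport (fun x : E3 => H j (t, x) * Real.sin (N * θ (t, x))) :=
    fun j => (hHc j).mul_right
  have h1 : ∀ j, ∫ x : E3, (D (ev j) (H j) (t, x) * Real.sin (N * θ (t, x))
      + H j (t, x) * (N * D (ev j) θ (t, x) * Real.cos (N * θ (t, x)))) = 0 := by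
    intro j
    have h1 := integral_pdx (f := fun x : E3 => H j (t, x) * Real.sin (N * θ (t, x)))
      (slice_smooth ((hHs j).mul (hsin N)) t) (hcs1 j) j
    have h2 : ∀ x, pdx j (fun x : E3 => H j (t, x) * Real.sin (N * θ (t, x))) x
        = D (ev j) (H j) (t, x) * Real.sin (N * θ (t, x))
      + H j (t, x) * (N * D (ev j) θ (t, x) * Real.cos (N * θ (t, x))) := by
      intro x
      have h3 := pdx_slice ((hHs j).mul (hsin N)) j t x
      rw [D_mul (hHs j) (hsin N), D_sin hθ] at h3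
      exact h3
    simp only [h2] at h1
    exact h1
  have i1 : ∀ j, Integrable (fun x : E3 => D (ev j) (H j) (t, x) * Real.sin (N * θ (t, x))) :=
    fun j => (slice_cont ((D_smooth (hHs j) (ev j)).mul
      (hsin N)).continuous t).integrable_of_hasCompactSupport
      (HasCompactSupport.intro hA fun x hx => by rw [hDA j t x hx, zero_mul])
  have i2 : ∀ j, Integrable (fun x : E3 => H j (t, x) *
      (N * D (ev j) θ (t, x) * Real.cos (N * θ (t, x)))) := fun j =>
    (slice_cont ((hHs j).mul ((contDiff_const.mul (D_smooth hθ (ev j))).mul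
      (hcos N))).continuous t).integrable_of_hasCompactSupport
      (HasCompactSupport.intro hA fun x hx => by rw [hHA j t x hx, zero_mul])
  have h2 : ∀ j, ∫ x : E3, H j (t, x) * (N * D (ev j) θ (t, x) * Real.cos (N * θ (t, x)))
      = - ∫ x : E3, D (ev j) (H j) (t, x) * Real.sin (N * θ (t, x)) := by
    intro j
    have := h1 j
    rw [integral_add (i1 j) (i2 j)] at this
    linarith
  have h3 : ∀ x : E3, (N:ℝ) * (g (t, x) * Real.cos (N * θ (t, x)))
      = ∑ j, H j (t, x) * (N * D (ev j) θ (t, x) * Real.cos (N * θ (t, x))) := by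
    intro x
    rw [← hH _ (hsl x), Finset.sum_mul, Finset.mul_sum]
    refine Finset.sum_congr rfl fun j _ => by ring
  have h4 : ∫ x : E3, g (t, x) * Real.cos (N * θ (t, x))
      = - (∑ j, ∫ x : E3, D (ev j) (H j) (t, x) * Real.sin (N * θ (t, x))) / N := by
    have : (N:ℝ) * ∫ x : E3, g (t, x) * Real.cos (N * θ (t, x))
        = - (∑ j, ∫ x : E3, D (ev j) (H j) (t, x) * Real.sin (N * θ (t, x))) := by
      rw [← integral_const_mul]
      simp only [h3]
      rw [integral_finsetSum _ fun j _ => i2 j]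
      simp only [h2, Finset.sum_neg_distrib]
    field_simp
    linarith
  rw [h4, abs_div, abs_neg, abs_of_pos hN']
  apply div_le_div_of_nonneg_right _ hN'.le
  refine (Finset.abs_sum_le_sum_abs _ _).trans (Finset.sum_le_sum fun j _ => ?_)
  have h5 : ∫ x : E3, D (ev j) (H j) (t, x) * Real.sin (N * θ (t, x))
      = ∫ x in A, D (ev j) (H j) (t, x) * Real.sin (N * θ (t, x)) := by
    rw [setIntegral_eq_integral_of_forall_compl_eq_zero (fun x hx => by
      rw [hDA j t x hx, zero_mul])]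
  rw [h5, ← Real.norm_eq_abs]
  have h6 := norm_setIntegral_le_of_norm_le_const (μ := (volume : Measure E3)) (s := A)
    (f := fun x : E3 => D (ev j) (H j) (t, x) * Real.sin (N * θ (t, x))) (C := |C j|)
    hA.measure_lt_top (fun x hx => by
      rw [norm_mul, Real.norm_eq_abs, Real.norm_eq_abs]
      have h7 := hC j (t, x) ⟨⟨ht0, htT⟩, hx⟩
      have h8 := Real.abs_sin_le_one (N * θ (t, x))
      calc |D (ev j) (H j) (t, x)| * |Real.sin (N * θ (t, x))| ≤ |C j| * 1 :=
            mul_le_mul (h7.trans (le_abs_self _)) h8 (abs_nonneg _) (abs_nonneg _)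
        _ = |C j| := mul_one _)
  exact h6

end

end Pool.Agent.KS6_88.TV
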