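import Pool.Agent.KS6_88.TV.Pt2
import Pool.Graph.R_seed8.H729R2.Approx3

open scoped ContDiff
open Set MeasureTheory Filter Topology
open Pool.Agent.H729R2

namespace Pool.Agent.KS6_88.TV

noncomputable section

set_option linter.unusedSectionVars false

/-- the normalized room of the specific volume `R` in `(1 - h, 1 + h)` -/
def om (h R : ℝ) : ℝ := 1 - ((R - 1) / h) ^ 2

lemma om_pos {h R : ℝ} (hh : 0 < h) (hR : |R - 1| < h) : 0 < om h R := by
  unfold om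
  have h1 : |(R - 1) / h| < 1 := by
    rw [abs_div, abs_of_pos hh, div_lt_one hh]; exact hR
  have h2 : ((R - 1) / h) ^ 2 < 1 := by
    rw [← sq_abs]; nlinarith [abs_nonneg ((R - 1) / h)]
  linarith

lemma om_le (h R : ℝ) : om h R ≤ 1 := by
  unfold om; nlinarith [sq_nonneg ((R - 1) / h)]

lemma om_diff {h R R' : ℝ} (hh : 0 < h) (hR : |R - 1| ≤ h) (hR' : |R' - 1| ≤ h) :
    |om h R - om h R'| ≤ 2 / h * |R - R'| := by
  have h1 : om h R - om h R' = (R' - R) * ((R' - 1) + (R - 1)) / h ^ 2 := by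
    unfold om; field_simp; ring
  rw [h1, abs_div, abs_mul, abs_of_pos (by positivity : 0 < h ^ 2), div_le_iff₀ (by positivity),
    abs_sub_comm R' R]
  have h2 : |R' - 1 + (R - 1)| ≤ 2 * h := (abs_add_le _ _).trans (by linarith)
  have h3 : 2 / h * |R - R'| * h ^ 2 = |R - R'| * (2 * h) := by field_simp
  rw [h3]
  exact mul_le_mul_of_nonneg_left h2 (abs_nonneg _)

/-- the step for the specific volume -/
lemma om_step {h R ε c : ℝ} (hh : 0 < h) : om h (R + ε * h * om h R * c)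
    = 1 - ((R - 1) / h + ε * (1 - ((R - 1) / h) ^ 2) * c) ^ 2 := by
  unfold om
  congr 2
  field_simp
  ring

lemma abs_div_lt {h R : ℝ} (hh : 0 < h) (hR : |R - 1| < h) : |(R - 1) / h| < 1 := by
  rw [abs_div, abs_of_pos hh, div_lt_one hh]; exact hR

lemma lt_of_om_pos {h R : ℝ} (hh : 0 < h) (hR : 0 < om h R) : |R - 1| < h := by
  unfold om at hR
  have h1 : ((R - 1) / h) ^ 2 < 1 := by linarith
  have h2 : |(R - 1) / h| < 1 := by
    rw [← sq_abs] at h1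
    by_contra hcon
    push Not at hcon
    nlinarith
  rw [abs_div, abs_of_pos hh, div_lt_one hh] at h2
  exact h2

variable (S : St) (k : Fin 3 → ℝ) (ζ : X → ℝ) (h ε lam : ℝ)

def A1 (z : X) : ℝ := ε * h * om h (S.R1 z)
def A2 (z : X) : ℝ := ε * h * om h (S.R2 z)
/-- the error -/
def er (i : Fin 3) (z : X) : ℝ := lam * S.acc i z + S.R2 z * S.b i z - S.R1 z * S.gp i z
def sk (z : X) : ℝ := ∑ i, er S lam i z * k i
def D2 (z : X) : ℝ := A2 S h ε z * S.R1 z / S.R2 z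
def DD (z : X) : ℝ := A1 S h ε z ^ 2 + D2 S h ε z ^ 2
def Uf (z : X) : ℝ := ζ z * sk S k lam z * A1 S h ε z / ((∑ i, k i ^ 2) * DD S h ε z)
def Vf (z : X) : ℝ := -(ζ z * sk S k lam z * D2 S h ε z / ((∑ i, k i ^ 2) * DD S h ε z))
def xi (j : Fin 3) (z : X) : ℝ := ∑ i, k i * D (ev j) (lab S.u i) z

/-- amplitudes -/
def Af : Fin 5 → Fin 3 → X → ℝ :=
  ![fun i z => -(ζ z * A2 S h ε z / S.R2 z) * S.b i z
      + (S.R1 z / S.R2 z) * Vf S k ζ h ε lam z * xi S k i z,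
    fun i z => (ζ z * A1 S h ε z / S.R2 z) * S.gp i z
      + (S.R1 z / S.R2 z) * Uf S k ζ h ε lam z * k i,
    fun i z => -(D2 S h ε z * Uf S k ζ h ε lam z / (2 * S.R2 z)) * k i
      + (A1 S h ε z * Vf S k ζ h ε lam z / (2 * S.R2 z)) * xi S k i z,
    fun i z => -(D2 S h ε z * Vf S k ζ h ε lam z / (2 * S.R2 z)) * xi S k i z,
    fun i z => (A1 S h ε z * Uf S k ζ h ε lam z / (2 * S.R2 z)) * k i]

/-- phases -/
def Pf : Fin 5 → X → ℝ :=
  ![phy S.u k, phx k, fun z => phx k z + phy S.u k z, fun z => 2 * phy S.u k z,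
    fun z => 2 * phx k z]

/-- data at a point -/
def pnt (N : ℕ) (z : X) : Pt where
  a := vec fun i => lam * S.acc i z
  b := vec fun i => S.b i z
  g := vec fun i => S.gp i z
  k := vec k
  x := vec fun i => xi S k i z
  R1 := S.R1 z
  R2 := S.R2 z
  ζ := ζ z
  a1 := A1 S h ε z
  a2 := A2 S h ε z
  cx := Real.cos (N * phx k z)
  cy := Real.cos (N * phy S.u k z)
  sx := Real.sin (N * phx k z)
  sy := Real.sin (N * phy S.u k z)

/-- the new state -/
def nst (w : Fin 3 → X → ℝ) (π : X → ℝ) (N : ℕ) : St where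
  u := fun i z => S.u i z + w i z
  r := fun x => S.r x + ε * h * om h (S.r x) * Real.cos (N * ∑ i, k i * x i)
  p := fun z => S.p z + (N:ℝ)⁻¹ * (Uf S k ζ h ε lam z * Real.sin (N * phx k z)
    + Vf S k ζ h ε lam z * Real.sin (N * phy S.u k z))
  q := fun z => S.q z + π z

/-- requirements for the construction -/
structure Req (T₀ : ℝ) (K₀ : Set X) : Prop where
  good : Good K₀ S
  hK : IsCompact K₀
  hKT : K₀ ⊆ slab T₀
  room : ∀ x, |S.r x - 1| < h
  k0 : k ≠ 0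
  ζs : ContDiff ℝ ∞ ζ
  ζc : HasCompactSupport ζ
  ζt : ∀ z ∈ tsupport ζ, (∃ i, S.u i z ≠ 0) ∧ (∑ i, k i * D et (lab S.u i) z ≠ 0 ∧
        ∑ j, (k j + ∑ i, k i * D (ev j) (lab S.u i) z) ^ 2 ≠ 0)
  ζ0 : ∀ z, 0 ≤ ζ z
  ζ1 : ∀ z, ζ z ≤ 1
  ε0 : 0 < ε
  ε1 : ε ≤ 1 / 100
  h0 : 0 < h
  h1 : h ≤ 1 / 100
  lam0 : 0 < lam
  xk : ∀ z ∈ slab T₀, ‖vec (fun i => xi S k i z) - vec k‖ ≤ 1 / 100 * ‖vec k‖

variable {S k ζ h ε lam}

namespace Req

variable {T₀ : ℝ} {K₀ : Set X} (H : Req S k ζ h ε lam T₀ K₀)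
include H

lemma κ0 : ∑ i, k i ^ 2 ≠ 0 := sum_sq_ne H.k0

lemma κpos : 0 < ∑ i, k i ^ 2 :=
  (Finset.sum_nonneg fun i _ => sq_nonneg (k i)).lt_of_ne H.κ0.symm

lemma room1 (z : X) : |S.R1 z - 1| < h := H.room _
lemma room2 (z : X) : |S.R2 z - 1| < h := H.room _

lemma R1lo (z : X) : 99 / 100 ≤ S.R1 z := by
  have := (abs_lt.1 (H.room1 z)).1
  linarith [H.h1]
lemma R1hi (z : X) : S.R1 z ≤ 101 / 100 := by
  have := (abs_lt.1 (H.room1 z)).2
  linarith [H.h1]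
lemma R2lo (z : X) : 99 / 100 ≤ S.R2 z := by
  have := (abs_lt.1 (H.room2 z)).1
  linarith [H.h1]
lemma R2hi (z : X) : S.R2 z ≤ 101 / 100 := by
  have := (abs_lt.1 (H.room2 z)).2
  linarith [H.h1]
lemma R2p (z : X) : 0 < S.R2 z := by linarith [H.R2lo z]
lemma R1p (z : X) : 0 < S.R1 z := by linarith [H.R1lo z]

lemma om1p (z : X) : 0 < om h (S.R1 z) := om_pos H.h0 (H.room1 z)
lemma om2p (z : X) : 0 < om h (S.R2 z) := om_pos H.h0 (H.room2 z)

lemma A1p (z : X) : 0 < A1 S h ε z := by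
  have h1 := H.om1p z
  have h2 := H.ε0
  have h3 := H.h0
  unfold A1; positivity
lemma A2p (z : X) : 0 < A2 S h ε z := by
  have h1 := H.om2p z
  have h2 := H.ε0
  have h3 := H.h0
  unfold A2; positivity

lemma εh : ε * h ≤ 1 / 1000 := by
  have h2 := H.ε0
  have h3 := H.h0
  nlinarith [H.ε1, H.h1]

lemma A1le (z : X) : A1 S h ε z ≤ 1 / 1000 := by
  have h1 := om_le h (S.R1 z)
  have h2 := H.ε0
  have h3 := H.h0
  unfold A1
  calc ε * h * om h (S.R1 z) ≤ ε * h * 1 := mul_le_mul_of_nonneg_left h1 (by positivity)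
    _ ≤ _ := by linarith [H.εh]
lemma A2le (z : X) : A2 S h ε z ≤ 1 / 1000 := by
  have h1 := om_le h (S.R2 z)
  have h2 := H.ε0
  have h3 := H.h0
  unfold A2
  calc ε * h * om h (S.R2 z) ≤ ε * h * 1 := mul_le_mul_of_nonneg_left h1 (by positivity)
    _ ≤ _ := by linarith [H.εh]

lemma D2p (z : X) : 0 < D2 S h ε z := by
  have h1 := H.A2p z
  have h2 := H.R1p z
  have h3 := H.R2p z
  unfold D2; positivity

lemma DDp (z : X) : 0 < DD S h ε z := by
  have h1 := H.A1p z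
  have h2 := H.D2p z
  unfold DD; positivity

lemma R1s : ContDiff ℝ ∞ S.R1 := H.good.R1s
lemma R2s : ContDiff ℝ ∞ S.R2 := H.good.R2s H.hK

lemma om_smooth {F : X → ℝ} (hF : ContDiff ℝ ∞ F) : ContDiff ℝ ∞ (fun z => om h (F z)) := by
  unfold om
  exact contDiff_const.sub (((hF.sub contDiff_const).div_const _).pow 2)

lemma A1s : ContDiff ℝ ∞ (A1 S h ε) := contDiff_const.mul (H.om_smooth H.R1s)
lemma A2s : ContDiff ℝ ∞ (A2 S h ε) := contDiff_const.mul (H.om_smooth H.R2s)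

lemma ers (i : Fin 3) : ContDiff ℝ ∞ (er S lam i) :=
  ((contDiff_const.mul (H.good.accs i)).add (H.R2s.mul (H.good.bs i))).sub
    (H.R1s.mul (H.good.gps i))

lemma er_zero {z : X} (hz : z ∉ K₀) (i : Fin 3) : er S lam i z = 0 := by
  unfold er
  rw [H.good.acc_zero hz, H.good.b_zero hz, H.good.gp_zero hz]
  ring

lemma sks : ContDiff ℝ ∞ (sk S k lam) :=
  ContDiff.sum fun i _ => (H.ers i).mul contDiff_const

lemma sk_zero {z : X} (hz : z ∉ K₀) : sk S k lam z = 0 :=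
  Finset.sum_eq_zero fun i _ => by rw [H.er_zero hz, zero_mul]

lemma D2s : ContDiff ℝ ∞ (D2 S h ε) :=
  (H.A2s.mul H.R1s).div H.R2s fun z => (H.R2p z).ne'

lemma DDs : ContDiff ℝ ∞ (DD S h ε) := (H.A1s.pow 2).add (H.D2s.pow 2)

lemma κDD (z : X) : (∑ i, k i ^ 2) * DD S h ε z ≠ 0 := mul_ne_zero H.κ0 (H.DDp z).ne'

lemma Ufs : ContDiff ℝ ∞ (Uf S k ζ h ε lam) :=
  ((H.ζs.mul H.sks).mul H.A1s).div (contDiff_const.mul H.DDs) H.κDD

lemma Vfs : ContDiff ℝ ∞ (Vf S k ζ h ε lam) :=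
  (((H.ζs.mul H.sks).mul H.D2s).div (contDiff_const.mul H.DDs) H.κDD).neg

lemma xis (j : Fin 3) : ContDiff ℝ ∞ (xi S k j) :=
  ContDiff.sum fun i _ => contDiff_const.mul
    (D_smooth ((H.good.lab_isLabel H.hK).smooth i) (ev j))

lemma Uf_tsupport : tsupport (Uf S k ζ h ε lam) ⊆ tsupport ζ := by
  refine closure_minimal (fun z hz => ?_) (isClosed_tsupport _)
  refine subset_tsupport _ fun h0 => hz ?_
  simp [Uf, h0]

lemma Vf_tsupport : tsupport (Vf S k ζ h ε lam) ⊆ tsupport ζ := by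
  refine closure_minimal (fun z hz => ?_) (isClosed_tsupport _)
  refine subset_tsupport _ fun h0 => hz ?_
  simp [Vf, h0]

lemma ratio : ContDiff ℝ ∞ (fun z => S.R1 z / S.R2 z) :=
  H.R1s.div H.R2s fun z => (H.R2p z).ne'

lemma twoR2 : ContDiff ℝ ∞ (fun z => 2 * S.R2 z) := contDiff_const.mul H.R2s

lemma Afs (m : Fin 5) (i : Fin 3) : ContDiff ℝ ∞ (Af S k ζ h ε lam m i) := by
  have hr := H.ratio
  have hU := H.Ufs
  have hV := H.Vfs
  have hx := H.xis i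
  have hR2 := H.R2s
  have hne : ∀ z, S.R2 z ≠ 0 := fun z => (H.R2p z).ne'
  have hne2 : ∀ z, 2 * S.R2 z ≠ 0 := fun z => mul_ne_zero two_ne_zero (hne z)
  fin_cases m
  · exact ((((H.ζs.mul H.A2s).div hR2 hne).neg).mul (H.good.bs i)).add ((hr.mul hV).mul hx)
  · exact ((((H.ζs.mul H.A1s).div hR2 hne)).mul (H.good.gps i)).add
      ((hr.mul hU).mul contDiff_const)
  · exact ((((H.D2s.mul hU).div H.twoR2 hne2).neg).mul contDiff_const).add
      ((((H.A1s.mul hV).div H.twoR2 hne2)).mul hx)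
  · exact (((H.D2s.mul hV).div H.twoR2 hne2).neg).mul hx
  · exact (((H.A1s.mul hU).div H.twoR2 hne2)).mul contDiff_const

lemma Af_tsupport (m : Fin 5) (i : Fin 3) : tsupport (Af S k ζ h ε lam m i) ⊆ tsupport ζ := by
  refine closure_minimal (fun z hz => ?_) (isClosed_tsupport _)
  refine subset_tsupport _ fun h0 => hz ?_
  fin_cases m <;> simp [Af, Uf, Vf, h0]

lemma phys : ContDiff ℝ ∞ (phy S.u k) :=
  phy_smooth (H.good.lab_isLabel H.hK).smooth k

lemma D_phy' (j : Fin 3) (z : X) : D (ev j) (phy S.u k) z = xi S k j z := by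
  unfold phy
  rw [D_phy (H.good.lab_isLabel H.hK).smooth]
  rfl

lemma Pfs (m : Fin 5) : ContDiff ℝ ∞ (Pf S k m) := by
  fin_cases m
  · exact H.phys
  · exact phx_smooth k
  · exact (phx_smooth k).add H.phys
  · exact contDiff_const.mul H.phys
  · exact contDiff_const.mul (phx_smooth k)

lemma htK : tsupport ζ ⊆ K₀ := fun z hz' => by
  obtain ⟨i, hi⟩ := (H.ζt z hz').1
  exact H.good.uK i (subset_tsupport _ hi)

/-- the Lagrangian phase is nondegenerate on the slab -/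
lemma xi_ne {z : X} (hz : z ∈ slab T₀) : ∑ j, xi S k j z ^ 2 ≠ 0 := by
  intro h0
  have h1 := H.xk z hz
  have h2 : vec (fun i => xi S k i z) = 0 := by
    ext j
    have := (Finset.sum_eq_zero_iff_of_nonneg (fun j _ => sq_nonneg (xi S k j z))).1 h0 j
      (Finset.mem_univ j)
    simpa using this
  rw [h2, zero_sub, norm_neg] at h1
  have h3 : 0 < ‖vec k‖ := by
    rw [norm_pos_iff]
    intro h4
    apply H.k0
    ext i
    have := congrArg (fun v : E3 => v i) h4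
    simpa using this
  linarith

lemma Pf_nd (m : Fin 5) (z : X) (hz : z ∈ tsupport ζ) :
    ∑ j, (D (ev j) (Pf S k m) z) ^ 2 ≠ 0 := by
  obtain ⟨h1, h2, h3⟩ := H.ζt z hz
  have hzs : z ∈ slab T₀ := H.hKT (H.htK hz)
  have hxx : ∑ j, (D (ev j) (phx k) z) ^ 2 ≠ 0 := by
    simp only [D_phx]; exact H.κ0
  have hyy : ∑ j, (D (ev j) (phy S.u k) z) ^ 2 ≠ 0 := by
    simp only [H.D_phy']; exact H.xi_ne hzs
  fin_cases m
  · exact hyy
  · exact hxx
  · change ∑ j, (D (ev j) (fun z => phx k z + phy S.u k z) z) ^ 2 ≠ 0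
    have : ∀ j, D (ev j) (fun z => phx k z + phy S.u k z) z
        = k j + ∑ i, k i * D (ev j) (lab S.u i) z := by
      intro j
      rw [D_add (phx_smooth k) H.phys]
      simp only [D_phx, H.D_phy']
      rfl
    simp only [this]
    exact h3
  · change ∑ j, (D (ev j) (fun z => 2 * phy S.u k z) z) ^ 2 ≠ 0
    have : ∀ j, D (ev j) (fun z => 2 * phy S.u k z) z = 2 * D (ev j) (phy S.u k) z := by
      intro j
      rw [D_const_mul H.phys]
    simp only [this, mul_pow, ← Finset.mul_sum]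
    exact mul_ne_zero (by norm_num) hyy
  · change ∑ j, (D (ev j) (fun z => 2 * phx k z) z) ^ 2 ≠ 0
    have : ∀ j, D (ev j) (fun z => 2 * phx k z) z = 2 * D (ev j) (phx k) z := by
      intro j
      rw [D_const_mul (phx_smooth k)]
    simp only [this, mul_pow, ← Finset.mul_sum]
    exact mul_ne_zero (by norm_num) hxx

lemma pnt_e (N : ℕ) (z : X) : (pnt S k ζ h ε lam N z).e = vec fun i => er S lam i z := by
  ext i
  simp [Pt.e, pnt, er]

lemma pnt_s (N : ℕ) (z : X) : (pnt S k ζ h ε lam N z).s = sk S k lam z := by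
  unfold Pt.s
  rw [H.pnt_e]
  rfl

lemma pnt_κ (N : ℕ) (z : X) : (pnt S k ζ h ε lam N z).κ = ∑ i, k i ^ 2 := rfl

lemma pnt_U (N : ℕ) (z : X) : (pnt S k ζ h ε lam N z).U = Uf S k ζ h ε lam z := by
  unfold Pt.U
  rw [H.pnt_s, H.pnt_κ]
  rfl

lemma pnt_V (N : ℕ) (z : X) : (pnt S k ζ h ε lam N z).V = Vf S k ζ h ε lam z := by
  unfold Pt.V
  rw [H.pnt_s, H.pnt_κ]
  rfl

lemma pnt_cs (N : ℕ) (z : X) : (pnt S k ζ h ε lam N z).cs =
    Real.cos (N * (phx k z + phy S.u k z)) := by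
  rw [mul_add, Real.cos_add]
  rfl

lemma pnt_c2x (N : ℕ) (z : X) : (pnt S k ζ h ε lam N z).c2x =
    Real.cos (N * (2 * phx k z)) := by
  have : (N:ℝ) * (2 * phx k z) = 2 * (N * phx k z) := by ring
  rw [this, Real.cos_two_mul]
  rfl

lemma pnt_c2y (N : ℕ) (z : X) : (pnt S k ζ h ε lam N z).c2y =
    Real.cos (N * (2 * phy S.u k z)) := by
  have : (N:ℝ) * (2 * phy S.u k z) = 2 * (N * phy S.u k z) := by ring
  rw [this, Real.cos_two_mul]
  rfl

lemma pnt_cθ (N : ℕ) (z : X) : (pnt S k ζ h ε lam N z).cθ =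
    Real.cos (N * (phx k z - phy S.u k z)) := by
  rw [mul_sub, Real.cos_sub]
  rfl

lemma pnt_ok (N : ℕ) {z : X} (hz : z ∈ slab T₀) : (pnt S k ζ h ε lam N z).Ok where
  κ0 := H.κ0
  a10 := H.A1p z
  a11 := H.A1le z
  a20 := H.A2p z
  a21 := H.A2le z
  R10 := H.R1lo z
  R11 := H.R1hi z
  R20 := H.R2lo z
  R21 := H.R2hi z
  ζ0 := H.ζ0 z
  ζ1 := H.ζ1 z
  hcx := Real.abs_cos_le_one _
  hcy := Real.abs_cos_le_one _
  hcs := by rw [H.pnt_cs]; exact Real.abs_cos_le_one _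
  hcθ := by rw [H.pnt_cθ]; exact Real.abs_cos_le_one _
  hc2x := by rw [H.pnt_c2x]; exact Real.abs_cos_le_one _
  hc2y := by rw [H.pnt_c2y]; exact Real.abs_cos_le_one _
  xk := H.xk z hz

lemma pnt_W (N : ℕ) (z : X) (i : Fin 3) : (pnt S k ζ h ε lam N z).W i =
    Uf S k ζ h ε lam z * Real.cos (N * phx k z) * k i
      + Vf S k ζ h ε lam z * Real.cos (N * phy S.u k z) * xi S k i z := by
  unfold Pt.W
  rw [H.pnt_U, H.pnt_V]
  simp only [PiLp.add_apply, PiLp.smul_apply, smul_eq_mul]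
  rfl

lemma pnt_G (N : ℕ) (z : X) (i : Fin 3) : (pnt S k ζ h ε lam N z).G i =
    ∑ m, Af S k ζ h ε lam m i z * Real.cos (N * Pf S k m z) := by
  have hU := H.pnt_U N z
  have hV := H.pnt_V N z
  have hcs := H.pnt_cs N z
  have hc2x := H.pnt_c2x N z
  have hc2y := H.pnt_c2y N z
  have hd : (pnt S k ζ h ε lam N z).d2 = D2 S h ε z := rfl
  have hW := H.pnt_W N z i
  unfold Pt.G Pt.H
  rw [hU, hV, hcs, hc2x, hc2y, hd]
  simp only [Fin.sum_univ_five, PiLp.add_apply, PiLp.smul_apply, smul_eq_mul]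
  rw [hW]
  simp only [Af, Pf, pnt, vec_apply, Matrix.cons_val_zero, Matrix.cons_val_one, Matrix.cons_val]
  ring

end Req

end

end Pool.Agent.KS6_88.TV
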