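import Pool.Agent.KS6_88.TV.Evol2

open scoped ContDiff
open Set MeasureTheory Filter Topology
open Pool.Agent.H729R2

namespace Pool.Agent.KS6_88.TV

noncomputable section

set_option linter.unusedSectionVars false
set_option linter.unusedVariables false

variable {S : St} {k : Fin 3 → ℝ} {ζ : X → ℝ} {h ε lam T₀ : ℝ} {K₀ : Set X}

/-- normalized deviations -/
def sg1 (S : St) (h : ℝ) (z : X) : ℝ := (S.R1 z - 1) / h
def sg2 (S : St) (h : ℝ) (z : X) : ℝ := (S.R2 z - 1) / h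

namespace Req

variable (H : Req S k ζ h ε lam T₀ K₀)
include H

lemma wt1 : Wt (th1 S h) (sg1 S h) (phx k) T₀ (∑ i, k i ^ 2) where
  ths := H.sok.th1s
  σs := (H.R1s.sub contDiff_const).div_const _
  φs := phx_smooth k
  th0 := Sok.th10
  th1 := Sok.th11
  σ1 := fun z => (abs_div_lt H.h0 (H.room1 z)).le
  c0 := H.κpos
  nd := H.phx_nd

lemma wt2 : Wt (th2 S h) (sg2 S h) (phy S.u k) T₀ (1 / 2 * ∑ i, k i ^ 2) where
  ths := H.sok.th2s
  σs := (H.R2s.sub contDiff_const).div_const _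
  φs := H.phys
  th0 := Sok.th20
  th1 := Sok.th21
  σ1 := fun z => (abs_div_lt H.h0 (H.room2 z)).le
  c0 := by have := H.κpos; linarith
  nd := H.phy_nd

end Req

namespace Mic

variable {w : ℕ → Fin 3 → X → ℝ} {π : ℕ → X → ℝ} {C : ℝ}

/-- the new weight at the first site -/
lemma th1_step (H : Req S k ζ h ε lam T₀ K₀) (m : Mic S k ζ h ε lam w π C) (N : ℕ) (z : X) :
    th1 (nst S k ζ h ε lam (w N) (π N) N) h z ≤ th1 S h z * (1 - ε * sg1 S h z *
      Real.cos (N * phx k z) - 1 / 2 * ε ^ 2 * Real.cos (N * phx k z) ^ 2 + 3 * ε ^ 3) ∧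
    (1 - 4 * ε) * om h (S.R1 z) ≤ om h ((nst S k ζ h ε lam (w N) (π N) N).R1 z) := by
  have e1 : (nst S k ζ h ε lam (w N) (π N) N).R1 z
    = S.R1 z + ε * h * om h (S.R1 z) * Real.cos (N * phx k z) := rfl
  have h1 := sqrt_step (abs_div_lt H.h0 (H.room1 z)) H.ε0 H.ε1
    (Real.abs_cos_le_one (N * phx k z))
  have h2 := H.om1p z
  have hε := H.ε0
  unfold th1
  rw [e1, om_step H.h0]
  refine ⟨h1.2.1, le_trans ?_ h1.2.2⟩
  unfold om at h2 ⊢
  nlinarith

/-- the new weight at the second site -/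
lemma th2_step (H : Req S k ζ h ε lam T₀ K₀) (m : Mic S k ζ h ε lam w π C) {A : Set X}
    (hA : IsCompact A) (hAs : A ⊆ slab T₀) {η : ℝ} (hη : 0 < η) :
    ∃ N₀ : ℕ, ∀ N ≥ N₀, 1 ≤ N → ∀ z ∈ A,
    th2 (nst S k ζ h ε lam (w N) (π N) N) h z ≤ th2 S h z * (1 - ε * sg2 S h z *
      Real.cos (N * phy S.u k z) - 1 / 2 * ε ^ 2 * Real.cos (N * phy S.u k z) ^ 2 + 3 * ε ^ 3)
      + η ∧
    (1 - 4 * ε) * om h (S.R2 z) ≤ om h ((nst S k ζ h ε lam (w N) (π N) N).R2 z) := by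
  have hε := H.ε0
  have hh := H.h0
  obtain ⟨c, hc0, hc⟩ : ∃ c : ℝ, 0 < c ∧ ∀ z ∈ A, c ≤ om h (S.R2 z) := by
    rcases A.eq_empty_or_nonempty with he | hne
    · exact ⟨1, one_pos, fun z hz => by rw [he] at hz; exact absurd hz (notMem_empty z)⟩
    · obtain ⟨z₀, hz₀, hmin⟩ := hA.exists_isMinOn hne H.sok.o2s.continuous.continuousOn
      exact ⟨om h (S.R2 z₀), H.om2p z₀, fun z hz => hmin hz⟩
  obtain ⟨C', hC'0, hC'⟩ := m.R2_close H
  set t : ℝ := min (ε * c) (η * √c) with ht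
  have ht0 : 0 < t := lt_min (by positivity) (by positivity)
  obtain ⟨N₀, hN₀⟩ := exists_nat_gt (2 / h * C' / t)
  refine ⟨N₀, fun N hN hN1 z hz => ?_⟩
  have hNr : (1:ℝ) ≤ N := by exact_mod_cast hN1
  have hNN : (N₀:ℝ) ≤ N := by exact_mod_cast hN
  set R' : ℝ := (nst S k ζ h ε lam (w N) (π N) N).R2 z with hR'
  set Rm : ℝ := S.R2 z + ε * h * om h (S.R2 z) * Real.cos (N * phy S.u k z) with hRm
  have hst := sqrt_step (abs_div_lt H.h0 (H.room2 z)) H.ε0 H.ε1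
    (Real.abs_cos_le_one (N * phy S.u k z))
  have hom : om h Rm = 1 - ((S.R2 z - 1) / h + ε * (1 - ((S.R2 z - 1) / h) ^ 2) *
      Real.cos (N * phy S.u k z)) ^ 2 := om_step H.h0
  have hRm1 : |Rm - 1| < h := lt_of_om_pos H.h0 (by rw [hom]; exact hst.1)
  have hR'1 : |R' - 1| < h := room_step (w := w) (π := π) H N _
  have hdist : |R' - Rm| ≤ C' / N := hC' N hN1 z (hAs hz)
  have ho : |om h R' - om h Rm| ≤ t := by
    refine (om_diff H.h0 hR'1.le hRm1.le).trans ?_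
    have h1 : 2 / h * |R' - Rm| ≤ 2 / h * (C' / N) :=
      mul_le_mul_of_nonneg_left hdist (by positivity)
    refine h1.trans ?_
    have h2 : 2 / h * (C' / N) = 2 / h * C' / N := by ring
    rw [h2, div_le_iff₀ (by linarith)]
    rw [div_lt_iff₀ ht0] at hN₀
    nlinarith
  have ho1 := (abs_le.1 ho).1
  have ho2 := (abs_le.1 ho).2
  have ht1 : t ≤ ε * c := min_le_left _ _
  have ht2 : t ≤ η * √c := min_le_right _ _
  have hcz := hc z hz
  have hlow : (1 - 3 * ε) * om h (S.R2 z) ≤ om h Rm := by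
    rw [hom]; exact hst.2.2
  have hε1 := H.ε1
  have hlow2 : (1 - 4 * ε) * om h (S.R2 z) ≤ om h R' := by
    have : t ≤ ε * om h (S.R2 z) := ht1.trans (mul_le_mul_of_nonneg_left hcz hε.le)
    linarith
  refine ⟨?_, hlow2⟩
  have hmod : √(om h Rm) ≤ th2 S h z * (1 - ε * sg2 S h z *
      Real.cos (N * phy S.u k z) - 1 / 2 * ε ^ 2 * Real.cos (N * phy S.u k z) ^ 2
      + 3 * ε ^ 3) := by
    rw [hom]; exact hst.2.1
  have hfin : √(om h R') ≤ √(om h Rm) + η := by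
    have hRmp : c / 4 ≤ om h Rm := by nlinarith
    have hs1 : √c / 2 ≤ √(om h Rm) := by
      have : √c / 2 = √(c / 4) := by
        rw [Real.sqrt_div hc0.le, show √(4:ℝ) = 2 by
          rw [show (4:ℝ) = 2 ^ 2 by norm_num]; exact Real.sqrt_sq (by norm_num)]
      rw [this]
      exact Real.sqrt_le_sqrt hRmp
    have hs2 := Real.sq_sqrt (show 0 ≤ om h Rm by linarith)
    rw [Real.sqrt_le_left (by positivity)]
    have : (√(om h Rm) + η) ^ 2 = om h Rm + 2 * η * √(om h Rm) + η ^ 2 := by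
      rw [add_sq, hs2]; ring
    rw [this]
    have h3 : η * √c ≤ 2 * η * √(om h Rm) := by nlinarith
    nlinarith [sq_nonneg η]
  change √(om h R') ≤ _
  linarith

/-- the new weight of the error -/
lemma vv_step (H : Req S k ζ h ε lam T₀ K₀) (m : Mic S k ζ h ε lam w π C) :
    ∃ N₀ : ℕ, ∀ N ≥ N₀, 1 ≤ N → ∀ z ∈ K₀,
      vv (nst S k ζ h ε lam (w N) (π N) N) h z ≤ (1 + 5 * ε) * vv S h z := by
  obtain ⟨N₀, hN₀⟩ := m.th2_step H H.hK H.hKT one_pos
  refine ⟨N₀, fun N hN hN1 z hz => ?_⟩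
  have h2 := (hN₀ N hN hN1 z hz).2
  have h1 := (m.th1_step H N z).2
  have hε := H.ε0
  have hε1 := H.ε1
  have o1 := H.om1p z
  have o2 := H.om2p z
  have hw := H.sok.wwp z
  have hd : 0 < 1 - 4 * ε := by linarith
  have hww : (1 - 4 * ε) ^ 2 * ww S h z ≤ ww (nst S k ζ h ε lam (w N) (π N) N) h z := by
    unfold ww
    have a1 := pow_le_pow_left₀ (by positivity) h1 2
    have a2 := pow_le_pow_left₀ (by positivity) h2 2
    rw [mul_pow] at a1 a2
    linarith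
  have hww0 : 0 < (1 - 4 * ε) ^ 2 * ww S h z := by positivity
  unfold vv
  rw [Real.sqrt_le_left (by positivity), mul_pow, Real.sq_sqrt (by positivity)]
  refine (one_div_le_one_div_of_le hww0 hww).trans ?_
  have h3 : 1 / ((1 - 4 * ε) ^ 2 * ww S h z) = 1 / (1 - 4 * ε) ^ 2 * (1 / ww S h z) := by
    field_simp
  rw [h3]
  refine mul_le_mul_of_nonneg_right ?_ (by positivity)
  rw [div_le_iff₀ (by positivity), ← mul_pow]
  have h4 : 1 ≤ (1 + 5 * ε) * (1 - 4 * ε) := by nlinarith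
  nlinarith

/-- evolution of the room in the time slices -/
lemma slice_evol (H : Req S k ζ h ε lam T₀ K₀) (m : Mic S k ζ h ε lam w π C) {χ₀ : E3 → ℝ}
    (hχ : ContDiff ℝ ∞ χ₀) (hχc : HasCompactSupport χ₀) (hχ0 : ∀ x, 0 ≤ χ₀ x) {δ : ℝ}
    (hδ : 0 < δ) : ∃ N₀ : ℕ, ∀ N ≥ N₀, 1 ≤ N →
      Continuous (th2 (nst S k ζ h ε lam (w N) (π N) N) h) → ∀ t, 0 ≤ t → t ≤ T₀ →
      Fs (nst S k ζ h ε lam (w N) (π N) N) h χ₀ t ≤ (1 - ε ^ 2 / 8) * Fs S h χ₀ t + δ := by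
  have hε := H.ε0
  have hε1 := H.ε1
  have hA : IsCompact (tsupport χ₀) := hχc
  have hcp : ContDiff ℝ ∞ (fun z : X => χ₀ z.2) := hχ.comp contDiff_snd
  have W2 := H.wt2
  obtain ⟨C1, hC1⟩ := rl_slice (T₀ := T₀) (g := fun z => th2 S h z * sg2 S h z * χ₀ z.2)
    (θ := phy S.u k) ((W2.ths.mul W2.σs).mul hcp) hA
    (fun t x hx => by rw [image_eq_zero_of_notMem_tsupport hx, mul_zero]) W2.φs W2.c0 W2.nd
  obtain ⟨C2, hC2⟩ := rl_slice (T₀ := T₀) (g := fun z => th2 S h z * χ₀ z.2)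
    (θ := fun z => 2 * phy S.u k z) (W2.ths.mul hcp) hA
    (fun t x hx => by rw [image_eq_zero_of_notMem_tsupport hx, mul_zero])
    (contDiff_const.mul W2.φs) (c₀ := 4 * (1 / 2 * ∑ i, k i ^ 2))
    (by have := H.κpos; linarith) W2.two
  set I : ℝ := ∫ x, χ₀ x with hI
  have hI0 : 0 ≤ I := integral_nonneg hχ0
  set η : ℝ := δ / (2 * (I + 1)) with hη
  have hη0 : 0 < η := by positivity
  have hηI : η * I ≤ δ / 2 := by
    have : η * (2 * (I + 1)) = δ := by rw [hη]; field_simp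
    nlinarith
  obtain ⟨N₀, hN₀⟩ := m.th2_step H ((isCompact_Icc (a := (0:ℝ)) (b := T₀)).prod hA)
    (fun z hz => ⟨hz.1.1, hz.1.2⟩) hη0
  obtain ⟨N₁, hN₁⟩ := exists_nat_gt ((ε * |C1| + ε ^ 2 * |C2|) / (δ / 2))
  refine ⟨N₀ + N₁, fun N hN hN1 hcont t ht0 htT => ?_⟩
  have hNr : (1:ℝ) ≤ N := by exact_mod_cast hN1
  have hNN : (N₁:ℝ) ≤ N := by
    have : N₁ ≤ N := by omega
    exact_mod_cast this
  have hNb : (ε * |C1| + ε ^ 2 * |C2|) / N ≤ δ / 2 := by
    rw [div_le_iff₀ (by linarith)]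
    rw [div_lt_iff₀ (by positivity)] at hN₁
    nlinarith
  have cth := W2.ths.continuous
  have cσ := W2.σs.continuous
  have cφ := W2.φs.continuous
  have cχ := hχ.continuous
  have hint : ∀ {f : E3 → ℝ}, Continuous f → (∀ x, χ₀ x = 0 → f x = 0) → Integrable f volume :=
    fun hf h0 => hf.integrable_of_hasCompactSupport (HasCompactSupport.intro hχc fun x hx =>
      h0 x (image_eq_zero_of_notMem_tsupport hx))
  have cs : ∀ {F : X → ℝ}, Continuous F → Continuous fun x : E3 => F (t, x) := fun hF =>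
    hF.comp (continuous_const.prodMk continuous_id)
  have k1 := cs cth
  have k2 := cs cσ
  have k3 := cs cφ
  have k4 := cs hcont
  have i0 : Integrable (fun x : E3 => th2 (nst S k ζ h ε lam (w N) (π N) N) h (t, x) * χ₀ x)
      volume := hint (by fun_prop) fun x hx => by rw [hx]; ring
  have i1 : Integrable (fun x : E3 => (1 - ε ^ 2 / 8) * (th2 S h (t, x) * χ₀ x)) volume :=
    hint (by fun_prop) fun x hx => by rw [hx]; ring
  have i2 : Integrable (fun x : E3 => ε * (th2 S h (t, x) * sg2 S h (t, x) * χ₀ x *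
      Real.cos (N * phy S.u k (t, x)))) volume :=
    hint (by fun_prop) fun x hx => by rw [hx]; ring
  have i3 : Integrable (fun x : E3 => 1 / 4 * ε ^ 2 * (th2 S h (t, x) * χ₀ x *
      Real.cos (N * (2 * phy S.u k (t, x))))) volume :=
    hint (by fun_prop) fun x hx => by rw [hx]; ring
  have i4 : Integrable (fun x : E3 => η * χ₀ x) volume :=
    hint (by fun_prop) fun x hx => by rw [hx]; ring
  have hpt : ∀ x : E3, th2 (nst S k ζ h ε lam (w N) (π N) N) h (t, x) * χ₀ x ≤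
      (1 - ε ^ 2 / 8) * (th2 S h (t, x) * χ₀ x)
      - ε * (th2 S h (t, x) * sg2 S h (t, x) * χ₀ x * Real.cos (N * phy S.u k (t, x)))
      - 1 / 4 * ε ^ 2 * (th2 S h (t, x) * χ₀ x * Real.cos (N * (2 * phy S.u k (t, x))))
      + η * χ₀ x := by
    intro x
    by_cases hx : x ∈ tsupport χ₀
    · have h1 := (hN₀ N (by omega) hN1 (t, x) ⟨⟨ht0, htT⟩, hx⟩).1
      set c := Real.cos (N * phy S.u k (t, x)) with hc
      have hcc : Real.cos (N * (2 * phy S.u k (t, x))) = 2 * c ^ 2 - 1 := by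
        rw [show (N:ℝ) * (2 * phy S.u k (t, x)) = 2 * (N * phy S.u k (t, x)) by ring,
          Real.cos_two_mul]
      rw [hcc]
      have h2 := mul_le_mul_of_nonneg_right h1 (hχ0 x)
      refine h2.trans ?_
      have h3 : 0 ≤ th2 S h (t, x) * χ₀ x := mul_nonneg (Sok.th20 _) (hχ0 x)
      have h4 : 3 * ε ^ 3 ≤ ε ^ 2 / 8 := by
        have : ε ^ 3 = ε ^ 2 * ε := by ring
        rw [this]; nlinarith [sq_nonneg ε]
      have h5 := mul_le_mul_of_nonneg_right h4 h3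
      have e1 : (th2 S h (t, x) * (1 - ε * sg2 S h (t, x) * c - 1 / 2 * ε ^ 2 * c ^ 2
          + 3 * ε ^ 3) + η) * χ₀ x = (1 - ε ^ 2 / 4) * (th2 S h (t, x) * χ₀ x)
        + 3 * ε ^ 3 * (th2 S h (t, x) * χ₀ x)
        - ε * (th2 S h (t, x) * sg2 S h (t, x) * χ₀ x * c)
        - 1 / 4 * ε ^ 2 * (th2 S h (t, x) * χ₀ x * (2 * c ^ 2 - 1)) + η * χ₀ x := by ring
      rw [e1]
      linarith
    · rw [image_eq_zero_of_notMem_tsupport hx]
      simp
  unfold Fs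
  refine (integral_mono i0 (((i1.sub i2).sub i3).add i4) hpt).trans ?_
  have s1 := integral_add ((i1.sub i2).sub i3) i4
  have s2 := integral_sub (i1.sub i2) i3
  have s3 := integral_sub i1 i2
  simp only [Pi.add_apply, Pi.sub_apply] at s1 s2 s3 ⊢
  rw [s1, s2, s3, integral_const_mul, integral_const_mul, integral_const_mul, integral_const_mul]
  have b1 := (abs_le.1 (hC1 N hN1 t ht0 htT)).1
  have b2 := (abs_le.1 (hC2 N hN1 t ht0 htT)).1
  have n1 : ∀ c : ℝ, c / N ≤ |c| / N := fun c =>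
    div_le_div_of_nonneg_right (le_abs_self c) (by linarith)
  have d1 : - (ε * ∫ x : E3, th2 S h (t, x) * sg2 S h (t, x) * χ₀ x *
      Real.cos (N * phy S.u k (t, x))) ≤ ε * |C1| / N := by
    have := n1 C1
    have h2 : - (∫ x : E3, th2 S h (t, x) * sg2 S h (t, x) * χ₀ x *
      Real.cos (N * phy S.u k (t, x))) ≤ |C1| / N := by linarith
    have h3 := mul_le_mul_of_nonneg_left h2 hε.le
    have h4 : ε * |C1| / N = ε * (|C1| / N) := by ring
    rw [h4]; linarith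
  have d2 : - (1 / 4 * ε ^ 2 * ∫ x : E3, th2 S h (t, x) * χ₀ x *
      Real.cos (N * (2 * phy S.u k (t, x)))) ≤ ε ^ 2 * |C2| / N := by
    have := n1 C2
    have h2 : - (∫ x : E3, th2 S h (t, x) * χ₀ x *
      Real.cos (N * (2 * phy S.u k (t, x)))) ≤ |C2| / N := by linarith
    have h3 := mul_le_mul_of_nonneg_left h2 (by positivity : 0 ≤ 1 / 4 * ε ^ 2)
    have h5 : 0 ≤ ε ^ 2 * (|C2| / N) := by positivity
    have h4 : ε ^ 2 * |C2| / N = ε ^ 2 * (|C2| / N) := by ring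
    rw [h4]; linarith
  have d6 : (ε * |C1| + ε ^ 2 * |C2|) / N = ε * |C1| / N + ε ^ 2 * |C2| / N := by ring
  rw [d6] at hNb
  linarith

/-- change of the transported specific volume -/
lemma R2_diff (H : Req S k ζ h ε lam T₀ K₀) (m : Mic S k ζ h ε lam w π C) {χ₀ : E3 → ℝ}
    (hχ : ContDiff ℝ ∞ χ₀) (hχc : HasCompactSupport χ₀) (hχ0 : ∀ x, 0 ≤ χ₀ x) {δ : ℝ}
    (hδ : 0 < δ) : ∃ N₀ : ℕ, ∀ N ≥ N₀, 1 ≤ N →
      Continuous (nst S k ζ h ε lam (w N) (π N) N).R2 → ∀ t, 0 ≤ t → t ≤ T₀ →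
      ∫ x : E3, χ₀ x * ((nst S k ζ h ε lam (w N) (π N) N).R2 (t, x) - S.R2 (t, x)) ^ 2
        ≤ 2 * ε ^ 2 * h ^ 2 * Fs S h χ₀ t + δ := by
  have hε := H.ε0
  have hh := H.h0
  set I : ℝ := ∫ x, χ₀ x with hI
  have hI0 : 0 ≤ I := integral_nonneg hχ0
  set η : ℝ := min 1 (δ / (2 * (I + 1))) with hη
  have hη0 : 0 < η := lt_min one_pos (by positivity)
  have hηI : 2 * η ^ 2 * I ≤ δ := by
    have h1 : η ≤ δ / (2 * (I + 1)) := min_le_right _ _
    have h2 : η ≤ 1 := min_le_left _ _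
    have h3 : η * (2 * (I + 1)) ≤ δ := by
      rwa [le_div_iff₀ (by positivity)] at h1
    have h4 : η ^ 2 ≤ η := by nlinarith
    nlinarith
  obtain ⟨N₀, hN₀1, hN₀⟩ := (m.R2_close H).small hη0
  refine ⟨N₀, fun N hN hN1 hcont t ht0 htT => ?_⟩
  have cχ := hχ.continuous
  have hint : ∀ {f : E3 → ℝ}, Continuous f → (∀ x, χ₀ x = 0 → f x = 0) → Integrable f volume :=
    fun hf h0 => hf.integrable_of_hasCompactSupport (HasCompactSupport.intro hχc fun x hx =>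
      h0 x (image_eq_zero_of_notMem_tsupport hx))
  have cs : ∀ {F : X → ℝ}, Continuous F → Continuous fun x : E3 => F (t, x) := fun hF =>
    hF.comp (continuous_const.prodMk continuous_id)
  have k1 := cs H.sok.th2s.continuous
  have k2 := cs hcont
  have k3 := cs H.R2s.continuous
  have i0 : Integrable (fun x : E3 => χ₀ x *
      ((nst S k ζ h ε lam (w N) (π N) N).R2 (t, x) - S.R2 (t, x)) ^ 2) volume :=
    hint (by fun_prop) fun x hx => by rw [hx]; ring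
  have i1 : Integrable (fun x : E3 => 2 * ε ^ 2 * h ^ 2 * (th2 S h (t, x) * χ₀ x)) volume :=
    hint (by fun_prop) fun x hx => by rw [hx]; ring
  have i2 : Integrable (fun x : E3 => 2 * η ^ 2 * χ₀ x) volume :=
    hint (by fun_prop) fun x hx => by rw [hx]; ring
  have hpt : ∀ x : E3, χ₀ x *
      ((nst S k ζ h ε lam (w N) (π N) N).R2 (t, x) - S.R2 (t, x)) ^ 2 ≤
      2 * ε ^ 2 * h ^ 2 * (th2 S h (t, x) * χ₀ x) + 2 * η ^ 2 * χ₀ x := by
    intro x
    have h1 := hN₀ N hN (t, x) ⟨ht0, htT⟩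
    set d := (nst S k ζ h ε lam (w N) (π N) N).R2 (t, x) - S.R2 (t, x) with hd
    set a := A2 S h ε (t, x) * Real.cos (N * phy S.u k (t, x)) with ha
    have h2 : |d - a| ≤ η := by
      have : (nst S k ζ h ε lam (w N) (π N) N).R2 (t, x) - (S.R2 (t, x) + a) = d - a := by
        rw [hd]; ring
      rw [← this]
      exact h1
    have h3 : a ^ 2 ≤ ε ^ 2 * h ^ 2 * th2 S h (t, x) := by
      have h4 : a ^ 2 = ε ^ 2 * h ^ 2 * (om h (S.R2 (t, x)) ^ 2 *
          Real.cos (N * phy S.u k (t, x)) ^ 2) := by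
        rw [ha]; unfold A2; ring
      rw [h4]
      refine mul_le_mul_of_nonneg_left ?_ (by positivity)
      calc om h (S.R2 (t, x)) ^ 2 * Real.cos (N * phy S.u k (t, x)) ^ 2
          ≤ om h (S.R2 (t, x)) ^ 2 * 1 :=
            mul_le_mul_of_nonneg_left (Real.cos_sq_le_one _) (sq_nonneg _)
        _ ≤ _ := by rw [mul_one]; exact H.sok.om2_sq_le _
    have h5 : (d - a) ^ 2 ≤ η ^ 2 := by
      rw [← sq_abs]; exact pow_le_pow_left₀ (abs_nonneg _) h2 2
    have h6 : d ^ 2 ≤ 2 * a ^ 2 + 2 * (d - a) ^ 2 := by nlinarith [sq_nonneg (d - 2 * a)]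
    have h7 : d ^ 2 ≤ 2 * (ε ^ 2 * h ^ 2 * th2 S h (t, x)) + 2 * η ^ 2 := by linarith
    have h8 := mul_le_mul_of_nonneg_left h7 (hχ0 x)
    linarith
  refine (integral_mono i0 (i1.add i2) hpt).trans ?_
  have s1 := integral_add i1 i2
  simp only [Pi.add_apply] at s1 ⊢
  rw [s1, integral_const_mul, integral_const_mul]
  unfold Fs
  linarith

/-- the mean value is almost preserved -/
lemma mean_diff (H : Req S k ζ h ε lam T₀ K₀) (m : Mic S k ζ h ε lam w π C) (hT₀ : 0 ≤ T₀)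
    {χ₂ : E3 → ℝ} (hχ : ContDiff ℝ ∞ χ₂) (hχc : HasCompactSupport χ₂) {δ : ℝ}
    (hδ : 0 < δ) : ∃ N₀ : ℕ, ∀ N ≥ N₀, 1 ≤ N →
      |∫ x : E3, χ₂ x * ((nst S k ζ h ε lam (w N) (π N) N).r x - S.r x)| ≤ δ := by
  have hA : IsCompact (tsupport χ₂) := hχc
  have hcp : ContDiff ℝ ∞ (fun z : X => χ₂ z.2) := hχ.comp contDiff_snd
  obtain ⟨C1, hC1⟩ := rl_slice (T₀ := T₀) (g := fun z => χ₂ z.2 * A1 S h ε z)
    (θ := phx k) (hcp.mul H.A1s) hA
    (fun t x hx => by rw [image_eq_zero_of_notMem_tsupport hx, zero_mul]) (phx_smooth k) H.κpos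
    H.phx_nd
  obtain ⟨N₁, hN₁⟩ := exists_nat_gt (|C1| / δ)
  refine ⟨N₁, fun N hN hN1 => ?_⟩
  have hNr : (1:ℝ) ≤ N := by exact_mod_cast hN1
  have hNN : (N₁:ℝ) ≤ N := by exact_mod_cast hN
  have h1 := hC1 N hN1 0 le_rfl hT₀
  have h2 : ∀ x : E3, χ₂ x * ((nst S k ζ h ε lam (w N) (π N) N).r x - S.r x)
      = χ₂ x * A1 S h ε (0, x) * Real.cos (N * phx k (0, x)) := by
    intro x
    have : (nst S k ζ h ε lam (w N) (π N) N).r x
      = S.r x + A1 S h ε (0, x) * Real.cos (N * phx k (0, x)) := rfl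
    rw [this]; ring
  simp only [h2]
  refine h1.trans ?_
  refine (div_le_div_of_nonneg_right (le_abs_self C1) (by linarith)).trans ?_
  rw [div_le_iff₀ (by linarith)]
  rw [div_lt_iff₀ hδ] at hN₁
  nlinarith

end Mic

end

end Pool.Agent.KS6_88.TV
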