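import Pool.Agent.KS6_88.TV.Slice
import Pool.Graph.R_seed8.H729R2.Step2

open scoped ContDiff
open Set MeasureTheory Filter Topology
open Pool.Agent.H729R2

namespace Pool.Agent.KS6_88.TV

noncomputable section

set_option linter.unusedSectionVars false
set_option linter.unusedVariables false

/-- the fixed data of the iteration -/
structure Dat (K₀ : Set X) (T₀ ε h lam B μ : ℝ) (χ : X → ℝ) (χ₀ χ₂ : E3 → ℝ) : Prop where
  hK : IsCompact K₀
  hKT : K₀ ⊆ slab T₀
  T0 : 0 ≤ T₀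
  ε0 : 0 < ε
  ε1 : ε ≤ 1 / 1000
  h0 : 0 < h
  h1 : h ≤ 1 / 100
  lam0 : 0 < lam
  μ0 : 0 ≤ μ
  μT : 12000 * μ * T₀ ≤ 1
  ct : Ct χ T₀ B
  χ1 : ∀ z ∈ K₀, χ z = 1
  χs : ContDiff ℝ ∞ χ₀
  χc : HasCompactSupport χ₀
  χp : ∀ x, 0 ≤ χ₀ x
  χs2 : ContDiff ℝ ∞ χ₂
  χc2 : HasCompactSupport χ₂

variable {K₀ : Set X} {T₀ ε h lam B μ : ℝ} {χ : X → ℝ} {χ₀ χ₂ : E3 → ℝ} {S : St}

lemma JJ_nonneg (hc : Ct χ T₀ B) (z : X) : 0 ≤ JJ S B χ z :=
  add_nonneg (sq_nonneg _) (mul_nonneg hc.B0 (hc.p z))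

lemma FF1_nonneg (hc : Ct χ T₀ B) : 0 ≤ FF1 S h B χ :=
  integral_nonneg fun z => mul_nonneg (Sok.th10 z) (JJ_nonneg hc z)

lemma FF2_nonneg (hc : Ct χ T₀ B) : 0 ≤ FF2 S h B χ :=
  integral_nonneg fun z => mul_nonneg (Sok.th20 z) (JJ_nonneg hc z)

lemma sqrt_of_sq_le {a b : ℝ} (ha : 0 ≤ a) (h : a ^ 2 ≤ b) : a ≤ √b := Real.le_sqrt_of_sq_le h

lemma n2_om2_g (d : Dat K₀ T₀ ε h lam B μ χ χ₀ χ₂) (H : Sok S h K₀) :
    n2 (fun z => om h (S.R2 z) * nv S.gp z) ≤ √(FF2 S h B χ) := by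
  have c1 := H.o2s.continuous
  have c2 := H.ngc
  have hm : MemLp (fun z => om h (S.R2 z) * nv S.gp z) 2 (volume : Measure X) :=
    H.mem (by fun_prop) fun z hz => by rw [H.ng0 hz, mul_zero]
  refine sqrt_of_sq_le (n2_nonneg _) ?_
  rw [n2_sq hm]
  have hs : ContDiff ℝ ∞ (JJ S B χ) := JJs H.good d.ct.s
  have c3 := hs.continuous
  have c4 := H.th2s.continuous
  have hcs : HasCompactSupport (JJ S B χ) := by
    refine HasCompactSupport.intro (d.hK.union d.ct.c) fun z hz => ?_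
    simp only [mem_union, not_or] at hz
    unfold JJ
    rw [H.ng0 hz.1, image_eq_zero_of_notMem_tsupport hz.2]
    ring
  refine integral_mono (H.int (by fun_prop) fun z hz => by rw [H.ng0 hz]; ring)
    ((c4.mul c3).integrable_of_hasCompactSupport hcs.mul_left) fun z => ?_
  beta_reduce
  rw [mul_pow]
  refine mul_le_mul (H.om2_sq_le z) ?_ (sq_nonneg _) (Sok.th20 z)
  unfold JJ
  have := mul_nonneg d.ct.B0 (d.ct.p z)
  linarith

lemma n2_om1_g (d : Dat K₀ T₀ ε h lam B μ χ χ₀ χ₂) (H : Sok S h K₀) :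
    n2 (fun z => om h (S.R1 z) * nv S.gp z) ≤ √(FF1 S h B χ) := by
  have c1 := H.o1s.continuous
  have c2 := H.ngc
  have hm : MemLp (fun z => om h (S.R1 z) * nv S.gp z) 2 (volume : Measure X) :=
    H.mem (by fun_prop) fun z hz => by rw [H.ng0 hz, mul_zero]
  refine sqrt_of_sq_le (n2_nonneg _) ?_
  rw [n2_sq hm]
  have hs : ContDiff ℝ ∞ (JJ S B χ) := JJs H.good d.ct.s
  have c3 := hs.continuous
  have c4 := H.th1s.continuous
  have hcs : HasCompactSupport (JJ S B χ) := by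
    refine HasCompactSupport.intro (d.hK.union d.ct.c) fun z hz => ?_
    simp only [mem_union, not_or] at hz
    unfold JJ
    rw [H.ng0 hz.1, image_eq_zero_of_notMem_tsupport hz.2]
    ring
  refine integral_mono (H.int (by fun_prop) fun z hz => by rw [H.ng0 hz]; ring)
    ((c4.mul c3).integrable_of_hasCompactSupport hcs.mul_left) fun z => ?_
  beta_reduce
  rw [mul_pow]
  refine mul_le_mul (H.om1_sq_le z) ?_ (sq_nonneg _) (Sok.th10 z)
  unfold JJ
  have := mul_nonneg d.ct.B0 (d.ct.p z)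
  linarith

lemma n2_om2_acc (d : Dat K₀ T₀ ε h lam B μ χ χ₀ χ₂) (H : Sok S h K₀)
    (hB : ∀ z ∈ K₀, lam ^ 2 * nv S.acc z ^ 2 ≤ B) :
    n2 (fun z => om h (S.R2 z) * (lam * nv S.acc z)) ≤ √(FF2 S h B χ) := by
  have c1 := H.o2s.continuous
  have c2 : Continuous (nv S.acc) := nv_continuous fun i => (H.good.accs i).continuous
  have h0 : ∀ z, z ∉ K₀ → nv S.acc z = 0 := fun z hz => nv_zero fun i => H.good.acc_zero hz i
  have hm : MemLp (fun z => om h (S.R2 z) * (lam * nv S.acc z)) 2 (volume : Measure X) :=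
    H.mem (by fun_prop) fun z hz => by rw [h0 z hz]; ring
  refine sqrt_of_sq_le (n2_nonneg _) ?_
  rw [n2_sq hm]
  have hs : ContDiff ℝ ∞ (JJ S B χ) := JJs H.good d.ct.s
  have c3 := hs.continuous
  have c4 := H.th2s.continuous
  have hcs : HasCompactSupport (JJ S B χ) := by
    refine HasCompactSupport.intro (d.hK.union d.ct.c) fun z hz => ?_
    simp only [mem_union, not_or] at hz
    unfold JJ
    rw [H.ng0 hz.1, image_eq_zero_of_notMem_tsupport hz.2]
    ring
  refine integral_mono (H.int (by fun_prop) fun z hz => by rw [h0 z hz]; ring)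
    ((c4.mul c3).integrable_of_hasCompactSupport hcs.mul_left) fun z => ?_
  beta_reduce
  rw [mul_pow]
  refine mul_le_mul (H.om2_sq_le z) ?_ (sq_nonneg _) (Sok.th20 z)
  unfold JJ
  by_cases hz : z ∈ K₀
  · rw [d.χ1 z hz, mul_one, mul_pow]
    have := hB z hz
    nlinarith [sq_nonneg (nv S.gp z)]
  · rw [h0 z hz]
    have := mul_nonneg d.ct.B0 (d.ct.p z)
    nlinarith [sq_nonneg (nv S.gp z)]

lemma n2_om2_b (d : Dat K₀ T₀ ε h lam B μ χ χ₀ χ₂) {k : Fin 3 → ℝ} {ζ : X → ℝ}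
    (R : Req S k ζ h ε lam T₀ K₀)
    (hB : ∀ z ∈ K₀, lam ^ 2 * nv S.acc z ^ 2 ≤ B) :
    n2 (fun z => om h (S.R2 z) * nv S.b z)
      ≤ 103 / 100 * (2 * √(FF2 S h B χ) + 3 / 2 * EE S h lam) := by
  have H := R.sok
  have c1 := H.o2s.continuous
  have c2 : Continuous (nv S.acc) := nv_continuous fun i => (H.good.accs i).continuous
  have c3 := H.ngc
  have c4 : Continuous (nv (er S lam)) := H.nec
  have c5 := H.vvs.continuous
  have h0 : ∀ z, z ∉ K₀ → nv S.acc z = 0 := fun z hz => nv_zero fun i => H.good.acc_zero hz i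
  have hm1 : MemLp (fun z => om h (S.R2 z) * nv S.gp z) 2 (volume : Measure X) :=
    H.mem (by fun_prop) fun z hz => by rw [H.ng0 hz, mul_zero]
  have hm2 : MemLp (fun z => om h (S.R2 z) * (lam * nv S.acc z)) 2 (volume : Measure X) :=
    H.mem (by fun_prop) fun z hz => by rw [h0 z hz]; ring
  have hm3 := H.ve_mem (lam := lam)
  have hpt : ∀ z, |om h (S.R2 z) * nv S.b z| ≤ ∑ l, (![103 / 100, 103 / 100, 103 / 100 * (3 / 2)] :
      Fin 3 → ℝ) l * (![fun z => om h (S.R2 z) * nv S.gp z,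
        fun z => om h (S.R2 z) * (lam * nv S.acc z), fun z => vv S h z * nv (er S lam) z] :
        Fin 3 → X → ℝ) l z := by
    intro z
    have ho := H.om2p z
    rw [abs_of_nonneg (mul_nonneg ho.le (nv_nonneg _ _))]
    simp only [Fin.sum_univ_three]
    change _ ≤ 103 / 100 * (om h (S.R2 z) * nv S.gp z)
      + 103 / 100 * (om h (S.R2 z) * (lam * nv S.acc z))
      + 103 / 100 * (3 / 2) * (vv S h z * nv (er S lam) z)
    by_cases hz : z ∈ K₀
    · have h1 := (R.pnt_ok 0 (R.hKT hz)).b_le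
      rw [R.pnt_e] at h1
      have e1 : ‖(pnt S k ζ h ε lam 0 z).b‖ = nv S.b z := rfl
      have e2 : ‖(pnt S k ζ h ε lam 0 z).g‖ = nv S.gp z := rfl
      have e3 : ‖(pnt S k ζ h ε lam 0 z).a‖ = lam * nv S.acc z := by
        have : (pnt S k ζ h ε lam 0 z).a = lam • vec fun i => S.acc i z := by
          ext i; simp [pnt]
        rw [this, norm_smul, Real.norm_eq_abs, abs_of_pos d.lam0]
        rfl
      have e4 : ‖vec fun i => er S lam i z‖ = nv (er S lam) z := rfl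
      rw [e1, e2, e3, e4] at h1
      have h2 := mul_le_mul_of_nonneg_left h1 ho.le
      have h3 : om h (S.R2 z) * nv (er S lam) z ≤ 3 / 2 * (vv S h z * nv (er S lam) z) := by
        have h4 : om h (S.R2 z) ≤ 3 / 2 * vv S h z := (om_le _ _).trans (H.one_le_vv z)
        have := mul_le_mul_of_nonneg_right h4 (nv_nonneg (er S lam) z)
        linarith
      linarith
    · rw [H.nb0 hz, H.ng0 hz, H.ne0 hz, h0 z hz]
      simp
  have := n2_le_lin (n := 3)
    (c := ![103 / 100, 103 / 100, 103 / 100 * (3 / 2)])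
    (g := ![fun z => om h (S.R2 z) * nv S.gp z,
        fun z => om h (S.R2 z) * (lam * nv S.acc z), fun z => vv S h z * nv (er S lam) z])
    (by intro l; fin_cases l <;> simp <;> norm_num)
    (by
      intro l
      fin_cases l
      · exact hm1
      · exact hm2
      · exact hm3) hpt
  simp only [Fin.sum_univ_three] at this
  change n2 (fun z => om h (S.R2 z) * nv S.b z) ≤ 103 / 100 *
    n2 (fun z => om h (S.R2 z) * nv S.gp z)
    + 103 / 100 * n2 (fun z => om h (S.R2 z) * (lam * nv S.acc z))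
    + 103 / 100 * (3 / 2) * EE S h lam at this
  have b1 := n2_om2_g d H
  have b2 := n2_om2_acc d H hB
  linarith

end

end Pool.Agent.KS6_88.TV
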