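import Pool.Agent.KS6_88.TV.Step

open scoped ContDiff
open Set MeasureTheory Filter Topology
open Pool.Agent.H729R2

namespace Pool.Agent.KS6_88.TV

noncomputable section

set_option linter.unusedSectionVars false
set_option linter.unusedVariables false

variable {K₀ : Set X} {T₀ ε h lam B μ : ℝ} {χ : X → ℝ} {χ₀ χ₂ : E3 → ℝ} {S : St}
  {k : Fin 3 → ℝ} {ζ : X → ℝ}

variable {w : ℕ → Fin 3 → X → ℝ} {π : ℕ → X → ℝ} {C : ℝ}

/-- the cut off parts are small -/
lemma cut_small (H : Sok S h K₀) (hζs : ContDiff ℝ ∞ ζ) (hζ0 : ∀ z, 0 ≤ ζ z)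
    (hζ1 : ∀ z, ζ z ≤ 1) {δ : ℝ} (hδ : 0 < δ)
    (hcut : ∫ z, (1 - ζ z) * (vv S h z ^ 2 * (nv (er S lam) z ^ 2 + nv S.b z ^ 2
      + nv S.gp z ^ 2)) ≤ (δ / 6) ^ 2) {f : X → ℝ} (hf : Continuous f)
    (hf0 : ∀ z, z ∉ K₀ → f z = 0)
    (hfle : ∀ z, f z ^ 2 ≤ nv (er S lam) z ^ 2 + nv S.b z ^ 2 + nv S.gp z ^ 2) :
    MemLp (fun z => (1 - ζ z) * (vv S h z * f z)) 2 (volume : Measure X) ∧
    n2 (fun z => (1 - ζ z) * (vv S h z * f z)) ≤ δ / 6 := by
  have c1 := hζs.continuous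
  have c2 := H.vvs.continuous
  have c3 : Continuous (nv (er S lam)) := H.nec
  have c4 := H.nbc
  have c5 := H.ngc
  have hm : MemLp (fun z => (1 - ζ z) * (vv S h z * f z)) 2 (volume : Measure X) :=
    H.mem (by fun_prop) fun z hz => by rw [hf0 z hz]; ring
  refine ⟨hm, ?_⟩
  refine abs_le_of_sq_le_sq' ?_ (by positivity) |>.2
  rw [n2_sq hm]
  refine le_trans (integral_mono ?_ ?_ fun z => ?_) hcut
  · exact H.int (by fun_prop) fun z hz => by rw [hf0 z hz]; ring
  · exact H.int (by fun_prop) fun z hz => by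
      rw [H.ne0 hz, H.nb0 hz, H.ng0 hz]; ring
  · have h0 := hζ0 z
    have h1 := hζ1 z
    have h2 := hfle z
    have h3 : (1 - ζ z) ^ 2 ≤ 1 - ζ z := by nlinarith
    have h4 : vv S h z ^ 2 * f z ^ 2 ≤ vv S h z ^ 2 * (nv (er S lam) z ^ 2 + nv S.b z ^ 2
      + nv S.gp z ^ 2) := mul_le_mul_of_nonneg_left h2 (sq_nonneg _)
    calc ((1 - ζ z) * (vv S h z * f z)) ^ 2 = (1 - ζ z) ^ 2 * (vv S h z ^ 2 * f z ^ 2) := by ring
      _ ≤ (1 - ζ z) * (vv S h z ^ 2 * f z ^ 2) := mul_le_mul_of_nonneg_right h3 (by positivity)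
      _ ≤ _ := mul_le_mul_of_nonneg_left h4 (by linarith)

/-- the new error -/
lemma EE_step (d : Dat K₀ T₀ ε h lam B μ χ χ₀ χ₂) (R : Req S k ζ h ε lam T₀ K₀)
    (m : Mic S k ζ h ε lam w π C) (hB : ∀ z ∈ K₀, lam ^ 2 * nv S.acc z ^ 2 ≤ B)
    (hdir : (1 / 4) * (∑ i, k i ^ 2) * (∫ z, ∑ i, (vv S h z * er S lam i z) ^ 2)
      ≤ ∫ z, (∑ i, k i * (vv S h z * er S lam i z)) ^ 2) {δ : ℝ} (hδ : 0 < δ)
    (hcut : ∫ z, (1 - ζ z) * (vv S h z ^ 2 * (nv (er S lam) z ^ 2 + nv S.b z ^ 2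
      + nv S.gp z ^ 2)) ≤ (δ / 6) ^ 2) :
    ∃ N₀ : ℕ, ∀ N ≥ N₀, 1 ≤ N → Good K₀ (nst S k ζ h ε lam (w N) (π N) N) →
      EE (nst S k ζ h ε lam (w N) (π N) N) h lam
        ≤ 95 / 100 * EE S h lam + 4 * ε ^ 2 * h ^ 2 * √(FF2 S h B χ) + δ := by
  have H := R.sok
  have hε := d.ε0
  have hε1 := d.ε1
  have hh := d.h0
  have hh1 := d.h1
  obtain ⟨C1, hC1⟩ := R.m_int hdir hcut
  set ind : X → ℝ := K₀.indicator fun _ => (1:ℝ) with hind
  have hindm : MemLp (fun z => vv S h z * ind z) 2 (volume : Measure X) := by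
    have : (fun z => vv S h z * ind z) = K₀.indicator (vv S h) := by
      ext z
      by_cases hz : z ∈ K₀ <;> simp [hind, hz]
    rw [this]
    rw [memLp_indicator_iff_restrict d.hK.measurableSet]
    obtain ⟨c, hc⟩ := bounded_on d.hK H.vvs.continuous
    have : IsFiniteMeasure (volume.restrict K₀) :=
      ⟨by rw [Measure.restrict_apply_univ]; exact d.hK.measure_lt_top⟩
    refine MemLp.of_bound H.vvs.continuous.aestronglyMeasurable c ?_
    exact (ae_restrict_iff' d.hK.measurableSet).2 (Eventually.of_forall fun z hz => by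
      rw [Real.norm_eq_abs]; exact hc z hz)
  have hind1 : ∀ z ∈ K₀, ind z = 1 := fun z hz => by simp [hind, hz]
  have hind0 : ∀ z, z ∉ K₀ → ind z = 0 := fun z hz => by simp [hind, hz]
  set cV : ℝ := n2 (fun z => vv S h z * ind z) with hcV
  have hcV0 : 0 ≤ cV := n2_nonneg _
  set η : ℝ := δ / (24 * (cV + 1)) with hη
  have hη0 : 0 < η := by positivity
  have hηv : η * cV ≤ δ / 24 := by
    have h1 : η * (24 * (cV + 1)) = δ := by rw [hη]; field_simp
    nlinarith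
  obtain ⟨N2, -, hN2⟩ := O1.small3 (m.e_close R) hη0
  obtain ⟨N3, hN3⟩ := m.vv_step R
  obtain ⟨N7, hN7⟩ := exists_nat_gt (C1 / (δ / 6) ^ 2)
  refine ⟨N2 + N3 + N7, fun N hN hN1 hg' => ?_⟩
  have hNr : (1:ℝ) ≤ N := by exact_mod_cast hN1
  have hN7' : (N7:ℝ) ≤ N := by
    have : N7 ≤ N := by omega
    exact_mod_cast this
  have hCN1 : C1 / N ≤ (δ / 6) ^ 2 := by
    rw [div_le_iff₀ (by linarith)]
    rw [div_lt_iff₀ (by positivity)] at hN7
    nlinarith [sq_nonneg (δ / 6)]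
  set S' := nst S k ζ h ε lam (w N) (π N) N with hS'
  have hee0 := EE_nonneg S h lam
  have hmain : n2 (fun z => vv S h z * nv (R.mf N) z) ≤ 92 / 100 * EE S h lam + δ / 3 := by
    refine abs_le_of_sq_le_sq' ?_ (by positivity) |>.2
    have h1 := hC1 N hN1
    nlinarith
  have H' : Sok S' h K₀ := ⟨hg', d.hK, fun x => Mic.room_step (w := w) (π := π) R N x, hh, hh1⟩
  -- memberships
  have c1 := H.o2s.continuous
  have hmb : MemLp (fun z => om h (S.R2 z) * nv S.b z) 2 (volume : Measure X) :=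
    H.mem (c1.mul H.nbc) fun z hz => by rw [H.nb0 hz, mul_zero]
  have hmg : MemLp (fun z => om h (S.R2 z) * nv S.gp z) 2 (volume : Measure X) :=
    H.mem (c1.mul H.ngc) fun z hz => by rw [H.ng0 hz, mul_zero]
  have hcb := cut_small H R.ζs R.ζ0 R.ζ1 hδ hcut H.nbc (fun z hz => H.nb0 hz)
    (fun z => by nlinarith [sq_nonneg (nv (er S lam) z), sq_nonneg (nv S.gp z)])
  have hcg := cut_small H R.ζs R.ζ0 R.ζ1 hδ hcut H.ngc (fun z hz => H.ng0 hz)
    (fun z => by nlinarith [sq_nonneg (nv (er S lam) z), sq_nonneg (nv S.b z)])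
  have hεh : ε ^ 2 * h ^ 2 ≤ 1 / 1000000 := by
    have h1 : ε ^ 2 ≤ (1 / 1000) ^ 2 := pow_le_pow_left₀ hε.le hε1 2
    have h2 : h ^ 2 ≤ 1 := by nlinarith
    calc ε ^ 2 * h ^ 2 ≤ (1 / 1000) ^ 2 * 1 := mul_le_mul h1 h2 (by positivity) (by norm_num)
      _ = _ := by norm_num
  set q : ℝ := ε ^ 2 * h ^ 2 with hq
  have hq0 : 0 < q := by positivity
  have hpt : ∀ z, |vv S' h z * nv (er S' lam) z| ≤ ∑ l, (![1 + 5 * ε, (1 + 5 * ε) / 50,
      (1 + 5 * ε) * (103 / 100 * q), (1 + 5 * ε) * (103 / 100 * q),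
      (1 + 5 * ε) / 1000, (1 + 5 * ε) / 1000, (1 + 5 * ε) * (2 * η)] :
      Fin 7 → ℝ) l * (![fun z => vv S h z * nv (R.mf N) z, fun z => vv S h z * nv (er S lam) z,
        fun z => om h (S.R2 z) * nv S.b z, fun z => om h (S.R2 z) * nv S.gp z,
        fun z => (1 - ζ z) * (vv S h z * nv S.b z),
        fun z => (1 - ζ z) * (vv S h z * nv S.gp z), fun z => vv S h z * ind z] :
        Fin 7 → X → ℝ) l z := by
    intro z
    rw [abs_of_nonneg (mul_nonneg (H'.vvp z).le (nv_nonneg _ _))]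
    simp only [Fin.sum_univ_seven]
    change _ ≤ (1 + 5 * ε) * (vv S h z * nv (R.mf N) z)
      + (1 + 5 * ε) / 50 * (vv S h z * nv (er S lam) z)
      + (1 + 5 * ε) * (103 / 100 * q) * (om h (S.R2 z) * nv S.b z)
      + (1 + 5 * ε) * (103 / 100 * q) * (om h (S.R2 z) * nv S.gp z)
      + (1 + 5 * ε) / 1000 * ((1 - ζ z) * (vv S h z * nv S.b z))
      + (1 + 5 * ε) / 1000 * ((1 - ζ z) * (vv S h z * nv S.gp z))
      + (1 + 5 * ε) * (2 * η) * (vv S h z * ind z)
    by_cases hz : z ∈ K₀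
    · rw [hind1 z hz]
      have hzs := d.hKT hz
      have h1 := nv_le_of (F := er S' lam) (z := z) (v := (pnt S k ζ h ε lam N z).et')
        (fun i => hN2 N (by omega) z hz i)
      have h2 := (R.pnt_ok N hzs).err_le
      have h3 := R.norm_pnt_m N z
      have h4 : ‖(pnt S k ζ h ε lam N z).e‖ = nv (er S lam) z := by rw [R.pnt_e]; rfl
      have h5 : ‖(pnt S k ζ h ε lam N z).b‖ = nv S.b z := rfl
      have h6 : ‖(pnt S k ζ h ε lam N z).g‖ = nv S.gp z := rfl
      have h7 : (pnt S k ζ h ε lam N z).a1 = ε * h * om h (S.R1 z) := rfl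
      have h7' : (pnt S k ζ h ε lam N z).a2 = ε * h * om h (S.R2 z) := rfl
      have h8 : (pnt S k ζ h ε lam N z).ζ = ζ z := rfl
      rw [h4, h5, h6, h7, h7', h8] at h2
      have h9 : ‖(pnt S k ζ h ε lam N z).et'‖ ≤ ‖(pnt S k ζ h ε lam N z).m‖
          + ‖(pnt S k ζ h ε lam N z).et' - (pnt S k ζ h ε lam N z).m‖ := by
        have := norm_add_le (pnt S k ζ h ε lam N z).m
          ((pnt S k ζ h ε lam N z).et' - (pnt S k ζ h ε lam N z).m)
        rwa [add_sub_cancel] at this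
      rw [h3] at h9
      have hvs := hN3 N (by omega) hN1 z hz
      have hv0 := (H.vvp z).le
      have hb0 := nv_nonneg S.b z
      have hg0 := nv_nonneg S.gp z
      have o1 := (H.om1p z).le
      have o2 := (H.om2p z).le
      have vo1 := H.vv_om1 z
      have vo2 := H.vv_om2 z
      have z1 : 0 ≤ 1 - ζ z := by linarith [R.ζ1 z]
      have o1' := om_le h (S.R1 z)
      have o2' := om_le h (S.R2 z)
      -- combine
      have t1 : nv (er S' lam) z ≤ nv (R.mf N) z + 1 / 50 * nv (er S lam) z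
        + 103 / 100 * (ε * h * om h (S.R2 z) * (ε * h * om h (S.R2 z) * nv S.b z
          + ε * h * om h (S.R1 z) * nv S.gp z))
        + (1 - ζ z) * (ε * h * om h (S.R2 z) * nv S.b z + ε * h * om h (S.R1 z) * nv S.gp z)
        + 2 * η := by linarith
      have t2 : vv S h z * (ε * h * om h (S.R2 z) * (ε * h * om h (S.R2 z) * nv S.b z
          + ε * h * om h (S.R1 z) * nv S.gp z)) ≤ q * (om h (S.R2 z) * nv S.b z)
          + q * (om h (S.R2 z) * nv S.gp z) := by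
        have e1 : vv S h z * (ε * h * om h (S.R2 z) * (ε * h * om h (S.R2 z) * nv S.b z
          + ε * h * om h (S.R1 z) * nv S.gp z)) = q * (om h (S.R2 z) * nv S.b z) *
            (vv S h z * om h (S.R2 z))
          + q * (om h (S.R2 z) * nv S.gp z) * (vv S h z * om h (S.R1 z)) := by
          rw [hq]; ring
        rw [e1]
        have f1 : q * (om h (S.R2 z) * nv S.b z) * (vv S h z * om h (S.R2 z))
          ≤ q * (om h (S.R2 z) * nv S.b z) * 1 := mul_le_mul_of_nonneg_left vo2 (by positivity)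
        have f2 : q * (om h (S.R2 z) * nv S.gp z) * (vv S h z * om h (S.R1 z))
          ≤ q * (om h (S.R2 z) * nv S.gp z) * 1 := mul_le_mul_of_nonneg_left vo1 (by positivity)
        linarith
      have hεh1 : ε * h ≤ 1 / 1000 := by nlinarith
      have t3 : vv S h z * ((1 - ζ z) * (ε * h * om h (S.R2 z) * nv S.b z
          + ε * h * om h (S.R1 z) * nv S.gp z)) ≤
          1 / 1000 * ((1 - ζ z) * (vv S h z * nv S.b z))
          + 1 / 1000 * ((1 - ζ z) * (vv S h z * nv S.gp z)) := by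
        have f1 : ε * h * om h (S.R2 z) ≤ 1 / 1000 := by nlinarith [mul_pos hε hh]
        have f2 : ε * h * om h (S.R1 z) ≤ 1 / 1000 := by nlinarith [mul_pos hε hh]
        have f3 : ε * h * om h (S.R2 z) * nv S.b z ≤ 1 / 1000 * nv S.b z :=
          mul_le_mul_of_nonneg_right f1 hb0
        have f4 : ε * h * om h (S.R1 z) * nv S.gp z ≤ 1 / 1000 * nv S.gp z :=
          mul_le_mul_of_nonneg_right f2 hg0
        have f5 := mul_le_mul_of_nonneg_left (mul_le_mul_of_nonneg_left (add_le_add f3 f4) z1) hv0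
        refine f5.trans (le_of_eq ?_)
        ring
      have t4 : vv S' h z * nv (er S' lam) z ≤ (1 + 5 * ε) * vv S h z * nv (er S' lam) z :=
        mul_le_mul_of_nonneg_right hvs (nv_nonneg _ _)
      have t5 := mul_le_mul_of_nonneg_left t1 (by positivity : 0 ≤ (1 + 5 * ε) * vv S h z)
      have t6 := mul_le_mul_of_nonneg_left t2 (by positivity : 0 ≤ (1 + 5 * ε) * (103 / 100))
      have t7 := mul_le_mul_of_nonneg_left t3 (by positivity : 0 ≤ (1 + 5 * ε))
      refine t4.trans (t5.trans ?_)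
      nlinarith [t6, t7]
    · rw [hind0 z hz, H'.ne0 hz, H.nb0 hz, H.ng0 hz, H.ne0 hz,
        nv_zero fun i => R.mf_zero N hz i]
      simp
  have := n2_le_lin (n := 7)
    (c := ![1 + 5 * ε, (1 + 5 * ε) / 50,
      (1 + 5 * ε) * (103 / 100 * q), (1 + 5 * ε) * (103 / 100 * q),
      (1 + 5 * ε) / 1000, (1 + 5 * ε) / 1000, (1 + 5 * ε) * (2 * η)])
    (g := ![fun z => vv S h z * nv (R.mf N) z, fun z => vv S h z * nv (er S lam) z,
        fun z => om h (S.R2 z) * nv S.b z, fun z => om h (S.R2 z) * nv S.gp z,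
        fun z => (1 - ζ z) * (vv S h z * nv S.b z),
        fun z => (1 - ζ z) * (vv S h z * nv S.gp z), fun z => vv S h z * ind z])
    (by
      intro l
      fin_cases l
      · change 0 ≤ 1 + 5 * ε; positivity
      · change 0 ≤ (1 + 5 * ε) / 50; positivity
      · change 0 ≤ (1 + 5 * ε) * (103 / 100 * q); positivity
      · change 0 ≤ (1 + 5 * ε) * (103 / 100 * q); positivity
      · change 0 ≤ (1 + 5 * ε) / 1000; positivity
      · change 0 ≤ (1 + 5 * ε) / 1000; positivity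
      · change 0 ≤ (1 + 5 * ε) * (2 * η); positivity)
    (by
      intro l
      fin_cases l
      · exact R.vm_mem N
      · exact H.ve_mem
      · exact hmb
      · exact hmg
      · exact hcb.1
      · exact hcg.1
      · exact hindm) hpt
  simp only [Fin.sum_univ_seven] at this
  change EE S' h lam ≤ (1 + 5 * ε) * n2 (fun z => vv S h z * nv (R.mf N) z)
    + (1 + 5 * ε) / 50 * EE S h lam
    + (1 + 5 * ε) * (103 / 100 * q) * n2 (fun z => om h (S.R2 z) * nv S.b z)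
    + (1 + 5 * ε) * (103 / 100 * q) * n2 (fun z => om h (S.R2 z) * nv S.gp z)
    + (1 + 5 * ε) / 1000 * n2 (fun z => (1 - ζ z) * (vv S h z * nv S.b z))
    + (1 + 5 * ε) / 1000 * n2 (fun z => (1 - ζ z) * (vv S h z * nv S.gp z))
    + (1 + 5 * ε) * (2 * η) * cV at this
  have b1 := n2_om2_g d H
  have b2 := n2_om2_b d R hB
  set Ee := EE S h lam with hEe
  set sF := √(FF2 S h B χ) with hsF
  have hsF0 : 0 ≤ sF := Real.sqrt_nonneg _
  have g1 : (1 + 5 * ε) * n2 (fun z => vv S h z * nv (R.mf N) z)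
      ≤ 1005 / 1000 * (92 / 100 * Ee + δ / 3) :=
    mul_le_mul (by linarith) hmain (n2_nonneg _) (by norm_num)
  have g2 : (1 + 5 * ε) / 50 * Ee ≤ 1005 / 1000 / 50 * Ee :=
    mul_le_mul_of_nonneg_right (by linarith) hee0
  have g3 : (1 + 5 * ε) * (103 / 100 * q) * n2 (fun z => om h (S.R2 z) * nv S.b z)
      ≤ (1005 / 1000 * (103 / 100 * q)) * (103 / 100 * (2 * sF + 3 / 2 * Ee)) := by
    refine mul_le_mul ?_ b2 (n2_nonneg _) (by positivity)
    exact mul_le_mul_of_nonneg_right (by linarith) (by positivity)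
  have g4 : (1 + 5 * ε) * (103 / 100 * q) * n2 (fun z => om h (S.R2 z) * nv S.gp z)
      ≤ (1005 / 1000 * (103 / 100 * q)) * sF := by
    refine mul_le_mul ?_ b1 (n2_nonneg _) (by positivity)
    exact mul_le_mul_of_nonneg_right (by linarith) (by positivity)
  have g5 : (1 + 5 * ε) / 1000 * n2 (fun z => (1 - ζ z) * (vv S h z * nv S.b z))
      ≤ 1005 / 1000 / 1000 * (δ / 6) :=
    mul_le_mul (by linarith) hcb.2 (n2_nonneg _) (by norm_num)
  have g6 : (1 + 5 * ε) / 1000 * n2 (fun z => (1 - ζ z) * (vv S h z * nv S.gp z))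
      ≤ 1005 / 1000 / 1000 * (δ / 6) :=
    mul_le_mul (by linarith) hcg.2 (n2_nonneg _) (by norm_num)
  have g7 : (1 + 5 * ε) * (2 * η) * cV ≤ 1005 / 1000 * 2 * (δ / 24) := by
    have : (1 + 5 * ε) * (2 * η) * cV = (1 + 5 * ε) * 2 * (η * cV) := by ring
    rw [this]
    exact mul_le_mul (by linarith) hηv (by positivity) (by norm_num)
  have g8 : q * Ee ≤ 1 / 1000000 * Ee := mul_le_mul_of_nonneg_right hεh hee0
  have g9 : 0 ≤ q * sF := by positivity
  have g10 : 4 * ε ^ 2 * h ^ 2 * sF = 4 * (q * sF) := by rw [hq]; ring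
  rw [g10]
  have g11 : (1005 / 1000 * (103 / 100 * q)) * (103 / 100 * (2 * sF + 3 / 2 * Ee))
    = 1005 / 1000 * (103 / 100) * (103 / 100) * 2 * (q * sF)
      + 1005 / 1000 * (103 / 100) * (103 / 100) * (3 / 2) * (q * Ee) := by ring
  have g12 : (1005 / 1000 * (103 / 100 * q)) * sF = 1005 / 1000 * (103 / 100) * (q * sF) := by
    ring
  rw [g11] at g3
  rw [g12] at g4
  linarith

end

end Pool.Agent.KS6_88.TV
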