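import Pool.Agent.KS6_88.TV.StepE

open scoped ContDiff
open Set MeasureTheory Filter Topology
open Pool.Agent.H729R2

namespace Pool.Agent.KS6_88.TV

noncomputable section

set_option linter.unusedSectionVars false
set_option linter.unusedVariables false

variable {K₀ : Set X} {T₀ ε h lam B μ : ℝ} {χ : X → ℝ} {χ₀ χ₂ : E3 → ℝ} {S : St}
  {k : Fin 3 → ℝ} {ζ : X → ℝ}

variable {w : ℕ → Fin 3 → X → ℝ} {π : ℕ → X → ℝ} {C : ℝ}

/-- the change of the force -/
lemma ff_step (d : Dat K₀ T₀ ε h lam B μ χ χ₀ χ₂) (R : Req S k ζ h ε lam T₀ K₀)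
    (m : Mic S k ζ h ε lam w π C) {δ : ℝ} (hδ : 0 < δ) :
    ∃ N₀ : ℕ, ∀ N ≥ N₀, 1 ≤ N → Good K₀ (nst S k ζ h ε lam (w N) (π N) N) →
      n2 (nv (fun i z => ff (nst S k ζ h ε lam (w N) (π N) N) i z - ff S i z))
        ≤ ε * h * √(FF1 S h B χ) + 2 / (ε * h) * EE S h lam + δ := by
  have H := R.sok
  have hε := d.ε0
  have hε1 := d.ε1
  have hh := d.h0
  have hh1 := d.h1
  set ind : X → ℝ := K₀.indicator fun _ => (1:ℝ) with hind
  have hindm : MemLp ind 2 (volume : Measure X) := memLp_ind d.hK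
  have hind1 : ∀ z ∈ K₀, ind z = 1 := fun z hz => by simp [hind, hz]
  have hind0 : ∀ z, z ∉ K₀ → ind z = 0 := fun z hz => by simp [hind, hz]
  have hnind : n2 ind = vK K₀ := rfl
  have hvK := vK_nonneg K₀
  set η : ℝ := δ / (3 * (vK K₀ + 1)) with hη
  have hη0 : 0 < η := by positivity
  have hηv : 2 * η * vK K₀ ≤ δ := by
    have h1 : η * (3 * (vK K₀ + 1)) = δ := by rw [hη]; field_simp
    nlinarith
  obtain ⟨N4, -, hN4⟩ := O1.small3 (m.gp_close R) (η := η / 3) (by positivity)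
  refine ⟨N4, fun N hN hN1 hg' => ?_⟩
  set S' := nst S k ζ h ε lam (w N) (π N) N with hS'
  have hm1 : MemLp (fun z => om h (S.R1 z) * nv S.gp z) 2 (volume : Measure X) :=
    H.mem (H.o1s.continuous.mul H.ngc) fun z hz => by rw [H.ng0 hz, mul_zero]
  have hm2 := H.ve_mem (lam := lam)
  have hpt : ∀ z, |nv (fun i z => ff S' i z - ff S i z) z| ≤ ∑ l, (![ε * h, 2 / (ε * h), 2 * η] :
      Fin 3 → ℝ) l * (![fun z => om h (S.R1 z) * nv S.gp z, fun z => vv S h z * nv (er S lam) z,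
        ind] : Fin 3 → X → ℝ) l z := by
    intro z
    rw [abs_of_nonneg (nv_nonneg _ _)]
    simp only [Fin.sum_univ_three]
    change _ ≤ ε * h * (om h (S.R1 z) * nv S.gp z) + 2 / (ε * h) * (vv S h z * nv (er S lam) z)
      + 2 * η * ind z
    by_cases hz : z ∈ K₀
    · rw [hind1 z hz]
      have hzs := d.hKT hz
      have h1 := nv_le_of (F := fun i z => ff S' i z - ff S i z) (z := z)
        (v := ((pnt S k ζ h ε lam N z).R1 + (pnt S k ζ h ε lam N z).a1 *
          (pnt S k ζ h ε lam N z).cx) •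
          ((pnt S k ζ h ε lam N z).g + (pnt S k ζ h ε lam N z).W)
          - (pnt S k ζ h ε lam N z).R1 • (pnt S k ζ h ε lam N z).g) (η := η)
        (fun i => by
          have h0 := hN4 N (by omega) z hz i
          have e1 : ff S' i z - ff S i z - (((pnt S k ζ h ε lam N z).R1 +
            (pnt S k ζ h ε lam N z).a1 * (pnt S k ζ h ε lam N z).cx) •
            ((pnt S k ζ h ε lam N z).g + (pnt S k ζ h ε lam N z).W)
            - (pnt S k ζ h ε lam N z).R1 • (pnt S k ζ h ε lam N z).g : E3) i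
            = (S.R1 z + A1 S h ε z * Real.cos (N * phx k z)) *
              (S'.gp i z - (S.gp i z + (pnt S k ζ h ε lam N z).W i)) := by
            have g1 : ff S' i z = (S.R1 z + A1 S h ε z * Real.cos (N * phx k z)) * S'.gp i z := rfl
            have g2 : ff S i z = S.R1 z * S.gp i z := rfl
            rw [g1, g2]
            simp only [PiLp.add_apply, PiLp.sub_apply, PiLp.smul_apply, smul_eq_mul]
            have g3 : (pnt S k ζ h ε lam N z).R1 = S.R1 z := rfl
            have g4 : (pnt S k ζ h ε lam N z).a1 = A1 S h ε z := rfl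
            have g5 : (pnt S k ζ h ε lam N z).cx = Real.cos (N * phx k z) := rfl
            have g6 : (pnt S k ζ h ε lam N z).g i = S.gp i z := rfl
            rw [g3, g4, g5, g6]
            ring
          rw [e1, abs_mul]
          have b1 : |S.R1 z + A1 S h ε z * Real.cos (N * phx k z)| ≤ 2 := by
            refine (abs_add_le _ _).trans ?_
            rw [abs_mul, abs_of_pos (R.R1p z), abs_of_pos (R.A1p z)]
            have := mul_le_mul (R.A1le z) (Real.abs_cos_le_one (N * phx k z)) (abs_nonneg _)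
              (by norm_num)
            linarith [R.R1hi z]
          calc |S.R1 z + A1 S h ε z * Real.cos (N * phx k z)| *
              |S'.gp i z - (S.gp i z + (pnt S k ζ h ε lam N z).W i)| ≤ 2 * (η / 3) :=
                mul_le_mul b1 h0 (abs_nonneg _) (by norm_num)
            _ ≤ η := by linarith)
      have h2 := (R.pnt_ok N hzs).df_le
      have h6 : ‖(pnt S k ζ h ε lam N z).g‖ = nv S.gp z := rfl
      have h7 : (pnt S k ζ h ε lam N z).a1 = ε * h * om h (S.R1 z) := rfl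
      have hW := R.W_sq_le N z
      have hW2 : ‖(pnt S k ζ h ε lam N z).W‖ ≤ 3 / 2 / (ε * h) * (vv S h z * nv (er S lam) z) := by
        have hv := (H.vvp z).le
        have hn := nv_nonneg (er S lam) z
        refine abs_le_of_sq_le_sq' ?_ (by positivity) |>.2
        refine hW.trans (le_of_eq ?_)
        field_simp
        ring
      rw [h6, h7] at h2
      rw [h7] at h1
      have h8 : 103 / 100 * ‖(pnt S k ζ h ε lam N z).W‖
          ≤ 2 / (ε * h) * (vv S h z * nv (er S lam) z) := by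
        have hv := (H.vvp z).le
        have hn := nv_nonneg (er S lam) z
        have h9 : 103 / 100 * (3 / 2 / (ε * h) * (vv S h z * nv (er S lam) z))
            ≤ 2 / (ε * h) * (vv S h z * nv (er S lam) z) := by
          have : 103 / 100 * (3 / 2 / (ε * h) * (vv S h z * nv (er S lam) z))
            = (309 / 200) / (ε * h) * (vv S h z * nv (er S lam) z) := by ring
          rw [this]
          refine mul_le_mul_of_nonneg_right ?_ (by positivity)
          exact div_le_div_of_nonneg_right (by norm_num) (by positivity)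
        linarith
      have h10 : ε * h * om h (S.R1 z) * nv S.gp z = ε * h * (om h (S.R1 z) * nv S.gp z) := by
        ring
      rw [h10] at h2
      linarith
    · have : nv (fun i z => ff S' i z - ff S i z) z = 0 := nv_zero fun i => by
        simp [ff, hg'.gp_zero hz, H.good.gp_zero hz]
      rw [this, hind0 z hz, H.ne0 hz, H.ng0 hz]
      simp
  have t2 := n2_le_lin (n := 3)
    (c := ![ε * h, 2 / (ε * h), 2 * η])
    (g := ![fun z => om h (S.R1 z) * nv S.gp z, fun z => vv S h z * nv (er S lam) z, ind])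
    (by
      intro l
      fin_cases l
      · change 0 ≤ ε * h; positivity
      · change 0 ≤ 2 / (ε * h); positivity
      · change 0 ≤ 2 * η; positivity)
    (by
      intro l
      fin_cases l
      · exact hm1
      · exact hm2
      · exact hindm) hpt
  simp only [Fin.sum_univ_three] at t2
  change n2 (nv (fun i z => ff S' i z - ff S i z)) ≤ ε * h *
    n2 (fun z => om h (S.R1 z) * nv S.gp z) + 2 / (ε * h) * EE S h lam
    + 2 * η * n2 ind at t2
  rw [hnind] at t2
  have b1 := n2_om1_g d H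
  have b2 : ε * h * n2 (fun z => om h (S.R1 z) * nv S.gp z) ≤ ε * h * √(FF1 S h B χ) :=
    mul_le_mul_of_nonneg_left b1 (by positivity)
  linarith

/-- the outcome of one step -/
structure Out (S S' : St) (K₀ : Set X) (T₀ ε h lam B : ℝ) (χ : X → ℝ) (χ₀ χ₂ : E3 → ℝ) (δ : ℝ) :
    Prop where
  good : Good K₀ S'
  room : ∀ x, |S'.r x - 1| < h
  e : EE S' h lam ≤ 95 / 100 * EE S h lam + 4 * ε ^ 2 * h ^ 2 * √(FF2 S h B χ) + δ
  f1 : FF1 S' h B χ ≤ (1 - ε ^ 2 / 8) * FF1 S h B χ
    + 150 / (ε ^ 2 * h ^ 2) * EE S h lam ^ 2 + δ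
  f2 : FF2 S' h B χ ≤ (1 - ε ^ 2 / 8) * FF2 S h B χ
    + 150 / (ε ^ 2 * h ^ 2) * EE S h lam ^ 2 + δ
  fs : ∀ t, 0 ≤ t → t ≤ T₀ → Fs S' h χ₀ t ≤ (1 - ε ^ 2 / 8) * Fs S h χ₀ t + δ
  ff : n2 (nv (fun i z => ff S' i z - ff S i z))
        ≤ ε * h * √(FF1 S h B χ) + 2 / (ε * h) * EE S h lam + δ
  u : ∀ i z, |S'.u i z - S.u i z| ≤ δ
  ux : ∀ i j z, |D (ev j) (S'.u i) z - D (ev j) (S.u i) z| ≤ δ
  ut : ∀ i z, |D et (S'.u i) z - D et (S.u i) z| ≤ δ
  R2 : ∀ t, 0 ≤ t → t ≤ T₀ → ∫ x : E3, χ₀ x * (S'.R2 (t, x) - S.R2 (t, x)) ^ 2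
        ≤ 2 * ε ^ 2 * h ^ 2 * Fs S h χ₀ t + δ
  mean : |∫ x : E3, χ₂ x * (S'.r x - S.r x)| ≤ δ

/-- one step of the iteration -/
theorem step (d : Dat K₀ T₀ ε h lam B μ χ χ₀ χ₂) (hg : Good K₀ S) (hr : ∀ x, |S.r x - 1| < h)
    (hμ : ∀ i j z, |D (ev j) (S.u i) z| ≤ μ) (hB : ∀ z ∈ K₀, lam ^ 2 * nv S.acc z ^ 2 ≤ B)
    {δ : ℝ} (hδ : 0 < δ) : ∃ S' : St, Out S S' K₀ T₀ ε h lam B χ χ₀ χ₂ δ := by
  have H : Sok S h K₀ := ⟨hg, d.hK, hr, d.h0, d.h1⟩
  have hK := d.hK
  have hY := hg.lab_isLabel hK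
  have hEc : ∀ i, HasCompactSupport (fun z => vv S h z * er S lam i z) := fun i =>
    HasCompactSupport.intro hK fun z hz => by rw [H.er_zero hz, mul_zero]
  obtain ⟨k, hk0, hae, hdir⟩ := exists_dir (u := S.u) (fun i => (hg.hu i).continuous) hY
    (E := fun i z => vv S h z * er S lam i z)
    (fun i => H.vvs.continuous.mul (H.ers i).continuous) hEc
  -- the open set and the cutoff
  set O : Set X := {z | (∃ i, S.u i z ≠ 0) ∧ (∑ i, k i * D et (lab S.u i) z ≠ 0 ∧
        ∑ j, (k j + ∑ i, k i * D (ev j) (lab S.u i) z) ^ 2 ≠ 0)} with hO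
  have hOo : IsOpen O := by
    have c1 : Continuous fun z => ∑ i, k i * D et (lab S.u i) z :=
      continuous_finsetSum _ fun i _ => continuous_const.mul (D_smooth (hY.smooth i) et).continuous
    have c2 : Continuous fun z => ∑ j, (k j + ∑ i, k i * D (ev j) (lab S.u i) z) ^ 2 :=
      continuous_finsetSum _ fun j _ => (continuous_const.add (continuous_finsetSum _ fun i _ =>
        continuous_const.mul (D_smooth (hY.smooth i) (ev j)).continuous)).pow 2
    have e1 : {z | ∃ i, S.u i z ≠ 0} = ⋃ i, {z | S.u i z ≠ 0} := by ext z; simp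
    have o1 : IsOpen {z | ∃ i, S.u i z ≠ 0} := by
      rw [e1]
      exact isOpen_iUnion fun i => isOpen_ne_fun (hg.hu i).continuous continuous_const
    exact o1.inter ((isOpen_ne_fun c1 continuous_const).inter (isOpen_ne_fun c2 continuous_const))
  have he : Continuous (nv (er S lam)) := H.nec
  have hb := H.nbc
  have hgp := H.ngc
  have hv := H.vvs.continuous
  have ha0 : ∀ᵐ z : X, (¬ ∃ i, S.u i z ≠ 0) → ∀ i, S.acc i z = 0 := by
    have h1 : ∀ᵐ z : X, ∀ i, S.u i z = 0 → D et (S.u i) z = 0 :=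
      ae_all_iff.2 fun i => ae_D_zero (hg.hu i) et
    filter_upwards [h1] with z h1 hz i
    push Not at hz
    unfold St.acc
    rw [h1 i (hz i)]
    simp [hz]
  obtain ⟨ζ, hζs, hζc, hζO, hζ0, hζ1, hcut⟩ := exists_cutoff hOo
    (G := fun z => vv S h z ^ 2 * (nv (er S lam) z ^ 2 + nv S.b z ^ 2 + nv S.gp z ^ 2))
    (by fun_prop) (fun z => by positivity)
    (HasCompactSupport.intro hK fun z hz => by
      rw [H.ne0 hz, H.nb0 hz, H.ng0 hz]
      ring)
    (by
      filter_upwards [hae, hg.ae_zero, ha0] with z h1 h2 h4 h3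
      by_cases hz : ∃ i, S.u i z ≠ 0
      · exact absurd ⟨hz, h1 hz⟩ h3
      · have h5 : ∀ i, er S lam i z = 0 := fun i => by
          unfold er
          rw [h4 hz i, (h2 hz i).1, (h2 hz i).2.1]
          ring
        rw [nv_zero h5, nv_zero fun i => (h2 hz i).1, nv_zero fun i => (h2 hz i).2.1]
        ring)
    (δ := (δ / 6) ^ 2) (by positivity)
  have R : Req S k ζ h ε lam T₀ K₀ :=
    { good := hg, hK := hK, hKT := d.hKT, room := hr, k0 := hk0, ζs := hζs, ζc := hζc
      ζt := fun z hz => hζO hz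
      ζ0 := hζ0, ζ1 := hζ1, ε0 := d.ε0, ε1 := by linarith [d.ε1], h0 := d.h0, h1 := d.h1
      lam0 := d.lam0, xk := fun z hz => lab_xk hg hK d.μ0 hμ d.μT k hz }
  obtain ⟨w, π, C, m⟩ := R.exists_mic
  obtain ⟨Na, -, hNa⟩ := m.good' R
  obtain ⟨Nb, hNb⟩ := EE_step d R m hB hdir hδ hcut
  obtain ⟨η1, hη1, Nc, hNc⟩ := m.evol R R.wt1 d.ct hδ
  obtain ⟨η2, hη2, Nd, hNd⟩ := m.evol R R.wt2 d.ct hδ
  obtain ⟨Ne, hNe⟩ := m.th2_step R (hK.union d.ct.c) (union_subset d.hKT d.ct.t) hη2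
  obtain ⟨Nf, hNf⟩ := m.slice_evol R d.χs d.χc d.χp hδ
  obtain ⟨Ng, hNg⟩ := ff_step d R m hδ
  obtain ⟨Nh, hNh⟩ := m.R2_diff R d.χs d.χc d.χp hδ
  obtain ⟨Ni, hNi⟩ := m.mean_diff R d.T0 d.χs2 d.χc2 hδ
  obtain ⟨Nj, hNj⟩ := exists_nat_gt (C / δ)
  set N : ℕ := Na + Nb + Nc + Nd + Ne + Nf + Ng + Nh + Ni + Nj + 1 with hN
  have hN1 : 1 ≤ N := by omega
  have hNr : (1:ℝ) ≤ N := by exact_mod_cast hN1
  have hNj' : (Nj:ℝ) ≤ N := by
    have : Nj ≤ N := by omega
    exact_mod_cast this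
  have hCN : C / N ≤ δ := by
    rw [div_le_iff₀ (by linarith)]
    rw [div_lt_iff₀ hδ] at hNj
    nlinarith
  have hg' := hNa N (by omega)
  have hr' := fun x => Mic.room_step (w := w) (π := π) R N x
  have H' : Sok (nst S k ζ h ε lam (w N) (π N) N) h K₀ := ⟨hg', hK, hr', d.h0, d.h1⟩
  refine ⟨nst S k ζ h ε lam (w N) (π N) N, hg', hr', hNb N (by omega) hN1 hg',
    hNc N (by omega) hN1 _ H'.th1s.continuous fun z hz => ?_,
    hNd N (by omega) hN1 _ H'.th2s.continuous fun z hz => (hNe N (by omega) hN1 z hz).1,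
    hNf N (by omega) hN1 H'.th2s.continuous, hNg N (by omega) hN1 hg', ?_, ?_, ?_,
    hNh N (by omega) hN1 H'.R2s.continuous, hNi N (by omega) hN1⟩
  · have := (m.th1_step R N z).1
    linarith
  · intro i z
    have h1 := m.w0 N hN1 i z
    have h2 : (nst S k ζ h ε lam (w N) (π N) N).u i z - S.u i z = w N i z := by simp [nst]
    rw [h2]
    refine h1.trans (le_trans ?_ hCN)
    exact div_le_div_of_nonneg_left m.C0 (by linarith) (by nlinarith)
  · intro i j z
    have h1 := m.wx N hN1 i j z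
    have h2 : D (ev j) ((nst S k ζ h ε lam (w N) (π N) N).u i) z
      = D (ev j) (S.u i) z + D (ev j) (w N i) z :=
      congrFun (D_add (hg.hu i) (m.ws N i) (ev j)) z
    rw [h2, add_sub_cancel_left]
    exact h1.trans hCN
  · intro i z
    have h1 := m.wt N hN1 i z
    have h2 : D et ((nst S k ζ h ε lam (w N) (π N) N).u i) z
      = D et (S.u i) z + D et (w N i) z :=
      congrFun (D_add (hg.hu i) (m.ws N i) et) z
    rw [h2, add_sub_cancel_left]
    exact h1.trans hCN

end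

end Pool.Agent.KS6_88.TV
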