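import Pool.Agent.KS6_88.TV.LabD
import Pool.Agent.KS6_88.TV.RL

open scoped ContDiff
open Set MeasureTheory Filter Topology
open Pool.Agent.H729R2

namespace Pool.Agent.KS6_88.TV

noncomputable section

set_option linter.unusedSectionVars false

variable (S : St) (h lam B : ℝ) (χ : X → ℝ)

/-- weights -/
def th1 (z : X) : ℝ := √(om h (S.R1 z))
def th2 (z : X) : ℝ := √(om h (S.R2 z))
/-- the weight of the error -/
def ww (z : X) : ℝ := om h (S.R1 z) ^ 2 + om h (S.R2 z) ^ 2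
def vv (z : X) : ℝ := √(1 / ww S h z)
/-- size of the error -/
def EE : ℝ := n2 (fun z => vv S h z * nv (er S lam) z)
/-- density of the size -/
def JJ (z : X) : ℝ := nv S.gp z ^ 2 + B * χ z
def FF1 : ℝ := ∫ z, th1 S h z * JJ S B χ z
def FF2 : ℝ := ∫ z, th2 S h z * JJ S B χ z
/-- the room in a time slice -/
def Fs (χ₀ : E3 → ℝ) (t : ℝ) : ℝ := ∫ x : E3, th2 S h (t, x) * χ₀ x

lemma EE_nonneg : 0 ≤ EE S h lam := n2_nonneg _

/-- requirements on the state -/
structure Sok (S : St) (h : ℝ) (K₀ : Set X) : Prop where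
  good : Good K₀ S
  hK : IsCompact K₀
  room : ∀ x, |S.r x - 1| < h
  h0 : 0 < h
  h1 : h ≤ 1 / 100

variable {S h lam B χ}

lemma Req.sok {k : Fin 3 → ℝ} {ζ : X → ℝ} {ε T₀ : ℝ} {K₀ : Set X}
    (H : Req S k ζ h ε lam T₀ K₀) : Sok S h K₀ := ⟨H.good, H.hK, H.room, H.h0, H.h1⟩

namespace Sok

variable {K₀ : Set X} (H : Sok S h K₀)
include H

lemma room1 (z : X) : |S.R1 z - 1| < h := H.room _
lemma room2 (z : X) : |S.R2 z - 1| < h := H.room _
lemma om1p (z : X) : 0 < om h (S.R1 z) := om_pos H.h0 (H.room1 z)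
lemma om2p (z : X) : 0 < om h (S.R2 z) := om_pos H.h0 (H.room2 z)
lemma R1s : ContDiff ℝ ∞ S.R1 := H.good.R1s
lemma R2s : ContDiff ℝ ∞ S.R2 := H.good.R2s H.hK

lemma om_smooth {F : X → ℝ} (hF : ContDiff ℝ ∞ F) : ContDiff ℝ ∞ (fun z => om h (F z)) := by
  unfold om
  exact contDiff_const.sub (((hF.sub contDiff_const).div_const _).pow 2)

lemma o1s : ContDiff ℝ ∞ (fun z => om h (S.R1 z)) := H.om_smooth H.R1s
lemma o2s : ContDiff ℝ ∞ (fun z => om h (S.R2 z)) := H.om_smooth H.R2s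

lemma th1s : ContDiff ℝ ∞ (th1 S h) := by
  unfold th1
  exact H.o1s.sqrt fun z => (H.om1p z).ne'
lemma th2s : ContDiff ℝ ∞ (th2 S h) := by
  unfold th2
  exact H.o2s.sqrt fun z => (H.om2p z).ne'

omit H in
lemma th10 (z : X) : 0 ≤ th1 S h z := Real.sqrt_nonneg _
omit H in
lemma th20 (z : X) : 0 ≤ th2 S h z := Real.sqrt_nonneg _
omit H in
lemma th11 (z : X) : th1 S h z ≤ 1 := by
  unfold th1
  rw [Real.sqrt_le_left (by norm_num)]
  have := om_le h (S.R1 z)
  linarith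
omit H in
lemma th21 (z : X) : th2 S h z ≤ 1 := by
  unfold th2
  rw [Real.sqrt_le_left (by norm_num)]
  have := om_le h (S.R2 z)
  linarith

lemma om1_sq_le (z : X) : om h (S.R1 z) ^ 2 ≤ th1 S h z := by
  have h0 := (H.om1p z).le
  have h1 := om_le h (S.R1 z)
  have h2 : om h (S.R1 z) = th1 S h z ^ 2 := (Real.sq_sqrt h0).symm
  have h3 := th10 (S := S) (h := h) z
  have h4 := th11 (S := S) (h := h) z
  rw [h2]
  nlinarith [sq_nonneg (th1 S h z), mul_nonneg h3 (sub_nonneg.2 h4),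
    pow_le_one₀ (n := 3) h3 h4]

lemma om2_sq_le (z : X) : om h (S.R2 z) ^ 2 ≤ th2 S h z := by
  have h0 := (H.om2p z).le
  have h1 := om_le h (S.R2 z)
  have h2 : om h (S.R2 z) = th2 S h z ^ 2 := (Real.sq_sqrt h0).symm
  have h3 := th20 (S := S) (h := h) z
  have h4 := th21 (S := S) (h := h) z
  rw [h2]
  nlinarith [sq_nonneg (th2 S h z), mul_nonneg h3 (sub_nonneg.2 h4),
    pow_le_one₀ (n := 3) h3 h4]

lemma wwp (z : X) : 0 < ww S h z := by
  have h1 := H.om1p z
  unfold ww; positivity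

lemma wws : ContDiff ℝ ∞ (ww S h) := (H.o1s.pow 2).add (H.o2s.pow 2)

lemma ww_le (z : X) : ww S h z ≤ 2 := by
  have h1 := om_le h (S.R1 z)
  have h2 := om_le h (S.R2 z)
  have h3 := H.om1p z
  have h4 := H.om2p z
  unfold ww; nlinarith

lemma vvp (z : X) : 0 < vv S h z := Real.sqrt_pos.2 (by have := H.wwp z; positivity)

lemma vvs : ContDiff ℝ ∞ (vv S h) := by
  unfold vv
  refine (contDiff_const.div H.wws fun z => (H.wwp z).ne').sqrt fun z => ?_
  have := H.wwp z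
  exact (by positivity : 0 < 1 / ww S h z).ne'

lemma vv_sq (z : X) : vv S h z ^ 2 = 1 / ww S h z :=
  Real.sq_sqrt (by have := H.wwp z; positivity)

lemma vv_sq_mul (z : X) : vv S h z ^ 2 * ww S h z = 1 := by
  rw [H.vv_sq]
  have := (H.wwp z).ne'
  field_simp

lemma vv_om1 (z : X) : vv S h z * om h (S.R1 z) ≤ 1 := by
  have h1 := H.vv_sq_mul z
  have h2 := H.vvp z
  have h3 := H.om1p z
  have h4 : (vv S h z * om h (S.R1 z)) ^ 2 ≤ 1 := by
    rw [mul_pow, ← h1]
    refine mul_le_mul_of_nonneg_left ?_ (sq_nonneg _)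
    unfold ww
    nlinarith [sq_nonneg (om h (S.R2 z))]
  nlinarith [mul_pos h2 h3]

lemma vv_om2 (z : X) : vv S h z * om h (S.R2 z) ≤ 1 := by
  have h1 := H.vv_sq_mul z
  have h2 := H.vvp z
  have h3 := H.om2p z
  have h4 : (vv S h z * om h (S.R2 z)) ^ 2 ≤ 1 := by
    rw [mul_pow, ← h1]
    refine mul_le_mul_of_nonneg_left ?_ (sq_nonneg _)
    unfold ww
    nlinarith [sq_nonneg (om h (S.R1 z))]
  nlinarith [mul_pos h2 h3]

lemma one_le_vv (z : X) : 1 ≤ 3 / 2 * vv S h z := by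
  have h1 := H.vv_sq_mul z
  have h2 := H.vvp z
  have h3 := H.ww_le z
  have h4 := H.wwp z
  by_contra hcon
  push Not at hcon
  have h5 : vv S h z ^ 2 < 4 / 9 := by nlinarith
  nlinarith

lemma ers (i : Fin 3) : ContDiff ℝ ∞ (er S lam i) :=
  ((contDiff_const.mul (H.good.accs i)).add (H.R2s.mul (H.good.bs i))).sub
    (H.R1s.mul (H.good.gps i))

lemma er_zero {z : X} (hz : z ∉ K₀) (i : Fin 3) : er S lam i z = 0 := by
  unfold er
  rw [H.good.acc_zero hz, H.good.b_zero hz, H.good.gp_zero hz]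
  ring

lemma ne0 {z : X} (hz : z ∉ K₀) : nv (er S lam) z = 0 := nv_zero fun i => H.er_zero hz i
lemma nb0 {z : X} (hz : z ∉ K₀) : nv S.b z = 0 := nv_zero fun i => H.good.b_zero hz i
lemma ng0 {z : X} (hz : z ∉ K₀) : nv S.gp z = 0 := nv_zero fun i => H.good.gp_zero hz i

lemma nec : Continuous (nv (er S lam)) := nv_continuous fun i => (H.ers i).continuous
lemma nbc : Continuous (nv S.b) := nv_continuous fun i => (H.good.bs i).continuous
lemma ngc : Continuous (nv S.gp) := nv_continuous fun i => (H.good.gps i).continuous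

/-- continuous functions vanishing outside `K₀` -/
lemma mem {f : X → ℝ} (hf : Continuous f) (h0 : ∀ z, z ∉ K₀ → f z = 0) :
    MemLp f 2 (volume : Measure X) := memLp_cc hf (HasCompactSupport.intro H.hK h0)

lemma int {f : X → ℝ} (hf : Continuous f) (h0 : ∀ z, z ∉ K₀ → f z = 0) :
    Integrable f (volume : Measure X) :=
  hf.integrable_of_hasCompactSupport (HasCompactSupport.intro H.hK h0)

lemma ve_mem : MemLp (fun z => vv S h z * nv (er S lam) z) 2 (volume : Measure X) :=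
  H.mem (H.vvs.continuous.mul H.nec) fun z hz => by rw [H.ne0 hz, mul_zero]

lemma EE_sq : EE S h lam ^ 2 = ∫ z, vv S h z ^ 2 * nv (er S lam) z ^ 2 := by
  unfold EE
  rw [n2_sq H.ve_mem]
  simp only [mul_pow]

end Sok

end

end Pool.Agent.KS6_88.TV
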